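import Mathlib

/-!
The identity of Andreief: for functions `f i`, `g i` on a measure space
`∫ det (f i (x j)) det (g i (x j)) = n! det (∫ f i g j)`.
-/

open MeasureTheory Finset

namespace NUA

theorem det_mul_det_eq_sum {n : ℕ} {X : Type*} (f g : Fin n → X → ℂ) (x : Fin n → X) :
    (Matrix.of fun i j => f i (x j)).det * (Matrix.of fun i j => g i (x j)).det =
      ∑ τ : Equiv.Perm (Fin n), ∑ σ : Equiv.Perm (Fin n),
        (((Equiv.Perm.sign σ : ℤ) : ℂ) * ((Equiv.Perm.sign τ : ℤ) : ℂ)) *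
          ∏ i, (f (σ i) (x i) * g (τ i) (x i)) := by
  rw [Matrix.det_apply', Matrix.det_apply', Finset.sum_mul_sum, Finset.sum_comm]
  refine Finset.sum_congr rfl fun τ _ => Finset.sum_congr rfl fun σ _ => ?_
  rw [Finset.prod_mul_distrib]
  simp only [Matrix.of_apply]
  ring

theorem sum_sign_prod {n : ℕ} (T : Matrix (Fin n) (Fin n) ℂ) (τ : Equiv.Perm (Fin n)) :
    ∑ σ : Equiv.Perm (Fin n), (((Equiv.Perm.sign σ : ℤ) : ℂ) * ((Equiv.Perm.sign τ : ℤ) : ℂ)) *
      ∏ i, T (σ i) (τ i) = T.det := by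
  rw [Matrix.det_apply']
  refine Fintype.sum_equiv (Equiv.mulRight τ⁻¹) _ _ fun σ => ?_
  rw [Equiv.coe_mulRight]
  congr 1
  · rw [Equiv.Perm.sign_mul, Equiv.Perm.sign_inv]
    push_cast
    ring
  · refine Fintype.prod_equiv τ _ _ fun i => ?_
    simp

/-- The identity of Andreief. -/
theorem andreief {n : ℕ} {X : Type*} [MeasurableSpace X] (μ : Measure X) [SigmaFinite μ]
    (f g : Fin n → X → ℂ) (h : ∀ i j, Integrable (fun x => f i x * g j x) μ) :
    ∫ x : Fin n → X, (Matrix.of fun i j => f i (x j)).det * (Matrix.of fun i j => g i (x j)).det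
      ∂(Measure.pi fun _ => μ) =
      (n.factorial : ℂ) * (Matrix.of fun i j => ∫ x, f i x * g j x ∂μ).det := by
  simp_rw [det_mul_det_eq_sum]
  have hint : ∀ τ σ : Equiv.Perm (Fin n), Integrable (fun x : Fin n → X =>
      (((Equiv.Perm.sign σ : ℤ) : ℂ) * ((Equiv.Perm.sign τ : ℤ) : ℂ)) *
          ∏ i, (f (σ i) (x i) * g (τ i) (x i))) (Measure.pi fun _ => μ) := by
    intro τ σ
    refine Integrable.const_mul ?_ _
    exact Integrable.fintype_prod (f := fun i x => f (σ i) x * g (τ i) x) fun i => h _ _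
  rw [integral_finsetSum _ fun τ _ => integrable_finsetSum _ fun σ _ => hint τ σ]
  have e1 : ∀ τ : Equiv.Perm (Fin n), ∫ x : Fin n → X, ∑ σ : Equiv.Perm (Fin n),
      (((Equiv.Perm.sign σ : ℤ) : ℂ) * ((Equiv.Perm.sign τ : ℤ) : ℂ)) *
          ∏ i, (f (σ i) (x i) * g (τ i) (x i)) ∂(Measure.pi fun _ => μ) =
      (Matrix.of fun i j => ∫ x, f i x * g j x ∂μ).det := by
    intro τ
    rw [integral_finsetSum _ fun σ _ => hint τ σ, ← sum_sign_prod _ τ]
    refine Finset.sum_congr rfl fun σ _ => ?_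
    rw [integral_const_mul]
    congr 1
    exact integral_fintype_prod_eq_prod (f := fun i x => f (σ i) x * g (τ i) x)
  simp_rw [e1]
  rw [Finset.sum_const, Finset.card_univ, Fintype.card_perm, Fintype.card_fin, nsmul_eq_mul]

/-- Integrability of the product of the two determinants. -/
theorem andreief_integrable {n : ℕ} {X : Type*} [MeasurableSpace X] (μ : Measure X) [SigmaFinite μ]
    (f g : Fin n → X → ℂ) (h : ∀ i j, Integrable (fun x => f i x * g j x) μ) :
    Integrable (fun x : Fin n → X => (Matrix.of fun i j => f i (x j)).det *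
      (Matrix.of fun i j => g i (x j)).det) (Measure.pi fun _ => μ) := by
  simp_rw [det_mul_det_eq_sum]
  refine integrable_finsetSum _ fun τ _ => integrable_finsetSum _ fun σ _ => ?_
  refine Integrable.const_mul ?_ _
  exact Integrable.fintype_prod (f := fun i x => f (σ i) x * g (τ i) x) fun i => h _ _

end NUA
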