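import Pool.Agent.NUA.PolyF

/-!
# The number of the faces inside a polygon by the shoelace formula
-/

set_option autoImplicit false

namespace HexObs

namespace TH

open LP Finset ENNReal

/-- the term of the shoelace formula -/
def sh (p : Pt × Pt) : ℤ := p.1.1 * ((CC.ph (p.1 + p.2)).2 - (CC.ph p.1).2)

/-- a potential on the vertices of class 0 -/
def qq (N : ℤ) (v : Pt) : ℤ := v.1 ^ 2 + 4 * v.1 * v.2 - 2 * v.2 ^ 2 - (4 * N + 3) * v.1 + 4 * N * v.2

/-- a potential on the vertices -/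
def psi (N : ℤ) (v : Pt) : ℤ := if nn v % 3 = 0 then qq N v else qq N (v.1 + 1, v.2)

/-- the number of the faces whose ray meets the edge -/
def cn (N : ℤ) (p : Pt × Pt) : ℤ := if p.2 = (1, -1) then N - p.1.2 + 1 else if p.2 = (-1, 1) then -(N - p.1.2) else 0

theorem cn_sh (N : ℤ) {p : Pt × Pt} (hp : De p) : 12 * cn N p = 6 * sh p - (psi N (p.1 + p.2) - psi N p.1) := by
  obtain ⟨⟨a, b⟩, d⟩ := p
  have h := De_cases hp
  unfold cn sh psi CC.ph
  unfold nn at h ⊢
  simp only at h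
  rcases h with ⟨h1, rfl | rfl | rfl⟩ | ⟨h1, rfl | rfl | rfl⟩
  · have e1 : (a + 1 + 2 * (b + 0) + 1) / 3 = (a + 2 * b + 1) / 3 := by omega
    simp only [Prod.mk_add_mk, Prod.mk.injEq, e1]
    rw [if_pos (show (a + 1 - (b + 0)) % 3 = 0 by omega), if_neg (show ¬ (a - b) % 3 = 0 by omega)]
    norm_num
  · have e1 : (a + -1 + 2 * (b + 1) + 1) / 3 = (a + 2 * b + 1) / 3 := by omega
    simp only [Prod.mk_add_mk, Prod.mk.injEq, e1]
    rw [if_pos (show (a + -1 - (b + 1)) % 3 = 0 by omega), if_neg (show ¬ (a - b) % 3 = 0 by omega)]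
    unfold qq
    norm_num
    ring
  · have e1 : (a + 0 + 2 * (b + -1) + 1) / 3 = (a + 2 * b + 1) / 3 - 1 := by omega
    simp only [Prod.mk_add_mk, Prod.mk.injEq, e1]
    rw [if_pos (show (a + 0 - (b + -1)) % 3 = 0 by omega), if_neg (show ¬ (a - b) % 3 = 0 by omega)]
    unfold qq
    norm_num
    ring
  · have e1 : (a + 0 + 2 * (b + 1) + 1) / 3 = (a + 2 * b + 1) / 3 + 1 := by omega
    simp only [Prod.mk_add_mk, Prod.mk.injEq, e1]
    rw [if_neg (show ¬ (a + 0 - (b + 1)) % 3 = 0 by omega), if_pos (show (a - b) % 3 = 0 by omega)]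
    unfold qq
    norm_num
    ring
  · have e1 : (a + -1 + 2 * (b + 0) + 1) / 3 = (a + 2 * b + 1) / 3 := by omega
    simp only [Prod.mk_add_mk, Prod.mk.injEq, e1]
    rw [if_neg (show ¬ (a + -1 - (b + 0)) % 3 = 0 by omega), if_pos (show (a - b) % 3 = 0 by omega)]
    norm_num
  · have e1 : (a + 1 + 2 * (b + -1) + 1) / 3 = (a + 2 * b + 1) / 3 := by omega
    simp only [Prod.mk_add_mk, Prod.mk.injEq, e1]
    rw [if_neg (show ¬ (a + 1 - (b + -1)) % 3 = 0 by omega), if_pos (show (a - b) % 3 = 0 by omega)]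
    unfold qq
    norm_num
    ring

lemma Fc_mod1x {f : Pt} (hf : Fc f) : (f.1 - f.2) % 3 = 1 := by
  have h := ZMod.intCast_eq_intCast_iff (f.1 - f.2) 1 3
  unfold Fc cl at hf
  rw [Int.cast_one] at h
  have h4 := h.1 hf
  unfold Int.ModEq at h4
  push_cast at h4
  omega

/-- the face number (k, s) -/
def fk (k s : ℤ) : Pt := (s + 3 * k + 1, s)

lemma sum_cut {N b c : ℤ} (h1 : -N ≤ b) (h2 : b ≤ N + 1) :
    ∑ s ∈ Icc (-N) N, (if b ≤ s then c else 0) = c * (N - b + 1) := by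
  rw [← Finset.sum_filter]
  have : (Icc (-N) N).filter (fun s => b ≤ s) = Icc b N := by
    ext s
    simp only [Finset.mem_filter, Finset.mem_Icc]
    omega
  rw [this, Finset.sum_const, nsmul_eq_mul, Int.card_Icc, mul_comm]
  congr 1
  rw [Int.toNat_of_nonneg (by omega)]
  ring

theorem sum_cr {N : ℤ} {p : Pt × Pt} (hp : De p) (h1 : |nn p.1| ≤ N) (h2 : |p.1.2| ≤ N) (_ : 2 ≤ N) :
    ∑ k ∈ Icc (-N) N, ∑ s ∈ Icc (-N) N, cr (fk k s) p = cn N p := by
  obtain ⟨⟨a, b⟩, d⟩ := p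
  have h := De_cases hp
  rw [abs_le] at h1 h2
  unfold cn cr fk
  unfold nn lv at *
  simp only at h h1 h2
  rcases h with ⟨h3, rfl | rfl | rfl⟩ | ⟨h3, rfl | rfl | rfl⟩
  · simp
  · obtain ⟨k0, hk0⟩ : ∃ k0, a - b = 3 * k0 + 2 := ⟨(a - b) / 3, by omega⟩
    have e : ∀ k ∈ Icc (-N) N, (∑ s ∈ Icc (-N) N, (if (((a, b), ((-1, 1) : Pt)).2 = (1, -1) ∧
        ((a, b), ((-1, 1) : Pt)).1.1 - ((a, b), ((-1, 1) : Pt)).1.2 = s + 3 * k + 1 - s - 1 ∧
        ((a, b), ((-1, 1) : Pt)).1.1 + 2 * ((a, b), ((-1, 1) : Pt)).1.2 < s + 3 * k + 1 + 2 * s) then (1 : ℤ)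
        else if (((a, b), ((-1, 1) : Pt)).2 = (-1, 1) ∧
        ((a, b), ((-1, 1) : Pt)).1.1 - ((a, b), ((-1, 1) : Pt)).1.2 = s + 3 * k + 1 - s + 1 ∧
        ((a, b), ((-1, 1) : Pt)).1.1 + 2 * ((a, b), ((-1, 1) : Pt)).1.2 < s + 3 * k + 1 + 2 * s) then -1 else 0)) =
        if k = k0 then -(N - b) else 0 := by
      intro k _
      by_cases hk : k = k0
      · rw [if_pos hk, show -(N - b) = (-1) * (N - (b + 1) + 1) by ring, ← sum_cut (by omega) (by omega)]
        refine Finset.sum_congr rfl fun s _ => ?_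
        rw [if_neg (by simp)]
        apply if_congr _ rfl rfl
        simp only [true_and]
        omega
      · rw [if_neg hk]
        apply Finset.sum_eq_zero
        intro s _
        rw [if_neg (by simp), if_neg]
        simp only [true_and]
        omega
    rw [Finset.sum_congr rfl e, Finset.sum_ite_eq', if_pos (Finset.mem_Icc.2 ⟨by omega, by omega⟩)]
    simp
  · simp
  · simp
  · simp
  · obtain ⟨k0, hk0⟩ : ∃ k0, a - b = 3 * k0 := ⟨(a - b) / 3, by omega⟩
    have e : ∀ k ∈ Icc (-N) N, (∑ s ∈ Icc (-N) N, (if (((a, b), ((1, -1) : Pt)).2 = (1, -1) ∧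
        ((a, b), ((1, -1) : Pt)).1.1 - ((a, b), ((1, -1) : Pt)).1.2 = s + 3 * k + 1 - s - 1 ∧
        ((a, b), ((1, -1) : Pt)).1.1 + 2 * ((a, b), ((1, -1) : Pt)).1.2 < s + 3 * k + 1 + 2 * s) then (1 : ℤ)
        else if (((a, b), ((1, -1) : Pt)).2 = (-1, 1) ∧
        ((a, b), ((1, -1) : Pt)).1.1 - ((a, b), ((1, -1) : Pt)).1.2 = s + 3 * k + 1 - s + 1 ∧
        ((a, b), ((1, -1) : Pt)).1.1 + 2 * ((a, b), ((1, -1) : Pt)).1.2 < s + 3 * k + 1 + 2 * s) then -1 else 0)) =
        if k = k0 then N - b + 1 else 0 := by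
      intro k _
      by_cases hk : k = k0
      · rw [if_pos hk, ← one_mul (N - b + 1), ← sum_cut (by omega) (by omega)]
        refine Finset.sum_congr rfl fun s _ => ?_
        by_cases hs : b ≤ s
        · rw [if_pos hs, if_pos]
          refine ⟨rfl, ?_, ?_⟩ <;> (simp only; omega)
        · rw [if_neg hs, if_neg, if_neg (by simp)]
          simp only [true_and]
          omega
      · rw [if_neg hk]
        apply Finset.sum_eq_zero
        intro s _
        rw [if_neg, if_neg (by simp)]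
        simp only [true_and]
        omega
    rw [Finset.sum_congr rfl e, Finset.sum_ite_eq', if_pos (Finset.mem_Icc.2 ⟨by omega, by omega⟩)]
    simp

/-- the sum of the winding numbers -/
theorem sum_Nw {E : Finset (Pt × Pt)} (hE : IsPoly E) {N : ℤ} (h1 : ∀ v ∈ VE E, |nn v| ≤ N) (h2 : ∀ v ∈ VE E, |v.2| ≤ N)
    (hN : 2 ≤ N) : 2 * ∑ k ∈ Icc (-N) N, ∑ s ∈ Icc (-N) N, Nw E (fk k s) = ∑ p ∈ E, sh p := by
  have e1 : ∑ k ∈ Icc (-N) N, ∑ s ∈ Icc (-N) N, Nw E (fk k s) = ∑ p ∈ E, cn N p := by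
    unfold Nw
    have : ∀ k ∈ Icc (-N) N, ∑ s ∈ Icc (-N) N, ∑ p ∈ E, cr (fk k s) p = ∑ p ∈ E, ∑ s ∈ Icc (-N) N, cr (fk k s) p :=
      fun k _ => Finset.sum_comm
    rw [Finset.sum_congr rfl this, Finset.sum_comm]
    refine Finset.sum_congr rfl fun p hp => ?_
    have hv : p.1 ∈ VE E := Finset.mem_image.2 ⟨p, hp, rfl⟩
    exact sum_cr (isPoly_de hE hp) (h1 _ hv) (h2 _ hv) hN
  have e2 : 12 * ∑ p ∈ E, cn N p = 6 * ∑ p ∈ E, sh p := by
    have h3 := w_tele hE (psi N)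
    rw [Finset.mul_sum, Finset.mul_sum, ← sub_zero (∑ p ∈ E, 6 * sh p), ← h3, ← Finset.sum_sub_distrib]
    exact Finset.sum_congr rfl fun p hp => cn_sh N (isPoly_de hE hp)
  rw [e1]
  linarith

theorem sum_Fi {E : Finset (Pt × Pt)} (hE : IsPoly E) {N : ℤ} (h1 : ∀ f ∈ Fi E, |nn f| ≤ N) (h2 : ∀ f ∈ Fi E, |f.2| ≤ N) :
    ∑ k ∈ Icc (-N) N, ∑ s ∈ Icc (-N) N, Nw E (fk k s) = sg E * (Fi E).card := by
  rw [← Finset.sum_product']
  have hinj : Set.InjOn (fun x : ℤ × ℤ => fk x.1 x.2) (Icc (-N) N ×ˢ Icc (-N) N : Finset (ℤ × ℤ)) := by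
    rintro ⟨k, s⟩ _ ⟨k', s'⟩ _ h
    unfold fk at h
    simp only [Prod.mk.injEq] at h ⊢
    omega
  have hFc : ∀ k s : ℤ, Fc (fk k s) := by
    intro k s
    unfold Fc cl fk
    push_cast
    have : (3 : ZMod 3) = 0 := by decide
    rw [this]
    ring
  have e1 := Finset.sum_image (f := fun f => Nw E f) hinj
  rw [← e1]
  have hsub : Fi E ⊆ (Icc (-N) N ×ˢ Icc (-N) N).image (fun x : ℤ × ℤ => fk x.1 x.2) := by
    intro f hf
    have a1 := h1 f hf
    have a2 := h2 f hf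
    have a3 := Fc_mod1x ((mem_Fi hE).1 hf).1
    rw [abs_le] at a1 a2
    unfold nn at a1
    refine Finset.mem_image.2 ⟨((f.1 - f.2) / 3, f.2), ?_, ?_⟩
    · rw [Finset.mem_product, Finset.mem_Icc, Finset.mem_Icc]
      simp only
      omega
    · unfold fk
      ext
      · simp only
        omega
      · rfl
  rw [← Finset.sum_subset hsub, Finset.sum_congr rfl (g := fun _ => sg E), Finset.sum_const, nsmul_eq_mul, mul_comm]
  · intro f hf
    rcases Nw_cases hE ((mem_Fi hE).1 hf).1 with h | h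
    · exact absurd h ((mem_Fi hE).1 hf).2
    · exact h
  · intro f hf hf'
    by_contra hne
    apply hf'
    obtain ⟨x, _, rfl⟩ := Finset.mem_image.1 hf
    exact (mem_Fi hE).2 ⟨hFc _ _, hne⟩

/-- **The number of the faces inside.** -/
theorem area_E {E : Finset (Pt × Pt)} (hE : IsPoly E) : ∑ p ∈ E, sh p = 2 * (sg E * (Fi E).card) := by
  obtain ⟨N, hN⟩ : ∃ N : ℤ, N = ∑ v ∈ VE E ∪ Fi E, (|nn v| + |v.2|) + 2 := ⟨_, rfl⟩
  have hle : ∀ v ∈ VE E ∪ Fi E, |nn v| + |v.2| ≤ N := fun v hv => by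
    rw [hN]
    have := Finset.single_le_sum (f := fun v : Pt => |nn v| + |v.2|) (fun w _ => by positivity) hv
    linarith
  have hN2 : 2 ≤ N := by
    rw [hN]
    have : 0 ≤ ∑ v ∈ VE E ∪ Fi E, (|nn v| + |v.2|) := Finset.sum_nonneg fun v _ => by positivity
    linarith
  have k1 : ∀ v ∈ VE E ∪ Fi E, |nn v| ≤ N := fun v hv => by
    have := hle v hv
    have := abs_nonneg v.2
    linarith
  have k2 : ∀ v ∈ VE E ∪ Fi E, |v.2| ≤ N := fun v hv => by
    have := hle v hv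
    have := abs_nonneg (nn v)
    linarith
  rw [← sum_Fi hE (N := N) (fun f hf => k1 f (Finset.mem_union_right _ hf))
    (fun f hf => k2 f (Finset.mem_union_right _ hf)),
    sum_Nw hE (fun v hv => k1 v (Finset.mem_union_left _ hv)) (fun v hv => k2 v (Finset.mem_union_left _ hv)) hN2]

/-- the shoelace formula -/
def area (L : List (ℤ × ℤ)) : ℕ := (List.zipWith (fun p q : ℤ × ℤ => p.1 * (q.2 - p.2)) L (L.rotate 1)).sum.natAbs / 2

lemma sum_list (L : List (ℤ × ℤ)) (h0 : 0 < L.length) :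
    (List.zipWith (fun p q : ℤ × ℤ => p.1 * (q.2 - p.2)) L (L.rotate 1)).sum =
      ∑ j ∈ range L.length, (sit L j).1 * ((sit L (j + 1)).2 - (sit L j).2) := by
  have e : List.zipWith (fun p q : ℤ × ℤ => p.1 * (q.2 - p.2)) L (L.rotate 1) =
      (List.range L.length).map (fun j => (sit L j).1 * ((sit L (j + 1)).2 - (sit L j).2)) := by
    apply List.ext_getElem
    · simp
    · intro i h1 h2
      have h3 : i < L.length := by simpa using h2
      rw [List.getElem_zipWith, List.getElem_map, List.getElem_range, List.getElem_rotate, sit_lt h3]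
      have h4 : sit L (i + 1) = L[(i + 1) % L.length]'(Nat.mod_lt _ h0) := by
        rw [← sit_mod, sit_lt (Nat.mod_lt _ h0)]
      rw [h4]
  rw [e]
  induction L.length with
  | zero => rfl
  | succ n ih => rw [List.range_succ, List.map_append, List.sum_append, ih, Finset.sum_range_succ]; simp

lemma sum_per {h : ℕ → ℤ} {m : ℕ} (hm : 0 < m) (hp : ∀ j, h (j + m) = h j) :
    ∑ i ∈ range m, h (i + (m - 1)) = ∑ j ∈ range m, h j := by
  obtain ⟨n, rfl⟩ : ∃ n, m = n + 1 := ⟨m - 1, by omega⟩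
  rw [Finset.sum_range_succ', Finset.sum_range_succ]
  congr 1
  · refine Finset.sum_congr rfl fun i _ => ?_
    rw [← hp i]
    congr 1
    omega
  · congr 1
    omega

theorem area_eq {L : List (ℤ × ℤ)} (hL : HexPolygon.Polygon L) : area L = (Fi (eL L)).card := by
  have h3 := hL.2.2.1
  have h1 := area_E (eL_poly hL)
  have h2 : ∑ p ∈ eL L, sh p = (List.zipWith (fun p q : ℤ × ℤ => p.1 * (q.2 - p.2)) L (L.rotate 1)).sum := by
    rw [sum_list L (by omega)]
    rw [← sum_per (m := L.length) (h := fun j => (sit L j).1 * ((sit L (j + 1)).2 - (sit L j).2)) (by omega)]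
    · unfold eL pe
      rw [Finset.sum_image (w_eg_inj (poly_tt hL))]
      refine Finset.sum_congr rfl fun i _ => ?_
      unfold sh eg
      simp only
      rw [ds_tt hL, vs_tt hL, wv_add]
      unfold wv
      have e1 : (CC.ps (sit L (i + (L.length - 1)))).1 = (sit L (i + (L.length - 1))).1 := rfl
      rw [e1, CC.ph_ps, CC.ph_ps, show i + 1 + (L.length - 1) = i + (L.length - 1) + 1 by omega]
    · intro j
      rw [show j + L.length + 1 = j + 1 + L.length by omega, sit_per, sit_per]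
  unfold area
  rw [← h2, h1]
  rcases sg_cases (eL L) with h | h <;> rw [h] <;> omega

end TH

end HexObs
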