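import Pool.Agent.NUI.Chain

/-!
# The chain at a general loop weight `2 cos θ`

As `NUI.chain`, with the three circles centred at `i θ`.
-/

open Complex Set Filter Topology Polynomial

namespace NUA

open NUI

/-- **The chain at `θ`.** -/
theorem chainT {c R δ θ : ℝ} (hc : 0 < c) (hR : Real.pi / 2 < R) (hδ : 0 < δ) (h0 : 0 ≤ θ)
    (h1 : θ < Real.pi / 2) :
    ∃ ε > 0, ∀ a : ℝ, ∀ L > 0, ∀ P : ℝ[X], (∀ i, 0 ≤ P.coeff i) →
      (∀ b : ℂ, ‖b‖ ≤ R → ‖aeval (2 * Complex.cosh b) P‖ ≤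
        Real.exp (L * (a + c * (b ^ 2).re + ε))) →
      Real.exp (L * (a - c * (Real.pi ^ 2 / 4) - ε)) ≤ P.eval 0 →
      Real.exp (L * (a - c * θ ^ 2 - δ)) ≤ P.eval (2 * Real.cos θ) := by
  have hpi := Real.pi_gt_three
  have hRp : 0 < R := by linarith
  have hcos : 0 < Real.cos θ := Real.cos_pos_of_mem_Ioo ⟨by linarith, h1⟩
  have hcos1 : Real.cos θ ≤ 1 := Real.cos_le_one θ
  -- choice of t, r0
  obtain ⟨t, ht0, ht1, htδ⟩ : ∃ t : ℝ, 0 < t ∧ t ≤ 1 ∧ t * (δ + c * θ ^ 2 + c * R ^ 2 + 1) ≤ δ / 4 := by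
    refine ⟨min 1 (δ / 4 / (δ + c * θ ^ 2 + c * R ^ 2 + 1)), ?_, min_le_left _ _, ?_⟩
    · apply lt_min (by norm_num)
      positivity
    · calc min 1 (δ / 4 / (δ + c * θ ^ 2 + c * R ^ 2 + 1)) * (δ + c * θ ^ 2 + c * R ^ 2 + 1)
          ≤ (δ / 4 / (δ + c * θ ^ 2 + c * R ^ 2 + 1)) * (δ + c * θ ^ 2 + c * R ^ 2 + 1) := by
            apply mul_le_mul_of_nonneg_right (min_le_right _ _)
            positivity
        _ = δ / 4 := by field_simp
  have hch : 1 < Real.cosh R := cosh_gt_one hRp.ne'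
  have hx1 : 0 < 2 * Real.cos θ := by positivity
  have hy1 : 2 * Real.cos θ < 2 * Real.cosh R := by linarith
  have hmix : 2 * Real.cos θ < (2 * Real.cos θ) ^ (1 - t) * (2 * Real.cosh R) ^ t := by
    have h2 : (2 * Real.cos θ) ^ t < (2 * Real.cosh R) ^ t := Real.rpow_lt_rpow hx1.le hy1 ht0
    calc 2 * Real.cos θ = (2 * Real.cos θ) ^ (1 - t) * (2 * Real.cos θ) ^ t := by
          rw [← Real.rpow_add hx1]
          have : (1 - t + t) = 1 := by ring
          rw [this, Real.rpow_one]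
      _ < _ := mul_lt_mul_of_pos_left h2 (Real.rpow_pos_of_pos hx1 _)
  obtain ⟨r0, hr0, hr0R, hr0c, hr0δ⟩ : ∃ r0 : ℝ, 0 < r0 ∧ r0 < Real.pi / 2 - θ ∧
      (∀ z : ℂ, ‖z‖ = r0 → ‖2 * Complex.cosh (θ * I + z)‖ ≤
        (2 * Real.cos θ) ^ (1 - t) * (2 * Real.cosh R) ^ t) ∧ c * (r0 ^ 2 + 2 * θ * r0) ≤ δ / 4 := by
    have g1 : ∀ᶠ z in 𝓝 (0 : ℂ), ‖2 * Complex.cosh (θ * I + z)‖ <
        (2 * Real.cos θ) ^ (1 - t) * (2 * Real.cosh R) ^ t := by
      have hcont : Continuous (fun z : ℂ => ‖2 * Complex.cosh (θ * I + z)‖) := by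
        have := Complex.continuous_cosh
        fun_prop
      have := hcont.tendsto 0
      rw [add_zero, Complex.cosh_mul_I, ← Complex.ofReal_cos] at this
      have e : ‖2 * ((Real.cos θ : ℝ) : ℂ)‖ = 2 * Real.cos θ := by
        rw [norm_mul, Complex.norm_real, Real.norm_of_nonneg hcos.le]
        norm_num
      rw [e] at this
      exact this.eventually_lt_const hmix
    obtain ⟨r1, hr1, hr1b⟩ := Metric.eventually_nhds_iff.1 g1
    have g2 : ∀ᶠ r in 𝓝 (0 : ℝ), c * (r ^ 2 + 2 * θ * r) < δ / 4 := by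
      have : Tendsto (fun r : ℝ => c * (r ^ 2 + 2 * θ * r)) (𝓝 0) (𝓝 (c * (0 ^ 2 + 2 * θ * 0))) :=
        (by fun_prop : Continuous (fun r : ℝ => c * (r ^ 2 + 2 * θ * r))).continuousAt
      rw [show c * ((0 : ℝ) ^ 2 + 2 * θ * 0) = 0 by ring] at this
      exact this.eventually_lt_const (by positivity)
    have g3 : ∀ᶠ r in 𝓝 (0 : ℝ), r < Real.pi / 2 - θ := eventually_lt_nhds (by linarith)
    have g4 : ∀ᶠ r in 𝓝 (0 : ℝ), r < r1 := eventually_lt_nhds hr1
    have h4 := (g2.and (g3.and g4)).filter_mono (nhdsWithin_le_nhds (s := Ioi 0))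
    obtain ⟨r, ⟨ha, hb, hc'⟩, hr⟩ := (h4.and self_mem_nhdsWithin).exists
    refine ⟨r, hr, hb, fun z hz => ?_, ha.le⟩
    refine (hr1b ?_).le
    rw [dist_zero_right, hz]
    exact hc'
  -- the radii
  obtain ⟨R1, hR1⟩ : ∃ R1 : ℝ, R1 = R - θ := ⟨_, rfl⟩
  have hρ : 0 < Real.pi / 2 - θ := by linarith
  have hρR : Real.pi / 2 - θ < R1 := by linarith
  set τ := (Real.log (Real.pi / 2 - θ) - Real.log r0) / (Real.log R1 - Real.log r0) with hτ
  have hl1 : Real.log r0 < Real.log (Real.pi / 2 - θ) := Real.log_lt_log hr0 hr0R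
  have hl2 : Real.log (Real.pi / 2 - θ) < Real.log R1 := Real.log_lt_log hρ hρR
  have hτ0 : 0 < τ := div_pos (by linarith) (by linarith)
  have hτ1 : τ < 1 := by
    rw [hτ, div_lt_one (by linarith)]
    linarith
  set ε := min 1 ((1 - τ) * δ / 8) with hε
  have hεp : 0 < ε := lt_min one_pos (by
    have : 0 < 1 - τ := by linarith
    positivity)
  have hε1 : ε ≤ 1 := min_le_left _ _
  have hε2 : ε ≤ (1 - τ) * δ / 8 := min_le_right _ _
  refine ⟨ε, hεp, ?_⟩
  intro a L hL P hP hup hlow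
  by_contra hcon
  push Not at hcon
  -- bound at 2 cosh R
  have hbR : P.eval (2 * Real.cosh R) ≤ Real.exp (L * (a + c * R ^ 2 + ε)) := by
    have h1 := hup (R : ℂ) (by rw [norm_real, Real.norm_of_nonneg hRp.le])
    have h2 : aeval (2 * Complex.cosh (R : ℂ)) P = ((P.eval (2 * Real.cosh R) : ℝ) : ℂ) := by
      rw [← Complex.ofReal_cosh]
      have : (2 : ℂ) * ((Real.cosh R : ℝ) : ℂ) = ((2 * Real.cosh R : ℝ) : ℂ) := by push_cast; ring
      rw [this]
      simpa using (Polynomial.aeval_algebraMap_apply ℂ (2 * Real.cosh R) P)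
    rw [h2, norm_real, Real.norm_of_nonneg (eval_nonneg' hP (by positivity))] at h1
    have h3 : (((R : ℂ)) ^ 2).re = R ^ 2 := by
      rw [← ofReal_pow, ofReal_re]
    rwa [h3] at h1
  have hP2 : 0 ≤ P.eval (2 * Real.cos θ) := eval_nonneg' hP hx1.le
  have hPR : 0 ≤ P.eval (2 * Real.cosh R) := eval_nonneg' hP (by positivity)
  -- the function g
  set g : ℂ → ℂ := fun z => aeval (2 * Complex.cosh (θ * I + z)) P *
    exp (-(L * (a + c * (θ * I + z) ^ 2))) with hg
  have hgd : Differentiable ℂ g := by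
    have h1 : Differentiable ℂ (fun z : ℂ => aeval (2 * Complex.cosh (θ * I + z)) P) := by
      have h2 : (fun z : ℂ => aeval (2 * Complex.cosh (θ * I + z)) P)
          = (fun x : ℂ => (P.map (algebraMap ℝ ℂ)).eval x) ∘ (fun z => 2 * Complex.cosh (θ * I + z)) := by
        funext b
        simp [Polynomial.aeval_def, Polynomial.eval_map]
      rw [h2]
      refine (Polynomial.differentiable _).comp ?_
      have h3 : Differentiable ℂ (fun z : ℂ => Complex.cosh (θ * I + z)) :=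
        Complex.differentiable_cosh.comp (by fun_prop)
      exact h3.const_mul 2
    apply h1.mul
    fun_prop
  have hgn : ∀ z : ℂ, ‖g z‖ = ‖aeval (2 * Complex.cosh (θ * I + z)) P‖ *
      Real.exp (-(L * (a + c * ((θ * I + z) ^ 2).re))) := by
    intro b
    rw [hg]
    simp only [norm_mul, norm_exp]
    congr 2
    simp
  have hre : ∀ z : ℂ, ((θ * I + z) ^ 2).re = -θ ^ 2 + (z ^ 2 + 2 * θ * I * z).re := by
    intro z
    have e : ((θ : ℂ) * I + z) ^ 2 = -(θ : ℂ) ^ 2 + (z ^ 2 + 2 * θ * I * z) := by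
      have := I_sq
      linear_combination (θ : ℂ) ^ 2 * this
    rw [e, Complex.add_re, Complex.neg_re, ← Complex.ofReal_pow, Complex.ofReal_re]
  have hA : ∀ z : ℂ, ‖z‖ = r0 → ‖g z‖ ≤ Real.exp (L * (-(δ / 2))) := by
    intro z hb
    rw [hgn]
    have h1 : ‖aeval (2 * Complex.cosh (θ * I + z)) P‖ ≤
        (P.eval (2 * Real.cos θ)) ^ (1 - t) * (P.eval (2 * Real.cosh R)) ^ t := by
      refine (aeval_norm_le hP _).trans ?_
      refine (eval_pos_le hP (norm_nonneg _) (hr0c z hb)).trans ?_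
      exact log_convex hP hx1 (by positivity) ht0.le ht1
    have h2 : (P.eval (2 * Real.cos θ)) ^ (1 - t) ≤ Real.exp (L * (a - c * θ ^ 2 - δ)) ^ (1 - t) :=
      Real.rpow_le_rpow hP2 hcon.le (by linarith)
    have h3 : (P.eval (2 * Real.cosh R)) ^ t ≤ Real.exp (L * (a + c * R ^ 2 + ε)) ^ t :=
      Real.rpow_le_rpow hPR hbR ht0.le
    have h4 : -(r0 ^ 2 + 2 * θ * r0) ≤ (z ^ 2 + 2 * θ * I * z).re := by
      have h5 : |(z ^ 2 + 2 * θ * I * z).re| ≤ ‖z ^ 2 + 2 * θ * I * z‖ := Complex.abs_re_le_norm _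
      have h6 : ‖z ^ 2 + 2 * θ * I * z‖ ≤ r0 ^ 2 + 2 * θ * r0 := by
        refine (norm_add_le _ _).trans (le_of_eq ?_)
        rw [norm_pow, norm_mul, norm_mul, norm_mul, norm_I, hb, norm_real, Real.norm_of_nonneg h0]
        norm_num
      exact (abs_le.mp (h5.trans h6)).1
    calc ‖aeval (2 * Complex.cosh (θ * I + z)) P‖ * Real.exp (-(L * (a + c * ((θ * I + z) ^ 2).re)))
        ≤ (Real.exp (L * (a - c * θ ^ 2 - δ)) ^ (1 - t) * Real.exp (L * (a + c * R ^ 2 + ε)) ^ t) *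
          Real.exp (-(L * (a + c * ((θ * I + z) ^ 2).re))) := by
          apply mul_le_mul_of_nonneg_right _ (Real.exp_pos _).le
          exact h1.trans (mul_le_mul h2 h3 (by positivity) (by positivity))
      _ = Real.exp (L * (a - c * θ ^ 2 - δ) * (1 - t) + L * (a + c * R ^ 2 + ε) * t
            - L * (a + c * ((θ * I + z) ^ 2).re)) := by
          rw [← Real.exp_mul, ← Real.exp_mul, ← Real.exp_add, ← Real.exp_add]
          congr 1
      _ ≤ Real.exp (L * (-(δ / 2))) := by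
          apply Real.exp_le_exp.mpr
          rw [hre]
          have h6 : L * (a - c * θ ^ 2 - δ) * (1 - t) + L * (a + c * R ^ 2 + ε) * t
            - L * (a + c * (-θ ^ 2 + (z ^ 2 + 2 * θ * I * z).re)) =
              L * (-δ + t * (δ + c * θ ^ 2 + c * R ^ 2 + ε) - c * (z ^ 2 + 2 * θ * I * z).re) := by
            ring
          rw [h6]
          apply mul_le_mul_of_nonneg_left _ hL.le
          have h7 : t * (δ + c * θ ^ 2 + c * R ^ 2 + ε) ≤ t * (δ + c * θ ^ 2 + c * R ^ 2 + 1) := by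
            apply mul_le_mul_of_nonneg_left _ ht0.le
            linarith
          have h8 : -(c * (z ^ 2 + 2 * θ * I * z).re) ≤ c * (r0 ^ 2 + 2 * θ * r0) := by
            have := mul_le_mul_of_nonneg_left h4 hc.le
            linarith
          linarith
  have hB : ∀ z : ℂ, ‖z‖ = R1 → ‖g z‖ ≤ Real.exp (L * ε) := by
    intro z hb
    rw [hgn]
    have hn : ‖(θ : ℂ) * I + z‖ ≤ R := by
      refine (norm_add_le _ _).trans ?_
      rw [norm_mul, norm_I, mul_one, norm_real, Real.norm_of_nonneg h0, hb, hR1]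
      linarith
    calc _ ≤ Real.exp (L * (a + c * ((θ * I + z) ^ 2).re + ε)) *
            Real.exp (-(L * (a + c * ((θ * I + z) ^ 2).re))) := by
          apply mul_le_mul_of_nonneg_right (hup _ hn) (Real.exp_pos _).le
      _ = Real.exp (L * ε) := by
          rw [← Real.exp_add]; congr 1; ring
  set z : ℂ := (Real.pi / 2 - θ : ℝ) * I with hz
  have hzn : ‖z‖ = Real.pi / 2 - θ := by
    rw [hz, norm_mul, norm_I, mul_one, norm_real, Real.norm_of_nonneg hρ.le]
  have h3c := three_circles hgd hr0 (hr0R.trans hρR) hA hB (z := z) (by rw [hzn]; exact hr0R.le)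
    (by rw [hzn]; exact hρR.le)
  rw [hzn, ← hτ] at h3c
  have hgz : Real.exp (-(L * ε)) ≤ ‖g z‖ := by
    rw [hgn]
    have hzz : (θ : ℂ) * I + z = ((Real.pi / 2 : ℝ) : ℂ) * I := by
      rw [hz]
      push_cast
      ring
    have hcz : Complex.cosh (θ * I + z) = 0 := by
      rw [hzz, Complex.cosh_mul_I]
      push_cast
      exact Complex.cos_pi_div_two
    have hz2 : ((θ * I + z) ^ 2).re = -(Real.pi ^ 2 / 4) := by
      rw [hzz, mul_pow, I_sq, ← ofReal_pow, mul_neg_one, neg_re, ofReal_re]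
      ring
    rw [hcz, mul_zero, hz2]
    have h0 : aeval (0 : ℂ) P = ((P.eval 0 : ℝ) : ℂ) := by
      simpa using (Polynomial.aeval_algebraMap_apply ℂ (0 : ℝ) P)
    rw [h0, norm_real, Real.norm_of_nonneg (eval_nonneg' hP le_rfl)]
    calc Real.exp (-(L * ε)) = Real.exp (L * (a - c * (Real.pi ^ 2 / 4) - ε)) *
          Real.exp (-(L * (a + c * (-(Real.pi ^ 2 / 4))))) := by
          rw [← Real.exp_add]; congr 1; ring
      _ ≤ _ := mul_le_mul_of_nonneg_right hlow (Real.exp_pos _).le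
  have hfin := hgz.trans h3c
  rw [← Real.exp_mul, ← Real.exp_mul, ← Real.exp_add, Real.exp_le_exp] at hfin
  have h9 : L * (-(δ / 2)) * (1 - τ) + L * ε * τ + L * ε < 0 := by
    have : L * (-(δ / 2)) * (1 - τ) + L * ε * τ + L * ε
        = L * (-(δ / 2) * (1 - τ) + ε * τ + ε) := by ring
    rw [this]
    apply mul_neg_of_pos_of_neg hL
    have h10 : ε * τ ≤ ε := by
      have := mul_le_mul_of_nonneg_left hτ1.le hεp.le
      linarith
    have h11 : 0 < (1 - τ) * δ := mul_pos (by linarith) hδ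
    linarith
  linarith

end NUA
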