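import Pool.Agent.NUA.Vitali

/-!
Analytic glue: a family `Z m` of entire functions, positive on the positive axis, zero free with
`log |Z m|` of order `ell m` near every point of `(0, ∞)`; if
`log Z m (2 cosh b) - log Z m 2 = κ b ^ 2 ell m + o(ell m)` for real `b` in an interval and
`0 ≤ log Z m x ≤ W x ell m` for `0 < x ≤ 1`, then `log Z m 2 / ell m → κ π ^ 2 / 4`.
-/

open Filter Topology Metric Set Complex

namespace NUA

lemma hasDerivAt_log_norm {F : ℝ → ℂ} {F' : ℂ} {s : ℝ} (h : HasDerivAt F F' s) (h0 : F s ≠ 0) :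
    HasDerivAt (fun t => Real.log ‖F t‖) (F' / F s).re s := by
  have h1 : HasDerivAt (fun t => F t / F s) (F' / F s) s := h.div_const (F s)
  have h2 : (fun t => F t / F s) s ∈ slitPlane := by
    simp [div_self h0]
  have h3 := (h1.clog_real h2)
  have h4 : HasDerivAt (fun t => (Complex.log (F t / F s)).re) (F' / F s).re s := by
    have := (Complex.reCLM.hasFDerivAt.comp_hasDerivAt s h3)
    simpa [div_self h0, Function.comp_def] using this
  have h5 : HasDerivAt (fun t => Real.log ‖F s‖ + (Complex.log (F t / F s)).re) (F' / F s).re s :=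
    by simpa using h4.const_add (Real.log ‖F s‖)
  refine h5.congr_of_eventuallyEq ?_
  have h6 : ∀ᶠ t in 𝓝 s, F t ≠ 0 := h.continuousAt.eventually_ne h0
  filter_upwards [h6] with t ht
  rw [Complex.log_re, norm_div, Real.log_div (norm_ne_zero_iff.2 ht) (norm_ne_zero_iff.2 h0)]
  ring

/-- the hypotheses on the family -/
structure Fam (Z : ℕ → ℂ → ℂ) (ell : ℕ → ℝ) : Prop where
  ent : ∀ m, Differentiable ℂ (Z m)
  real : ∀ m, ∀ x : ℝ, 0 < x → (Z m x).im = 0
  top : Tendsto ell atTop atTop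
  zf : ∀ x : ℝ, 0 < x → ∃ δ > (0 : ℝ), ∃ C : ℝ, ∀ᶠ m in atTop, ∀ z ∈ ball (x : ℂ) δ,
    Z m z ≠ 0 ∧ |Real.log ‖Z m z‖| ≤ C * ell m

section

variable {Z : ℕ → ℂ → ℂ} {ell : ℕ → ℝ}

/-- the family in the variable `b`, `x = 2 cosh b` -/
noncomputable def Phi (Z : ℕ → ℂ → ℂ) (m : ℕ) (b : ℂ) : ℂ := Z m (2 * Complex.cosh b)

/-- normalised logarithmic derivative minus its expected limit -/
noncomputable def hh (Z : ℕ → ℂ → ℂ) (ell : ℕ → ℝ) (κ : ℝ) (m : ℕ) (b : ℂ) : ℂ :=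
  deriv (Phi Z m) b / Phi Z m b / (ell m : ℂ) - 2 * (κ : ℂ) * b

/-- the good set -/
def VV (Z : ℕ → ℂ → ℂ) (ell : ℕ → ℝ) : Set ℂ :=
  {b | ∃ ρ > (0 : ℝ), ∃ K > (0 : ℝ), ∀ᶠ m in atTop, ∀ z ∈ ball b ρ,
    Phi Z m z ≠ 0 ∧ |Real.log ‖Phi Z m z‖| ≤ K * ell m}

lemma Phi_diff (H : Fam Z ell) (m : ℕ) : Differentiable ℂ (Phi Z m) := by
  have h1 : Differentiable ℂ (fun b : ℂ => 2 * Complex.cosh b) :=
    (differentiable_id.ccosh).const_mul 2
  exact (H.ent m).comp h1

lemma VV_open : IsOpen (VV Z ell) := by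
  rw [Metric.isOpen_iff]
  rintro c ⟨ρ, hρ, K, hK, h⟩
  refine ⟨ρ, hρ, fun c' hc' => ⟨ρ - dist c' c, sub_pos.2 hc', K, hK, h.mono fun m hm z hz => ?_⟩⟩
  apply hm z
  rw [mem_ball] at hz ⊢
  linarith [dist_triangle z c' c]

lemma mem_VV (H : Fam Z ell) {b : ℂ} {x : ℝ} (hx : 0 < x) (hb : 2 * Complex.cosh b = (x : ℂ)) :
    b ∈ VV Z ell := by
  obtain ⟨δ, hδ, C, h⟩ := H.zf x hx
  have hcont : Continuous (fun b : ℂ => 2 * Complex.cosh b) :=
    continuous_const.mul Complex.continuous_cosh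
  have h1 : (fun b : ℂ => 2 * Complex.cosh b) ⁻¹' (ball (x : ℂ) δ) ∈ 𝓝 b := by
    apply hcont.continuousAt.preimage_mem_nhds
    simp only [hb]
    exact ball_mem_nhds _ hδ
  obtain ⟨ρ, hρ, h2⟩ := Metric.mem_nhds_iff.1 h1
  refine ⟨ρ, hρ, |C| + 1, by positivity, ?_⟩
  filter_upwards [h, H.top.eventually_gt_atTop 0] with m hm hell z hz
  obtain ⟨h3, h4⟩ := hm _ (h2 hz)
  refine ⟨h3, h4.trans ?_⟩
  apply mul_le_mul_of_nonneg_right _ hell.le
  linarith [le_abs_self C]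

lemma hh_bound (H : Fam Z ell) (κ : ℝ) : ∀ c ∈ VV Z ell, ∃ R > (0 : ℝ), ∃ C : ℝ, ∀ᶠ m in atTop,
    DifferentiableOn ℂ (hh Z ell κ m) (ball c R) ∧ ∀ z ∈ ball c R, ‖hh Z ell κ m z‖ ≤ C := by
  rintro c ⟨ρ, hρ, K, hK, h⟩
  refine ⟨ρ / 2, half_pos hρ, 8 * K / ρ + 2 * |κ| * (‖c‖ + ρ / 2), ?_⟩
  filter_upwards [h, H.top.eventually_gt_atTop 0] with m hm hell
  obtain ⟨h1, h2⟩ := logderiv_bound (φ := Phi Z m) hρ (mul_pos hK hell)
    (Phi_diff H m).differentiableOn (fun z hz => (hm z hz).1) (fun z hz => (hm z hz).2)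
  refine ⟨?_, fun z hz => ?_⟩
  · have h3 : DifferentiableOn ℂ (fun b : ℂ => 2 * (κ : ℂ) * b) (ball c (ρ / 2)) :=
      (differentiable_id.const_mul _).differentiableOn
    exact (h1.div_const _).sub h3
  · have h3 := h2 z hz
    have h4 : ‖deriv (Phi Z m) z / Phi Z m z / (ell m : ℂ)‖ ≤ 8 * K / ρ := by
      rw [norm_div, Complex.norm_real, Real.norm_eq_abs, abs_of_pos hell, div_le_iff₀ hell]
      refine h3.trans (le_of_eq ?_)
      ring
    have h5 : ‖2 * (κ : ℂ) * z‖ ≤ 2 * |κ| * (‖c‖ + ρ / 2) := by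
      rw [norm_mul, norm_mul, Complex.norm_real, Real.norm_eq_abs]
      have h6 : ‖z‖ ≤ ‖c‖ + ρ / 2 := by
        rw [mem_ball, dist_eq_norm] at hz
        have := norm_add_le (z - c) c
        rw [sub_add_cancel] at this
        linarith
      have h7 : ‖(2 : ℂ)‖ = 2 := by simp
      rw [h7]
      exact mul_le_mul_of_nonneg_left h6 (by positivity)
    exact (norm_sub_le _ _).trans (add_le_add h4 h5)

/-- along a curve -/
lemma hasDerivAt_curve (H : Fam Z ell) (m : ℕ) {γ : ℝ → ℂ} {γ' : ℂ} {s : ℝ}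
    (hγ : HasDerivAt γ γ' s) (h0 : Phi Z m (γ s) ≠ 0) :
    HasDerivAt (fun t => Real.log ‖Phi Z m (γ t)‖)
      (deriv (Phi Z m) (γ s) / Phi Z m (γ s) * γ').re s := by
  have h1 : HasDerivAt (fun t => Phi Z m (γ t)) (deriv (Phi Z m) (γ s) * γ') s :=
    ((Phi_diff H m) (γ s)).hasDerivAt.comp s hγ
  have h2 := hasDerivAt_log_norm h1 h0
  convert h2 using 2
  ring

lemma two_cosh_pos (t : ℝ) : 0 < 2 * Real.cosh t := by
  have := Real.cosh_pos t
  linarith

lemma Phi_real_im (H : Fam Z ell) (m : ℕ) (t : ℝ) : (Phi Z m t).im = 0 := by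
  have h1 : Phi Z m t = Z m ((2 * Real.cosh t : ℝ) : ℂ) := by
    unfold Phi
    push_cast
    rfl
  rw [h1]
  exact H.real m _ (two_cosh_pos t)

lemma deriv_real_im (H : Fam Z ell) (m : ℕ) (t : ℝ) : (deriv (Phi Z m) t).im = 0 := by
  have h1 : HasDerivAt (fun s : ℝ => Phi Z m s) (deriv (Phi Z m) t) t :=
    ((Phi_diff H m) (t : ℂ)).hasDerivAt.comp_ofReal
  have h2 : HasDerivAt (fun s : ℝ => (Phi Z m s).im) (deriv (Phi Z m) t).im t := by
    simpa [Function.comp_def] using (Complex.imCLM.hasFDerivAt.comp_hasDerivAt t h1)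
  have h3 : (fun s : ℝ => (Phi Z m s).im) = fun _ => 0 := by
    funext s
    exact Phi_real_im H m s
  rw [h3] at h2
  exact h2.unique (hasDerivAt_const t (0 : ℝ))

lemma hh_real_im (H : Fam Z ell) (κ : ℝ) (m : ℕ) (t : ℝ) : (hh Z ell κ m t).im = 0 := by
  have h1 : deriv (Phi Z m) t = ((deriv (Phi Z m) t).re : ℂ) :=
    Complex.ext (by simp) (by simp [deriv_real_im H m t])
  have h2 : Phi Z m t = ((Phi Z m t).re : ℂ) :=
    Complex.ext (by simp) (by simp [Phi_real_im H m t])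
  unfold hh
  rw [h1, h2, ← Complex.ofReal_div, ← Complex.ofReal_div]
  simp

/-- the quadratic law on a real interval gives the convergence of the logarithmic derivative -/
lemma hh_real_tendsto (H : Fam Z ell) {κ b₀ b₁ : ℝ}
    (hq : ∀ b : ℝ, b₀ < b → b < b₁ → Tendsto (fun m =>
      (Real.log ‖Z m ((2 * Real.cosh b : ℝ) : ℂ)‖ - Real.log ‖Z m 2‖) / ell m) atTop
        (𝓝 (κ * b ^ 2))) {c : ℝ} (hc₀ : b₀ < c) (hc₁ : c < b₁) :
    Tendsto (fun m => hh Z ell κ m c) atTop (𝓝 0) := by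
  have hcV : (c : ℂ) ∈ VV Z ell := mem_VV H (two_cosh_pos c) (by push_cast; rfl)
  obtain ⟨R₁, hR₁, C, hC⟩ := hh_bound H κ c hcV
  obtain ⟨ρ, hρ, K, hK, hV⟩ := hcV
  -- shrink the radius
  set R : ℝ := min (min R₁ ρ) (min (c - b₀) (b₁ - c)) with hRdef
  have hR : 0 < R := lt_min (lt_min hR₁ hρ) (lt_min (sub_pos.2 hc₀) (sub_pos.2 hc₁))
  have hRR₁ : R ≤ R₁ := (min_le_left _ _).trans (min_le_left _ _)
  have hRρ : R ≤ ρ := (min_le_left _ _).trans (min_le_right _ _)
  have hRb₀ : R ≤ c - b₀ := (min_le_right _ _).trans (min_le_left _ _)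
  have hRb₁ : R ≤ b₁ - c := (min_le_right _ _).trans (min_le_right _ _)
  set F : ℕ → ℂ → ℂ := fun m z => Complex.wedgeIntegral (c : ℂ) z (hh Z ell κ m) with hF
  have hFc : ∀ m, F m c = 0 := by
    intro m
    simp [hF, Complex.wedgeIntegral]
  have hFd : ∀ᶠ m in atTop, ∀ z ∈ ball (c : ℂ) R, HasDerivAt (F m) (hh Z ell κ m z) z := by
    filter_upwards [hC] with m hm z hz
    have h1 : DifferentiableOn ℂ (hh Z ell κ m) (ball (c : ℂ) R) :=
      hm.1.mono (ball_subset_ball hRR₁)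
    exact h1.isConservativeOn.hasDerivAt_wedgeIntegral h1.continuousOn hz
  have hFb : ∀ᶠ m in atTop, ∀ z ∈ ball (c : ℂ) R, ‖F m z‖ ≤ |C| * R := by
    filter_upwards [hFd, hC] with m hm hm2 z hz
    have h1 := (convex_ball (c : ℂ) R).norm_image_sub_le_of_norm_hasDerivWithin_le
      (f := F m) (f' := hh Z ell κ m) (C := |C|)
      (fun w hw => (hm w hw).hasDerivWithinAt)
      (fun w hw => (hm2.2 w (ball_subset_ball hRR₁ hw)).trans (le_abs_self C))
      (mem_ball_self hR) hz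
    rw [hFc m, sub_zero] at h1
    refine h1.trans ?_
    apply mul_le_mul_of_nonneg_left _ (abs_nonneg C)
    rw [mem_ball, dist_eq_norm] at hz
    exact hz.le
  -- the real points
  set v : ℕ → ℝ → ℝ := fun m t => Real.log ‖Phi Z m t‖ / ell m - κ * t ^ 2 with hv
  have hreal : ∀ᶠ m in atTop, ∀ t : ℝ, |t - c| < R → F m t = ((v m t - v m c : ℝ) : ℂ) := by
    filter_upwards [hFd, hV] with m hm hmV t ht
    set I : Set ℝ := ball c R with hI
    have hmem : ∀ s ∈ I, (s : ℂ) ∈ ball (c : ℂ) R := by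
      intro s hs
      rw [mem_ball, dist_eq_norm, ← Complex.ofReal_sub, Complex.norm_real]
      rw [hI, mem_ball, dist_eq_norm] at hs
      exact hs
    have hder : ∀ s ∈ I, HasDerivAt (fun s : ℝ => F m s - (v m s : ℂ)) 0 s := by
      intro s hs
      have h1 : HasDerivAt (fun s : ℝ => F m s) (hh Z ell κ m s) s :=
        (hm s (hmem s hs)).comp_ofReal
      have h0 : Phi Z m s ≠ 0 := (hmV s (ball_subset_ball hRρ (hmem s hs))).1
      have h2 : HasDerivAt (fun t : ℝ => Real.log ‖Phi Z m (t : ℂ)‖)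
          (deriv (Phi Z m) s / Phi Z m s * 1).re s :=
        hasDerivAt_curve H m (γ := fun t : ℝ => (t : ℂ)) (γ' := 1)
          (by simpa using (hasDerivAt_id (s : ℂ)).comp_ofReal) h0
      have h3 : HasDerivAt (v m) ((deriv (Phi Z m) s / Phi Z m s * 1).re / ell m -
          κ * (2 * s)) s := by
        have h4 : HasDerivAt (fun t : ℝ => κ * t ^ 2) (κ * (2 * s)) s := by
          simpa using (hasDerivAt_pow 2 s).const_mul κ
        exact (h2.div_const (ell m)).sub h4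
      have h5 : ((deriv (Phi Z m) s / Phi Z m s * 1).re / ell m - κ * (2 * s)) =
          (hh Z ell κ m s).re := by
        unfold hh
        rw [mul_one, Complex.sub_re, Complex.div_ofReal_re]
        congr 1
        simp
        ring
      rw [h5] at h3
      have h6 := h1.sub h3.ofReal_comp
      have h7 : hh Z ell κ m s - ((hh Z ell κ m s).re : ℂ) = 0 := by
        apply Complex.ext
        · simp
        · simp [hh_real_im H κ m s]
      rw [h7] at h6
      exact h6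
    have hcv : Convex ℝ I := convex_ball c R
    have hcI : c ∈ I := mem_ball_self hR
    have htI : t ∈ I := by
      rw [hI, mem_ball, Real.dist_eq]
      exact ht
    have h8 := hcv.norm_image_sub_le_of_norm_hasDerivWithin_le
      (f := fun s : ℝ => F m s - (v m s : ℂ)) (f' := fun _ => 0) (C := 0)
      (fun s hs => (hder s hs).hasDerivWithinAt) (fun s hs => by simp) hcI htI
    rw [zero_mul] at h8
    have h9 := norm_le_zero_iff.1 h8
    rw [hFc m] at h9
    push_cast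
    linear_combination h9
  have hvt : ∀ t : ℝ, b₀ < t → t < b₁ → Tendsto (fun m => v m t - v m c) atTop (𝓝 0) := by
    intro t h0 h1
    have h2 := (hq t h0 h1).sub (hq c hc₀ hc₁)
    have h3 := h2.sub_const (κ * t ^ 2 - κ * c ^ 2)
    rw [sub_self] at h3
    refine h3.congr fun m => ?_
    have e : ∀ s : ℝ, Phi Z m (s : ℂ) = Z m ((2 * Real.cosh s : ℝ) : ℂ) := by
      intro s
      unfold Phi
      push_cast
      rfl
    simp only [hv, e]
    ring
  have hS : Acc {z : ℂ | ∃ t : ℝ, z = t ∧ |t - c| < R} c := by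
    intro δ hδ
    set s : ℝ := min (R / 2) (δ / 2) with hs
    have hs0 : 0 < s := lt_min (half_pos hR) (half_pos hδ)
    refine ⟨((c + s : ℝ) : ℂ), ⟨c + s, rfl, ?_⟩, ?_, ?_⟩
    · rw [add_sub_cancel_left, abs_of_pos hs0]
      linarith [min_le_left (R / 2) (δ / 2)]
    · intro h
      have h1 : c + s = c := by exact_mod_cast h
      linarith
    · rw [dist_eq_norm, ← Complex.ofReal_sub, Complex.norm_real, add_sub_cancel_left,
        Real.norm_eq_abs, abs_of_pos hs0]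
      linarith [min_le_right (R / 2) (δ / 2)]
  have hlim := deriv_tendsto (f := F) (c := (c : ℂ)) (C := |C| * R) hR
    (by
      filter_upwards [hFd] with m hm z hz
      exact (hm z hz).differentiableAt.differentiableWithinAt) hFb hS
    (by
      rintro z ⟨t, rfl, ht⟩
      have h1 := abs_lt.1 ht
      have h2 := hvt t (by linarith) (by linarith)
      have h3 : Tendsto (fun m => ((v m t - v m c : ℝ) : ℂ)) atTop (𝓝 0) := by
        have := (Complex.continuous_ofReal.tendsto 0).comp h2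
        simpa [Function.comp_def] using this
      refine h3.congr' ?_
      filter_upwards [hreal] with m hm
      exact (hm t ht).symm)
  refine hlim.congr' ?_
  filter_upwards [hFd] with m hm
  exact (hm c (mem_ball_self hR)).deriv

/-- **Vanishing on the L-shaped path.** -/
lemma hh_tendsto (H : Fam Z ell) {κ b₀ b₁ : ℝ} (hb : b₀ < b₁)
    (hq : ∀ b : ℝ, b₀ < b → b < b₁ → Tendsto (fun m =>
      (Real.log ‖Z m ((2 * Real.cosh b : ℝ) : ℂ)‖ - Real.log ‖Z m 2‖) / ell m) atTop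
        (𝓝 (κ * b ^ 2))) {θ : ℝ} (h1 : -(Real.pi / 2) < θ) (h2 : θ < Real.pi / 2) :
    Tendsto (fun m => hh Z ell κ m (θ * I)) atTop (𝓝 0) := by
  have h0V : (0 : ℂ) ∈ VV Z ell := mem_VV H (x := 2) (by norm_num) (by simp)
  set U : Set ℂ := connectedComponentIn (VV Z ell) 0 with hU
  have hUV : U ⊆ VV Z ell := connectedComponentIn_subset _ _
  have hreal : range (fun t : ℝ => (t : ℂ)) ⊆ U := by
    apply IsPreconnected.subset_connectedComponentIn
    · exact isPreconnected_range Complex.continuous_ofReal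
    · exact ⟨0, by simp⟩
    · rintro z ⟨t, rfl⟩
      exact mem_VV H (two_cosh_pos t) (by push_cast; rfl)
  have himag : (fun t : ℝ => (t : ℂ) * I) '' (Ioo (-(Real.pi / 2)) (Real.pi / 2)) ⊆ U := by
    apply IsPreconnected.subset_connectedComponentIn
    · apply isPreconnected_Ioo.image
      exact (Complex.continuous_ofReal.mul continuous_const).continuousOn
    · exact ⟨0, by constructor <;> linarith [Real.pi_pos], by simp⟩
    · rintro z ⟨t, ht, rfl⟩
      refine mem_VV H (x := 2 * Real.cos t) ?_ ?_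
      · have := Real.cos_pos_of_mem_Ioo ht
        linarith
      · rw [Complex.cosh_mul_I]
        push_cast
        rfl
  set c : ℝ := (b₀ + b₁) / 2 with hc
  have hcU : (c : ℂ) ∈ U := hreal ⟨c, rfl⟩
  refine vitali_zero (U := U) isPreconnected_connectedComponentIn
    (fun z hz => hh_bound H κ z (hUV hz)) hcU
    (S := {z : ℂ | ∃ t : ℝ, z = t ∧ b₀ < t ∧ t < b₁}) ?_ ?_ _ (himag ⟨θ, ⟨h1, h2⟩, rfl⟩)
  · intro δ hδ
    set s : ℝ := min ((b₁ - b₀) / 4) (δ / 2) with hs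
    have hs0 : 0 < s := lt_min (by linarith) (half_pos hδ)
    have hs1 : s ≤ (b₁ - b₀) / 4 := min_le_left _ _
    have hs2 : s ≤ δ / 2 := min_le_right _ _
    refine ⟨((c + s : ℝ) : ℂ), ⟨c + s, rfl, by rw [hc]; linarith, by rw [hc]; linarith⟩, ?_, ?_⟩
    · intro h
      have h1 : c + s = c := by exact_mod_cast h
      linarith
    · rw [dist_eq_norm, ← Complex.ofReal_sub, Complex.norm_real, add_sub_cancel_left,
        Real.norm_eq_abs, abs_of_pos hs0]
      linarith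
  · rintro z ⟨t, rfl, ht0, ht1⟩
    exact hh_real_tendsto H hq ht0 ht1

lemma unif_bound (H : Fam Z ell) (κ : ℝ) {θ : ℝ} (hθ0 : 0 ≤ θ) (hθ : θ < Real.pi / 2) :
    ∃ C : ℝ, ∀ᶠ m in atTop, ∀ t ∈ Icc (0 : ℝ) θ, Phi Z m (t * I) ≠ 0 ∧
      ContinuousAt (hh Z ell κ m) (t * I) ∧ ‖hh Z ell κ m (t * I)‖ ≤ C := by
  have hK : IsCompact (Icc (0 : ℝ) θ) := isCompact_Icc
  refine hK.induction_on (p := fun s => ∃ C : ℝ, ∀ᶠ m in atTop, ∀ t ∈ s, Phi Z m (t * I) ≠ 0 ∧
      ContinuousAt (hh Z ell κ m) (t * I) ∧ ‖hh Z ell κ m (t * I)‖ ≤ C) ?_ ?_ ?_ ?_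
  · exact ⟨0, Filter.Eventually.of_forall fun m t ht => by simp at ht⟩
  · rintro s t hst ⟨C, h⟩
    exact ⟨C, h.mono fun m hm x hx => hm x (hst hx)⟩
  · rintro s t ⟨C, h⟩ ⟨C', h'⟩
    refine ⟨max C C', ?_⟩
    filter_upwards [h, h'] with m h1 h2 x hx
    rcases hx with hx | hx
    · obtain ⟨a, b, c⟩ := h1 x hx
      exact ⟨a, b, c.trans (le_max_left _ _)⟩
    · obtain ⟨a, b, c⟩ := h2 x hx
      exact ⟨a, b, c.trans (le_max_right _ _)⟩
  · intro t ht
    have htV : ((t : ℂ) * I) ∈ VV Z ell := by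
      refine mem_VV H (x := 2 * Real.cos t) ?_ ?_
      · have := Real.cos_pos_of_mem_Ioo (x := t)
          ⟨by linarith [ht.1, Real.pi_pos], by linarith [ht.2]⟩
        linarith
      · rw [Complex.cosh_mul_I]
        push_cast
        rfl
    obtain ⟨R, hR, C, hC⟩ := hh_bound H κ _ htV
    obtain ⟨ρ, hρ, K, hK, hV⟩ := htV
    have hcont : Continuous (fun s : ℝ => (s : ℂ) * I) :=
      Complex.continuous_ofReal.mul continuous_const
    have hn : (fun s : ℝ => (s : ℂ) * I) ⁻¹' (ball ((t : ℂ) * I) (min R ρ)) ∈ 𝓝 t :=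
      hcont.continuousAt.preimage_mem_nhds (ball_mem_nhds _ (lt_min hR hρ))
    refine ⟨_, mem_nhdsWithin_of_mem_nhds hn, C, ?_⟩
    filter_upwards [hC, hV] with m h1 h2 s hs
    have hs1 : ((s : ℂ) * I) ∈ ball ((t : ℂ) * I) R := ball_subset_ball (min_le_left _ _) hs
    have hs2 : ((s : ℂ) * I) ∈ ball ((t : ℂ) * I) ρ := ball_subset_ball (min_le_right _ _) hs
    exact ⟨(h2 _ hs2).1, (h1.1.differentiableAt (isOpen_ball.mem_nhds hs1)).continuousAt,
      h1.2 _ hs1⟩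

/-- the law on the imaginary segment -/
lemma imag_law (H : Fam Z ell) {κ b₀ b₁ : ℝ} (hb : b₀ < b₁)
    (hq : ∀ b : ℝ, b₀ < b → b < b₁ → Tendsto (fun m =>
      (Real.log ‖Z m ((2 * Real.cosh b : ℝ) : ℂ)‖ - Real.log ‖Z m 2‖) / ell m) atTop
        (𝓝 (κ * b ^ 2))) {θ : ℝ} (hθ0 : 0 ≤ θ) (hθ : θ < Real.pi / 2) :
    Tendsto (fun m => (Real.log ‖Z m ((2 * Real.cos θ : ℝ) : ℂ)‖ - Real.log ‖Z m 2‖) / ell m +
      κ * θ ^ 2) atTop (𝓝 0) := by
  obtain ⟨C, hC⟩ := unif_bound H κ hθ0 hθ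
  set w' : ℕ → ℝ → ℝ := fun m t => (hh Z ell κ m (t * I) * I).re with hw'
  have hcontI : Continuous (fun s : ℝ => (s : ℂ) * I) :=
    Complex.continuous_ofReal.mul continuous_const
  have hint : ∀ᶠ m in atTop, ContinuousOn (w' m) (Icc 0 θ) := by
    filter_upwards [hC] with m hm t ht
    have h1 : ContinuousAt (fun s : ℝ => hh Z ell κ m ((s : ℂ) * I)) t :=
      ContinuousAt.comp (g := hh Z ell κ m) (f := fun s : ℝ => (s : ℂ) * I)
        (hm t ht).2.1 hcontI.continuousAt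
    have h2 : ContinuousAt (w' m) t :=
      Complex.continuous_re.continuousAt.comp (h1.mul continuousAt_const)
    exact h2.continuousWithinAt
  have hdom : Tendsto (fun m => ∫ t in (0 : ℝ)..θ, w' m t) atTop (𝓝 (∫ t in (0 : ℝ)..θ, (0 : ℝ))) := by
    apply intervalIntegral.tendsto_integral_filter_of_dominated_convergence (fun _ => |C|)
    · filter_upwards [hint] with m hm
      apply ContinuousOn.aestronglyMeasurable _ measurableSet_uIoc
      apply hm.mono
      rw [uIoc_of_le hθ0]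
      exact Ioc_subset_Icc_self
    · filter_upwards [hC] with m hm
      refine Filter.Eventually.of_forall fun t ht => ?_
      rw [uIoc_of_le hθ0] at ht
      have h1 := (hm t (Ioc_subset_Icc_self ht)).2.2
      calc ‖w' m t‖ ≤ ‖hh Z ell κ m (t * I) * I‖ := by
            rw [Real.norm_eq_abs]
            exact Complex.abs_re_le_norm _
        _ = ‖hh Z ell κ m (t * I)‖ := by rw [norm_mul, Complex.norm_I, mul_one]
        _ ≤ |C| := h1.trans (le_abs_self C)
    · exact intervalIntegrable_const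
    · refine Filter.Eventually.of_forall fun t ht => ?_
      rw [uIoc_of_le hθ0] at ht
      have h1 := hh_tendsto H hb hq (θ := t) (by linarith [ht.1, Real.pi_pos])
        (by linarith [ht.2])
      have h2 := (Complex.continuous_re.tendsto 0).comp
        (by simpa using h1.mul_const I : Tendsto (fun m => hh Z ell κ m (t * I) * I) atTop (𝓝 0))
      rw [Complex.zero_re] at h2
      exact h2
  rw [intervalIntegral.integral_zero] at hdom
  refine hdom.congr' ?_
  filter_upwards [hC, hint] with m hm hcont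
  set w : ℝ → ℝ := fun t => Real.log ‖Phi Z m (t * I)‖ / ell m + κ * t ^ 2 with hw
  have hder : ∀ t ∈ uIcc (0 : ℝ) θ, HasDerivAt w (w' m t) t := by
    intro t ht
    rw [uIcc_of_le hθ0] at ht
    have h1 : HasDerivAt (fun s : ℝ => Real.log ‖Phi Z m ((s : ℂ) * I)‖)
        (deriv (Phi Z m) (t * I) / Phi Z m (t * I) * I).re t := by
      apply hasDerivAt_curve H m (γ := fun s : ℝ => (s : ℂ) * I) (γ' := I) _ (hm t ht).1
      have := ((hasDerivAt_id (t : ℂ)).comp_ofReal).mul_const I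
      simpa using this
    have h4 : HasDerivAt (fun t : ℝ => κ * t ^ 2) (κ * (2 * t)) t := by
      simpa using (hasDerivAt_pow 2 t).const_mul κ
    have h5 := (h1.div_const (ell m)).add h4
    have h8 : w' m t = (deriv (Phi Z m) (t * I) / Phi Z m (t * I) * I).re / ell m +
        κ * (2 * t) := by
      show ((deriv (Phi Z m) (t * I) / Phi Z m (t * I) / (ell m : ℂ) -
        2 * (κ : ℂ) * ((t : ℂ) * I)) * I).re = _
      rw [sub_mul, Complex.sub_re]
      have h6 : deriv (Phi Z m) (t * I) / Phi Z m (t * I) / (ell m : ℂ) * I =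
          deriv (Phi Z m) (t * I) / Phi Z m (t * I) * I / (ell m : ℂ) := by ring
      rw [h6, Complex.div_ofReal_re]
      have h7 : (2 * (κ : ℂ) * ((t : ℂ) * I) * I).re = -(κ * (2 * t)) := by
        have : 2 * (κ : ℂ) * ((t : ℂ) * I) * I = ((-(κ * (2 * t)) : ℝ) : ℂ) := by
          push_cast
          linear_combination (2 * (κ : ℂ) * t) * Complex.I_mul_I
        rw [this, Complex.ofReal_re]
      rw [h7]
      ring
    rw [h8]
    exact h5
  have hii : IntervalIntegrable (w' m) MeasureTheory.volume 0 θ :=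
    (by rw [uIcc_of_le hθ0]; exact hcont : ContinuousOn (w' m) (uIcc 0 θ)).intervalIntegrable
  rw [intervalIntegral.integral_eq_sub_of_hasDerivAt hder hii]
  have e1 : Phi Z m ((θ : ℂ) * I) = Z m ((2 * Real.cos θ : ℝ) : ℂ) := by
    unfold Phi
    rw [Complex.cosh_mul_I]
    push_cast
    rfl
  have e2 : Phi Z m (((0 : ℝ) : ℂ) * I) = Z m 2 := by
    unfold Phi
    simp
  simp only [hw, e1, e2]
  ring

/-- **ANALYTIC GLUE.** -/
theorem glue (H : Fam Z ell) {κ b₀ b₁ W : ℝ} (hb : b₀ < b₁)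
    (hq : ∀ b : ℝ, b₀ < b → b < b₁ → Tendsto (fun m =>
      (Real.log ‖Z m ((2 * Real.cosh b : ℝ) : ℂ)‖ - Real.log ‖Z m 2‖) / ell m) atTop
        (𝓝 (κ * b ^ 2)))
    (hW : ∀ x : ℝ, 0 < x → x ≤ 1 → ∀ᶠ m in atTop, 0 ≤ Real.log ‖Z m (x : ℂ)‖ ∧
      Real.log ‖Z m (x : ℂ)‖ ≤ W * x * ell m) :
    Tendsto (fun m => Real.log ‖Z m 2‖ / ell m) atTop (𝓝 (κ * Real.pi ^ 2 / 4)) := by
  rw [Metric.tendsto_nhds]
  intro ε hε
  -- choose θ
  have hcontθ : Tendsto (fun θ : ℝ => |W| * (2 * Real.cos θ) + |κ * Real.pi ^ 2 / 4 - κ * θ ^ 2|)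
      (𝓝[<] (Real.pi / 2)) (𝓝 0) := by
    have h1 : Continuous (fun θ : ℝ =>
        |W| * (2 * Real.cos θ) + |κ * Real.pi ^ 2 / 4 - κ * θ ^ 2|) := by fun_prop
    have h2 := (h1.tendsto (Real.pi / 2)).mono_left
      (nhdsWithin_le_nhds (s := Iio (Real.pi / 2)))
    have h3 : |W| * (2 * Real.cos (Real.pi / 2)) +
        |κ * Real.pi ^ 2 / 4 - κ * (Real.pi / 2) ^ 2| = 0 := by
      rw [Real.cos_pi_div_two]
      have : κ * Real.pi ^ 2 / 4 - κ * (Real.pi / 2) ^ 2 = 0 := by ring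
      rw [this]
      simp
    rw [h3] at h2
    exact h2
  have hev1 : ∀ᶠ θ : ℝ in 𝓝[<] (Real.pi / 2),
      |W| * (2 * Real.cos θ) + |κ * Real.pi ^ 2 / 4 - κ * θ ^ 2| < ε / 2 :=
    (tendsto_order.1 hcontθ).2 _ (half_pos hε)
  have hev2 : ∀ᶠ θ : ℝ in 𝓝[<] (Real.pi / 2), θ ∈ Ioo (Real.pi / 3) (Real.pi / 2) := by
    apply Ioo_mem_nhdsLT
    linarith [Real.pi_pos]
  obtain ⟨θ, hθ1, hθ2⟩ := (hev1.and hev2).exists
  have hpi := Real.pi_pos
  have hx0 : 0 < 2 * Real.cos θ := by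
    have := Real.cos_pos_of_mem_Ioo (x := θ) ⟨by linarith [hθ2.1], hθ2.2⟩
    linarith
  have hx1 : 2 * Real.cos θ ≤ 1 := by
    have h1 : Real.cos θ ≤ Real.cos (Real.pi / 3) := by
      apply Real.cos_le_cos_of_nonneg_of_le_pi
      · linarith
      · linarith [hθ2.2]
      · exact hθ2.1.le
    rw [Real.cos_pi_div_three] at h1
    linarith
  have him := imag_law H hb hq (θ := θ) (by linarith [hθ2.1]) hθ2.2
  rw [Metric.tendsto_nhds] at him
  filter_upwards [him (ε / 2) (half_pos hε), hW _ hx0 hx1, H.top.eventually_gt_atTop 0]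
    with m h1 h2 hell
  rw [dist_zero_right, Real.norm_eq_abs] at h1
  rw [Real.dist_eq]
  obtain ⟨h3, h4⟩ := h2
  set A : ℝ := Real.log ‖Z m ((2 * Real.cos θ : ℝ) : ℂ)‖ with hA
  set B : ℝ := Real.log ‖Z m 2‖ with hB
  have h5 : 0 ≤ A / ell m := div_nonneg h3 hell.le
  have h6 : A / ell m ≤ |W| * (2 * Real.cos θ) := by
    rw [div_le_iff₀ hell]
    refine h4.trans ?_
    apply mul_le_mul_of_nonneg_right _ hell.le
    exact mul_le_mul_of_nonneg_right (le_abs_self W) hx0.le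
  have h7 : B / ell m - κ * Real.pi ^ 2 / 4 = -((A - B) / ell m + κ * θ ^ 2) + A / ell m -
      (κ * Real.pi ^ 2 / 4 - κ * θ ^ 2) := by ring
  rw [h7]
  have h8 := abs_lt.1 h1
  have h9 := abs_le.1 (le_refl |κ * Real.pi ^ 2 / 4 - κ * θ ^ 2|)
  rw [abs_lt]
  constructor
  · linarith [h8.1, h8.2, h9.1, h9.2]
  · linarith [h8.1, h8.2, h9.1, h9.2]

/-- the exponent `1/6` -/
theorem glue_sixth (H : Fam Z ell) {b₀ b₁ W : ℝ} (hb : b₀ < b₁)
    (hq : ∀ b : ℝ, b₀ < b → b < b₁ → Tendsto (fun m =>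
      (Real.log ‖Z m ((2 * Real.cosh b : ℝ) : ℂ)‖ - Real.log ‖Z m 2‖) / ell m) atTop
        (𝓝 (2 / (3 * Real.pi ^ 2) * b ^ 2)))
    (hW : ∀ x : ℝ, 0 < x → x ≤ 1 → ∀ᶠ m in atTop, 0 ≤ Real.log ‖Z m (x : ℂ)‖ ∧
      Real.log ‖Z m (x : ℂ)‖ ≤ W * x * ell m) :
    Tendsto (fun m => Real.log ‖Z m 2‖ / ell m) atTop (𝓝 (1 / 6)) := by
  have h := glue H hb hq hW
  have e : 2 / (3 * Real.pi ^ 2) * Real.pi ^ 2 / 4 = 1 / 6 := by
    have := Real.pi_pos.ne'
    field_simp
    norm_num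
  rwa [e] at h

end

end NUA
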