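import Pool.Agent.ZF.Levels

/-!
# The first order coefficient of the chain sums against the chain sums (abstract part)

`exp_up`: `Z(δ w) ≤ exp (δ W)`.  `block`: `W ≤ log Z(δ w) / δ + C0 m + δ n² C0² m / 2` for `m n` levels.
-/

set_option autoImplicit false

namespace Pool.Agent.NUA

open Finset Pool.Agent.ZF
open scoped Classical

variable {P : Type*} [PartialOrder P]

/-- the chain sum is at most the exponential of the total weight. -/
theorem exp_up {v : P → ℝ} (hv : ∀ l, 0 ≤ v l) (D : Finset P) : Zf v D ≤ Real.exp (∑ l ∈ D, v l) := by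
  have h1 : Zf v D ≤ ∏ l ∈ D, (v l + 1) := by
    rw [Finset.prod_add_one]
    refine Finset.sum_le_sum_of_subset_of_nonneg (Finset.filter_subset _ _) fun C _ _ =>
      Finset.prod_nonneg fun l _ => hv l
  refine h1.trans ?_
  rw [Real.exp_sum]
  refine Finset.prod_le_prod (fun l _ => by have := hv l; linarith) fun l _ => ?_
  exact Real.add_one_le_exp _

theorem log_low {x : ℝ} (hx : 0 ≤ x) : x - x ^ 2 / 2 ≤ Real.log (1 + x) := by
  have h1 := Real.le_log_one_add_of_nonneg hx
  refine le_trans ?_ h1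
  rw [le_div_iff₀ (by linarith)]
  nlinarith [sq_nonneg x, mul_nonneg hx (sq_nonneg x)]

variable {B : ℕ → Finset P} {w : P → ℝ} {C0 c0 : ℝ} {m n : ℕ}

/-- the elements of the block `k`. -/
noncomputable def blk (B : ℕ → Finset P) (n k : ℕ) : Finset P :=
  (B ((k + 1) * n)).filter fun l => ∀ b ∈ B (k * n), b < l

section

variable (L : Lev (m * n) B w C0 c0)
include L

theorem B_step_le {i : ℕ} (hi : i < m * n) : ∑ l ∈ B (i + 1) \ B i, w l ≤ C0 := by
  refine le_trans (Finset.sum_le_sum_of_subset_of_nonneg ?_ fun l _ _ => L.w0 l) (L.E1 i hi)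
  intro l hl
  rw [Finset.mem_sdiff] at hl
  simp only [cross, Finset.mem_filter]
  exact ⟨L.mono' (by omega) le_rfl hl.1, hl.2, fun h => lt_irrefl _ (h l hl.1)⟩

theorem B_sum_le {i j : ℕ} (hj : i + j ≤ m * n) : ∑ l ∈ B (i + j) \ B i, w l ≤ j * C0 := by
  induction j with
  | zero => simp
  | succ j ih =>
    have h1 : B (i + (j + 1)) \ B i ⊆ (B (i + j) \ B i) ∪ (B (i + j + 1) \ B (i + j)) := by
      intro l hl
      rw [Finset.mem_sdiff] at hl
      rw [Finset.mem_union, Finset.mem_sdiff, Finset.mem_sdiff]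
      by_cases h : l ∈ B (i + j)
      · exact Or.inl ⟨h, hl.2⟩
      · exact Or.inr ⟨hl.1, h⟩
    have h2 := Finset.sum_le_sum_of_subset_of_nonneg h1 fun l _ _ => L.w0 l
    have h3 := Finset.sum_union_inter (s₁ := B (i + j) \ B i) (s₂ := B (i + j + 1) \ B (i + j)) (f := w)
    have h4 : 0 ≤ ∑ l ∈ (B (i + j) \ B i) ∩ (B (i + j + 1) \ B (i + j)), w l :=
      Finset.sum_nonneg fun l _ => L.w0 l
    have h5 := ih (by omega)
    have h6 := B_step_le L (i := i + j) (by omega)
    push_cast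
    linarith

theorem blk_le {k : ℕ} (hk : k < m) : ∑ l ∈ blk B n k, w l ≤ n * C0 := by
  have hkn : k * n + n ≤ m * n := by
    have : (k + 1) * n ≤ m * n := Nat.mul_le_mul_right n hk
    linarith
  have h1 := B_sum_le L (i := k * n) (j := n) hkn
  refine le_trans (Finset.sum_le_sum_of_subset_of_nonneg ?_ fun l _ _ => L.w0 l) h1
  intro l hl
  simp only [blk, Finset.mem_filter] at hl
  rw [Finset.mem_sdiff]
  refine ⟨by rw [show k * n + n = (k + 1) * n by ring]; exact hl.1, fun h => lt_irrefl _ (hl.2 l h)⟩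

theorem blk_ge {k : ℕ} (hk : k < m) :
    ∑ l ∈ B ((k + 1) * n), w l - ∑ l ∈ B (k * n), w l ≤ (∑ l ∈ blk B n k, w l) + C0 := by
  have hkn : k * n + n ≤ m * n := by
    have : (k + 1) * n ≤ m * n := Nat.mul_le_mul_right n hk
    linarith
  have e : (k + 1) * n = k * n + n := by ring
  have h0 : B (k * n) ⊆ B ((k + 1) * n) := L.mono' (by rw [e]; omega) (by rw [e]; exact hkn)
  have h1 : ∑ l ∈ B ((k + 1) * n), w l - ∑ l ∈ B (k * n), w l = ∑ l ∈ B ((k + 1) * n) \ B (k * n), w l := by
    rw [← Finset.sum_sdiff h0]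
    ring
  rw [h1]
  rcases Nat.eq_zero_or_pos (k * n) with h2 | h2
  · have h3 : B ((k + 1) * n) \ B (k * n) ⊆ blk B n k := by
      intro l hl
      rw [Finset.mem_sdiff] at hl
      simp only [blk, Finset.mem_filter]
      refine ⟨hl.1, fun b hb => ?_⟩
      rw [h2, L.B0] at hb
      exact absurd hb (Finset.notMem_empty b)
    have h4 := Finset.sum_le_sum_of_subset_of_nonneg h3 fun l _ _ => L.w0 l
    have := L.hC0
    linarith
  · have h3 : B ((k + 1) * n) \ B (k * n) ⊆ blk B n k ∪ cross B (m * n) (k * n - 1) := by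
      intro l hl
      rw [Finset.mem_sdiff] at hl
      rw [Finset.mem_union]
      by_cases h : ∀ b ∈ B (k * n), b < l
      · left
        simp only [blk, Finset.mem_filter]
        exact ⟨hl.1, h⟩
      · right
        simp only [cross, Finset.mem_filter]
        have e2 : k * n - 1 + 1 = k * n := by omega
        rw [e2]
        exact ⟨L.mono' (by rw [e]; exact hkn) le_rfl hl.1,
          fun h' => hl.2 (L.mono' (Nat.sub_le _ _) (by omega) h'), h⟩
    have h4 := Finset.sum_le_sum_of_subset_of_nonneg h3 fun l _ _ => L.w0 l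
    have h5 := Finset.sum_union_inter (s₁ := blk B n k) (s₂ := cross B (m * n) (k * n - 1)) (f := w)
    have h6 : 0 ≤ ∑ l ∈ blk B n k ∩ cross B (m * n) (k * n - 1), w l :=
      Finset.sum_nonneg fun l _ => L.w0 l
    have h7 := L.E1 (k * n - 1) (by omega)
    linarith

theorem Zf_blocks {δ : ℝ} (hδ : 0 ≤ δ) {j : ℕ} (hj : j ≤ m) :
    ∏ k ∈ Finset.range j, (1 + δ * ∑ l ∈ blk B n k, w l) ≤ Zf (fun l => δ * w l) (B (j * n)) := by
  have hv : ∀ l, 0 ≤ (fun l => δ * w l) l := fun l => mul_nonneg hδ (L.w0 l)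
  induction j with
  | zero =>
    rw [Finset.prod_range_zero]
    exact one_le_Zf (fun l => δ * w l) hv _
  | succ j ih =>
    rw [Finset.prod_range_succ]
    have e : (j + 1) * n = j * n + n := by ring
    have hjn : j * n + n ≤ m * n := by
      have : (j + 1) * n ≤ m * n := Nat.mul_le_mul_right n hj
      linarith
    have h1 := Zf_growth (fun l => δ * w l) hv (B := B (j * n)) (B' := B ((j + 1) * n)) (S := blk B n j)
      (L.mono' (by rw [e]; omega) (by rw [e]; exact hjn)) (Finset.filter_subset _ _) (fun l hl b hb => by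
        simp only [blk, Finset.mem_filter] at hl
        exact hl.2 b hb)
    refine le_trans ?_ h1
    rw [← Finset.mul_sum, mul_comm]
    exact mul_le_mul_of_nonneg_left (ih (by omega)) (by
      have : 0 ≤ ∑ l ∈ blk B n j, w l := Finset.sum_nonneg fun l _ => L.w0 l
      positivity)

/-- **The first order coefficient from above.** -/
theorem block {δ : ℝ} (hδ : 0 < δ) :
    ∑ l ∈ B (m * n), w l ≤
      Real.log (Zf (fun l => δ * w l) (B (m * n))) / δ + C0 * m + δ * (n * C0) ^ 2 * m / 2 := by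
  have hw : ∀ k, 0 ≤ ∑ l ∈ blk B n k, w l := fun k => Finset.sum_nonneg fun l _ => L.w0 l
  have h1 := Zf_blocks L hδ.le (le_refl m)
  have hpos : ∀ k ∈ Finset.range m, 0 < 1 + δ * ∑ l ∈ blk B n k, w l := fun k _ => by
    have := mul_nonneg hδ.le (hw k)
    linarith
  have h2 := Real.log_le_log (Finset.prod_pos hpos) h1
  rw [Real.log_prod (fun k hk => (hpos k hk).ne')] at h2
  have h3 : ∑ k ∈ Finset.range m, (δ * ∑ l ∈ blk B n k, w l - δ ^ 2 * (n * C0) ^ 2 / 2) ≤
      ∑ k ∈ Finset.range m, Real.log (1 + δ * ∑ l ∈ blk B n k, w l) := by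
    refine Finset.sum_le_sum fun k hk => le_trans ?_ (log_low (mul_nonneg hδ.le (hw k)))
    have h4 := blk_le L (Finset.mem_range.1 hk)
    have h5 : (∑ l ∈ blk B n k, w l) ^ 2 ≤ (n * C0) ^ 2 := pow_le_pow_left₀ (hw k) h4 2
    have h6 := mul_le_mul_of_nonneg_left h5 (sq_nonneg δ)
    rw [mul_pow]
    linarith
  have h7 : ∀ j ≤ m, ∑ l ∈ B (j * n), w l ≤ ∑ k ∈ Finset.range j, ((∑ l ∈ blk B n k, w l) + C0) := by
    intro j hj
    induction j with
    | zero => simp [L.B0]
    | succ j ih =>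
      rw [Finset.sum_range_succ]
      have h8 := blk_ge L (k := j) (by omega)
      have h9 := ih (by omega)
      linarith
  have h8 := h7 m le_rfl
  rw [Finset.sum_add_distrib, Finset.sum_const, Finset.card_range, nsmul_eq_mul] at h8
  rw [Finset.sum_sub_distrib, Finset.sum_const, Finset.card_range, nsmul_eq_mul, ← Finset.mul_sum] at h3
  have h9 : δ * ∑ k ∈ Finset.range m, ∑ l ∈ blk B n k, w l ≤
      Real.log (Zf (fun l => δ * w l) (B (m * n))) + m * (δ ^ 2 * (n * C0) ^ 2 / 2) := by linarith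
  have h10 : ∑ k ∈ Finset.range m, ∑ l ∈ blk B n k, w l ≤
      (Real.log (Zf (fun l => δ * w l) (B (m * n))) + m * (δ ^ 2 * (n * C0) ^ 2 / 2)) / δ := by
    rw [le_div_iff₀ hδ]
    linarith
  have h11 : (Real.log (Zf (fun l => δ * w l) (B (m * n))) + m * (δ ^ 2 * (n * C0) ^ 2 / 2)) / δ =
      Real.log (Zf (fun l => δ * w l) (B (m * n))) / δ + δ * (n * C0) ^ 2 * m / 2 := by
    field_simp
  linarith

end

end Pool.Agent.NUA
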