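import Mathlib

/-!
The integrals of `log (1 + 2 cos a e^{-x} + e^{-2x})`:
`∫_0^∞ = π²/6 - a²/2` for `|a| ≤ π`, and what follows for the quanta gas.
-/

open MeasureTheory Set Filter Topology

namespace NUA

theorem integrable_tsum_aux {α : Type*} [MeasurableSpace α] {μ : Measure α} {F : ℕ → α → ℝ}
    (hF : ∀ i, Integrable (F i) μ) (hs : Summable fun i => ∫ a, ‖F i a‖ ∂μ) :
    Integrable (fun a => ∑' i, F i a) μ := by
  have h1 : ∑' i, ∫⁻ a, ‖F i a‖ₑ ∂μ ≠ ⊤ := by
    have e : ∀ i, ∫⁻ a, ‖F i a‖ₑ ∂μ = ENNReal.ofReal (∫ a, ‖F i a‖ ∂μ) := by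
      intro i
      rw [ofReal_integral_norm_eq_lintegral_enorm (hF i)]
    simp_rw [e]
    rw [← ENNReal.ofReal_tsum_of_nonneg (fun i => integral_nonneg fun _ => norm_nonneg _) hs]
    exact ENNReal.ofReal_ne_top
  have h2 : ∫⁻ a, ∑' i, ‖F i a‖ₑ ∂μ ≠ ⊤ := by
    rw [lintegral_tsum fun i => (hF i).1.enorm]
    exact h1
  have h3 : ∀ᵐ a ∂μ, ∑' i, ‖F i a‖ₑ < ⊤ :=
    ae_lt_top' (AEMeasurable.tsum fun i => (hF i).1.enorm) h2
  have h4 : ∀ᵐ a ∂μ, Summable fun i => ‖F i a‖ := by
    filter_upwards [h3] with a ha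
    have := ENNReal.summable_toReal ha.ne
    simpa using this
  refine ⟨?_, ?_⟩
  · refine aestronglyMeasurable_of_tendsto_ae atTop
      (f := fun (n : ℕ) a => ∑ i ∈ Finset.range n, F i a) (fun n => ?_) ?_
    · exact (Finset.range n).aestronglyMeasurable_fun_sum fun i _ => (hF i).1
    · filter_upwards [h4] with a ha
      exact (ha.of_norm).hasSum.tendsto_sum_nat
  · refine lt_of_le_of_lt ?_ (lt_top_iff_ne_top.2 h2)
    refine lintegral_mono_ae ?_
    filter_upwards [h4, h3] with a ha ha3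
    have h5 : ‖∑' i, F i a‖ ≤ ∑' i, ‖F i a‖ := norm_tsum_le_tsum_norm ha
    have h6 : ENNReal.ofReal (∑' i, ‖F i a‖) = ∑' i, ‖F i a‖ₑ := by
      rw [ENNReal.ofReal_tsum_of_nonneg (fun i => norm_nonneg _) ha]
      exact tsum_congr fun i => ofReal_norm _
    rw [← h6, ← ofReal_norm]
    exact ENNReal.ofReal_le_ofReal h5

/-- the function -/
noncomputable def lg (a x : ℝ) : ℝ :=
  Real.log (1 + 2 * Real.cos a * Real.exp (-x) + Real.exp (-(2 * x)))

theorem lg_hasSum (a : ℝ) {x : ℝ} (hx : 0 < x) :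
    HasSum (fun n : ℕ => -(2 * Real.cos (n * (a + Real.pi)) / n) * Real.exp (-(n * x))) (lg a x) := by
  set z : ℂ := Complex.exp (((a + Real.pi : ℝ) : ℂ) * Complex.I) * (Real.exp (-x) : ℝ) with hz
  have hn : ‖z‖ = Real.exp (-x) := by
    rw [hz, norm_mul, Complex.norm_exp_ofReal_mul_I, Complex.norm_real, one_mul,
      Real.norm_of_nonneg (Real.exp_pos _).le]
  have hz1 : ‖z‖ < 1 := by
    rw [hn, Real.exp_lt_one_iff]
    linarith
  have h1 := Complex.hasSum_re (Complex.hasSum_taylorSeries_neg_log hz1)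
  have h2 := h1.mul_left (-2)
  have e1 : -2 * (-Complex.log (1 - z)).re = lg a x := by
    rw [Complex.neg_re, Complex.log_re, lg]
    have h3 : 1 + 2 * Real.cos a * Real.exp (-x) + Real.exp (-(2 * x)) = ‖1 - z‖ ^ 2 := by
      rw [← Complex.normSq_eq_norm_sq, Complex.normSq_sub, map_one, Complex.normSq_eq_norm_sq, hn]
      have h4 : ((1 : ℂ) * (starRingEnd ℂ) z).re = -(Real.cos a * Real.exp (-x)) := by
        rw [one_mul, Complex.conj_re, hz, Complex.re_mul_ofReal, Complex.exp_ofReal_mul_I_re,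
          Real.cos_add_pi]
        ring
      rw [h4, ← Real.exp_nat_mul]
      push_cast
      have h5 : (2 : ℝ) * -x = -(2 * x) := by ring
      rw [h5]
      ring
    rw [h3, Real.log_pow]
    push_cast
    ring
  rw [e1] at h2
  have e2 : ∀ n : ℕ, -2 * (z ^ n / (n : ℂ)).re =
      -(2 * Real.cos (n * (a + Real.pi)) / n) * Real.exp (-(n * x)) := by
    intro n
    have h6 : z ^ n = Complex.exp (((n * (a + Real.pi) : ℝ) : ℂ) * Complex.I) *
        (Real.exp (-(n * x)) : ℝ) := by
      rw [hz, mul_pow, ← Complex.exp_nat_mul, ← Complex.ofReal_pow, ← Real.exp_nat_mul]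
      congr 2
      · push_cast
        ring
      · congr 1
        ring
    have h7 : (z ^ n / (n : ℂ)).re = (z ^ n).re / n := by
      rw [← Complex.ofReal_natCast, Complex.div_ofReal_re]
    rw [h7, h6, Complex.re_mul_ofReal, Complex.exp_ofReal_mul_I_re]
    ring
  simpa only [e2] using h2

theorem exp_int (n : ℕ) (hn : n ≠ 0) : ∫ x in Ioi (0 : ℝ), Real.exp (-(n * x)) = 1 / n := by
  have hn' : (0 : ℝ) < n := by exact_mod_cast Nat.pos_of_ne_zero hn
  have h := integral_exp_mul_Ioi (a := -(n : ℝ)) (by linarith) 0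
  have e : ∀ x : ℝ, Real.exp (-((n : ℝ) * x)) = Real.exp (-(n : ℝ) * x) := fun x => by
    congr 1
    ring
  simp_rw [e]
  rw [h]
  simp

theorem exp_integrable (n : ℕ) (hn : n ≠ 0) :
    IntegrableOn (fun x : ℝ => Real.exp (-(n * x))) (Ioi 0) := by
  have hn' : (0 : ℝ) < n := by exact_mod_cast Nat.pos_of_ne_zero hn
  have h := integrableOn_exp_mul_Ioi (a := -(n : ℝ)) (by linarith) 0
  refine h.congr_fun (fun x _ => ?_) measurableSet_Ioi
  simp only
  congr 1
  ring

theorem lg_aux (a : ℝ) :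
    (∀ n : ℕ, IntegrableOn (fun x : ℝ => -(2 * Real.cos (n * (a + Real.pi)) / n) *
      Real.exp (-(n * x))) (Ioi 0)) ∧
    Summable fun n : ℕ => ∫ x in Ioi (0 : ℝ), ‖-(2 * Real.cos (n * (a + Real.pi)) / n) *
      Real.exp (-(n * x))‖ := by
  have h1 : ∀ n : ℕ, IntegrableOn (fun x : ℝ => -(2 * Real.cos (n * (a + Real.pi)) / n) *
      Real.exp (-(n * x))) (Ioi 0) := by
    intro n
    rcases Nat.eq_zero_or_pos n with rfl | hn
    · simp
    · exact (exp_integrable n hn.ne').const_mul _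
  refine ⟨h1, ?_⟩
  have h2 : Summable fun n : ℕ => 2 * (1 / (n : ℝ) ^ 2) :=
    (Real.summable_one_div_nat_pow.2 one_lt_two).mul_left 2
  refine Summable.of_nonneg_of_le (fun n => integral_nonneg fun _ => norm_nonneg _) (fun n => ?_) h2
  rcases Nat.eq_zero_or_pos n with rfl | hn
  · simp
  · have hn' : (0 : ℝ) < n := by exact_mod_cast hn
    have e : ∀ x : ℝ, ‖-(2 * Real.cos (n * (a + Real.pi)) / n) * Real.exp (-(n * x))‖ =
        |2 * Real.cos (n * (a + Real.pi)) / n| * Real.exp (-(n * x)) := by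
      intro x
      rw [norm_mul, norm_neg, Real.norm_eq_abs, Real.norm_of_nonneg (Real.exp_pos _).le]
    simp_rw [e]
    rw [integral_const_mul, exp_int n hn.ne', abs_div, abs_mul, abs_of_pos hn', abs_two]
    have h3 := Real.abs_cos_le_one (n * (a + Real.pi))
    have h4 : 2 * |Real.cos (n * (a + Real.pi))| / n * (1 / n) =
        |Real.cos (n * (a + Real.pi))| * (2 * (1 / (n : ℝ) ^ 2)) := by
      field_simp
    rw [h4]
    exact mul_le_of_le_one_left (by positivity) h3

theorem lg_integrable (a : ℝ) : IntegrableOn (lg a) (Ioi 0) := by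
  obtain ⟨h1, h2⟩ := lg_aux a
  have h3 := integrable_tsum_aux (μ := volume.restrict (Ioi (0 : ℝ))) h1 h2
  refine h3.congr ?_
  filter_upwards [ae_restrict_mem measurableSet_Ioi] with x hx
  exact (lg_hasSum a hx).tsum_eq

/-- **the basic integral** -/
theorem lg_integral (a : ℝ) (ha : |a| ≤ Real.pi) :
    ∫ x in Ioi (0 : ℝ), lg a x = Real.pi ^ 2 / 6 - a ^ 2 / 2 := by
  obtain ⟨h1, h2⟩ := lg_aux a
  have h3 := hasSum_integral_of_summable_integral_norm (μ := volume.restrict (Ioi (0 : ℝ))) h1 h2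
  have h4 : ∫ x in Ioi (0 : ℝ), lg a x = ∫ x in Ioi (0 : ℝ), ∑' n : ℕ,
      -(2 * Real.cos (n * (a + Real.pi)) / n) * Real.exp (-(n * x)) := by
    refine setIntegral_congr_fun measurableSet_Ioi fun x hx => ?_
    exact ((lg_hasSum a hx).tsum_eq).symm
  rw [h4]
  have hpi := Real.pi_pos
  have hx : (a + Real.pi) / (2 * Real.pi) ∈ Icc (0 : ℝ) 1 := by
    have := abs_le.1 ha
    constructor
    · apply div_nonneg <;> linarith
    · rw [div_le_one (by positivity)]
      linarith
  have h5 := (hasSum_one_div_nat_pow_mul_cos one_ne_zero hx).mul_left (-2)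
  have e1 : ∀ n : ℕ, ∫ x in Ioi (0 : ℝ), -(2 * Real.cos (n * (a + Real.pi)) / n) *
      Real.exp (-(n * x)) = -2 * (1 / (n : ℝ) ^ (2 * 1) *
        Real.cos (2 * Real.pi * n * ((a + Real.pi) / (2 * Real.pi)))) := by
    intro n
    rcases Nat.eq_zero_or_pos n with rfl | hn
    · simp
    · have hn' : (n : ℝ) ≠ 0 := by exact_mod_cast hn.ne'
      rw [integral_const_mul, exp_int n hn.ne']
      have h6 : 2 * Real.pi * n * ((a + Real.pi) / (2 * Real.pi)) = n * (a + Real.pi) := by
        field_simp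
      rw [h6]
      field_simp
      ring
  simp_rw [e1] at h3
  have h7 := h3.unique h5
  rw [h7]
  have hB : (Polynomial.map (algebraMap ℚ ℝ) (Polynomial.bernoulli (2 * 1))).eval
      ((a + Real.pi) / (2 * Real.pi)) = ((a + Real.pi) / (2 * Real.pi)) ^ 2 -
        (a + Real.pi) / (2 * Real.pi) + 1 / 6 := by
    simp only [mul_one, Polynomial.bernoulli, Finset.sum_range_succ, Finset.sum_range_zero,
      bernoulli_zero, _root_.bernoulli_one, _root_.bernoulli_two, Polynomial.map_add,
      Polynomial.map_monomial, Polynomial.eval_add, Polynomial.eval_monomial]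
    norm_num
    ring
  rw [hB]
  simp only [Nat.factorial]
  push_cast
  field_simp
  ring

/-! ### consequences on the whole line -/

theorem cosh_add_pos {x : ℝ} (hx : x ≠ 0) (a : ℝ) : 0 < Real.cosh x + Real.cos a := by
  have h1 := Real.one_lt_cosh.2 hx
  have h2 := Real.neg_one_le_cos a
  linarith

theorem lg_eq {x : ℝ} (hx : 0 < x) (a : ℝ) :
    Real.log (Real.cosh x + Real.cos a) = lg a x + (x - Real.log 2) := by
  have h1 : 1 + 2 * Real.cos a * Real.exp (-x) + Real.exp (-(2 * x)) =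
      (Real.cosh x + Real.cos a) * (2 * Real.exp (-x)) := by
    rw [Real.cosh_eq]
    have h2 : Real.exp (-(2 * x)) = Real.exp (-x) * Real.exp (-x) := by
      rw [← Real.exp_add]
      congr 1
      ring
    have h3 : Real.exp x * Real.exp (-x) = 1 := by
      rw [← Real.exp_add]
      simp
    rw [h2]
    linear_combination (-1 : ℝ) * h3
  rw [lg, h1, Real.log_mul (cosh_add_pos hx.ne' a).ne' (by positivity),
    Real.log_mul two_ne_zero (Real.exp_pos _).ne', Real.log_exp]
  ring

/-- a family of factors `cosh (c t) + cos a_i` with exponents `e_i` of total exponent `0` -/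
theorem log_cosh_half {ι : Type*} (s : Finset ι) (e a : ι → ℝ) (he : ∑ i ∈ s, e i = 0)
    (ha : ∀ i ∈ s, |a i| ≤ Real.pi) :
    IntegrableOn (fun x : ℝ => ∑ i ∈ s, e i * Real.log (Real.cosh x + Real.cos (a i))) (Ioi 0) ∧
    ∫ x in Ioi (0 : ℝ), ∑ i ∈ s, e i * Real.log (Real.cosh x + Real.cos (a i)) =
      -(∑ i ∈ s, e i * a i ^ 2) / 2 := by
  have h1 : ∀ x ∈ Ioi (0 : ℝ), ∑ i ∈ s, e i * lg (a i) x =
      ∑ i ∈ s, e i * Real.log (Real.cosh x + Real.cos (a i)) := by
    intro x hx
    have h2 : ∀ i ∈ s, e i * Real.log (Real.cosh x + Real.cos (a i)) =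
        e i * lg (a i) x + e i * (x - Real.log 2) := by
      intro i _
      rw [lg_eq hx]
      ring
    rw [Finset.sum_congr rfl h2, Finset.sum_add_distrib, ← Finset.sum_mul, he]
    ring
  have h3 : ∀ i ∈ s, Integrable (fun x => e i * lg (a i) x) (volume.restrict (Ioi (0 : ℝ))) :=
    fun i _ => (lg_integrable (a i)).const_mul _
  constructor
  · exact (integrable_finsetSum s h3).congr
      ((ae_restrict_mem measurableSet_Ioi).mono fun x hx => h1 x hx)
  · rw [← setIntegral_congr_fun measurableSet_Ioi h1, integral_finsetSum s h3]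
    have h4 : ∀ i ∈ s, ∫ x in Ioi (0 : ℝ), e i * lg (a i) x =
        e i * (Real.pi ^ 2 / 6) - e i * a i ^ 2 / 2 := by
      intro i hi
      rw [integral_const_mul, lg_integral _ (ha i hi)]
      ring
    rw [Finset.sum_congr rfl h4, Finset.sum_sub_distrib, ← Finset.sum_mul, he,
      ← Finset.sum_div]
    ring

/-- even functions -/
theorem even_integrable {f : ℝ → ℝ} (hf : IntegrableOn f (Ioi 0)) (he : ∀ x, f (-x) = f x) :
    Integrable f := by
  have h1 : IntegrableOn f (Iio 0) := by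
    have h2 : IntegrableOn (fun x => f (-x)) (Iio 0) := by
      have h3 := ((Measure.measurePreserving_neg (volume : Measure ℝ)).integrableOn_comp_preimage
        (MeasurableEquiv.neg ℝ).measurableEmbedding (f := f) (s := Ioi (0 : ℝ))).2 hf
      have h4 : (Neg.neg : ℝ → ℝ) ⁻¹' Ioi 0 = Iio 0 := by
        ext x
        simp
      rw [h4] at h3
      exact h3
    exact h2.congr_fun (fun x _ => he x) measurableSet_Iio
  have h4 : IntegrableOn f (Iic 0) := by
    rw [← Iio_union_right]
    refine h1.union ?_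
    simp
  have h5 := h4.union hf
  rwa [Iic_union_Ioi, integrableOn_univ] at h5

theorem log_cosh_line {ι : Type*} (s : Finset ι) (e a : ι → ℝ) (he : ∑ i ∈ s, e i = 0)
    (ha : ∀ i ∈ s, |a i| ≤ Real.pi) (c : ℝ) (hc : 0 < c) :
    Integrable (fun t : ℝ => ∑ i ∈ s, e i * Real.log (Real.cosh (c * t) + Real.cos (a i))) ∧
    ∫ t : ℝ, ∑ i ∈ s, e i * Real.log (Real.cosh (c * t) + Real.cos (a i)) =
      -(∑ i ∈ s, e i * a i ^ 2) / c := by
  obtain ⟨h1, h2⟩ := log_cosh_half s e a he ha
  set f : ℝ → ℝ := fun x => ∑ i ∈ s, e i * Real.log (Real.cosh x + Real.cos (a i)) with hf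
  have heven : ∀ x, f (-x) = f x := fun x => by simp only [hf, Real.cosh_neg]
  have h3 := even_integrable h1 heven
  constructor
  · exact h3.comp_mul_left' hc.ne'
  · have h4 := Measure.integral_comp_mul_left f c
    have h5 : ∫ x, f x = 2 * ∫ x in Ioi (0 : ℝ), f x := by
      rw [← integral_comp_abs]
      congr 1
      funext x
      rcases abs_choice x with h | h
      · rw [h]
      · rw [h, heven]
    rw [h5] at h4
    simp only [hf] at h4 h2
    rw [h4, h2, abs_of_pos (inv_pos.2 hc), smul_eq_mul]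
    ring

/-- the one component integral: `∫ log ((cosh (c t) + cos a)/(cosh (c t) + cos b))` -/
theorem log_ratio (a b c : ℝ) (ha : |a| ≤ Real.pi) (hb : |b| ≤ Real.pi) (hc : 0 < c) :
    Integrable (fun t : ℝ => Real.log (Real.cosh (c * t) + Real.cos a) -
      Real.log (Real.cosh (c * t) + Real.cos b)) ∧
    ∫ t : ℝ, (Real.log (Real.cosh (c * t) + Real.cos a) -
      Real.log (Real.cosh (c * t) + Real.cos b)) = (b ^ 2 - a ^ 2) / c := by
  have h := log_cosh_line (Finset.univ : Finset (Fin 2)) ![1, -1] ![a, b] (by simp)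
    (by intro i _; fin_cases i <;> simpa) c hc
  simp only [Fin.sum_univ_two, Matrix.cons_val_zero, Matrix.cons_val_one, one_mul,
    neg_mul] at h
  obtain ⟨h1, h2⟩ := h
  have e : (fun t : ℝ => Real.log (Real.cosh (c * t) + Real.cos a) +
      -Real.log (Real.cosh (c * t) + Real.cos b)) = fun t : ℝ =>
      Real.log (Real.cosh (c * t) + Real.cos a) - Real.log (Real.cosh (c * t) + Real.cos b) := by
    funext t
    ring
  rw [e] at h1
  refine ⟨h1, ?_⟩
  simp only [← sub_eq_add_neg] at h2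
  rw [h2]
  ring

/-- the one-loop integral of the quanta gas: with `c = cosh y`,
`∫_0^∞ log ((2c-1)⁴ (2c+1)² / ((2c)² (2 cosh 2y)²)) dy = -π²/8` -/
theorem one_loop :
    IntegrableOn (fun y : ℝ => 4 * Real.log (2 * Real.cosh y - 1) +
      2 * Real.log (2 * Real.cosh y + 1) - 2 * Real.log (2 * Real.cosh y) -
      2 * Real.log (2 * Real.cosh (2 * y))) (Ioi 0) ∧
    ∫ y in Ioi (0 : ℝ), (4 * Real.log (2 * Real.cosh y - 1) +
      2 * Real.log (2 * Real.cosh y + 1) - 2 * Real.log (2 * Real.cosh y) -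
      2 * Real.log (2 * Real.cosh (2 * y))) = -Real.pi ^ 2 / 8 := by
  have hpi := Real.pi_pos
  have h1 : ∀ y ∈ Ioi (0 : ℝ), 4 * lg (2 * Real.pi / 3) y + 2 * lg (Real.pi / 3) y -
      2 * lg (Real.pi / 2) y - 2 * lg (Real.pi / 2) (2 * y) =
      4 * Real.log (2 * Real.cosh y - 1) +
      2 * Real.log (2 * Real.cosh y + 1) - 2 * Real.log (2 * Real.cosh y) -
      2 * Real.log (2 * Real.cosh (2 * y)) := by
    intro y hy
    have hy' : (0 : ℝ) < y := hy
    have hc23 : Real.cos (2 * Real.pi / 3) = -1 / 2 := by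
      have : 2 * Real.pi / 3 = Real.pi - Real.pi / 3 := by ring
      rw [this, Real.cos_pi_sub, Real.cos_pi_div_three]
      ring
    have e1 := lg_eq hy' (2 * Real.pi / 3)
    have e2 := lg_eq hy' (Real.pi / 3)
    have e3 := lg_eq hy' (Real.pi / 2)
    have e4 := lg_eq (x := 2 * y) (by linarith) (Real.pi / 2)
    rw [hc23] at e1
    rw [Real.cos_pi_div_three] at e2
    rw [Real.cos_pi_div_two, add_zero] at e3 e4
    have hcy : 1 < Real.cosh y := Real.one_lt_cosh.2 hy'.ne'
    have hc2y : 0 < Real.cosh (2 * y) := Real.cosh_pos _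
    have f1 : Real.log (2 * Real.cosh y - 1) = Real.log 2 + Real.log (Real.cosh y + -1 / 2) := by
      rw [← Real.log_mul two_ne_zero (by linarith)]
      congr 1
      ring
    have f2 : Real.log (2 * Real.cosh y + 1) = Real.log 2 + Real.log (Real.cosh y + 1 / 2) := by
      rw [← Real.log_mul two_ne_zero (by linarith)]
      congr 1
      ring
    have f3 : Real.log (2 * Real.cosh y) = Real.log 2 + Real.log (Real.cosh y) := by
      rw [Real.log_mul two_ne_zero (by linarith)]
    have f4 : Real.log (2 * Real.cosh (2 * y)) = Real.log 2 + Real.log (Real.cosh (2 * y)) := by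
      rw [Real.log_mul two_ne_zero hc2y.ne']
    rw [f1, f2, f3, f4, e1, e2, e3, e4]
    ring
  have i1 : ∀ a : ℝ, IntegrableOn (fun y : ℝ => lg a (2 * y)) (Ioi 0) := by
    intro a
    have h2 := (integrableOn_Ioi_comp_mul_left_iff (lg a) 0 (a := 2) two_pos).2
      (by simpa using lg_integrable a)
    exact h2
  have h2 : ∫ y in Ioi (0 : ℝ), lg (Real.pi / 2) (2 * y) =
      (Real.pi ^ 2 / 6 - (Real.pi / 2) ^ 2 / 2) / 2 := by
    rw [integral_comp_mul_left_Ioi (lg (Real.pi / 2)) 0 two_pos, mul_zero,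
      lg_integral _ (by rw [abs_of_pos (by positivity)]; linarith), smul_eq_mul]
    ring
  have j1 := (lg_integrable (2 * Real.pi / 3)).const_mul 4
  have j2 := (lg_integrable (Real.pi / 3)).const_mul 2
  have j3 := (lg_integrable (Real.pi / 2)).const_mul 2
  have j4 := (i1 (Real.pi / 2)).const_mul 2
  have k1 : IntegrableOn (fun y : ℝ => 4 * lg (2 * Real.pi / 3) y + 2 * lg (Real.pi / 3) y)
    (Ioi 0) := j1.add j2
  have k2 : IntegrableOn (fun y : ℝ => 4 * lg (2 * Real.pi / 3) y + 2 * lg (Real.pi / 3) y -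
    2 * lg (Real.pi / 2) y) (Ioi 0) := k1.sub j3
  constructor
  · refine IntegrableOn.congr_fun ?_ h1 measurableSet_Ioi
    exact k2.sub j4
  · rw [← setIntegral_congr_fun measurableSet_Ioi h1, integral_sub k2 j4,
      integral_sub k1 j3, integral_add j1 j2, integral_const_mul, integral_const_mul,
      integral_const_mul, integral_const_mul, h2,
      lg_integral _ (by rw [abs_of_pos (by positivity)]; linarith),
      lg_integral _ (by rw [abs_of_pos (by positivity)]; linarith),
      lg_integral _ (by rw [abs_of_pos (by positivity)]; linarith)]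
    ring

/-- `∫ v = 9π²/32` for the row potential `v(t) = log ((cosh 2t + 1)/(cosh 2t - √2/2))` -/
theorem v_integral :
    Integrable (fun t : ℝ => Real.log (Real.cosh (2 * t) + 1) -
      Real.log (Real.cosh (2 * t) - √2 / 2)) ∧
    ∫ t : ℝ, (Real.log (Real.cosh (2 * t) + 1) - Real.log (Real.cosh (2 * t) - √2 / 2)) =
      9 * Real.pi ^ 2 / 32 := by
  have hpi := Real.pi_pos
  have h := log_ratio 0 (3 * Real.pi / 4) 2 (by rw [abs_zero]; exact hpi.le)
    (by rw [abs_of_pos (by positivity)]; linarith) two_pos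
  have hc : Real.cos (3 * Real.pi / 4) = -(√2 / 2) := by
    have : 3 * Real.pi / 4 = Real.pi - Real.pi / 4 := by ring
    rw [this, Real.cos_pi_sub, Real.cos_pi_div_four]
  rw [hc, Real.cos_zero] at h
  simp only [← sub_eq_add_neg] at h
  refine ⟨h.1, ?_⟩
  rw [h.2]
  ring

/-- `∫ V_T = 9π²/32` for the symmetric pair potential
`V_T = log ((C + r)² (C - r) / ((C² - 1) C))`, `C = cosh 2t`, `r = √2/2` -/
theorem VT_integral :
    Integrable (fun t : ℝ => 2 * Real.log (Real.cosh (2 * t) + √2 / 2) +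
      Real.log (Real.cosh (2 * t) - √2 / 2) - Real.log (Real.cosh (2 * t) - 1) -
      Real.log (Real.cosh (2 * t) + 1) - Real.log (Real.cosh (2 * t))) ∧
    ∫ t : ℝ, (2 * Real.log (Real.cosh (2 * t) + √2 / 2) +
      Real.log (Real.cosh (2 * t) - √2 / 2) - Real.log (Real.cosh (2 * t) - 1) -
      Real.log (Real.cosh (2 * t) + 1) - Real.log (Real.cosh (2 * t))) =
      9 * Real.pi ^ 2 / 32 := by
  have hpi := Real.pi_pos
  have h := log_cosh_line (Finset.univ : Finset (Fin 5)) ![2, 1, -1, -1, -1]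
    ![Real.pi / 4, 3 * Real.pi / 4, Real.pi, 0, Real.pi / 2]
    (by simp [Fin.sum_univ_succ]; norm_num)
    (by
      intro i _
      fin_cases i
      · simp only [Fin.zero_eta, Matrix.cons_val_zero]
        rw [abs_of_pos (by positivity)]; linarith
      · simp [abs_of_pos hpi, abs_mul, abs_div]; linarith
      · simp [abs_of_pos hpi]
      · simp [hpi.le]
      · change |Real.pi / 2| ≤ Real.pi
        rw [abs_of_pos (by positivity)]; linarith) 2 two_pos
  have hc : Real.cos (3 * Real.pi / 4) = -(√2 / 2) := by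
    have : 3 * Real.pi / 4 = Real.pi - Real.pi / 4 := by ring
    rw [this, Real.cos_pi_sub, Real.cos_pi_div_four]
  have e : ∀ t : ℝ, ∑ i : Fin 5, (![2, 1, -1, -1, -1] : Fin 5 → ℝ) i *
      Real.log (Real.cosh (2 * t) + Real.cos
        ((![Real.pi / 4, 3 * Real.pi / 4, Real.pi, 0, Real.pi / 2] : Fin 5 → ℝ) i)) =
      2 * Real.log (Real.cosh (2 * t) + √2 / 2) +
      Real.log (Real.cosh (2 * t) - √2 / 2) - Real.log (Real.cosh (2 * t) - 1) -
      Real.log (Real.cosh (2 * t) + 1) - Real.log (Real.cosh (2 * t)) := by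
    intro t
    simp only [Fin.sum_univ_succ, Fin.sum_univ_zero, Matrix.cons_val_zero, Matrix.cons_val_succ]
    rw [hc, Real.cos_pi_div_four, Real.cos_pi, Real.cos_zero, Real.cos_pi_div_two]
    ring_nf
  have e2 : ∑ i : Fin 5, (![2, 1, -1, -1, -1] : Fin 5 → ℝ) i *
      ((![Real.pi / 4, 3 * Real.pi / 4, Real.pi, 0, Real.pi / 2] : Fin 5 → ℝ) i) ^ 2 =
      -(9 * Real.pi ^ 2 / 16) := by
    simp only [Fin.sum_univ_succ, Fin.sum_univ_zero, Matrix.cons_val_zero, Matrix.cons_val_succ]
    ring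
  simp only [e, e2] at h
  refine ⟨h.1, ?_⟩
  rw [h.2]
  ring

/-- the pressure integral of the dual gas: `∫_ℝ log (1 + 1/(2 cosh x)) dx = 5π²/36` -/
theorem dual_integral :
    Integrable (fun x : ℝ => Real.log (1 + 1 / (2 * Real.cosh x))) ∧
    ∫ x : ℝ, Real.log (1 + 1 / (2 * Real.cosh x)) = 5 * Real.pi ^ 2 / 36 := by
  have hpi := Real.pi_pos
  have h := log_ratio (Real.pi / 3) (Real.pi / 2) 1
    (by rw [abs_of_pos (by positivity)]; linarith)
    (by rw [abs_of_pos (by positivity)]; linarith) one_pos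
  have e : (fun t : ℝ => Real.log (Real.cosh (1 * t) + Real.cos (Real.pi / 3)) -
      Real.log (Real.cosh (1 * t) + Real.cos (Real.pi / 2))) =
      fun x : ℝ => Real.log (1 + 1 / (2 * Real.cosh x)) := by
    funext x
    have hc := Real.cosh_pos x
    rw [one_mul, Real.cos_pi_div_three, Real.cos_pi_div_two, add_zero,
      ← Real.log_div (by positivity) hc.ne']
    congr 1
    field_simp
  rw [e] at h
  refine ⟨h.1, ?_⟩
  rw [h.2]
  ring

end NUA
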