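import Pool.Agent.NUP.MF.Const

/-!
# The value of `∫ P v`

With `I j = H 0 (j l) = ∫ P(s) log (cosh 2s + cos (2 j l)) ds`:
`I 0 = log (8 (1 + r)² / 9)`, `I 1 = log (4 (1 + r) / 3)`, `I 2 = log (3 / 2)`,
`I 3 = log (9 / (8 (1 + r)))`, and
`∫ P v = log (64 (1 + r)³ / 81) = log ((4 + 2 √2)³ / 81)`.
-/

set_option autoImplicit false

open MeasureTheory Set Filter Topology Complex

namespace NUMF

noncomputable section

/-! ### change of variables: the angle of the Cauchy law -/

/-- the angle of `2 sinh (8t/3) / √3` -/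
def th (t : ℝ) : ℝ := Real.arctan (2 / √3 * Real.sinh (8 / 3 * t))

lemma th_eq (t : ℝ) : th t = Real.pi * G t := by
  unfold th G
  have := Real.pi_ne_zero
  field_simp

lemma hasDerivAt_th (t : ℝ) : HasDerivAt th (Real.pi * P t) t := by
  have h1 := (hasDerivAt_G t).const_mul Real.pi
  exact h1.congr_of_eventuallyEq (Eventually.of_forall fun t => th_eq t)

lemma th_inj : Function.Injective th := by
  intro a b hab
  rw [th_eq, th_eq] at hab
  exact G_strictMono.injective (mul_left_cancel₀ Real.pi_ne_zero hab)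

lemma th_range : th '' univ = Ioo (-(Real.pi / 2)) (Real.pi / 2) := by
  rw [image_univ]
  have h1 : th = Real.arctan ∘ (fun t : ℝ => 2 / √3 * Real.sinh (8 / 3 * t)) := rfl
  have h2 : Function.Surjective (fun t : ℝ => 2 / √3 * Real.sinh (8 / 3 * t)) := by
    intro y
    obtain ⟨x, hx⟩ := Real.sinh_surjective (√3 / 2 * y)
    refine ⟨3 / 8 * x, ?_⟩
    simp only
    rw [show 8 / 3 * (3 / 8 * x) = x by ring, hx]
    have := sq3_pos.ne'
    field_simp
  rw [h1, h2.range_comp, Real.range_arctan]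

lemma th_int (g : ℝ → ℝ) :
    (IntegrableOn g (Ioo (-(Real.pi / 2)) (Real.pi / 2)) → Integrable fun s => P s * g (th s)) ∧
    ∫ s, P s * g (th s) = 1 / Real.pi * ∫ x in Ioo (-(Real.pi / 2)) (Real.pi / 2), g x := by
  have hd : ∀ x ∈ (univ : Set ℝ), HasDerivWithinAt th (Real.pi * P x) univ x :=
    fun x _ => (hasDerivAt_th x).hasDerivWithinAt
  have hpi := Real.pi_pos
  have ha : ∀ s : ℝ, |Real.pi * P s| = Real.pi * P s := fun s =>
    abs_of_pos (mul_pos hpi (P_pos s))
  constructor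
  · intro hg
    rw [← th_range, integrableOn_image_iff_integrableOn_abs_deriv_smul MeasurableSet.univ hd
      th_inj.injOn g, integrableOn_univ] at hg
    refine (hg.const_mul (1 / Real.pi)).congr (Eventually.of_forall fun s => ?_)
    simp only [smul_eq_mul]
    rw [ha]
    field_simp
  · rw [← th_range, integral_image_eq_integral_abs_deriv_smul MeasurableSet.univ hd th_inj.injOn g,
      Measure.restrict_univ, ← integral_const_mul]
    refine integral_congr_ae (Eventually.of_forall fun s => ?_)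
    simp only [smul_eq_mul]
    rw [ha]
    field_simp

lemma logcos_int : IntegrableOn (fun x => Real.log (Real.cos x)) (Ioo (-(Real.pi / 2)) (Real.pi / 2)) ∧
    ∫ x in Ioo (-(Real.pi / 2)) (Real.pi / 2), Real.log (Real.cos x) = -Real.log 2 * Real.pi := by
  have hpi := Real.pi_pos
  have hle : -(Real.pi / 2) ≤ Real.pi / 2 := by linarith
  have h1 : IntervalIntegrable (fun x => Real.log (Real.cos x)) volume (-(Real.pi / 2)) (Real.pi / 2) :=
    intervalIntegrable_log_cos
  constructor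
  · exact ((intervalIntegrable_iff_integrableOn_Ioc_of_le hle).1 h1).mono_set Ioo_subset_Ioc_self
  · rw [← integral_Ioc_eq_integral_Ioo, ← intervalIntegral.integral_of_le hle]
    have h2 : ∫ x in (-(Real.pi / 2))..(Real.pi / 2), Real.log (Real.cos x) =
        ∫ x in (-(Real.pi / 2))..(Real.pi / 2), Real.log (Real.sin (x + Real.pi / 2)) := by
      simp_rw [Real.sin_add_pi_div_two]
    rw [h2, intervalIntegral.integral_comp_add_right (fun x => Real.log (Real.sin x))]
    rw [show -(Real.pi / 2) + Real.pi / 2 = 0 by ring, show Real.pi / 2 + Real.pi / 2 = Real.pi by ring]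
    exact integral_log_sin_zero_pi

lemma logsin_int : IntegrableOn (fun x => Real.log (Real.sin x)) (Ioo (-(Real.pi / 2)) (Real.pi / 2)) ∧
    ∫ x in Ioo (-(Real.pi / 2)) (Real.pi / 2), Real.log (Real.sin x) = -Real.log 2 * Real.pi := by
  have hpi := Real.pi_pos
  have hle : -(Real.pi / 2) ≤ Real.pi / 2 := by linarith
  have h1 : IntervalIntegrable (fun x => Real.log (Real.sin x)) volume (-(Real.pi / 2)) (Real.pi / 2) :=
    intervalIntegrable_log_sin
  constructor
  · exact ((intervalIntegrable_iff_integrableOn_Ioc_of_le hle).1 h1).mono_set Ioo_subset_Ioc_self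
  · rw [← integral_Ioc_eq_integral_Ioo, ← intervalIntegral.integral_of_le hle]
    have hper : Function.Periodic (fun x => Real.log (Real.sin x)) Real.pi := by
      intro x
      simp only
      rw [Real.sin_add_pi, Real.log_neg_eq_log]
    have h2 := hper.intervalIntegral_add_eq (-(Real.pi / 2)) 0
    rw [show -(Real.pi / 2) + Real.pi = Real.pi / 2 by ring, zero_add] at h2
    rw [h2]
    exact integral_log_sin_zero_pi

lemma log_cos_th (s : ℝ) : Real.log (Real.sinh (8 / 3 * s) ^ 2 + 3 / 4) =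
    Real.log (3 / 4) - 2 * Real.log (Real.cos (th s)) := by
  unfold th
  rw [Real.cos_arctan, Real.log_div one_ne_zero (by positivity), Real.log_one,
    Real.log_sqrt (by positivity)]
  have e : Real.sinh (8 / 3 * s) ^ 2 + 3 / 4 = 3 / 4 * (1 + (2 / √3 * Real.sinh (8 / 3 * s)) ^ 2) := by
    rw [mul_pow, div_pow, Real.sq_sqrt (by norm_num)]
    ring
  rw [e, Real.log_mul (by norm_num) (by positivity)]
  ring

lemma log_sin_th {s : ℝ} (hs : s ≠ 0) : Real.log (Real.sinh (8 / 3 * s) ^ 2) =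
    Real.log (3 / 4) + 2 * Real.log (Real.sin (th s)) - 2 * Real.log (Real.cos (th s)) := by
  have hS : Real.sinh (8 / 3 * s) ≠ 0 := by
    intro e
    have := Real.sinh_eq_zero.1 e
    apply hs
    linarith
  have h3 := sq3_pos
  have hT : 2 / √3 * Real.sinh (8 / 3 * s) ≠ 0 := mul_ne_zero (by positivity) hS
  have e1 : Real.sinh (8 / 3 * s) ^ 2 = 3 / 4 * (2 / √3 * Real.sinh (8 / 3 * s)) ^ 2 := by
    rw [mul_pow, div_pow, Real.sq_sqrt (by norm_num)]
    ring
  unfold th
  rw [e1, Real.log_mul (by norm_num) (by positivity), Real.log_pow, Real.sin_arctan, Real.cos_arctan]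
  have hq : √(1 + (2 / √3 * Real.sinh (8 / 3 * s)) ^ 2) ≠ 0 := by positivity
  rw [Real.log_div hT hq, Real.log_div one_ne_zero hq, Real.log_one]
  push_cast
  ring

/-- `∫ P log (S² + 3/4) = log 3`, `S = sinh (8s/3)` -/
theorem cauchy_a : Integrable (fun s => P s * Real.log (Real.sinh (8 / 3 * s) ^ 2 + 3 / 4)) ∧
    ∫ s, P s * Real.log (Real.sinh (8 / 3 * s) ^ 2 + 3 / 4) = Real.log 3 := by
  obtain ⟨i1, e1⟩ := logcos_int
  obtain ⟨t1, t2⟩ := th_int (fun x => Real.log (Real.cos x))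
  have j1 := t1 i1
  rw [e1] at t2
  have j0 : Integrable fun s => P s * Real.log (3 / 4) := P_integrable.mul_const _
  have hae : ∀ s : ℝ, P s * Real.log (Real.sinh (8 / 3 * s) ^ 2 + 3 / 4) =
      P s * Real.log (3 / 4) - 2 * (P s * Real.log (Real.cos (th s))) := by
    intro s
    rw [log_cos_th]
    ring
  simp_rw [hae]
  refine ⟨j0.sub (j1.const_mul 2), ?_⟩
  rw [integral_sub j0 (j1.const_mul 2), integral_P_mul, integral_const_mul, t2]
  have h3 := Real.pi_ne_zero
  have e3 : Real.log 3 = Real.log (3 / 4) + 2 * Real.log 2 := by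
    have : (3:ℝ) = 3 / 4 * 2 ^ 2 := by norm_num
    rw [show Real.log 3 = Real.log (3 / 4 * 2 ^ 2) by rw [← this],
      Real.log_mul (by norm_num) (by norm_num), Real.log_pow]
    push_cast
    ring
  rw [e3]
  field_simp
  ring

/-- `∫ P log S² = log (3/4)`, `S = sinh (8s/3)` -/
theorem cauchy_b : Integrable (fun s => P s * Real.log (Real.sinh (8 / 3 * s) ^ 2)) ∧
    ∫ s, P s * Real.log (Real.sinh (8 / 3 * s) ^ 2) = Real.log (3 / 4) := by
  obtain ⟨i1, e1⟩ := logcos_int
  obtain ⟨t1, t2⟩ := th_int (fun x => Real.log (Real.cos x))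
  have j1 := t1 i1
  rw [e1] at t2
  obtain ⟨i3, e3⟩ := logsin_int
  obtain ⟨t3, t4⟩ := th_int (fun x => Real.log (Real.sin x))
  have j3 := t3 i3
  rw [e3] at t4
  have j0 : Integrable fun s => P s * Real.log (3 / 4) := P_integrable.mul_const _
  have hae : (fun s => P s * Real.log (Real.sinh (8 / 3 * s) ^ 2)) =ᵐ[volume] fun s =>
      P s * Real.log (3 / 4) + 2 * (P s * Real.log (Real.sin (th s))) -
        2 * (P s * Real.log (Real.cos (th s))) := by
    filter_upwards [ae_ne_zero] with s hs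
    rw [log_sin_th hs]
    ring
  have k1 := j3.const_mul 2
  have k2 := j1.const_mul 2
  refine ⟨((j0.add k1).sub k2).congr hae.symm, ?_⟩
  have b1 := integral_add j0 k1
  have b2 := integral_sub (j0.add k1) k2
  simp only [Pi.add_apply] at b1 b2
  rw [integral_congr_ae hae, b2, b1, integral_P_mul, integral_const_mul, integral_const_mul, t2, t4]
  ring

/-! ### the logarithm of `sinh w / w` -/

lemma sinh_parts (w : ℂ) : (Complex.sinh w).re = Real.sinh w.re * Real.cos w.im ∧
    (Complex.sinh w).im = Real.cosh w.re * Real.sin w.im := by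
  have h1 : Complex.sinh w = ((Real.sinh w.re * Real.cos w.im : ℝ) : ℂ) +
      ((Real.cosh w.re * Real.sin w.im : ℝ) : ℂ) * I := by
    conv_lhs => rw [← Complex.re_add_im w]
    rw [Complex.sinh_add, Complex.cosh_mul_I, Complex.sinh_mul_I]
    push_cast
    ring
  have h2 := congrArg Complex.re h1
  have h3 := congrArg Complex.im h1
  simp only [Complex.add_re, Complex.add_im, Complex.re_ofReal_mul, Complex.im_ofReal_mul,
    Complex.ofReal_re, Complex.ofReal_im, Complex.I_re, Complex.I_im, mul_zero, mul_one, add_zero,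
    zero_add] at h2 h3
  exact ⟨h2, h3⟩

lemma norm_sinh_sq (w : ℂ) : ‖Complex.sinh w‖ ^ 2 = Real.sinh w.re ^ 2 + Real.sin w.im ^ 2 := by
  have h1 : Complex.sinh w = ((Real.sinh w.re * Real.cos w.im : ℝ) : ℂ) +
      ((Real.cosh w.re * Real.sin w.im : ℝ) : ℂ) * I := by
    conv_lhs => rw [← Complex.re_add_im w]
    rw [Complex.sinh_add, Complex.cosh_mul_I, Complex.sinh_mul_I]
    push_cast
    ring
  rw [h1, ← Complex.normSq_eq_norm_sq, Complex.normSq_add_mul_I]
  have e1 := Real.cosh_sq w.re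
  have e2 := Real.sin_sq_add_cos_sq w.im
  linear_combination (Real.sin w.im ^ 2) * e1 + Real.sinh w.re ^ 2 * e2

lemma shc_zero : shc 0 = 1 := by
  unfold shc
  rw [dslope_same, Complex.deriv_sinh, Complex.cosh_zero]

lemma shc_re_pos {w : ℂ} (hw : |w.im| < Real.pi / 2) : 0 < (shc w).re := by
  by_cases h0 : w = 0
  · rw [h0, shc_zero]
    simp
  have h1 := shc_mul w
  have h2 := sinh_parts w
  have hre := congrArg Complex.re h1
  have him := congrArg Complex.im h1
  rw [Complex.mul_re, h2.1] at hre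
  rw [Complex.mul_im, h2.2] at him
  have key : (shc w).re * (w.re ^ 2 + w.im ^ 2) = w.re * Real.sinh w.re * Real.cos w.im +
      Real.cosh w.re * (w.im * Real.sin w.im) := by
    linear_combination w.re * hre + w.im * him
  have hcos : 0 < Real.cos w.im := Real.cos_pos_of_mem_Ioo (by
    rw [abs_lt] at hw
    exact ⟨hw.1, hw.2⟩)
  have hcosh := Real.cosh_pos w.re
  have hxs : 0 ≤ w.re * Real.sinh w.re := by
    rcases le_total 0 w.re with h | h
    · exact mul_nonneg h (Real.sinh_nonneg_iff.2 h)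
    · exact mul_nonneg_of_nonpos_of_nonpos h (Real.sinh_nonpos_iff.2 h)
  have hpi := Real.pi_pos
  have hys : 0 ≤ w.im * Real.sin w.im := by
    rw [abs_lt] at hw
    rcases le_total 0 w.im with h | h
    · exact mul_nonneg h (Real.sin_nonneg_of_nonneg_of_le_pi h (by linarith))
    · exact mul_nonneg_of_nonpos_of_nonpos h (Real.sin_nonpos_of_nonpos_of_neg_pi_le h (by linarith))
  have hn : 0 < w.re ^ 2 + w.im ^ 2 := by
    by_contra hc
    have h3 : w.re ^ 2 = 0 := by nlinarith [sq_nonneg w.re, sq_nonneg w.im]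
    have h4 : w.im ^ 2 = 0 := by nlinarith [sq_nonneg w.re, sq_nonneg w.im]
    exact h0 (Complex.ext (by simpa using h3) (by simpa using h4))
  have hpos : 0 < w.re * Real.sinh w.re * Real.cos w.im + Real.cosh w.re * (w.im * Real.sin w.im) := by
    by_cases hx : w.re = 0
    · have hy : w.im ≠ 0 := by
        intro hy
        exact h0 (Complex.ext hx hy)
      have h5 : 0 < w.im * Real.sin w.im := by
        rw [abs_lt] at hw
        rcases lt_or_gt_of_ne hy with h | h
        · exact mul_pos_of_neg_of_neg h (Real.sin_neg_of_neg_of_neg_pi_lt h (by linarith))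
        · exact mul_pos h (Real.sin_pos_of_pos_of_lt_pi h (by linarith))
      have h6 : 0 ≤ w.re * Real.sinh w.re * Real.cos w.im := mul_nonneg hxs hcos.le
      have h7 := mul_pos hcosh h5
      linarith
    · have h5 : 0 < w.re * Real.sinh w.re := by
        rcases lt_or_gt_of_ne hx with h | h
        · exact mul_pos_of_neg_of_neg h (Real.sinh_neg_iff.2 h)
        · exact mul_pos h (Real.sinh_pos_iff.2 h)
      have h6 := mul_pos h5 hcos
      have h7 := mul_nonneg hcosh.le hys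
      linarith
  rw [← key] at hpos
  exact (pos_iff_pos_of_mul_pos hpos).2 hn

/-- `log (sinh w / w)` -/
def Lsh (w : ℂ) : ℂ := Complex.log (shc w)

lemma Lsh_diff {w : ℂ} (hw : |w.im| < Real.pi / 2) : DifferentiableAt ℂ Lsh w :=
  (shc_diff w).clog (Or.inl (shc_re_pos hw))

lemma Lsh_re {w : ℂ} (h0 : w ≠ 0) (hw : |w.im| < Real.pi / 2) :
    (Lsh w).re = Real.log ‖Complex.sinh w‖ - Real.log ‖w‖ := by
  have hs : shc w ≠ 0 := by
    intro e
    have h1 := shc_re_pos hw
    rw [e] at h1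
    simp at h1
  unfold Lsh
  rw [Complex.log_re, ← shc_mul w, norm_mul, Real.log_mul (norm_ne_zero_iff.2 h0)
    (norm_ne_zero_iff.2 hs)]
  ring

lemma Lsh_bound : ∃ A : ℝ, 0 ≤ A ∧ ∀ w : ℂ, |w.im| ≤ Real.pi / 3 → ‖Lsh w‖ ≤ 2 * |w.re| + A := by
  have hpi := Real.pi_pos
  have hcomp : IsCompact (Icc (-1:ℝ) 1 ×ℂ Icc (-(Real.pi / 3)) (Real.pi / 3)) :=
    isCompact_Icc.reProdIm isCompact_Icc
  obtain ⟨M, hM⟩ := hcomp.exists_bound_of_continuousOn (f := Lsh) (by
    intro w hw
    have h2 := (Complex.mem_reProdIm.1 hw).2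
    have h3 : |w.im| < Real.pi / 2 := lt_of_le_of_lt (abs_le.2 h2) (by linarith)
    exact (Lsh_diff h3).continuousAt.continuousWithinAt)
  refine ⟨|M| + 2 * Real.pi + 1, by positivity, fun w hw => ?_⟩
  by_cases h1 : |w.re| ≤ 1
  · have h2 := hM w (Complex.mem_reProdIm.2 ⟨abs_le.1 h1, abs_le.1 hw⟩)
    have h3 := le_abs_self M
    have h4 := abs_nonneg w.re
    linarith
  · have h1' : 1 < |w.re| := not_le.1 h1
    have hw0 : w ≠ 0 := by
      intro e
      rw [e] at h1'
      simp at h1'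
      linarith
    have hw2 : |w.im| < Real.pi / 2 := lt_of_le_of_lt hw (by linarith)
    have hre := Lsh_re hw0 hw2
    have hsq := norm_sinh_sq w
    have hsi : |w.re| ≤ |Real.sinh w.re| := by
      rw [Real.abs_sinh]
      exact Real.self_le_sinh_iff.2 (abs_nonneg _)
    have hlo : 1 ≤ ‖Complex.sinh w‖ := by
      have h2 : 1 ≤ Real.sinh w.re ^ 2 := by
        rw [← sq_abs (Real.sinh w.re)]
        nlinarith
      have h3 : (1:ℝ) ^ 2 ≤ ‖Complex.sinh w‖ ^ 2 := by
        rw [hsq]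
        have := sq_nonneg (Real.sin w.im)
        linarith
      exact (pow_le_pow_iff_left₀ zero_le_one (norm_nonneg _) two_ne_zero).1 h3
    have hhi : ‖Complex.sinh w‖ ≤ Real.exp |w.re| := by
      have h2 : ‖Complex.sinh w‖ ^ 2 ≤ Real.cosh w.re ^ 2 := by
        rw [hsq, Real.cosh_sq]
        have := Real.sin_sq_le_one w.im
        linarith
      have h3 := (pow_le_pow_iff_left₀ (norm_nonneg _) (Real.cosh_pos w.re).le two_ne_zero).1 h2
      have h4 : Real.cosh w.re ≤ Real.exp |w.re| := by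
        rw [← Real.cosh_abs, Real.cosh_eq]
        have : Real.exp (-|w.re|) ≤ Real.exp |w.re| :=
          Real.exp_le_exp.2 (by have := abs_nonneg w.re; linarith)
        linarith
      exact h3.trans h4
    have l1 : 0 ≤ Real.log ‖Complex.sinh w‖ := Real.log_nonneg hlo
    have l2 : Real.log ‖Complex.sinh w‖ ≤ |w.re| := by
      have := Real.log_le_log (by linarith) hhi
      rwa [Real.log_exp] at this
    have hn1 : 1 ≤ ‖w‖ := h1'.le.trans (Complex.abs_re_le_norm w)
    have l3 : 0 ≤ Real.log ‖w‖ := Real.log_nonneg hn1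
    have l4 : Real.log ‖w‖ ≤ |w.re| + Real.pi := by
      have h2 := Real.log_le_sub_one_of_pos (by linarith : 0 < ‖w‖)
      have h3 := Complex.norm_le_abs_re_add_abs_im w
      linarith
    have l5 : |(Lsh w).re| ≤ 2 * |w.re| + Real.pi := by
      rw [hre, abs_le]
      constructor <;> linarith
    have l6 : |(Lsh w).im| ≤ Real.pi := by
      unfold Lsh
      rw [Complex.log_im]
      exact Complex.abs_arg_le_pi _
    have l7 := Complex.norm_le_abs_re_add_abs_im (Lsh w)
    have l8 := abs_nonneg M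
    linarith

/-! ### the fourth relation -/

/-- `log (sinh z / z) - log (sinh (8z/3) / (8z/3))` -/
def fS (z : ℂ) : ℂ := Lsh z - Lsh (8 / 3 * z)

lemma im83 (z : ℂ) : (8 / 3 * z : ℂ).im = 8 / 3 * z.im := by
  have : (8 / 3 : ℂ) = ((8 / 3 : ℝ) : ℂ) := by push_cast; rfl
  rw [this, Complex.im_ofReal_mul]

lemma re83 (z : ℂ) : (8 / 3 * z : ℂ).re = 8 / 3 * z.re := by
  have : (8 / 3 : ℂ) = ((8 / 3 : ℝ) : ℂ) := by push_cast; rfl
  rw [this, Complex.re_ofReal_mul]

lemma l_lt : l < Real.pi / 3 := by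
  unfold l
  have := Real.pi_pos
  linarith

lemma in83 {z : ℂ} (hz : |z.im| ≤ l) : |(8 / 3 * z : ℂ).im| ≤ Real.pi / 3 := by
  rw [im83, abs_mul, abs_of_pos (by norm_num : (0:ℝ) < 8 / 3)]
  unfold l at hz
  linarith

lemma fS_re {z : ℂ} (h0 : z ≠ 0) (hz : |z.im| ≤ l) :
    (fS z).re = Real.log ‖Complex.sinh z‖ - Real.log ‖Complex.sinh (8 / 3 * z)‖ + Real.log (8 / 3) := by
  have hpi := Real.pi_pos
  have h1 : (8 / 3 * z : ℂ) ≠ 0 := mul_ne_zero (by norm_num) h0
  have h2 := Lsh_re h0 (lt_of_le_of_lt hz (by have := l_lt; linarith))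
  have h3 := Lsh_re h1 (lt_of_le_of_lt (in83 hz) (by linarith))
  unfold fS
  rw [Complex.sub_re, h2, h3, norm_mul, Real.log_mul (by norm_num) (norm_ne_zero_iff.2 h0)]
  have h4 : ‖(8 / 3 : ℂ)‖ = 8 / 3 := by
    rw [norm_div, Complex.norm_ofNat, Complex.norm_ofNat]
  rw [h4]
  ring

lemma log_sinh_line (s : ℝ) {y : ℝ} (hn : Complex.sinh (s + y * I) ≠ 0) :
    Real.log ‖Complex.sinh (s + y * I)‖ = (h s (4 * l - y) - Real.log 2) / 2 := by
  have h1 := norm_sinh_sq (s + y * I)
  have e1 : ((s : ℂ) + y * I).re = s := by simp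
  have e2 : ((s : ℂ) + y * I).im = y := by simp
  rw [e1, e2] at h1
  have hp : 0 < ‖Complex.sinh (s + y * I)‖ := norm_pos_iff.2 hn
  have h2 : Real.log (‖Complex.sinh (s + y * I)‖ ^ 2) = 2 * Real.log ‖Complex.sinh (s + y * I)‖ := by
    rw [Real.log_pow]
    push_cast
    ring
  have h3 : 2 * ‖Complex.sinh (s + y * I)‖ ^ 2 = Real.cosh (2 * s) + Real.cos (2 * (4 * l - y)) := by
    rw [h1, cosh_two]
    have e3 : 2 * (4 * l - y) = Real.pi - 2 * y := by unfold l; ring
    rw [e3, Real.cos_pi_sub, Real.cos_two_mul]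
    have := Real.sin_sq_add_cos_sq y
    linear_combination (2:ℝ) * this
  have h4 : h s (4 * l - y) = Real.log 2 + Real.log (‖Complex.sinh (s + y * I)‖ ^ 2) := by
    unfold h
    rw [← h3, Real.log_mul two_ne_zero (by positivity)]
  rw [h4, h2]
  ring

lemma fS_line {s : ℝ} (hs : s ≠ 0) :
    (fS (s + l * I)).re = (h s (3 * l) - Real.log 2) / 2 -
      Real.log (Real.sinh (8 / 3 * s) ^ 2 + 3 / 4) / 2 + Real.log (8 / 3) ∧
    (fS (s - l * I)).re = (h s (3 * l) - Real.log 2) / 2 -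
      Real.log (Real.sinh (8 / 3 * s) ^ 2 + 3 / 4) / 2 + Real.log (8 / 3) ∧
    (fS s).re = (h s (4 * l) - Real.log 2) / 2 -
      Real.log (Real.sinh (8 / 3 * s) ^ 2) / 2 + Real.log (8 / 3) := by
  have hl := l_pos
  have hpi := Real.pi_pos
  have hgen : ∀ y : ℝ, |y| ≤ l → (fS (s + y * I)).re = (h s (4 * l - y) - Real.log 2) / 2 -
      Real.log (Real.sinh (8 / 3 * s) ^ 2 + Real.sin (8 / 3 * y) ^ 2) / 2 + Real.log (8 / 3) := by
    intro y hy
    have e1 : ((s : ℂ) + y * I).re = s := by simp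
    have e2 : ((s : ℂ) + y * I).im = y := by simp
    have hz0 : (s : ℂ) + y * I ≠ 0 := by
      intro e
      rw [e] at e1
      exact hs (by simpa using e1.symm)
    have hz1 : (8 / 3 * ((s : ℂ) + y * I)) ≠ 0 := mul_ne_zero (by norm_num) hz0
    have hn0 : Complex.sinh (s + y * I) ≠ 0 := sinh_ne hz0 (by
      rw [e2]
      unfold l at hy
      linarith)
    have hn1 : Complex.sinh (8 / 3 * ((s : ℂ) + y * I)) ≠ 0 := sinh_ne hz1 (by
      have := in83 (z := (s : ℂ) + y * I) (by rw [e2]; exact hy)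
      linarith)
    rw [fS_re hz0 (by rw [e2]; exact hy), log_sinh_line s hn0]
    have h1 := norm_sinh_sq (8 / 3 * ((s : ℂ) + y * I))
    rw [re83, im83, e1, e2] at h1
    have hp : 0 < ‖Complex.sinh (8 / 3 * ((s : ℂ) + y * I))‖ := norm_pos_iff.2 hn1
    have h2 : Real.log (‖Complex.sinh (8 / 3 * ((s : ℂ) + y * I))‖ ^ 2) =
        2 * Real.log ‖Complex.sinh (8 / 3 * ((s : ℂ) + y * I))‖ := by
      rw [Real.log_pow]
      push_cast
      ring
    rw [h1] at h2
    linarith
  have hs3 : Real.sin (8 / 3 * l) ^ 2 = 3 / 4 := by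
    have e : 8 / 3 * l = Real.pi / 3 := by unfold l; ring
    rw [e, Real.sin_pi_div_three, div_pow, Real.sq_sqrt (by norm_num)]
    norm_num
  refine ⟨?_, ?_, ?_⟩
  · have h1 := hgen l (by rw [abs_of_pos hl])
    rw [hs3, show 4 * l - l = 3 * l by ring] at h1
    exact h1
  · have h1 := hgen (-l) (by rw [abs_neg, abs_of_pos hl])
    rw [mul_neg, Real.sin_neg, neg_sq, hs3] at h1
    have h2 : h s (4 * l - -l) = h s (3 * l) := by
      rw [← h_neg_right, ← h_per s (-(4 * l - -l))]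
      congr 1
      ring
    rw [h2] at h1
    rw [← h1]
    congr 2
    push_cast
    ring
  · have h1 := hgen 0 (by rw [abs_zero]; exact hl.le)
    rw [mul_zero, Real.sin_zero, sub_zero] at h1
    simpa using h1

/-- the fourth relation: `2 I 3 - I 4 = log (27/8)` -/
theorem rel4 : 2 * H 0 (3 * l) - H 0 (4 * l) = Real.log (27 / 8) := by
  have hl := l_pos
  have hpi := Real.pi_pos
  obtain ⟨A, hA, hAb⟩ := Lsh_bound
  have hin : ∀ z : ℂ, |z.im| ≤ l → |z.im| < Real.pi / 2 := fun z hz =>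
    lt_of_le_of_lt hz (by have := l_lt; linarith)
  have hin2 : ∀ z : ℂ, |z.im| ≤ l → |(8 / 3 * z : ℂ).im| < Real.pi / 2 := fun z hz =>
    lt_of_le_of_lt (in83 hz) (by linarith)
  have hdf : ∀ z : ℂ, |z.im| ≤ l → DifferentiableAt ℂ fS z := by
    intro z hz
    have h1 : DifferentiableAt ℂ Lsh z := Lsh_diff (hin z hz)
    have h2 : DifferentiableAt ℂ Lsh (8 / 3 * z) := Lsh_diff (hin2 z hz)
    have h3 : DifferentiableAt ℂ (fun z : ℂ => Lsh (8 / 3 * z)) z :=
      h2.comp z ((differentiableAt_id).const_mul (8 / 3 : ℂ))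
    exact h1.sub h3
  have hbf : ∀ z : ℂ, |z.im| ≤ l → ‖fS z‖ ≤ (8 + 2 * A) * Real.exp (1 * |z.re|) := by
    intro z hz
    have h1 := hAb z (hz.trans l_lt.le)
    have h2 := hAb (8 / 3 * z) (in83 hz)
    rw [re83, abs_mul, abs_of_pos (by norm_num : (0:ℝ) < 8 / 3)] at h2
    have h3 : |z.re| + 1 ≤ Real.exp (1 * |z.re|) := by
      rw [one_mul]; exact Real.add_one_le_exp _
    have h5 := abs_nonneg z.re
    have h6 : 1 ≤ Real.exp (1 * |z.re|) := by linarith
    calc ‖fS z‖ ≤ ‖Lsh z‖ + ‖Lsh (8 / 3 * z)‖ := norm_sub_le _ _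
      _ ≤ 8 * |z.re| + 2 * A := by linarith
      _ ≤ _ := by nlinarith
  obtain ⟨i1, i2, i3, e⟩ := sum_rule (f := fS) (A := 8 + 2 * A) (c := 1) zero_le_one
    (by norm_num) (fun z hz => (hdf z hz).continuousAt.continuousWithinAt)
    (fun z hz => hdf z hz.le) hbf
  have e0 : fS 0 = 0 := by
    unfold fS
    rw [mul_zero, sub_self]
  rw [e0] at e
  have i4 : Integrable fun s : ℝ => (P s : ℂ) * (fS (s + l * I) + fS (s - l * I) - fS s) := by
    refine ((i1.add i2).sub i3).congr (Eventually.of_forall fun s => ?_)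
    simp only [Pi.add_apply, Pi.sub_apply]
    ring
  have hRe := integral_re i4
  have hRe2 : (∫ s : ℝ, (P s : ℂ) * (fS (s + l * I) + fS (s - l * I) - fS s)).re =
      ∫ s : ℝ, ((P s : ℂ) * (fS (s + l * I) + fS (s - l * I) - fS s)).re := hRe.symm
  rw [e, Complex.zero_re] at hRe2
  obtain ⟨a1, a2⟩ := cauchy_a
  obtain ⟨b1, b2⟩ := cauchy_b
  have k3 := Ph_integrable 0 (3 * l)
  have k4 := Ph_integrable 0 (4 * l)
  have k0 : Integrable fun s => P s * (Real.log (8 / 3) - Real.log 2 / 2) := P_integrable.mul_const _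
  have hae : (fun s : ℝ => ((P s : ℂ) * (fS (s + l * I) + fS (s - l * I) - fS s)).re) =ᵐ[volume]
      fun s => (P s * h (0 - s) (3 * l) - 1 / 2 * (P s * h (0 - s) (4 * l))) +
        (P s * (Real.log (8 / 3) - Real.log 2 / 2) + (1 / 2 * (P s * Real.log (Real.sinh (8 / 3 * s) ^ 2)) -
          P s * Real.log (Real.sinh (8 / 3 * s) ^ 2 + 3 / 4))) := by
    filter_upwards [ae_ne_zero] with s hs
    obtain ⟨c1, c2, c3⟩ := fS_line hs
    rw [Complex.re_ofReal_mul, Complex.sub_re, Complex.add_re, c1, c2, c3, zero_sub, h_neg_left,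
      h_neg_left]
    ring
  have s1 := integral_sub k3 (k4.const_mul (1 / 2))
  have s2 := integral_sub (b1.const_mul (1 / 2)) a1
  have s3 := integral_add k0 ((b1.const_mul (1 / 2)).sub a1)
  have s4 := integral_add (k3.sub (k4.const_mul (1 / 2))) (k0.add ((b1.const_mul (1 / 2)).sub a1))
  simp only [Pi.add_apply, Pi.sub_apply] at s1 s2 s3 s4
  rw [integral_congr_ae hae, s4, s3, s2, s1, integral_const_mul, integral_const_mul,
    integral_P_mul, a2, b2] at hRe2
  have q3 : ∫ s, P s * h (0 - s) (3 * l) = H 0 (3 * l) := rfl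
  have q4 : ∫ s, P s * h (0 - s) (4 * l) = H 0 (4 * l) := rfl
  rw [q3, q4] at hRe2
  have g1 : Real.log (8 / 3) = 3 * Real.log 2 - Real.log 3 := by
    rw [Real.log_div (by norm_num) (by norm_num), show (8:ℝ) = 2 ^ 3 by norm_num, Real.log_pow]
    push_cast
    ring
  have g2 : Real.log (3 / 4) = Real.log 3 - 2 * Real.log 2 := by
    rw [Real.log_div (by norm_num) (by norm_num), show (4:ℝ) = 2 ^ 2 by norm_num, Real.log_pow]
    push_cast
    ring
  have g3 : Real.log (27 / 8) = 3 * Real.log 3 - 3 * Real.log 2 := by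
    rw [Real.log_div (by norm_num) (by norm_num), show (8:ℝ) = 2 ^ 3 by norm_num,
      show (27:ℝ) = 3 ^ 3 by norm_num, Real.log_pow, Real.log_pow]
    push_cast
    ring
  rw [g1, g2] at hRe2
  rw [g3]
  linarith

/-! ### the values -/

lemma r_sq : r * r = 1 / 2 := by
  unfold r
  have := Real.mul_self_sqrt (show (0:ℝ) ≤ 2 by norm_num)
  linarith

lemma log_one_sub_r : Real.log (1 - r) = - Real.log 2 - Real.log (1 + r) := by
  have h1 := r_pos
  have h2 := r_lt_one
  have e : 1 - r = 1 / (2 * (1 + r)) := by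
    rw [eq_div_iff (by positivity)]
    have := r_sq
    linear_combination (-2) * this
  rw [e, Real.log_div one_ne_zero (by positivity), Real.log_one, Real.log_mul two_ne_zero
    (by positivity)]
  ring

theorem I_rel : 2 * H 0 l - H 0 0 = Real.log 2 ∧ H 0 (2 * l) + H 0 0 - H 0 l = Real.log (1 + r) ∧
    H 0 (3 * l) + H 0 l - H 0 (2 * l) = 0 ∧
    H 0 (4 * l) + H 0 (2 * l) - H 0 (3 * l) = Real.log (1 - r) := by
  have hl := l_pos
  have c0 := conv_h 0 (y := 0) (by rw [abs_zero]; linarith)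
  have c1 := conv_h 0 (y := l) (by rw [abs_of_pos hl]; linarith)
  have c2 := conv_h 0 (y := 2 * l) (by rw [abs_of_pos (by linarith)]; linarith)
  have c3 := conv_h 0 (y := 3 * l) (by rw [abs_of_pos (by linarith)])
  rw [zero_add, zero_sub, H_neg_right, h0] at c0
  rw [show l + l = 2 * l by ring, sub_self, h1] at c1
  rw [show 2 * l + l = 3 * l by ring, show 2 * l - l = l by ring, h2] at c2
  rw [show 3 * l + l = 4 * l by ring, show 3 * l - l = 2 * l by ring, h3] at c3
  rw [mul_zero, Real.cosh_zero] at c0 c1 c2 c3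
  rw [Real.log_one] at c2
  refine ⟨?_, c1, c2, c3⟩
  rw [show (1:ℝ) + 1 = 2 by norm_num] at c0
  linarith

theorem I_val : H 0 0 = Real.log (8 * (1 + r) ^ 2 / 9) ∧ H 0 l = Real.log (4 * (1 + r) / 3) ∧
    H 0 (2 * l) = Real.log (3 / 2) ∧ H 0 (3 * l) = Real.log (9 / (8 * (1 + r))) ∧
    H 0 (4 * l) = Real.log (3 / (8 * (1 + r) ^ 2)) := by
  have hr := r_pos
  obtain ⟨c0, c1, c2, c3⟩ := I_rel
  have c4 := rel4
  rw [log_one_sub_r] at c3
  have e8 : Real.log 8 = 3 * Real.log 2 := by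
    rw [show (8:ℝ) = 2 ^ 3 by norm_num, Real.log_pow]
    push_cast
    ring
  have e9 : Real.log 9 = 2 * Real.log 3 := by
    rw [show (9:ℝ) = 3 ^ 2 by norm_num, Real.log_pow]
    push_cast
    ring
  have e4 : Real.log 4 = 2 * Real.log 2 := by
    rw [show (4:ℝ) = 2 ^ 2 by norm_num, Real.log_pow]
    push_cast
    ring
  have e27 : Real.log 27 = 3 * Real.log 3 := by
    rw [show (27:ℝ) = 3 ^ 3 by norm_num, Real.log_pow]
    push_cast
    ring
  have f0 : Real.log (8 * (1 + r) ^ 2 / 9) = 3 * Real.log 2 + 2 * Real.log (1 + r) - 2 * Real.log 3 := by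
    rw [Real.log_div (by positivity) (by norm_num), Real.log_mul (by norm_num) (by positivity),
      Real.log_pow, e8, e9]
    push_cast
    ring
  have f1 : Real.log (4 * (1 + r) / 3) = 2 * Real.log 2 + Real.log (1 + r) - Real.log 3 := by
    rw [Real.log_div (by positivity) (by norm_num), Real.log_mul (by norm_num) (by positivity), e4]
  have f2 : Real.log (3 / 2) = Real.log 3 - Real.log 2 := Real.log_div (by norm_num) (by norm_num)
  have f3 : Real.log (9 / (8 * (1 + r))) = 2 * Real.log 3 - 3 * Real.log 2 - Real.log (1 + r) := by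
    rw [Real.log_div (by norm_num) (by positivity), Real.log_mul (by norm_num) (by positivity), e8, e9]
    ring
  have f4 : Real.log (3 / (8 * (1 + r) ^ 2)) = Real.log 3 - 3 * Real.log 2 - 2 * Real.log (1 + r) := by
    rw [Real.log_div (by norm_num) (by positivity), Real.log_mul (by norm_num) (by positivity),
      Real.log_pow, e8]
    push_cast
    ring
  have f5 : Real.log (27 / 8) = 3 * Real.log 3 - 3 * Real.log 2 := by
    rw [Real.log_div (by norm_num) (by norm_num), e27, e8]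
  rw [f5] at c4
  rw [f0, f1, f2, f3, f4]
  refine ⟨?_, ?_, ?_, ?_, ?_⟩ <;> linarith

/-- **the linear coefficient**: `∫ P v = log (64 (1 + r)³ / 81)` -/
theorem integral_Pv : Integrable (fun s => P s * v s) ∧
    ∫ s, P s * v s = Real.log (64 * (1 + r) ^ 3 / 81) := by
  have hr := r_pos
  have k0 := Ph_integrable 0 0
  have k3 := Ph_integrable 0 (3 * l)
  have hae : ∀ s : ℝ, P s * v s = P s * h (0 - s) 0 - P s * h (0 - s) (3 * l) := by
    intro s
    rw [v_eq, zero_sub, h_neg_left, h_neg_left]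
    ring
  simp_rw [hae]
  refine ⟨k0.sub k3, ?_⟩
  rw [integral_sub k0 k3]
  have q0 : ∫ s, P s * h (0 - s) 0 = H 0 0 := rfl
  have q3 : ∫ s, P s * h (0 - s) (3 * l) = H 0 (3 * l) := rfl
  obtain ⟨c0, _, _, c3, _⟩ := I_val
  rw [q0, q3, c0, c3, ← Real.log_div (by positivity) (by positivity)]
  congr 1
  field_simp
  ring

/-- the same value in terms of `√2` -/
theorem integral_Pv' : ∫ s, P s * v s = Real.log ((4 + 2 * √2) ^ 3 / 81) := by
  rw [integral_Pv.2]
  congr 1
  have : 4 + 2 * √2 = 4 * (1 + r) := by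
    unfold r
    ring
  rw [this]
  ring

/-- bookkeeping: the weight of the all plus state times the linear coefficient is the normalisation
`(2/3)^(2m) ρ^(4m² - 2m)`, `ρ = (4 + 2 √2) / 3` -/
theorem norm_const (m : ℕ) : (4 + 2 * √2) ^ (m ^ 2) * ((2 - √2) / 2) ^ (2 * m) *
    Real.exp ((m : ℝ) ^ 2 * ∫ s, P s * v s) * ((4 + 2 * √2) / 3) ^ (2 * m) =
    (2 / 3) ^ (2 * m) * ((4 + 2 * √2) / 3) ^ (4 * m ^ 2) := by
  have h2 : √2 * √2 = 2 := Real.mul_self_sqrt (by norm_num)
  have h0 : 0 < √2 := Real.sqrt_pos.2 (by norm_num)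
  have h3 : (0:ℝ) < (4 + 2 * √2) ^ 3 / 81 := by positivity
  have h4 : Real.exp ((m : ℝ) ^ 2 * ∫ s, P s * v s) = ((4 + 2 * √2) ^ 3 / 81) ^ (m ^ 2) := by
    rw [integral_Pv', ← Nat.cast_pow, Real.exp_nat_mul, Real.exp_log h3]
  have h5 : (2 - √2) / 2 * ((4 + 2 * √2) / 3) = 2 / 3 := by
    linear_combination (-1 / 3 : ℝ) * h2
  rw [h4]
  calc (4 + 2 * √2) ^ (m ^ 2) * ((2 - √2) / 2) ^ (2 * m) * ((4 + 2 * √2) ^ 3 / 81) ^ (m ^ 2) *
        ((4 + 2 * √2) / 3) ^ (2 * m)
      = ((2 - √2) / 2 * ((4 + 2 * √2) / 3)) ^ (2 * m) *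
        ((4 + 2 * √2) * ((4 + 2 * √2) ^ 3 / 81)) ^ (m ^ 2) := by
        rw [mul_pow ((2 - √2) / 2), mul_pow (4 + 2 * √2)]
        ring
    _ = (2 / 3) ^ (2 * m) * ((4 + 2 * √2) / 3) ^ (4 * m ^ 2) := by
        rw [h5, pow_mul ((4 + 2 * √2) / 3) 4]
        congr 2
        ring

end

end NUMF
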