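import Pool.Agent.NUNC.RingLe
import Pool.Agent.NUNC.ZZlim
import Pool.Agent.NUF.FINU

/-!
# `WindUp` for every loop weight in `[0, 2]` and every number of rows
-/

set_option autoImplicit false

namespace Pool.Agent.NUF.Cyl

open Finset HexObs HexObs.LP Pool.Agent.NUN Pool.Agent.PLW

open Classical in
/-- **The cylinder with `2 m` rows against two planar parallelograms.** -/
theorem ring_leT : ∃ C : ℝ, 0 < C ∧ ∀ (m : ℕ), 2 ≤ m → ∀ (hN : 1 ≤ 2 * m) (A : Finset Pt) (x : ℝ), 0 ≤ x → x ≤ 2 →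
    GP (fun E => (x / 2) * xc ^ E.card) (((Cy (2 * m) hN).polys A).filter (Lab1 m)) ≤
      C * LP.NF x (HexObs.LP.PP (4 * m) m) f0 ^ 2 := by
  obtain ⟨C, hC, hmid⟩ := mid_sum 2
  refine ⟨Real.exp C, Real.exp_pos _, ?_⟩
  intro m hm hN A x hx hx2
  obtain ⟨k, rfl⟩ : ∃ k, m = k + 1 := ⟨m - 1, by omega⟩
  have hk : 1 ≤ k := by omega
  set Q := ((Cy (2 * (k + 1)) hN).polys A).filter (Lab1 (k + 1)) with hQ
  set M := Q.filter (fun E =>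
    (¬ ∃ E', LP.IsPoly E' ∧ VE E' ⊆ Bq (fc 0) k ∧ Nw E' (fc 0) ≠ 0 ∧ E = imE (Cy (2 * (k + 1)) hN) E') ∧
    (¬ ∃ E', LP.IsPoly E' ∧ VE E' ⊆ Bq (fc (k + 1)) k ∧ Nw E' (fc (k + 1)) ≠ 0 ∧
      E = imE (Cy (2 * (k + 1)) hN) E')) with hM
  have hy : (0 : ℝ) ≤ x / 2 := by linarith
  have h1 := gas_le (Cy (2 * (k + 1)) hN) (y := x / 2) hy (Fc_fc 0) (Fc_fc (k + 1))
    (Bq_inj hN (f := fc 0) (s := k) (by omega)) (Bq_inj hN (f := fc (k + 1)) (s := k) (by omega)) A Q M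
    (fun E hE => by
      by_cases c1 : ∃ E', LP.IsPoly E' ∧ VE E' ⊆ Bq (fc 0) k ∧ Nw E' (fc 0) ≠ 0 ∧ E = imE (Cy (2 * (k + 1)) hN) E'
      · exact Or.inl c1
      · by_cases c2 : ∃ E', LP.IsPoly E' ∧ VE E' ⊆ Bq (fc (k + 1)) k ∧ Nw E' (fc (k + 1)) ≠ 0 ∧
            E = imE (Cy (2 * (k + 1)) hN) E'
        · exact Or.inr (Or.inl c2)
        · exact Or.inr (Or.inr (mem_filter.2 ⟨hE, c1, c2⟩)))
    (gasLo hN (k + 1) (x / 2) A)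
  have h2 : ∑ E ∈ M, xc ^ E.card ≤ C := by
    refine hmid (2 * (k + 1)) hN (k + 1) k (Bq (fc 0) k) (Bq (fc (k + 1)) k) M (by omega) (by omega)
      (fun w hw hw2 => mem_Bq.2 ⟨hw, hw2⟩) (fun w hw hw2 => mem_Bq.2 ⟨hw, hw2⟩) fun E hE => ?_
    obtain ⟨h3, h4, h5⟩ := mem_filter.1 hE
    obtain ⟨h6, h7⟩ := mem_filter.1 h3
    refine ⟨(Nm.mem_polys'.1 h6).1, ?_, h4, h5⟩
    have h8 : ∑ q ∈ E, ((cr (fc (k + 1)) q : ℤ) : ZMod 2) = 1 := h7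
    rw [h8]
    decide
  have hsub : HexObs.LP.PP (4 * k) k ⊆ HexObs.LP.PP (4 * (k + 1)) (k + 1) := by
    intro v hv
    rw [mem_PP] at hv ⊢
    refine ⟨hv.1, lt_of_lt_of_le hv.2.1 ?_, lt_of_lt_of_le hv.2.2 ?_⟩
    · push_cast
      linarith
    · push_cast
      linarith
  have h3 := (NF_Bq (x := x) hx 0 k hk).trans (NF_mono hx f0 hsub)
  have h4 := (NF_Bq (x := x) hx (k + 1) k hk).trans (NF_mono hx f0 hsub)
  have h5 : 0 ≤ NUN.NF xc (x / 2) (fc (k + 1)) (Bq (fc (k + 1)) k) :=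
    le_trans zero_le_one (one_le_NF' hy _ _)
  have h6 : (0 : ℝ) ≤ LP.NF x (HexObs.LP.PP (4 * (k + 1)) (k + 1)) f0 := le_trans zero_le_one (one_le_NF hx _ _)
  refine h1.trans ?_
  rw [mul_comm (Real.exp C), sq]
  have h7 : x / 2 * ∑ E ∈ M, xc ^ E.card ≤ C := by
    have h8 : 0 ≤ ∑ E ∈ M, xc ^ E.card := Finset.sum_nonneg fun E _ => pow_nonneg xc_pos.le _
    have h9 : x / 2 * ∑ E ∈ M, xc ^ E.card ≤ 1 * ∑ E ∈ M, xc ^ E.card :=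
      mul_le_mul_of_nonneg_right (by linarith) h8
    linarith
  exact mul_le_mul (mul_le_mul h3 h4 h5 h6) (Real.exp_le_exp.2 h7) (Real.exp_pos _).le (mul_nonneg h6 h6)

end Pool.Agent.NUF.Cyl

namespace Pool.Agent.NUA

open HexObs HexObs.LP Pool.Agent.NUN Pool.Agent.NUF Pool.Agent.NUF.Cyl Pool.Agent.NUNC

/-- **The loops that wind round the cylinder cost a constant only**, every loop weight in `[0, 2]`. -/
theorem windT : ∃ C : ℝ, 0 < C ∧ ∀ (m : ℕ), 2 ≤ m → ∀ x : ℝ, 0 ≤ x → x ≤ 2 →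
    ‖ZZ (x : ℂ) m‖ ≤ C * HexObs.LP.NF x (HexObs.LP.PP (4 * m) m) f0 ^ 2 := by
  classical
  obtain ⟨C, hC, h⟩ := ring_leT
  refine ⟨C, hC, fun m hm x hx hx2 => ?_⟩
  have hN : 1 ≤ 2 * m := by omega
  refine norm_ZZ_le hx (k := m) hN fun j => ?_
  refine le_trans (le_of_eq ?_) (h m hm hN (Om (2 * m) j) x hx hx2)
  unfold Pool.Agent.NUNC.GC
  congr 1
  ext E
  rw [mem_odd, Finset.mem_filter, Nm.mem_polys', and_assoc]
  exact Iff.rfl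

end Pool.Agent.NUA
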