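import Pool.Agent.NUA.ZExp
import Pool.Agent.NUA.WindT

/-!
# The gas of nested polygons of a strip, every loop weight `2 cos θ`
-/

set_option autoImplicit false

open Filter Topology Polynomial

namespace NUA

open NUI Pool.Agent.NUF HexObs HexObs.LP

lemma tcos_nonneg {θ : ℝ} (h0 : 0 ≤ θ) (h1 : θ ≤ Real.pi / 2) : 0 ≤ 2 * Real.cos θ := by
  have := Real.cos_nonneg_of_neg_pi_div_two_le_of_le (by linarith [Real.pi_pos]) h1
  positivity

lemma tcos_le (θ : ℝ) : 2 * Real.cos θ ≤ 2 := by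
  have := Real.cos_le_one θ
  linarith

lemma PP_mono {T T' M M' : ℕ} (h : T ≤ T') (h' : M ≤ M') : HexObs.LP.PP T M ⊆ HexObs.LP.PP T' M' := by
  intro v hv
  rw [mem_PP] at hv ⊢
  have h1 : (T : ℤ) ≤ T' := by exact_mod_cast h
  have h2 : (M : ℤ) ≤ M' := by exact_mod_cast h'
  exact ⟨hv.1, by linarith [hv.2.1], by linarith [hv.2.2]⟩

/-- **Upper bound.** -/
theorem NF_up (h : Target) {θ : ℝ} (h0 : 0 ≤ θ) (h1 : θ ≤ Real.pi / 2) {ε : ℝ} (hε : 0 < ε) :
    ∀ᶠ T : ℕ in atTop, ∀ M : ℕ, NF (2 * Real.cos θ) (HexObs.LP.PP T M) f0 ≤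
      Real.exp (Real.log T * (hT θ / 2 + ε)) := by
  have h2 := ZP_up h h0 h1 hε
  have htend : Tendsto (fun T : ℕ => 2 * T) atTop atTop :=
    tendsto_id.const_mul_atTop' (by norm_num : 0 < 2)
  have hC := log_ge (Real.log 2 * (hT θ + ε) / ε)
  filter_upwards [htend.eventually h2, eventually_ge_atTop 1, hC] with T hT1 hTp hTL M
  obtain ⟨x, hx, hx1⟩ := NF_le_ZZ (n' := 2 * Real.cos θ) (tcos_nonneg h0 h1) hTp M
  have h3 : x = (ZP (2 * T)).eval (2 * Real.cos θ) := by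
    rw [ZP_eq, aeval_real] at hx
    exact_mod_cast hx.symm
  have hT0 : (0 : ℝ) < T := by exact_mod_cast hTp
  rw [div_le_iff₀ hε] at hTL
  have h4 : NF (2 * Real.cos θ) (HexObs.LP.PP T M) f0 ^ 2 ≤
      Real.exp (Real.log T * (hT θ / 2 + ε)) ^ 2 := by
    refine hx1.trans ?_
    rw [h3]
    refine hT1.trans ?_
    rw [← Real.exp_nat_mul]
    apply Real.exp_le_exp.2
    push_cast
    rw [Real.log_mul (by norm_num) hT0.ne']
    nlinarith
  exact (le_abs_self _).trans (abs_le_of_sq_le_sq h4 (Real.exp_pos _).le)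

/-- **Lower bound.** -/
theorem NF_low (h : Target) {θ : ℝ} (h0 : 0 ≤ θ) (h1 : θ < Real.pi / 2) {ε : ℝ} (hε : 0 < ε) :
    ∀ᶠ T : ℕ in atTop, Real.exp (Real.log T * (hT θ / 2 - ε)) ≤
      NF (2 * Real.cos θ) (HexObs.LP.PP T T) f0 := by
  obtain ⟨C, hC, hW⟩ := Pool.Agent.NUA.windT
  have h2 := ZP_low h h0 h1 hε
  have htend : Tendsto (fun T : ℕ => T / 8) atTop atTop := Nat.tendsto_div_const_atTop (by norm_num)
  have hB : ∀ᶠ m : ℕ in atTop, 2 * NUI.NN m + 4 ≤ m := by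
    filter_upwards [poly_absorb (C := 4) (ε := 1) one_pos, eventually_ge_atTop 1] with m hm h1
    have hm0 : (0 : ℝ) < m := by exact_mod_cast h1
    rw [one_mul, Real.exp_log hm0] at hm
    have h3 := NN_le m
    have h4 : (2 * NUI.NN m + 4 : ℝ) ≤ m := by nlinarith [sq_nonneg (Real.log m)]
    exact_mod_cast h4
  -- the constant
  obtain ⟨D, hD⟩ : ∃ D : ℝ, D = (|Real.log C| + |Real.log 16 * (hT θ - ε)|) / ε := ⟨_, rfl⟩
  filter_upwards [htend.eventually h2, htend.eventually hB, eventually_ge_atTop 16, log_ge D] with T hT1 hT2 hT16 hTL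
  obtain ⟨m, hm⟩ : ∃ m, m = T / 8 := ⟨_, rfl⟩
  rw [← hm] at hT1 hT2
  obtain ⟨J, hJ1, hJ2, hJ3⟩ := hT1
  have hJ4 : 2 ≤ J := by omega
  have hJ5 : 4 * J ≤ T := by omega
  have h3 := hW J hJ4 (2 * Real.cos θ) (tcos_nonneg h0 h1.le) (tcos_le θ)
  rw [norm_ZZ (tcos_nonneg h0 h1.le)] at h3
  have h4 : NF (2 * Real.cos θ) (HexObs.LP.PP (4 * J) J) f0 ≤ NF (2 * Real.cos θ) (HexObs.LP.PP T T) f0 :=
    NF_mono (tcos_nonneg h0 h1.le) f0 (PP_mono hJ5 (by omega))
  have h5 : (1 : ℝ) ≤ NF (2 * Real.cos θ) (HexObs.LP.PP (4 * J) J) f0 :=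
    one_le_NF (tcos_nonneg h0 h1.le) _ _
  have h6 : Real.exp (Real.log m * (hT θ - ε)) ≤ C * NF (2 * Real.cos θ) (HexObs.LP.PP T T) f0 ^ 2 :=
    hJ3.trans (h3.trans (mul_le_mul_of_nonneg_left (pow_le_pow_left₀ (by linarith) h4 2) hC.le))
  have hT0 : (0 : ℝ) < T := by exact_mod_cast (by omega : 0 < T)
  have hm0 : (0 : ℝ) < m := by exact_mod_cast (by omega : 0 < m)
  have hNF : 0 < NF (2 * Real.cos θ) (HexObs.LP.PP T T) f0 := by linarith
  -- logarithms
  have h7 := Real.log_le_log (Real.exp_pos _) h6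
  rw [Real.log_exp, Real.log_mul hC.ne' (by positivity), Real.log_pow] at h7
  have h8 : Real.log T - Real.log 16 ≤ Real.log m := by
    have e : (T : ℝ) ≤ 16 * m := by exact_mod_cast (by omega : T ≤ 16 * m)
    have := Real.log_le_log hT0 e
    rw [Real.log_mul (by norm_num) hm0.ne'] at this
    linarith
  have h8' : Real.log m ≤ Real.log T := by
    have e : (m : ℝ) ≤ T := by exact_mod_cast (by omega : m ≤ T)
    exact Real.log_le_log hm0 e
  have h9 : Real.log T * (hT θ - ε) - |Real.log 16 * (hT θ - ε)| ≤ Real.log m * (hT θ - ε) := by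
    rcases le_total 0 (hT θ - ε) with h10 | h10
    · have h11 : 0 ≤ Real.log 16 * (hT θ - ε) := mul_nonneg (Real.log_nonneg (by norm_num)) h10
      rw [abs_of_nonneg h11]
      have := mul_le_mul_of_nonneg_right h8 h10
      linarith
    · have := mul_le_mul_of_nonpos_right h8' h10
      have h12 := abs_nonneg (Real.log 16 * (hT θ - ε))
      linarith
  rw [hD, div_le_iff₀ hε] at hTL
  have h13 := le_abs_self (Real.log C)
  rw [← Real.log_le_log_iff (Real.exp_pos _) hNF, Real.log_exp]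
  push_cast at h7
  have h14 : Real.log T * (hT θ / 2 - ε) = (Real.log T * (hT θ - ε) - Real.log T * ε) / 2 := by ring
  rw [h14]
  linarith

end NUA
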