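import Pool.Agent.NUA.PolyF
import Pool.Agent.ZF.Poly
import Pool.Agent.ZF.HexP1
import Pool.Agent.HexLoop.Meet

/-!
# The gas of nested polygons without orientations
-/

set_option autoImplicit false

namespace NUA

open HexObs HexObs.LP Pool.Agent.ZF Finset
open scoped Classical

/-- clockwise polygons around `f` in `Ω` -/
noncomputable def dm (f : Pt) (Ω : Finset Pt) : Finset Pg := (pg f Ω).filter (fun E : Pg => sg E = -1)

theorem mem_dm {f : Pt} {Ω : Finset Pt} {E : Pg} :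
    E ∈ dm f Ω ↔ (IsPoly E ∧ VE E ⊆ Ω ∧ Nw E f ≠ 0) ∧ sg E = -1 := by
  unfold dm
  rw [mem_filter, mem_pg]

lemma inn_rE {Ω : Finset Pt} {E : Finset (Pt × Pt)} (hE : IsPoly E) : inn Ω (rE E) = inn Ω E := by
  ext v
  rw [mem_inn, mem_inn, ins_rE hE]

lemma wP_rE (E : Pg) : wP (rE E : Finset (Pt × Pt)) = wP E := by
  unfold wP
  congr 1
  exact card_rE E

lemma dm_filter {f : Pt} {Ω : Finset Pt} {E : Pg} (hE : E ∈ pg f Ω) :
    (dm f Ω).filter (· < E) = dm f (inn Ω E) := by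
  unfold dm
  rw [← pg_filter hE, filter_filter, filter_filter]
  apply filter_congr
  intro x _
  exact and_comm

theorem Zf_dm (y : ℝ) (f : Pt) (Ω : Finset Pt) :
    Zf (fun E : Pg => y * wP E) (pg f Ω) = Zf (fun E : Pg => 2 * y * wP E) (dm f Ω) := by
  obtain ⟨n, hn⟩ : ∃ n, Ω.card = n := ⟨_, rfl⟩
  induction n using Nat.strong_induction_on generalizing Ω with
  | _ n ih =>
    obtain ⟨g, hg⟩ : ∃ g : Pg → ℝ, g = fun E : Pg => y * wP E * Zf (fun E : Pg => 2 * y * wP E) (dm f (inn Ω E)) :=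
      ⟨_, rfl⟩
    have h1 : ∀ E ∈ pg f Ω, y * wP E * Zf (fun E : Pg => y * wP E) ((pg f Ω).filter (· < E)) = g E := by
      intro E hE
      rw [pg_filter hE, ih _ (hn ▸ Pool.Agent.NUN.pf_inn_card hE) _ rfl, hg]
    have h2 : ∀ E ∈ dm f Ω, 2 * y * wP E * Zf (fun E : Pg => 2 * y * wP E) ((dm f Ω).filter (· < E)) =
        2 * g E := by
      intro E hE
      rw [dm_filter (mem_filter.1 hE).1, hg]
      ring
    rw [Zf_rec, Zf_rec (D := dm f Ω), Finset.sum_congr rfl h1, Finset.sum_congr rfl h2]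
    congr 1
    rw [← Finset.mul_sum, two_mul (∑ i ∈ dm f Ω, g i),
      ← Finset.sum_filter_add_sum_filter_not (pg f Ω) (fun E : Pg => sg E = -1) g]
    congr 1
    refine Finset.sum_bij' (fun E _ => (rE E : Finset (Pt × Pt))) (fun E _ => (rE E : Finset (Pt × Pt))) ?_ ?_ ?_ ?_ ?_
    · intro E hE
      obtain ⟨h3, h4⟩ := mem_filter.1 hE
      obtain ⟨h5, h6, h7⟩ := mem_pg.1 h3
      refine mem_dm.2 ⟨⟨isPoly_rE h5, ?_, ?_⟩, ?_⟩
      · rw [VE_rE h5]
        exact h6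
      · rw [Nw_rE h5]
        exact neg_ne_zero.2 h7
      · rw [sg_rE h5]
        rcases sg_cases E with h | h
        · rw [h]
        · exact absurd h h4
    · intro E hE
      obtain ⟨⟨h5, h6, h7⟩, h8⟩ := mem_dm.1 hE
      refine mem_filter.2 ⟨mem_pg.2 ⟨isPoly_rE h5, ?_, ?_⟩, ?_⟩
      · rw [VE_rE h5]
        exact h6
      · rw [Nw_rE h5]
        exact neg_ne_zero.2 h7
      · rw [sg_rE h5, h8]
        norm_num
    · intro E _
      exact rE_rE E
    · intro E _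
      exact rE_rE E
    · intro E hE
      obtain ⟨h3, _⟩ := mem_filter.1 hE
      obtain ⟨h5, _, _⟩ := mem_pg.1 h3
      rw [hg]
      show y * wP E * Zf (fun E : Pg => 2 * y * wP E) (dm f (inn Ω E)) =
        y * wP (rE E : Finset (Pt × Pt)) * Zf (fun E : Pg => 2 * y * wP E) (dm f (inn Ω (rE E)))
      rw [wP_rE, inn_rE h5]

/-- families of disjoint clockwise polygons -/
noncomputable def fam (f : Pt) (Ω : Finset Pt) : Finset (Finset Pg) :=
  (dm f Ω).powerset.filter (fun C => ∀ E ∈ C, ∀ E' ∈ C, E ≠ E' → ∀ w ∈ VE E, w ∉ VE E')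

theorem chains_dm {f : Pt} (hf : Fc f) (Ω : Finset Pt) : chains (dm f Ω) = fam f Ω := by
  ext C
  rw [mem_chains]
  unfold fam
  rw [mem_filter, mem_powerset]
  refine and_congr_right fun hC => ?_
  constructor
  · intro h E hE E' hE' hne w hw hw'
    rcases h hE hE' hne with h1 | h1
    · exact (h1.2.2 w hw).2.1 hw'
    · exact (h1.2.2 w hw').2.1 hw
  · intro h E hE E' hE' hne
    obtain ⟨⟨h1, _, h2⟩, _⟩ := mem_dm.1 (hC hE)
    obtain ⟨⟨h3, _, h4⟩, _⟩ := mem_dm.1 (hC hE')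
    rcases nested_or h1 h3 (h E hE E' hE' hne) hf h2 h4 with h5 | h5
    · right
      exact ⟨h3, h1, h5⟩
    · left
      exact ⟨h1, h3, h5⟩

theorem Zf_fam (y : ℝ) {f : Pt} (hf : Fc f) (Ω : Finset Pt) :
    Zf (fun E : Pg => y * wP E) (pg f Ω) = ∑ C ∈ fam f Ω, ∏ E ∈ C, (2 * y * wP E) := by
  rw [Zf_dm]
  unfold Zf
  rw [chains_dm hf]

end NUA
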