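import Pool.Agent.NUA.NestA
import Pool.Agent.NUA.AreaF

/-!
# Polygons of the plane as translates of normalised lists
-/

set_option autoImplicit false

namespace NUA

open HexObs HexObs.LP Pool.Agent.ZF HexObs.TH

/-- the sites of the polygon `P.2` moved by `P.1` -/
def sites (P : (ℤ × ℤ) × List (ℤ × ℤ)) : List (ℤ × ℤ) := P.2.map (· + P.1)

/-- the crossing edges -/
def CrE (e : (ℤ × ℤ) × (ℤ × ℤ)) : Prop := e.1.2 = e.2.2 ∧ min e.1.1 e.2.1 = e.1.2 ∧ e.1.2 ≤ 0

instance (e : (ℤ × ℤ) × (ℤ × ℤ)) : Decidable (CrE e) := by unfold CrE; infer_instance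

/-- the number of the crossings -/
def crs (P : (ℤ × ℤ) × List (ℤ × ℤ)) : ℕ := ((sites P).zip ((sites P).rotate 1)).countP fun e =>
  e.1.2 = e.2.2 ∧ min e.1.1 e.2.1 = e.1.2 ∧ e.1.2 ≤ 0

/-- the clockwise polygon -/
def eP (P : (ℤ × ℤ) × List (ℤ × ℤ)) : Finset (Pt × Pt) := TE (CC.ps P.1) (eL P.2)

/-- a polygon of the plane -/
def Good (P : (ℤ × ℤ) × List (ℤ × ℤ)) : Prop := Even (P.1.1 + P.1.2) ∧ HexPolygon.Polygon P.2

lemma cl_ps_even {a : ℤ × ℤ} (h : Even (a.1 + a.2)) : cl (CC.ps a) = 0 := by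
  rw [cl_ps, if_pos (Int.even_iff.1 h)]

lemma ps_even {a : ℤ × ℤ} (h : Even (a.1 + a.2)) : (CC.ps a).1 = a.1 ∧ (CC.ps a).1 + 2 * (CC.ps a).2 = 3 * a.2 := by
  refine ⟨rfl, ?_⟩
  exact CC.lv_ps_even (Int.even_iff.1 h)

lemma ph_add {a : ℤ × ℤ} (h : Even (a.1 + a.2)) (v : Pt) : CC.ph (v + CC.ps a) = CC.ph v + a := by
  obtain ⟨h1, h2⟩ := ps_even h
  unfold CC.ph
  ext
  · simp only [Prod.fst_add, h1]
  · simp only [Prod.fst_add, Prod.snd_add]
    omega

variable {P : (ℤ × ℤ) × List (ℤ × ℤ)}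

theorem eP_poly (h : Good P) : IsPoly (eP P) := isPoly_TE (cl_ps_even h.1) (eL_poly h.2)

theorem eP_card (h : Good P) : (eP P).card = P.2.length := by
  unfold eP
  rw [card_TE, ← RL_length (eL_RL h.2)]

theorem eP_root (h : Good P) : IsRoot (eP P) (r0 + CC.ps P.1) := root_TE (cl_ps_even h.1) (eL_root h.2)

theorem eP_first (h : Good P) : (r0 + CC.ps P.1, ((-1, 0) : Pt)) ∈ eP P :=
  Finset.mem_image.2 ⟨_, eL_first h.2, rfl⟩

theorem mem_sites (h : Good P) {p : ℤ × ℤ} : p ∈ sites P ↔ ∃ v ∈ VE (eP P), CC.ph v = p := by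
  unfold sites eP
  rw [List.mem_map]
  constructor
  · rintro ⟨q, hq, rfl⟩
    obtain ⟨v, hv, rfl⟩ := RL_mem' (eL_RL h.2) hq
    refine ⟨v + CC.ps P.1, ?_, ph_add h.1 v⟩
    rw [VE_TE, mem_Ti, add_sub_cancel_right]
    exact hv
  · rintro ⟨v, hv, rfl⟩
    rw [VE_TE, mem_Ti] at hv
    refine ⟨CC.ph (v - CC.ps P.1), RL_mem (eL_RL h.2) hv, ?_⟩
    rw [← ph_add h.1, sub_add_cancel]

/-- a polygon that starts at its root to the left is clockwise -/
theorem sg_root {E : Finset (Pt × Pt)} (hE : IsPoly E) {b : Pt} (hb : IsRoot E b) (h : (b, ((-1, 0) : Pt)) ∈ E) :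
    sg E = -1 := by
  rcases sg_cases E with h1 | h1
  · exfalso
    have h2 := (side hE h).1
    rw [if_pos h1] at h2
    have h0 := (root_edges hE hb).1
    have h3 : Nw E (b + rotL (-1, 0)) = 0 := by
      apply Nw_low
      intro v hv
      have h4 := hb.2 v hv
      have e : rotL ((-1, 0) : Pt) = (0, -1) := by decide
      rw [e]
      unfold CC.ph at h4
      unfold nn at h0
      unfold lv
      simp only [Prod.fst_add, Prod.snd_add] at h4 ⊢
      omega
    simp only at h2
    rw [h3] at h2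
    norm_num at h2
  · exact h1

theorem eP_sg (h : Good P) : sg (eP P) = -1 := sg_root (eP_poly h) (eP_root h) (eP_first h)

theorem eP_inj {P' : (ℤ × ℤ) × List (ℤ × ℤ)} (h : Good P) (h' : Good P') (he : eP P = eP P') : P = P' := by
  have r1 := eP_root h
  have r2 := eP_root h'
  rw [← he] at r2
  have h1 := add_left_cancel (root_unique (eP_poly h) r1 r2)
  have h2 : P.1 = P'.1 := CC.ps_inj h1
  have h3 : eL P.2 = eL P'.2 := by
    unfold eP at he
    rw [h1] at he
    exact TE_inj _ he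
  have h4 : P.2 = P'.2 := by
    have := eL_RL h.2
    rw [h3] at this
    exact RL_unique this (eL_RL h'.2)
  exact Prod.ext h2 h4

lemma rv_left (b : Pt) : rv (b, ((-1, 0) : Pt)) = (b + (-1, 0), -(-1, 0)) := rfl

theorem eP_surj {E : Finset (Pt × Pt)} (hE : IsPoly E) (hs : sg E = -1) : ∃ P, Good P ∧ eP P = E := by
  obtain ⟨b, hb⟩ := exists_root hE
  obtain ⟨h0, h⟩ := root_edges hE hb
  have h1 : (b, ((-1, 0) : Pt)) ∈ E := by
    rcases h with h | h
    · exact h.1
    · exfalso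
      have h2 : (b, ((-1, 0) : Pt)) ∈ rE E := by
        rw [mem_rE]
        exact h.2
      have hb' : IsRoot (rE E) b := by
        unfold IsRoot
        rw [VE_rE hE]
        exact hb
      have h3 := sg_root (isPoly_rE hE) hb' h2
      rw [sg_rE hE, hs] at h3
      norm_num at h3
  have hz : cl (r0 - b) = 0 := by
    have h1 : (((r0 - b).1 - (r0 - b).2 : ℤ) : ZMod 3) = ((0 : ℤ) : ZMod 3) := by
      rw [ZMod.intCast_eq_intCast_iff]
      show ((r0 - b).1 - (r0 - b).2) % 3 = 0 % 3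
      unfold nn at h0
      unfold r0
      simp only [Prod.fst_sub, Prod.snd_sub]
      omega
    have h2 : cl (r0 - b) = (((r0 - b).1 - (r0 - b).2 : ℤ) : ZMod 3) := by
      unfold cl
      push_cast
      rfl
    rw [h2, h1, Int.cast_zero]
  have hm := cl_mod hz
  have h2 : (r0, ((-1, 0) : Pt)) ∈ TE (r0 - b) E := by
    refine Finset.mem_image.2 ⟨_, h1, ?_⟩
    unfold Te
    simp
  obtain ⟨L, hL⟩ := exists_RL (isPoly_TE hz hE) h2
  have hr : IsRoot (TE (r0 - b) E) r0 := by
    have := root_TE hz hb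
    rwa [show b + (r0 - b) = r0 by abel] at this
  have hPL := RL_Polygon hL hr
  have he := RL_eL hL hr
  have e1 : CC.ps (CC.ph (b - r0)) = b - r0 := by
    apply CC.ps_ph
    unfold CC.lv
    unfold r0 at hm ⊢
    simp only [Prod.fst_sub, Prod.snd_sub] at hm ⊢
    omega
  refine ⟨(CC.ph (b - r0), L), ⟨?_, hPL⟩, ?_⟩
  · rw [Int.even_iff]
    unfold CC.ph
    unfold r0 at hm ⊢
    simp only [Prod.fst_sub, Prod.snd_sub] at hm ⊢
    omega
  · unfold eP
    simp only
    rw [e1, ← he, TE_add]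
    have e : r0 - b + (b - r0) = 0 := by abel
    rw [e]
    unfold TE
    have : (Te 0 : Pt × Pt → Pt × Pt) = id := by
      funext p
      unfold Te
      simp
    rw [this, Finset.image_id]

/-! ### the crossings -/

/-- the crossing of a directed edge in brick wall coordinates -/
lemma cr_CrE {v d : Pt} (h : De (v, d)) : ((cr f0 (v, d) : ℤ) : ZMod 2) = if CrE (CC.ph v, CC.ph (v + d)) then 1 else 0 := by
  obtain ⟨a, b⟩ := v
  have h1 := De_cases h
  have key : (CrE (CC.ph (a, b), CC.ph ((a, b) + d))) ↔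
      (d = (1, -1) ∧ a - b = 0 ∧ a + 2 * b < 1) ∨ (d = (-1, 1) ∧ a - b = 2 ∧ a + 2 * b < 1) := by
    unfold CrE CC.ph
    unfold nn at h1
    simp only at h1
    rcases h1 with ⟨h2, rfl | rfl | rfl⟩ | ⟨h2, rfl | rfl | rfl⟩ <;>
      simp only [Prod.mk_add_mk, Prod.mk.injEq, true_and] <;> omega
  have e1 : f0 = (1, 0) := rfl
  by_cases hc : CrE (CC.ph (a, b), CC.ph ((a, b) + d))
  · rw [if_pos hc]
    rcases key.1 hc with ⟨rfl, h3, h4⟩ | ⟨rfl, h3, h4⟩
    · have : cr f0 ((a, b), ((1, -1) : Pt)) = 1 := by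
        unfold cr nn lv
        rw [e1, if_pos]
        refine ⟨rfl, ?_, ?_⟩
        · simp only
          omega
        · simp only
          omega
      rw [this]
      rfl
    · have : cr f0 ((a, b), ((-1, 1) : Pt)) = -1 := by
        unfold cr nn lv
        rw [e1, if_neg, if_pos]
        · refine ⟨rfl, ?_, ?_⟩
          · simp only
            omega
          · simp only
            omega
        · simp
      rw [this]
      decide
  · rw [if_neg hc]
    have : cr f0 ((a, b), d) = 0 := by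
      have hc' := fun h => hc (key.2 h)
      unfold cr nn lv
      rw [e1, if_neg, if_neg]
      · rintro ⟨h2, h3, h4⟩
        simp only at h2 h3 h4
        exact hc' (Or.inr ⟨h2, by omega, by omega⟩)
      · rintro ⟨h2, h3, h4⟩
        simp only at h2 h3 h4
        exact hc' (Or.inl ⟨h2, by omega, by omega⟩)
    rw [this]
    rfl

lemma countP_range (m : ℕ) (p : ℕ → Prop) [DecidablePred p] :
    (((List.range m).countP fun i => p i : ℕ) : ZMod 2) = ∑ i ∈ Finset.range m, if p i then (1 : ZMod 2) else 0 := by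
  induction m with
  | zero => rfl
  | succ n ih =>
    rw [List.range_succ, List.countP_append, Finset.sum_range_succ, Nat.cast_add, ih]
    congr 1
    by_cases h : p n
    · simp [h]
    · simp [h]

lemma sum_per' {R : Type*} [AddCommMonoid R] {h : ℕ → R} {m : ℕ} (hm : 0 < m) (hp : ∀ j, h (j + m) = h j) :
    ∑ i ∈ Finset.range m, h (i + (m - 1)) = ∑ j ∈ Finset.range m, h j := by
  obtain ⟨n, rfl⟩ : ∃ n, m = n + 1 := ⟨m - 1, by omega⟩
  rw [Finset.sum_range_succ', Finset.sum_range_succ]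
  congr 1
  · refine Finset.sum_congr rfl fun i _ => ?_
    rw [← hp i]
    congr 1
    omega
  · congr 1
    omega

lemma zip_sites (h : Good P) : (sites P).zip ((sites P).rotate 1) =
    (List.range P.2.length).map (fun i => (sit P.2 i + P.1, sit P.2 (i + 1) + P.1)) := by
  have h3 := h.2.2.2.1
  unfold sites
  apply List.ext_getElem
  · simp
  · intro i h1 h2
    have h4 : i < P.2.length := by simpa using h2
    rw [List.getElem_zip, List.getElem_map, List.getElem_map, List.getElem_range, List.getElem_rotate,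
      List.getElem_map, sit_lt h4]
    have h5 : sit P.2 (i + 1) = P.2[(i + 1) % P.2.length]'(Nat.mod_lt _ (by omega)) := by
      rw [← sit_mod, sit_lt (Nat.mod_lt _ (by omega))]
    rw [h5]
    simp only [List.length_map]

theorem crs_Nw (h : Good P) : ((crs P : ℕ) : ZMod 2) = ((Nw (eP P) f0 : ℤ) : ZMod 2) := by
  have h3 := h.2.2.2.1
  have e1 : ((crs P : ℕ) : ZMod 2) = ∑ i ∈ Finset.range P.2.length,
      if CrE (sit P.2 i + P.1, sit P.2 (i + 1) + P.1) then (1 : ZMod 2) else 0 := by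
    rw [← countP_range]
    unfold crs
    rw [zip_sites h, List.countP_map]
    rfl
  have hz := cl_ps_even h.1
  have e2 : ((Nw (eP P) f0 : ℤ) : ZMod 2) = ∑ i ∈ Finset.range P.2.length,
      ((cr f0 (Te (CC.ps P.1) (eg r0 (-1, 0) (tt P.2) i)) : ℤ) : ZMod 2) := by
    unfold Nw eP TE eL pe
    rw [Finset.sum_image (fun _ _ _ _ h => Te_inj _ h), Finset.sum_image (w_eg_inj (poly_tt h.2)), Int.cast_sum]
  rw [e1, e2, ← sum_per' (m := P.2.length) (h := fun i => if CrE (sit P.2 i + P.1, sit P.2 (i + 1) + P.1) then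
    (1 : ZMod 2) else 0) (by omega)]
  · refine Finset.sum_congr rfl fun i _ => ?_
    have hd : De (Te (CC.ps P.1) (eg r0 (-1, 0) (tt P.2) i)) := by
      rw [tr_De hz]
      exact poly_de (poly_tt h.2) i
    have e3 : Te (CC.ps P.1) (eg r0 (-1, 0) (tt P.2) i) = (wv P.2 i + CC.ps P.1, dd P.2 i) := by
      unfold eg Te
      simp only
      rw [vs_tt h.2, ds_tt h.2]
    rw [e3] at hd ⊢
    rw [cr_CrE hd]
    have e4 : CC.ph (wv P.2 i + CC.ps P.1) = sit P.2 (i + (P.2.length - 1)) + P.1 := by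
      rw [ph_add h.1]
      unfold wv
      rw [CC.ph_ps]
    have e5 : CC.ph (wv P.2 i + CC.ps P.1 + dd P.2 i) = sit P.2 (i + (P.2.length - 1) + 1) + P.1 := by
      rw [show wv P.2 i + CC.ps P.1 + dd P.2 i = (wv P.2 i + dd P.2 i) + CC.ps P.1 by abel, wv_add, ph_add h.1]
      unfold wv
      rw [CC.ph_ps, show i + 1 + (P.2.length - 1) = i + (P.2.length - 1) + 1 by omega]
    rw [e4, e5]
  · intro j
    rw [show j + P.2.length + 1 = j + 1 + P.2.length by omega, sit_per, sit_per]

/-- **a polygon surrounds the hexagon if it crosses the ray an odd number of times** -/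
theorem around_iff (h : Good P) : Odd (crs P) ↔ Nw (eP P) f0 ≠ 0 := by
  have h1 := crs_Nw h
  have h2 := Nw_cases (eP_poly h) HexObs.TH.Fc_f0
  rw [eP_sg h] at h2
  rw [← ZMod.natCast_eq_one_iff_odd, h1]
  rcases h2 with h2 | h2
  · rw [h2]
    simp
  · rw [h2]
    constructor
    · intro _
      norm_num
    · intro _
      decide

end NUA
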