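import Pool.Agent.NUA.W1Lim
import Pool.Agent.NUA.AreaF

/-!
# The mean area of the polygons in `T` rows, from the target
-/

set_option autoImplicit false

open Filter Topology ENNReal

namespace NUA

open NUI Pool.Agent.NUF HexObs HexObs.LP Pool.Agent.ZF HexObs.TH

/-- the weight of the oriented polygons around `f0` in at most `T` rows -/
noncomputable def Q (T : ℕ) : ℝ≥0∞ := ∑' E : PX T, ENNReal.ofReal (xc ^ E.1.card)

lemma row_PP {m M : ℕ} {E : Finset (Pt × Pt)} (h : VE E ⊆ HexObs.LP.PP m M) : Row (2 * m) E := by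
  intro v hv w hw
  have h1 := (mem_PP.1 (h hv)).2.1
  have h2 := (mem_PP.1 (h hw)).2.1
  rw [abs_lt] at h1 h2
  unfold lv at h1 h2
  unfold CC.ph
  simp only
  push_cast
  omega

lemma Row_mono {S T : ℕ} (h : S ≤ T) {E : Finset (Pt × Pt)} (hE : Row S E) : Row T E := by
  intro v hv w hw
  have := hE v hv w hw
  omega

lemma ofReal_WW (Ω : Finset Pt) : ENNReal.ofReal (WW Ω) =
    ∑ E ∈ Pool.Agent.NUN.pf f0 Ω, ENNReal.ofReal (xc ^ E.card) := by
  unfold WW
  exact ENNReal.ofReal_sum_of_nonneg fun E _ => pow_nonneg xc_pos.le _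

/-- lower bound -/
theorem WW_le_Q {m T : ℕ} (M : ℕ) (h : 2 * m ≤ T) : ENNReal.ofReal (WW (HexObs.LP.PP m M)) ≤ Q T := by
  classical
  rw [ofReal_WW, ← Finset.sum_coe_sort]
  have hm : ∀ E ∈ Pool.Agent.NUN.pf f0 (HexObs.LP.PP m M), IsPoly E ∧ Nw E f0 ≠ 0 ∧ Row T E := by
    intro E hE
    obtain ⟨h1, h2, h3⟩ := Pool.Agent.NUN.mem_pf.1 hE
    exact ⟨h1, h3, Row_mono h (row_PP h2)⟩
  unfold Q
  rw [← tsum_fintype (L := SummationFilter.unconditional _)]
  exact ENNReal.tsum_comp_le_tsum_of_injective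
    (f := fun E : {E // E ∈ Pool.Agent.NUN.pf f0 (HexObs.LP.PP m M)} => (⟨E.1, hm E.1 E.2⟩ : PX T))
    (fun a b h => Subtype.ext (by simpa using congrArg Subtype.val h)) (fun E : PX T => ENNReal.ofReal (xc ^ E.1.card))

lemma Row_PP {T : ℕ} {E : Finset (Pt × Pt)} (hE : IsPoly E) (hN : Nw E f0 ≠ 0) (hR : Row T E) {v : Pt} (hv : v ∈ VE E) :
    |lv v - 1| < 3 * T := by
  obtain ⟨a, ha, ha1⟩ := row_above hE HexObs.TH.Fc_f0 hN
  obtain ⟨b, hb, hb1⟩ := row_below hN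
  have h1 := hR v hv b hb
  have h2 := hR a ha v hv
  have e : lv f0 = 1 := by decide
  rw [e] at ha1 hb1
  unfold CC.ph at h1 h2
  unfold lv at *
  simp only at h1 h2
  rw [abs_lt]
  omega

/-- the polygons in the strip around the face come near the face -/
lemma near_f0 {E : Finset (Pt × Pt)} (hN : Nw E f0 ≠ 0) : ∃ v ∈ VE E, |nn v - 1| ≤ 1 := by
  unfold Nw at hN
  obtain ⟨p, hp, hp2⟩ := Finset.exists_ne_zero_of_sum_ne_zero hN
  refine ⟨p.1, Finset.mem_image.2 ⟨p, hp, rfl⟩, ?_⟩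
  have e : nn f0 = 1 := by decide
  unfold cr at hp2
  rw [e] at hp2
  rw [abs_le]
  split_ifs at hp2 with h1 h2
  · have := h1.2.1
    constructor <;> omega
  · have := h2.2.1
    constructor <;> omega
  · exact absurd rfl hp2

/-- the wide polygons -/
theorem WW_wide : ∃ C : ℝ, 0 ≤ C ∧ ∀ T M : ℕ, 1 ≤ T → WW (HexObs.LP.PP T M) ≤ WW (HexObs.LP.PP T T) + C := by
  classical
  obtain ⟨C, hC⟩ := PLD.twoC_all 2
  refine ⟨max C 0, le_max_right _ _, fun T M hT => ?_⟩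
  set S := (Pool.Agent.NUN.pf f0 (HexObs.LP.PP T M)).filter (fun E => ¬ VE E ⊆ HexObs.LP.PP T T) with hS
  have h1 : ∑ E ∈ S, xc ^ E.card ≤ C := by
    refine hC f0 Fc_f0 (Nat.log 2 T) S fun E hE => ?_
    rw [hS, Finset.mem_filter] at hE
    obtain ⟨h2, h3⟩ := hE
    obtain ⟨h4, h5, h6⟩ := Pool.Agent.NUN.mem_pf.1 h2
    have hl1 : 2 ^ Nat.log 2 T ≤ T := Nat.pow_log_le_self 2 (by omega)
    have hl2 : T < 2 ^ (Nat.log 2 T + 1) := Nat.lt_pow_succ_log_self (by omega) T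
    have hl3 : 2 ^ (Nat.log 2 T + 1) = 2 * 2 ^ Nat.log 2 T := by rw [pow_succ]; ring
    have hl4 : 2 ^ (Nat.log 2 T + 2) = 4 * 2 ^ Nat.log 2 T := by rw [pow_add]; ring
    refine ⟨h4, h6, ?_, ?_⟩
    · obtain ⟨v, hv, hv2⟩ := Finset.not_subset.1 h3
      refine ⟨v, hv, ?_⟩
      have h7 := mem_PP.1 (h5 hv)
      intro hB
      apply hv2
      rw [mem_PP]
      refine ⟨h7.1, h7.2.1, ?_⟩
      unfold Bx at hB
      have e1 : (v - f0).1 = v.1 - 1 := rfl
      have e2 : (v - f0).2 = v.2 - 0 := rfl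
      rw [e1, e2, abs_le, abs_le] at hB
      have h8 : ((2 ^ Nat.log 2 T : ℕ) : ℤ) ≤ T := by exact_mod_cast hl1
      unfold nn
      rw [abs_lt]
      omega
    · obtain ⟨v, hv, hv2⟩ := near_f0 h6
      refine ⟨v, hv, ?_⟩
      have h7 := (mem_PP.1 (h5 hv)).2.1
      unfold Bx
      have e1 : (v - f0).1 = v.1 - 1 := rfl
      have e2 : (v - f0).2 = v.2 - 0 := rfl
      rw [e1, e2, hl4, abs_le, abs_le]
      unfold lv at h7
      unfold nn at hv2
      rw [abs_lt] at h7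
      rw [abs_le] at hv2
      have h8 : (T : ℤ) < ((2 ^ (Nat.log 2 T + 1) : ℕ) : ℤ) := by exact_mod_cast hl2
      rw [hl3] at h8
      push_cast at h8 ⊢
      have h9 : (1 : ℤ) ≤ 2 ^ Nat.log 2 T := one_le_pow₀ (by norm_num)
      omega
  have h2 : WW (HexObs.LP.PP T M) = ∑ E ∈ (Pool.Agent.NUN.pf f0 (HexObs.LP.PP T M)).filter
      (fun E => VE E ⊆ HexObs.LP.PP T T), xc ^ E.card + ∑ E ∈ S, xc ^ E.card := by
    unfold WW
    rw [hS, Finset.sum_filter_add_sum_filter_not]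
  have h3 : ∑ E ∈ (Pool.Agent.NUN.pf f0 (HexObs.LP.PP T M)).filter (fun E => VE E ⊆ HexObs.LP.PP T T), xc ^ E.card ≤
      WW (HexObs.LP.PP T T) := by
    unfold WW
    apply Finset.sum_le_sum_of_subset_of_nonneg
    · intro E hE
      rw [Finset.mem_filter] at hE
      obtain ⟨h4, h5⟩ := hE
      obtain ⟨h6, _, h7⟩ := Pool.Agent.NUN.mem_pf.1 h4
      exact Pool.Agent.NUN.mem_pf.2 ⟨h6, h5, h7⟩
    · intro E _ _
      exact pow_nonneg xc_pos.le _
  rw [h2]
  exact add_le_add h3 (h1.trans (le_max_left _ _))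

/-- upper bound -/
theorem Q_le {C : ℝ} (hC : ∀ T M : ℕ, 1 ≤ T → WW (HexObs.LP.PP T M) ≤ WW (HexObs.LP.PP T T) + C) {T : ℕ} (hT : 1 ≤ T) :
    Q T ≤ ENNReal.ofReal (WW (HexObs.LP.PP T T) + C) := by
  classical
  unfold Q
  rw [ENNReal.tsum_eq_iSup_sum]
  refine iSup_le fun S => ?_
  -- the box
  obtain ⟨M, hM⟩ : ∃ M : ℕ, ∀ E ∈ S, ∀ v ∈ VE E.1, |nn v - 1| < 3 * M := by
    refine ⟨∑ E ∈ S, ∑ v ∈ VE E.1, (nn v - 1).natAbs + 1, fun E hE v hv => ?_⟩
    have h1 : (nn v - 1).natAbs ≤ ∑ v ∈ VE E.1, (nn v - 1).natAbs :=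
      Finset.single_le_sum (f := fun v : Pt => (nn v - 1).natAbs) (fun _ _ => Nat.zero_le _) hv
    have h2 : ∑ v ∈ VE E.1, (nn v - 1).natAbs ≤ ∑ E ∈ S, ∑ v ∈ VE E.1, (nn v - 1).natAbs :=
      Finset.single_le_sum (f := fun E : PX T => ∑ v ∈ VE E.1, (nn v - 1).natAbs) (fun _ _ => Nat.zero_le _) hE
    have h3 : |nn v - 1| = ((nn v - 1).natAbs : ℤ) := Int.abs_eq_natAbs _
    rw [h3]
    omega
  refine le_trans ?_ (ENNReal.ofReal_le_ofReal (hC T M hT))
  rw [ofReal_WW]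
  have h1 : ∑ E ∈ S, ENNReal.ofReal (xc ^ E.1.card) =
      ∑ E ∈ S.map ⟨Subtype.val, Subtype.val_injective⟩, ENNReal.ofReal (xc ^ E.card) := by
    rw [Finset.sum_map]
    rfl
  rw [h1]
  apply Finset.sum_le_sum_of_subset
  intro E hE
  rw [Finset.mem_map] at hE
  obtain ⟨E', hE', rfl⟩ := hE
  obtain ⟨E, h2, h3, h4⟩ := E'
  show E ∈ _
  rw [Pool.Agent.NUN.mem_pf]
  refine ⟨h2, fun v hv => ?_, h3⟩
  rw [mem_PP]
  exact ⟨VE_Vt h2 hv, Row_PP h2 h3 h4 hv, hM _ hE' v hv⟩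

theorem WW_nonneg (Ω : Finset Pt) : 0 ≤ WW Ω := by
  unfold WW
  exact Finset.sum_nonneg fun E _ => pow_nonneg xc_pos.le _

theorem Q_mono {S T : ℕ} (h : S ≤ T) : Q S ≤ Q T := by
  unfold Q
  exact ENNReal.tsum_comp_le_tsum_of_injective
    (f := fun E : PX S => (⟨E.1, E.2.1, E.2.2.1, Row_mono h E.2.2.2⟩ : PX T))
    (fun a b h => Subtype.ext (by simpa using congrArg Subtype.val h)) (fun E : PX T => ENNReal.ofReal (xc ^ E.1.card))

theorem Q_ne_top (T : ℕ) : Q T ≠ ∞ := by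
  obtain ⟨C, _, hC⟩ := WW_wide
  refine ne_top_of_le_ne_top ?_ ((Q_mono (Nat.le_succ T)).trans (Q_le hC (Nat.succ_pos T)))
  exact ENNReal.ofReal_ne_top

lemma log_half : Tendsto (fun T : ℕ => Real.log ((T / 2 : ℕ) : ℝ) / Real.log T) atTop (𝓝 1) := by
  have h1 : Tendsto (fun T : ℕ => Real.log T) atTop atTop := Real.tendsto_log_atTop.comp tendsto_natCast_atTop_atTop
  have h2 : Tendsto (fun T : ℕ => 1 - Real.log 3 / Real.log T) atTop (𝓝 1) := by
    have := (tendsto_const_nhds (x := Real.log 3)).div_atTop h1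
    have h3 := (tendsto_const_nhds (x := (1 : ℝ))).sub this
    rwa [sub_zero] at h3
  refine tendsto_of_tendsto_of_tendsto_of_le_of_le' h2 tendsto_const_nhds ?_ ?_
  · filter_upwards [eventually_ge_atTop 4] with T hT
    have hT0 : (0 : ℝ) < T := by exact_mod_cast (by omega : 0 < T)
    have hL : 0 < Real.log T := Real.log_pos (by exact_mod_cast (by omega : 1 < T))
    have h4 : (T : ℝ) / 3 ≤ ((T / 2 : ℕ) : ℝ) := by
      rw [div_le_iff₀ (by norm_num)]
      have : T ≤ T / 2 * 3 := by omega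
      exact_mod_cast this
    have h5 := Real.log_le_log (by positivity) h4
    rw [Real.log_div hT0.ne' (by norm_num)] at h5
    rw [le_div_iff₀ hL]
    have : (1 - Real.log 3 / Real.log T) * Real.log T = Real.log T - Real.log 3 := by field_simp
    linarith
  · filter_upwards [eventually_ge_atTop 4] with T hT
    have hL : 0 < Real.log T := Real.log_pos (by exact_mod_cast (by omega : 1 < T))
    rw [div_le_iff₀ hL, one_mul]
    apply Real.log_le_log
    · exact_mod_cast (by omega : 0 < T / 2)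
    · exact_mod_cast (by omega : T / 2 ≤ T)

theorem Q_lim (h : Target) : Tendsto (fun T : ℕ => (Q T).toReal / Real.log T) atTop (𝓝 (1 / (3 * Real.pi))) := by
  obtain ⟨C, hC0, hC⟩ := WW_wide
  have h1 : Tendsto (fun T : ℕ => Real.log T) atTop atTop := Real.tendsto_log_atTop.comp tendsto_natCast_atTop_atTop
  have hup : Tendsto (fun T : ℕ => WW (HexObs.LP.PP T T) / Real.log T + C / Real.log T) atTop
      (𝓝 (1 / (3 * Real.pi))) := by
    have := (WW_lim h).add ((tendsto_const_nhds (x := C)).div_atTop h1)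
    rwa [add_zero] at this
  have hlo : Tendsto (fun T : ℕ => WW (HexObs.LP.PP (T / 2) (T / 2)) / Real.log ((T / 2 : ℕ) : ℝ) *
      (Real.log ((T / 2 : ℕ) : ℝ) / Real.log T)) atTop (𝓝 (1 / (3 * Real.pi))) := by
    have h2 : Tendsto (fun T : ℕ => T / 2) atTop atTop := by
      apply tendsto_atTop_atTop.2
      intro b
      exact ⟨2 * b, fun a ha => by omega⟩
    have := ((WW_lim h).comp h2).mul log_half
    rwa [mul_one] at this
  refine tendsto_of_tendsto_of_tendsto_of_le_of_le' hlo hup ?_ ?_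
  · filter_upwards [eventually_ge_atTop 4] with T hT
    have hL : 0 < Real.log T := Real.log_pos (by exact_mod_cast (by omega : 1 < T))
    have hL2 : 0 < Real.log ((T / 2 : ℕ) : ℝ) := Real.log_pos (by exact_mod_cast (by omega : 1 < T / 2))
    have h2 := WW_le_Q (m := T / 2) (T := T) (T / 2) (by omega)
    have h3 := (ENNReal.ofReal_le_iff_le_toReal (Q_ne_top T)).1 h2
    rw [div_mul_div_comm, mul_comm (WW _), mul_div_mul_left _ _ hL2.ne']
    exact div_le_div_of_nonneg_right h3 hL.le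
  · filter_upwards [eventually_ge_atTop 4] with T hT
    have hL : 0 < Real.log T := Real.log_pos (by exact_mod_cast (by omega : 1 < T))
    have h2 := Q_le hC (T := T) (by omega)
    have h3 : (Q T).toReal ≤ WW (HexObs.LP.PP T T) + C := by
      have := ENNReal.toReal_mono ENNReal.ofReal_ne_top h2
      rwa [ENNReal.toReal_ofReal (add_nonneg (WW_nonneg _) hC0)] at this
    rw [← add_div]
    exact div_le_div_of_nonneg_right h3 hL.le

/-- The total area of the polygons in `T` rows, up to translations. -/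
noncomputable def A (T : ℕ) : ℝ≥0∞ := ∑' L : {L : List (ℤ × ℤ) // HexPolygon.Polygon L ∧ ∀ p ∈ L, p.2 ≤ (T : ℤ)},
  HexPolygon.wt L.1 * (area L.1 : ℝ≥0∞)

theorem A_Q (T : ℕ) : Q T = 2 * A T := by
  unfold Q A
  rw [tsum_face]
  congr 1
  refine tsum_congr fun L => ?_
  rw [area_eq L.2.1]

/-- **Cardy's amplitude.** -/
theorem area_main (h : Target) : (∀ T : ℕ, A T ≠ ∞) ∧
    Tendsto (fun T : ℕ => (A T).toReal / Real.log T) atTop (𝓝 (1 / (6 * Real.pi))) := by
  have hA : ∀ T : ℕ, A T ≠ ∞ := by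
    intro T h1
    apply Q_ne_top T
    rw [A_Q, h1]
    exact ENNReal.mul_top (by norm_num)
  refine ⟨hA, ?_⟩
  have h2 := (Q_lim h).div_const 2
  have e : (1 / (3 * Real.pi)) / 2 = 1 / (6 * Real.pi) := by
    have := Real.pi_pos
    field_simp
    norm_num
  rw [e] at h2
  refine h2.congr fun T => ?_
  rw [A_Q, ENNReal.toReal_mul]
  have : (2 : ℝ≥0∞).toReal = 2 := rfl
  rw [this]
  ring

end NUA
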