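import Pool.Agent.NUA.NestB
import Pool.Agent.NUA.PubA

/-!
# Families of nested polygons around a hexagon in a box
-/

set_option autoImplicit false

open Filter Topology ENNReal

namespace NUA

open HexObs HexObs.LP Pool.Agent.ZF HexObs.TH NUI Pool.Agent.NUF
open scoped Classical

/-- families of disjoint polygons around the hexagon in the box -/
def Nested (T : ℕ) (F : Finset ((ℤ × ℤ) × List (ℤ × ℤ))) : Prop :=
  (∀ P ∈ F, Even (P.1.1 + P.1.2) ∧ HexPolygon.Polygon P.2 ∧ Odd (crs P) ∧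
    ∀ p ∈ sites P, |p.1| ≤ T ∧ |p.2| ≤ T) ∧
  ∀ P ∈ F, ∀ P' ∈ F, P ≠ P' → ∀ p ∈ sites P, p ∉ sites P'

/-- the total weight of the families -/
noncomputable def NZ (n : ℝ) (T : ℕ) : ℝ≥0∞ :=
  ∑' F : {F // Nested T F}, ∏ P ∈ F.1, (ENNReal.ofReal n * HexPolygon.wt P.2)

/-- the box -/
noncomputable def Bo (T : ℕ) : Finset Pt :=
  ((Finset.Icc (-(3 * T + 3) : ℤ) (3 * T + 3)) ×ˢ (Finset.Icc (-(3 * T + 3) : ℤ) (3 * T + 3))).filter
    (fun v => Vt v ∧ |(CC.ph v).1| ≤ T ∧ |(CC.ph v).2| ≤ T)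

theorem mem_Bo {T : ℕ} {v : Pt} : v ∈ Bo T ↔ Vt v ∧ |(CC.ph v).1| ≤ T ∧ |(CC.ph v).2| ≤ T := by
  unfold Bo
  rw [Finset.mem_filter, and_iff_right_iff_imp]
  rintro ⟨_, h1, h2⟩
  rw [Finset.mem_product, Finset.mem_Icc, Finset.mem_Icc]
  unfold CC.ph at h1 h2
  simp only at h1 h2
  rw [abs_le] at h1 h2
  omega

theorem Bo_le (T : ℕ) : Bo T ⊆ HexObs.LP.PP (T + 1) (T + 1) := by
  intro v hv
  obtain ⟨h0, h1, h2⟩ := mem_Bo.1 hv
  rw [mem_PP]
  unfold CC.ph at h1 h2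
  unfold lv nn
  simp only at h1 h2
  rw [abs_le] at h1 h2
  rw [abs_lt, abs_lt]
  push_cast
  refine ⟨h0, ?_, ?_⟩ <;> constructor <;> omega

theorem PP_le_Bo {m T : ℕ} (h : 3 * m ≤ T) : HexObs.LP.PP m m ⊆ Bo T := by
  intro v hv
  obtain ⟨h0, h1, h2⟩ := mem_PP.1 hv
  rw [mem_Bo]
  unfold CC.ph
  unfold lv at h1
  unfold nn at h2
  simp only
  rw [abs_lt] at h1 h2
  rw [abs_le, abs_le]
  refine ⟨h0, ?_, ?_⟩ <;> constructor <;> omega

/-- the clockwise polygon as an element of the poset -/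
noncomputable def eG (P : (ℤ × ℤ) × List (ℤ × ℤ)) : Pg := eP P

/-- the family of the clockwise polygons -/
noncomputable def img (F : Finset ((ℤ × ℤ) × List (ℤ × ℤ))) : Finset Pg := F.image eG

lemma mem_img {F : Finset ((ℤ × ℤ) × List (ℤ × ℤ))} {E : Pg} : E ∈ img F ↔ ∃ P ∈ F, eG P = E := by
  unfold img
  rw [Finset.mem_image]

lemma eP_mem {T : ℕ} {P : (ℤ × ℤ) × List (ℤ × ℤ)} (h : Good P) (h1 : Odd (crs P))
    (h2 : ∀ p ∈ sites P, |p.1| ≤ T ∧ |p.2| ≤ T) : eG P ∈ dm f0 (Bo T) := by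
  refine mem_dm.2 ⟨⟨eP_poly h, fun v hv => ?_, (around_iff h).1 h1⟩, eP_sg h⟩
  have h3 := h2 _ ((mem_sites h).2 ⟨v, hv, rfl⟩)
  exact mem_Bo.2 ⟨VE_Vt (eP_poly h) hv, h3.1, h3.2⟩

lemma eP_mem' {T : ℕ} {E : Pg} (hE : E ∈ dm f0 (Bo T)) : ∃ P : (ℤ × ℤ) × List (ℤ × ℤ), (Good P ∧ Odd (crs P) ∧
    ∀ p ∈ sites P, |p.1| ≤ T ∧ |p.2| ≤ T) ∧ eG P = E := by
  obtain ⟨⟨h1, h2, h3⟩, h4⟩ := mem_dm.1 hE
  obtain ⟨P, hP, rfl⟩ := eP_surj h1 h4
  refine ⟨P, ⟨hP, (around_iff hP).2 h3, fun p hp => ?_⟩, rfl⟩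
  obtain ⟨v, hv, rfl⟩ := (mem_sites hP).1 hp
  exact (mem_Bo.1 (h2 hv)).2

lemma fam_of {T : ℕ} {F : Finset ((ℤ × ℤ) × List (ℤ × ℤ))} (hF : Nested T F) :
    img F ∈ fam f0 (Bo T) := by
  unfold fam
  rw [Finset.mem_filter, Finset.mem_powerset]
  constructor
  · intro E hE
    obtain ⟨P, hP, rfl⟩ := mem_img.1 hE
    obtain ⟨h1, h2, h3, h4⟩ := hF.1 P hP
    exact eP_mem ⟨h1, h2⟩ h3 h4
  · intro E hE E' hE' hne w hw hw'
    obtain ⟨P, hP, rfl⟩ := mem_img.1 hE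
    obtain ⟨P', hP', rfl⟩ := mem_img.1 hE'
    obtain ⟨h1, h2, _, _⟩ := hF.1 P hP
    obtain ⟨h1', h2', _, _⟩ := hF.1 P' hP'
    have hne' : P ≠ P' := fun e => hne (by rw [e])
    exact hF.2 P hP P' hP' hne' _ ((mem_sites ⟨h1, h2⟩).2 ⟨w, hw, rfl⟩) ((mem_sites ⟨h1', h2'⟩).2 ⟨w, hw', rfl⟩)

lemma img_inj {T : ℕ} {F F' : Finset ((ℤ × ℤ) × List (ℤ × ℤ))} (hF : Nested T F) (hF' : Nested T F')
    (h : img F = img F') : F = F' := by
  have key : ∀ {F F' : Finset ((ℤ × ℤ) × List (ℤ × ℤ))}, Nested T F → Nested T F' → img F = img F' →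
      F ⊆ F' := by
    intro F F' hF hF' h P hP
    have h1 : eG P ∈ img F' := by
      rw [← h]
      exact mem_img.2 ⟨P, hP, rfl⟩
    obtain ⟨P', hP', h2⟩ := mem_img.1 h1
    obtain ⟨a1, a2, _, _⟩ := hF.1 P hP
    obtain ⟨b1, b2, _, _⟩ := hF'.1 P' hP'
    rw [← eP_inj ⟨b1, b2⟩ ⟨a1, a2⟩ h2]
    exact hP'
  exact Finset.Subset.antisymm (key hF hF' h) (key hF' hF h.symm)

lemma img_surj {T : ℕ} {C : Finset Pg} (hC : C ∈ fam f0 (Bo T)) :
    ∃ F : Finset ((ℤ × ℤ) × List (ℤ × ℤ)), Nested T F ∧ img F = C := by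
  unfold fam at hC
  rw [Finset.mem_filter, Finset.mem_powerset] at hC
  obtain ⟨h1, h2⟩ := hC
  have h3 : ∀ E : {E // E ∈ C}, ∃ P : (ℤ × ℤ) × List (ℤ × ℤ), (Good P ∧ Odd (crs P) ∧
      ∀ p ∈ sites P, |p.1| ≤ T ∧ |p.2| ≤ T) ∧ eG P = E.1 := fun E => eP_mem' (h1 E.2)
  choose g hg hg2 using h3
  refine ⟨C.attach.image g, ⟨?_, ?_⟩, ?_⟩
  · intro P hP
    obtain ⟨E, _, rfl⟩ := Finset.mem_image.1 hP
    exact ⟨(hg E).1.1, (hg E).1.2, (hg E).2.1, (hg E).2.2⟩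
  · intro P hP P' hP' hne p hp hp'
    obtain ⟨E, _, rfl⟩ := Finset.mem_image.1 hP
    obtain ⟨E', _, rfl⟩ := Finset.mem_image.1 hP'
    obtain ⟨v, hv, h4⟩ := (mem_sites (hg E).1).1 hp
    obtain ⟨w, hw, h5⟩ := (mem_sites (hg E').1).1 hp'
    have h6 : v = w := CC.ph_inj (Vt_lv (VE_Vt (eP_poly (hg E).1) hv)) (Vt_lv (VE_Vt (eP_poly (hg E').1) hw))
      (h4.trans h5.symm)
    have h7 : E.1 ≠ E'.1 := fun e => hne (by rw [Subtype.ext e])
    have hv' : v ∈ VE E.1 := by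
      have e : eP (g E) = E.1 := hg2 E
      rw [← e]
      exact hv
    have hw' : w ∈ VE E'.1 := by
      have e : eP (g E') = E'.1 := hg2 E'
      rw [← e]
      exact hw
    exact h2 E.1 E.2 E'.1 E'.2 h7 v hv' (h6 ▸ hw')
  · ext E
    rw [mem_img]
    constructor
    · rintro ⟨P, hP, rfl⟩
      obtain ⟨E, _, rfl⟩ := Finset.mem_image.1 hP
      rw [hg2]
      exact E.2
    · intro hE
      exact ⟨g ⟨E, hE⟩, Finset.mem_image.2 ⟨⟨E, hE⟩, Finset.mem_attach _ _, rfl⟩, hg2 ⟨E, hE⟩⟩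

/-- **the families and the gas** -/
theorem NZ_eq {n : ℝ} (hn : 0 ≤ n) (T : ℕ) : NZ n T = ENNReal.ofReal (NF n (Bo T) f0) := by
  have e1 : NF n (Bo T) f0 = ∑ C ∈ fam f0 (Bo T), ∏ E ∈ C, (n * wP E) := by
    rw [NF_Zf, Zf_fam (n / 2) HexObs.TH.Fc_f0]
    refine Finset.sum_congr rfl fun C _ => Finset.prod_congr rfl fun E _ => ?_
    ring
  rw [e1, ENNReal.ofReal_sum_of_nonneg fun C _ => Finset.prod_nonneg fun E _ => mul_nonneg hn (wP_nonneg E)]
  let Φ : {F // Nested T F} → {C // C ∈ fam f0 (Bo T)} := fun F => ⟨img F.1, fam_of F.2⟩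
  have hΦ : Function.Bijective Φ := by
    constructor
    · intro F F' h
      exact Subtype.ext (img_inj F.2 F'.2 (congrArg Subtype.val h))
    · rintro ⟨C, hC⟩
      obtain ⟨F, hF, h⟩ := img_surj hC
      exact ⟨⟨F, hF⟩, Subtype.ext h⟩
  rw [← Finset.sum_coe_sort, ← tsum_fintype (L := SummationFilter.unconditional _),
    ← (Equiv.ofBijective Φ hΦ).tsum_eq]
  unfold NZ
  refine tsum_congr fun F => ?_
  show ∏ P ∈ F.1, (ENNReal.ofReal n * HexPolygon.wt P.2) =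
    ENNReal.ofReal (∏ E ∈ img F.1, (n * wP E))
  unfold img
  rw [Finset.prod_image, ENNReal.ofReal_prod_of_nonneg fun P _ => mul_nonneg hn (wP_nonneg _)]
  · refine Finset.prod_congr rfl fun P hP => ?_
    obtain ⟨h1, h2, _, _⟩ := F.2.1 P hP
    rw [ENNReal.ofReal_mul hn]
    congr 1
    unfold HexPolygon.wt wP
    rw [HexPolygon.x_eq]
    congr 2
    exact (eP_card ⟨h1, h2⟩).symm
  · intro P hP P' hP' h
    obtain ⟨h1, h2, _, _⟩ := F.2.1 P hP
    obtain ⟨h3, h4, _, _⟩ := F.2.1 P' hP'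
    exact eP_inj ⟨h1, h2⟩ ⟨h3, h4⟩ h

/-! ### the exponents -/

lemma log_ratioN {g : ℕ → ℕ} {c C : ℝ} (hc : 0 < c) (hC : 0 < C)
    (h : ∀ᶠ T : ℕ in atTop, c * T ≤ g T ∧ (g T : ℝ) ≤ C * T) :
    Tendsto (fun T : ℕ => Real.log (g T : ℝ) / Real.log T) atTop (𝓝 1) := by
  have h1 : Tendsto (fun T : ℕ => Real.log T) atTop atTop := Real.tendsto_log_atTop.comp tendsto_natCast_atTop_atTop
  have h2 : ∀ a : ℝ, Tendsto (fun T : ℕ => 1 + a / Real.log T) atTop (𝓝 1) := by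
    intro a
    have := (tendsto_const_nhds (x := (1 : ℝ))).add ((tendsto_const_nhds (x := a)).div_atTop h1)
    rwa [add_zero] at this
  refine tendsto_of_tendsto_of_tendsto_of_le_of_le' (h2 (Real.log c)) (h2 (Real.log C)) ?_ ?_
  · filter_upwards [h, eventually_ge_atTop 2] with T hT hT2
    have hT0 : (0 : ℝ) < T := by exact_mod_cast (by omega : 0 < T)
    have hL : 0 < Real.log T := Real.log_pos (by exact_mod_cast (by omega : 1 < T))
    have h5 := Real.log_le_log (by positivity) hT.1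
    rw [Real.log_mul hc.ne' hT0.ne'] at h5
    rw [le_div_iff₀ hL]
    have : (1 + Real.log c / Real.log T) * Real.log T = Real.log T + Real.log c := by field_simp
    linarith
  · filter_upwards [h, eventually_ge_atTop 2] with T hT hT2
    have hT0 : (0 : ℝ) < T := by exact_mod_cast (by omega : 0 < T)
    have hL : 0 < Real.log T := Real.log_pos (by exact_mod_cast (by omega : 1 < T))
    have hg : (0 : ℝ) < g T := lt_of_lt_of_le (by positivity) hT.1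
    have h5 := Real.log_le_log hg hT.2
    rw [Real.log_mul hC.ne' hT0.ne'] at h5
    rw [div_le_iff₀ hL]
    have : (1 + Real.log C / Real.log T) * Real.log T = Real.log T + Real.log C := by field_simp
    linarith

/-- the exponent -/
lemma hT_half (θ : ℝ) : hT θ / 2 = 1 / 12 - θ ^ 2 / (3 * Real.pi ^ 2) := by
  unfold hT cA
  have := Real.pi_pos
  field_simp
  ring

theorem NF_Bo (h : Target) {θ : ℝ} (h0 : 0 ≤ θ) (h1 : θ < Real.pi / 2) :
    Tendsto (fun T : ℕ => Real.log (NF (2 * Real.cos θ) (Bo T) f0) / Real.log T) atTop (𝓝 (hT θ / 2)) := by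
  have hn := tcos_nonneg h0 h1.le
  have ha : Tendsto (fun T : ℕ => Real.log ((T + 1 : ℕ) : ℝ) / Real.log T) atTop (𝓝 1) := by
    refine log_ratioN (g := fun T => T + 1) (c := 1) (C := 2) one_pos two_pos ?_
    filter_upwards [eventually_ge_atTop 1] with T hT
    have : (1 : ℝ) ≤ T := by exact_mod_cast hT
    push_cast
    constructor <;> linarith
  have hb : Tendsto (fun T : ℕ => Real.log ((T / 3 : ℕ) : ℝ) / Real.log T) atTop (𝓝 1) := by
    refine log_ratioN (g := fun T => T / 3) (c := 1 / 5) (C := 1) (by norm_num) one_pos ?_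
    filter_upwards [eventually_ge_atTop 6] with T hT
    have h2 : T ≤ T / 3 * 5 := by omega
    have h3 : T / 3 ≤ T := Nat.div_le_self _ _
    have h4 : (T : ℝ) ≤ ((T / 3 : ℕ) : ℝ) * 5 := by exact_mod_cast h2
    have h5 : ((T / 3 : ℕ) : ℝ) ≤ T := by exact_mod_cast h3
    constructor <;> linarith
  have t1 : Tendsto (fun T : ℕ => T + 1) atTop atTop := tendsto_add_atTop_nat 1
  have t2 : Tendsto (fun T : ℕ => T / 3) atTop atTop := by
    apply tendsto_atTop_atTop.2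
    intro b
    exact ⟨3 * b, fun a ha => by omega⟩
  rw [tendsto_order]
  constructor
  · intro a ha'
    obtain ⟨ε, hε, hε2⟩ : ∃ ε : ℝ, 0 < ε ∧ a < hT θ / 2 - ε := ⟨(hT θ / 2 - a) / 2, by linarith, by linarith⟩
    have h2 : ∀ᶠ T : ℕ in atTop, a < Real.log ((T / 3 : ℕ) : ℝ) / Real.log T * (hT θ / 2 - ε) := by
      have h3 := hb.mul_const (hT θ / 2 - ε)
      rw [one_mul] at h3
      exact h3.eventually_const_lt hε2
    filter_upwards [h2, t2.eventually (NF_low h h0 h1 hε), eventually_ge_atTop 6] with T hT1 hT2 hT3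
    have hL : 0 < Real.log T := Real.log_pos (by exact_mod_cast (by omega : 1 < T))
    refine hT1.trans_le ?_
    rw [div_mul_eq_mul_div]
    refine div_le_div_of_nonneg_right ?_ hL.le
    have h3 := hT2.trans (NF_mono hn f0 (PP_le_Bo (m := T / 3) (T := T) (by omega)))
    have h4 := Real.log_le_log (Real.exp_pos _) h3
    rwa [Real.log_exp] at h4
  · intro a ha'
    obtain ⟨ε, hε, hε2⟩ : ∃ ε : ℝ, 0 < ε ∧ hT θ / 2 + ε < a := ⟨(a - hT θ / 2) / 2, by linarith, by linarith⟩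
    have h2 : ∀ᶠ T : ℕ in atTop, Real.log ((T + 1 : ℕ) : ℝ) / Real.log T * (hT θ / 2 + ε) < a := by
      have h3 := ha.mul_const (hT θ / 2 + ε)
      rw [one_mul] at h3
      exact h3.eventually_lt_const hε2
    filter_upwards [h2, t1.eventually (NF_up h h0 h1.le hε), eventually_ge_atTop 6] with T hT1 hT2 hT3
    have hL : 0 < Real.log T := Real.log_pos (by exact_mod_cast (by omega : 1 < T))
    refine lt_of_le_of_lt ?_ hT1
    rw [div_mul_eq_mul_div]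
    refine div_le_div_of_nonneg_right ?_ hL.le
    have h3 := (NF_mono hn f0 (Bo_le T)).trans (hT2 (T + 1))
    have h5 : (0 : ℝ) < NF (2 * Real.cos θ) (Bo T) f0 := lt_of_lt_of_le one_pos (one_le_NF hn _ _)
    have h4 := Real.log_le_log h5 h3
    rwa [Real.log_exp] at h4

/-- **The exponents of the nested families.** -/
theorem nested_main (h : Target) {n : ℝ} (h0 : 0 < n) (h2 : n ≤ 2) : (∀ T : ℕ, NZ n T ≠ ∞) ∧
    Tendsto (fun T : ℕ => Real.log (NZ n T).toReal / Real.log T) atTop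
      (𝓝 (1 / 12 - Real.arccos (n / 2) ^ 2 / (3 * Real.pi ^ 2))) := by
  constructor
  · intro T
    rw [NZ_eq h0.le]
    exact ENNReal.ofReal_ne_top
  · have e1 : 2 * Real.cos (Real.arccos (n / 2)) = n := by
      rw [Real.cos_arccos (by linarith) (by linarith)]
      ring
    have h3 := NF_Bo h (Real.arccos_nonneg (n / 2)) (Real.arccos_lt_pi_div_two.2 (by linarith))
    rw [e1, hT_half] at h3
    refine h3.congr fun T => ?_
    rw [NZ_eq h0.le, ENNReal.toReal_ofReal (le_trans zero_le_one (one_le_NF h0.le _ _))]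

end NUA
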