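import Pool.Agent.TH.Link
import Pool.Agent.HexLoop.Jordan
import Pool.Agent.HexLoop.Lolli

/-!
# The oriented polygon of a list of sites
-/

set_option autoImplicit false

namespace HexObs

namespace TH

open LP Finset ENNReal

/-- the sites in cyclic order -/
def sit (L : List (ℤ × ℤ)) (j : ℕ) : ℤ × ℤ := L.getD (j % L.length) (0, 0)

/-- the vertices in cyclic order, number 0 is the last site -/
def wv (L : List (ℤ × ℤ)) (i : ℕ) : Pt := CC.ps (sit L (i + (L.length - 1)))

/-- the directions -/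
def dd (L : List (ℤ × ℤ)) (i : ℕ) : Pt := wv L (i + 1) - wv L i

/-- the turns -/
def tt (L : List (ℤ × ℤ)) (i : ℕ) : Bool := decide (dd L (i + 1) = turn true (dd L i))

lemma sit_lt {L : List (ℤ × ℤ)} {j : ℕ} (h : j < L.length) : sit L j = L[j] := by
  unfold sit
  rw [Nat.mod_eq_of_lt h, List.getD_eq_getElem?_getD, List.getElem?_eq_getElem h]
  rfl

lemma sit_mod (L : List (ℤ × ℤ)) (j : ℕ) : sit L (j % L.length) = sit L j := by
  unfold sit
  rw [Nat.mod_mod]

lemma sit_per (L : List (ℤ × ℤ)) (j : ℕ) : sit L (j + L.length) = sit L j := by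
  unfold sit
  rw [Nat.add_mod_right]

variable {L : List (ℤ × ℤ)}

lemma sit_mem (h : 0 < L.length) (j : ℕ) : sit L j ∈ L := by
  rw [← sit_mod, sit_lt (Nat.mod_lt _ h)]
  exact List.getElem_mem _

lemma sit_first (hL : HexPolygon.Polygon L) : sit L 0 = (0, 1) := by
  obtain ⟨_, _, h3, h4, _⟩ := hL
  rw [sit_lt (by omega)]
  rw [List.head?_eq_getElem?, List.getElem?_eq_getElem (by omega)] at h4
  exact Option.some.inj h4

lemma sit_last (hL : HexPolygon.Polygon L) : sit L (L.length - 1) = (1, 1) := by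
  obtain ⟨_, _, h3, _, h5, _⟩ := hL
  rw [sit_lt (by omega)]
  rw [List.getLast?_eq_getElem?, List.getElem?_eq_getElem (by omega)] at h5
  exact Option.some.inj h5

lemma sit_edge (hL : HexPolygon.Polygon L) (j : ℕ) : CC.Edge (sit L j) (sit L (j + 1)) := by
  have h3 := hL.2.2.1
  rw [← sit_mod L j, ← sit_mod L (j + 1)]
  have hj : j % L.length < L.length := Nat.mod_lt _ (by omega)
  by_cases h : j % L.length = L.length - 1
  · have e : (j + 1) % L.length = 0 := by
      rw [Nat.add_mod, h, Nat.mod_eq_of_lt (show 1 < L.length by omega)]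
      rw [show L.length - 1 + 1 = L.length by omega, Nat.mod_self]
    rw [e, h, sit_last hL, sit_first hL]
    right; left
    rfl
  · have e : (j + 1) % L.length = j % L.length + 1 := by
      rw [Nat.add_mod, Nat.mod_eq_of_lt (show 1 < L.length by omega), Nat.mod_eq_of_lt (by omega)]
    rw [e, sit_lt hj, sit_lt (by omega)]
    exact List.isChain_iff_getElem.1 hL.1 (j % L.length) (by omega)

lemma sit_inj (hL : HexPolygon.Polygon L) {j k : ℕ} (h : sit L j = sit L k) : j % L.length = k % L.length := by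
  have h3 := hL.2.2.1
  rw [← sit_mod L j, ← sit_mod L k, sit_lt (Nat.mod_lt _ (by omega)), sit_lt (Nat.mod_lt _ (by omega))] at h
  exact (List.Nodup.getElem_inj_iff hL.2.1).1 h

lemma vt_ps (q : ℤ × ℤ) : Vt (CC.ps q) := by
  have h := CC.lv_ps_mod q
  rw [Vt_iff]
  unfold CC.lv at h
  unfold nn
  omega

lemma cl_ps (q : ℤ × ℤ) : cl (CC.ps q) = if (q.1 + q.2) % 2 = 0 then 0 else 2 := by
  have e : cl (CC.ps q) = ((CC.lv (CC.ps q) : ℤ) : ZMod 3) := by
    unfold CC.lv cl
    push_cast
    have : (2 : ZMod 3) = -1 := by decide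
    rw [this]
    ring
  rw [e]
  split_ifs with h
  · rw [CC.lv_ps_even h]
    push_cast
    have : (3 : ZMod 3) = 0 := by decide
    rw [this, zero_mul]
  · rw [CC.lv_ps_odd h]
    push_cast
    have : (3 : ZMod 3) = 0 := by decide
    rw [this, zero_mul]
    decide

lemma wv_per (_ : HexPolygon.Polygon L) (i : ℕ) : wv L (i + L.length) = wv L i := by
  unfold wv
  rw [show i + L.length + (L.length - 1) = i + (L.length - 1) + L.length by omega, sit_per]

lemma wv_zero (hL : HexPolygon.Polygon L) : wv L 0 = r0 := by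
  unfold wv
  rw [zero_add, sit_last hL]
  rfl

lemma wv_succ (hL : HexPolygon.Polygon L) (i : ℕ) : wv L (i + 1) = CC.ps (sit L i) := by
  have h3 := hL.2.2.1
  unfold wv
  rw [show i + 1 + (L.length - 1) = i + L.length by omega, sit_per]

lemma dd_zero (hL : HexPolygon.Polygon L) : dd L 0 = (-1, 0) := by
  unfold dd
  rw [wv_zero hL, wv_succ hL, sit_first hL]
  rfl

lemma dd_per (hL : HexPolygon.Polygon L) (i : ℕ) : dd L (i + L.length) = dd L i := by
  unfold dd
  rw [show i + L.length + 1 = i + 1 + L.length by omega, wv_per hL, wv_per hL]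

lemma tt_per (hL : HexPolygon.Polygon L) (i : ℕ) : tt L (i + L.length) = tt L i := by
  unfold tt
  rw [show i + L.length + 1 = i + 1 + L.length by omega, dd_per hL, dd_per hL]

lemma wv_edge (hL : HexPolygon.Polygon L) (i : ℕ) :
    CC.Edge (sit L (i + (L.length - 1))) (sit L (i + 1 + (L.length - 1))) := by
  rw [show i + 1 + (L.length - 1) = i + (L.length - 1) + 1 by omega]
  exact sit_edge hL _

lemma dd_mem (hL : HexPolygon.Polygon L) (i : ℕ) : dd L i ∈ dirs := by
  have h := wv_edge hL i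
  unfold dd wv
  by_cases he : ((sit L (i + (L.length - 1))).1 + (sit L (i + (L.length - 1))).2) % 2 = 0
  · rcases (CC.ps_step_even h he).2 with h1 | h1 | h1 <;> rw [h1] <;> decide
  · rcases (CC.ps_step_odd h he).2 with h1 | h1 | h1 <;> rw [h1] <;> decide

lemma wv_add (i : ℕ) : wv L i + dd L i = wv L (i + 1) := by
  unfold dd
  abel

lemma wv_de (hL : HexPolygon.Polygon L) (i : ℕ) : De (wv L i, dd L i) := by
  refine ⟨dd_mem hL i, vt_ps _, ?_⟩
  show Vt (wv L i + dd L i)
  rw [wv_add]
  exact vt_ps _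

lemma cl_dd (hL : HexPolygon.Polygon L) (i : ℕ) : cl (dd L (i + 1)) = -cl (dd L i) := by
  have h1 := wv_edge hL i
  have h2 := wv_edge hL (i + 1)
  have c0 : cl (wv L i) = _ := cl_ps _
  have c1 : cl (wv L (i + 1)) = _ := cl_ps _
  have c2 : cl (wv L (i + 1 + 1)) = _ := cl_ps _
  have e1 : cl (wv L (i + 1)) = cl (wv L i) + cl (dd L i) := by rw [← wv_add, cl_add]
  have e2 : cl (wv L (i + 1 + 1)) = cl (wv L (i + 1)) + cl (dd L (i + 1)) := by rw [← wv_add (i + 1), cl_add]
  have key : cl (wv L (i + 1 + 1)) = cl (wv L i) := by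
    rw [c0, c2]
    by_cases he : ((sit L (i + (L.length - 1))).1 + (sit L (i + (L.length - 1))).2) % 2 = 0
    · have g1 := (CC.ps_step_even h1 he).1
      have g2 := (CC.ps_step_odd h2 g1).1
      rw [if_pos he, if_pos g2]
    · have g1 := (CC.ps_step_odd h1 he).1
      have g2 := (CC.ps_step_even h2 g1).1
      rw [if_neg he, if_neg g2]
  have e3 : cl (dd L i) + cl (dd L (i + 1)) = 0 := by
    have : cl (wv L i) + (cl (dd L i) + cl (dd L (i + 1))) = cl (wv L i) + 0 := by
      rw [add_zero, ← add_assoc, ← e1, ← e2, key]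
    exact add_left_cancel this
  exact eq_neg_of_add_eq_zero_right e3

lemma wv_inj (hL : HexPolygon.Polygon L) {i k : ℕ} (h : wv L i = wv L k) : i % L.length = k % L.length := by
  have h3 := hL.2.2.1
  have h1 := sit_inj hL (CC.ps_inj h)
  have h2 : (i + (L.length - 1) + 1) % L.length = (k + (L.length - 1) + 1) % L.length := by
    rw [Nat.add_mod, h1, ← Nat.add_mod]
  rw [show i + (L.length - 1) + 1 = i + L.length by omega, show k + (L.length - 1) + 1 = k + L.length by omega,
    Nat.add_mod_right, Nat.add_mod_right] at h2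
  exact h2

lemma dd_ne (hL : HexPolygon.Polygon L) (i : ℕ) : dd L (i + 1) ≠ -dd L i := by
  have h3 := hL.2.2.1
  intro h
  have h1 : wv L (i + 2) = wv L i := by
    have e1 := wv_add (L := L) i
    have e2 := wv_add (L := L) (i + 1)
    rw [h, ← e1] at e2
    rw [show i + 2 = i + 1 + 1 by rfl, ← e2]
    abel
  have h2 := wv_inj hL h1
  have h4 : (i + 2) % L.length = (i + 0) % L.length := by rw [add_zero]; exact h2
  have h5 : 2 % L.length = 0 % L.length := Nat.ModEq.add_left_cancel' i h4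
  rw [Nat.mod_eq_of_lt (show 2 < L.length by omega), Nat.zero_mod] at h5
  omega

lemma turn_tt (hL : HexPolygon.Polygon L) (i : ℕ) : turn (tt L i) (dd L i) = dd L (i + 1) := by
  rcases de_out _ (dd_mem hL i) _ (dd_mem hL (i + 1)) (cl_dd hL i) with h | ⟨b, hb⟩
  · exact absurd h (dd_ne hL i)
  · unfold tt
    by_cases h : dd L (i + 1) = turn true (dd L i)
    · rw [decide_eq_true h, h]
    · rw [decide_eq_false h]
      cases b
      · exact hb.symm
      · exact absurd hb h

lemma ds_tt (hL : HexPolygon.Polygon L) (i : ℕ) : ds (-1, 0) (tt L) i = dd L i := by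
  induction i with
  | zero => exact (dd_zero hL).symm
  | succ i ih => rw [ds_succ, ih, turn_tt hL]

lemma vs_tt (hL : HexPolygon.Polygon L) (i : ℕ) : vs r0 (-1, 0) (tt L) i = wv L i := by
  induction i with
  | zero => exact (wv_zero hL).symm
  | succ i ih => rw [vs_succ, ih, ds_tt hL, wv_add]

theorem poly_tt (hL : HexPolygon.Polygon L) : Poly r0 (-1, 0) (tt L) L.length := by
  have h3 := hL.2.2.1
  refine ⟨by omega, ?_, tt_per hL, ?_, ?_, ?_⟩
  · have := wv_de hL 0
    rwa [wv_zero hL, dd_zero hL] at this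
  · rw [vs_tt hL]
    have := wv_per hL 0
    rw [zero_add] at this
    rw [this, wv_zero hL]
  · rw [ds_tt hL]
    have := dd_per hL 0
    rw [zero_add] at this
    rw [this, dd_zero hL]
  · intro i k h1 h2 h
    rw [vs_tt hL, vs_tt hL] at h
    have := wv_inj hL h
    rw [Nat.mod_eq_of_lt (by omega), Nat.mod_eq_of_lt h2] at this
    omega

/-- the oriented polygon of a list -/
def eL (L : List (ℤ × ℤ)) : Finset (Pt × Pt) := pe r0 (-1, 0) (tt L) L.length

theorem eL_poly (hL : HexPolygon.Polygon L) : IsPoly (eL L) := ⟨_, _, _, _, poly_tt hL, rfl⟩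

theorem eL_RL (hL : HexPolygon.Polygon L) : RL (eL L) L := by
  refine ⟨_, _, poly_tt hL, rfl, ?_⟩
  apply List.ext_getElem
  · rw [List.length_map, List.length_range]
  · intro i h1 h2
    rw [List.getElem_map, List.getElem_range, vs_tt hL, wv_succ hL, CC.ph_ps, sit_lt h1]

theorem eL_first (hL : HexPolygon.Polygon L) : (r0, ((-1, 0) : Pt)) ∈ eL L := by
  have := w_eg_mem (poly_tt hL) 0
  exact this

theorem eL_root (hL : HexPolygon.Polygon L) : IsRoot (eL L) r0 := by
  refine ⟨Finset.mem_image.2 ⟨_, eL_first hL, rfl⟩, fun v hv => ?_⟩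
  have h1 := RL_mem (eL_RL hL) hv
  have h2 := hL.2.2.2.2.2.1 _ h1
  have h3 := hL.2.2.2.2.2.2 _ h1
  have h4 : (CC.ph r0).2 = 1 := by decide
  have h5 : (CC.ph v).1 = v.1 := rfl
  have h6 : r0.1 = 1 := rfl
  rw [h4, h6]
  rcases lt_or_eq_of_le h2 with h | h
  · exact Or.inl h
  · right
    exact ⟨h, by rw [← h5]; exact h3 h.symm⟩

/-- the list is determined by the polygon -/
theorem RL_unique {E : Finset (Pt × Pt)} {L L' : List (ℤ × ℤ)} (h : RL E L) (h' : RL E L') : L = L' := by
  obtain ⟨τ, m, h1, rfl, rfl⟩ := h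
  obtain ⟨τ', m', h1', hE, rfl⟩ := h'
  have hm : m = m' := by
    have e1 := pe_card h1
    have e2 := pe_card h1'
    rw [← hE] at e2
    omega
  subst hm
  have hP : IsPoly (pe r0 (-1, 0) τ m) := ⟨_, _, _, _, h1, rfl⟩
  have key : ∀ i, vs r0 (-1, 0) τ i = vs r0 (-1, 0) τ' i := by
    intro i
    induction i with
    | zero => rfl
    | succ i ih =>
      have m1 : (vs r0 (-1, 0) τ i, ds (-1, 0) τ i) ∈ pe r0 (-1, 0) τ m := w_eg_mem h1 i
      have m2 : (vs r0 (-1, 0) τ' i, ds (-1, 0) τ' i) ∈ pe r0 (-1, 0) τ m := by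
        rw [hE]
        exact w_eg_mem h1' i
      rw [← ih] at m2
      rw [vs_succ, vs_succ, ← ih, isPoly_fun hP m1 m2]
  apply List.map_congr_left
  intro i _
  rw [key]

theorem RL_eL {E : Finset (Pt × Pt)} (h : RL E L) (hr : IsRoot E r0) : E = eL L :=
  RL_inj h (eL_RL (RL_Polygon h hr))

end TH

end HexObs
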