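import Pool.Agent.NUA.PolyE

/-!
# The sum over the polygons around a face and the sum over the polygons modulo translations
-/

set_option autoImplicit false

namespace HexObs

namespace TH

open LP Finset ENNReal

/-- the polygon meets at most `T` rows -/
def Row (T : ℕ) (E : Finset (Pt × Pt)) : Prop := ∀ v ∈ VE E, ∀ w ∈ VE E, (CC.ph v).2 - (CC.ph w).2 < T

lemma cl_mod {z : Pt} (hz : cl z = 0) : (z.1 - z.2) % 3 = 0 := by
  have h2 : cl z = ((z.1 - z.2 : ℤ) : ZMod 3) := by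
    unfold cl
    push_cast
    rfl
  rw [h2, ← Int.cast_zero, ZMod.intCast_eq_intCast_iff] at hz
  exact hz

lemma cl_sub_Fc {f g : Pt} (hf : Fc f) (hg : Fc g) : cl (f - g) = 0 := by
  unfold Fc cl at hf hg
  unfold cl
  simp only [Prod.fst_sub, Prod.snd_sub]
  push_cast at hf hg ⊢
  linear_combination hf - hg

lemma ph_shift {z : Pt} (hz : cl z = 0) (v : Pt) : (CC.ph (v - z)).2 = (CC.ph v).2 - (z.1 + 2 * z.2) / 3 := by
  have h := cl_mod hz
  unfold CC.ph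
  simp only [Prod.fst_sub, Prod.snd_sub]
  omega

theorem Row_TE {T : ℕ} {E : Finset (Pt × Pt)} {z : Pt} (hz : cl z = 0) (h : Row T E) : Row T (TE z E) := by
  intro v hv w hw
  rw [VE_TE, mem_Ti] at hv hw
  have := h _ hv _ hw
  rw [ph_shift hz, ph_shift hz] at this
  linarith

theorem Row_oE {T : ℕ} {E : Finset (Pt × Pt)} (hE : IsPoly E) (σ : Bool) (h : Row T E) : Row T (oE σ E) := by
  intro v hv w hw
  rw [VE_oE σ hE] at hv hw
  exact h v hv w hw

theorem Row_eL {T : ℕ} {L : List (ℤ × ℤ)} (hL : HexPolygon.Polygon L) :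
    Row T (eL L) ↔ ∀ p ∈ L, p.2 ≤ (T : ℤ) := by
  constructor
  · intro h p hp
    obtain ⟨v, hv, rfl⟩ := RL_mem' (eL_RL hL) hp
    have := h v hv r0 (eL_root hL).1
    have h4 : (CC.ph r0).2 = 1 := by decide
    omega
  · intro h v hv w hw
    have h1 := h _ (RL_mem (eL_RL hL) hv)
    have h2 := hL.2.2.2.2.2.1 _ (RL_mem (eL_RL hL) hw)
    omega

theorem root_TE {E : Finset (Pt × Pt)} {b z : Pt} (hz : cl z = 0) (hb : IsRoot E b) : IsRoot (TE z E) (b + z) := by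
  refine ⟨?_, fun v hv => ?_⟩
  · rw [VE_TE, mem_Ti, add_sub_cancel_right]
    exact hb.1
  · rw [VE_TE, mem_Ti] at hv
    have h1 := hb.2 _ hv
    have e1 := ph_shift hz v
    have e2 := ph_shift hz (b + z)
    rw [add_sub_cancel_right] at e2
    rw [e1, e2] at h1
    simp only [Prod.fst_sub, Prod.fst_add] at h1 ⊢
    omega

theorem root_oE {E : Finset (Pt × Pt)} (hE : IsPoly E) {b : Pt} (hb : IsRoot E b) (σ : Bool) : IsRoot (oE σ E) b := by
  unfold IsRoot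
  rw [VE_oE σ hE]
  exact hb

theorem root_unique {E : Finset (Pt × Pt)} (hE : IsPoly E) {b b' : Pt} (hb : IsRoot E b) (hb' : IsRoot E b') :
    b = b' := by
  have h1 := hb.2 _ hb'.1
  have h2 := hb'.2 _ hb.1
  apply CC.ph_inj (Vt_lv (VE_Vt hE hb.1)) (Vt_lv (VE_Vt hE hb'.1))
  have h3 : (CC.ph b).1 = b.1 := rfl
  have h4 : (CC.ph b').1 = b'.1 := rfl
  ext
  · omega
  · omega

lemma Nw_oE (σ : Bool) {E : Finset (Pt × Pt)} (hE : IsPoly E) {f : Pt} (h : Nw E f ≠ 0) : Nw (oE σ E) f ≠ 0 := by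
  unfold oE
  cases σ
  · simp only [Bool.false_eq_true, if_false]
    rw [Nw_rE hE]
    exact neg_ne_zero.2 h
  · simpa using h

/-- the indices -/
abbrev IX (T : ℕ) : Type := Σ L : {L : List (ℤ × ℤ) // HexPolygon.Polygon L ∧ ∀ p ∈ L, p.2 ≤ (T : ℤ)},
  Bool × {g // g ∈ Fi (eL L.1)}

/-- the polygons around the face in at most `T` rows -/
abbrev PX (T : ℕ) : Type := {E : Finset (Pt × Pt) // IsPoly E ∧ Nw E f0 ≠ 0 ∧ Row T E}

lemma map_ok {T : ℕ} (a : IX T) : IsPoly (TE (f0 - a.2.2.1) (oE a.2.1 (eL a.1.1))) ∧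
    Nw (TE (f0 - a.2.2.1) (oE a.2.1 (eL a.1.1))) f0 ≠ 0 ∧ Row T (TE (f0 - a.2.2.1) (oE a.2.1 (eL a.1.1))) := by
  obtain ⟨⟨L, hL, hT⟩, σ, ⟨g, hg⟩⟩ := a
  have hE := eL_poly hL
  obtain ⟨hg1, hg2⟩ := (mem_Fi hE).1 hg
  have hz : cl (f0 - g) = 0 := cl_sub_Fc Fc_f0 hg1
  refine ⟨isPoly_TE hz (isPoly_oE σ hE), ?_, Row_TE hz (Row_oE hE σ ((Row_eL hL).2 hT))⟩
  show Nw (TE (f0 - g) (oE σ (eL L))) f0 ≠ 0
  have e : f0 = g + (f0 - g) := by abel
  have h1 := Nw_TE (f0 - g) g (oE σ (eL L))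
  rw [← e] at h1
  rw [h1]
  exact Nw_oE σ hE hg2

/-- the map -/
noncomputable def mapX (T : ℕ) (a : IX T) : PX T := ⟨TE (f0 - a.2.2.1) (oE a.2.1 (eL a.1.1)), map_ok a⟩

theorem mapX_inj (T : ℕ) : Function.Injective (mapX T) := by
  rintro ⟨⟨L, hL, hT⟩, σ, ⟨g, hg⟩⟩ ⟨⟨L', hL', hT'⟩, σ', ⟨g', hg'⟩⟩ h
  have h0 : TE (f0 - g) (oE σ (eL L)) = TE (f0 - g') (oE σ' (eL L')) := congrArg Subtype.val h
  have hE := eL_poly hL
  have hE' := eL_poly hL'
  have hz : cl (f0 - g) = 0 := cl_sub_Fc Fc_f0 ((mem_Fi hE).1 hg).1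
  have hz' : cl (f0 - g') = 0 := cl_sub_Fc Fc_f0 ((mem_Fi hE').1 hg').1
  have hP := isPoly_TE hz (isPoly_oE σ hE)
  have r1 := root_TE hz (root_oE hE (eL_root hL) σ)
  have r2 := root_TE hz' (root_oE hE' (eL_root hL') σ')
  rw [← h0] at r2
  have h1 := root_unique hP r1 r2
  have h2 : f0 - g = f0 - g' := add_left_cancel h1
  have h3 : g = g' := sub_right_injective h2
  subst h3
  have h4 := TE_inj _ h0
  have h5 : σ = σ' := by
    by_contra hne
    have h6 : oE σ (eL L) = rE (oE σ (eL L')) := by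
      rw [h4]
      unfold oE
      cases σ <;> cases σ' <;> simp_all [rE_rE]
    have h7 : eL L = rE (eL L') := by
      have := congrArg (oE σ) h6
      rw [oE_oE] at this
      rw [this]
      unfold oE
      cases σ
      · simp [rE_rE]
      · simp
    have h8 := eL_first hL
    rw [h7, mem_rE] at h8
    exact isPoly_rv hE' (eL_first hL') h8
  subst h5
  have h6 : eL L = eL L' := by
    have := congrArg (oE σ) h4
    rwa [oE_oE, oE_oE] at this
  have h7 : L = L' := by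
    have := eL_RL hL
    rw [h6] at this
    exact RL_unique this (eL_RL hL')
  subst h7
  rfl

theorem mapX_surj (T : ℕ) : Function.Surjective (mapX T) := by
  rintro ⟨E, hE, hN, hR⟩
  obtain ⟨b, σ, L, hb, hz, hL⟩ := exists_nf hE
  have hr := root_nf hE hb hz σ
  have hPL := RL_Polygon hL hr
  have he := RL_eL hL hr
  have hT : ∀ p ∈ L, p.2 ≤ (T : ℤ) := by
    rw [← Row_eL hPL, ← he]
    exact Row_TE hz (Row_oE hE σ hR)
  have hg : f0 + (r0 - b) ∈ Fi (eL L) := by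
    rw [mem_Fi (eL_poly hPL)]
    constructor
    · rw [tr_Fc hz]
      exact Fc_f0
    · rw [← he, Nw_TE]
      exact Nw_oE σ hE hN
  refine ⟨⟨⟨L, hPL, hT⟩, σ, ⟨f0 + (r0 - b), hg⟩⟩, ?_⟩
  apply Subtype.ext
  show TE (f0 - (f0 + (r0 - b))) (oE σ (eL L)) = E
  rw [← he, ← TE_oE, oE_oE, TE_add]
  have e : r0 - b + (f0 - (f0 + (r0 - b))) = 0 := by abel
  rw [e]
  unfold TE
  have : (Te 0 : Pt × Pt → Pt × Pt) = id := by
    funext p
    unfold Te
    simp
  rw [this, Finset.image_id]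

/-- **The polygons around a face in at most `T` rows.** -/
theorem tsum_face (T : ℕ) : ∑' E : PX T, ENNReal.ofReal (xc ^ E.1.card) =
    2 * ∑' L : {L : List (ℤ × ℤ) // HexPolygon.Polygon L ∧ ∀ p ∈ L, p.2 ≤ (T : ℤ)},
      HexPolygon.wt L.1 * ((Fi (eL L.1)).card : ℝ≥0∞) := by
  rw [← (Equiv.ofBijective (mapX T) ⟨mapX_inj T, mapX_surj T⟩).tsum_eq, ENNReal.tsum_sigma', ← ENNReal.tsum_mul_left]
  refine tsum_congr fun L => ?_
  have h1 : ∀ b : Bool × {g // g ∈ Fi (eL L.1)},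
      ENNReal.ofReal (xc ^ ((Equiv.ofBijective (mapX T) ⟨mapX_inj T, mapX_surj T⟩) ⟨L, b⟩).1.card) =
        HexPolygon.wt L.1 := by
    intro b
    show ENNReal.ofReal (xc ^ (TE (f0 - b.2.1) (oE b.1 (eL L.1))).card) = HexPolygon.wt L.1
    rw [card_TE, card_oE, ← RL_length (eL_RL L.2.1)]
    unfold HexPolygon.wt
    rw [HexPolygon.x_eq]
  simp only [h1]
  rw [tsum_fintype, Finset.sum_const, Finset.card_univ, Fintype.card_prod, Fintype.card_bool, Fintype.card_coe,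
    nsmul_eq_mul]
  push_cast
  ring

end TH

end HexObs
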