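import Mathlib

/-!
# Reverse linearisation (doc nu34/79c)

A positive measure `μ` with vector statistic `F`; `Z₀ = ∫ exp (|F|²/2) dμ`.  If the exponential moments of `F` are
bounded below by `Z₁ exp (½⟪T g, g⟫ - e)` (up to an odd term) on the ball `|g| ≤ R`, then
`Z₁ ≤ 2 e^e Z₀ det (1 - T)^{1/2}`.
-/

set_option autoImplicit false

namespace NURev

open MeasureTheory ProbabilityTheory ENNReal Module

open scoped RealInnerProductSpace NNReal

/-- the one dimensional integral -/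
lemma g1 (t : ℝ) : ∫⁻ x, ENNReal.ofReal (Real.exp (x * t)) ∂(gaussianReal 0 1) =
    ENNReal.ofReal (Real.exp (t ^ 2 / 2)) := by
  have h1 := integrable_exp_mul_gaussianReal (μ := 0) (v := 1) t
  have h2 := mgf_gaussianReal (p := gaussianReal 0 1) (X := fun x => x) (μ := 0) (v := 1) (by simp) t
  have h3 : ∫ x, Real.exp (t * x) ∂(gaussianReal 0 1) = Real.exp (t ^ 2 / 2) := by
    unfold mgf at h2
    rw [h2]
    congr 1
    simp
  rw [← h3, ofReal_integral_eq_lintegral_ofReal h1 (Filter.Eventually.of_forall fun x => (Real.exp_pos _).le)]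
  refine lintegral_congr fun x => ?_
  rw [mul_comm]

/-- the quadratic one dimensional integral -/
lemma g2 {c : ℝ} (hc : c < 1) : ∫⁻ x, ENNReal.ofReal (Real.exp (c * x ^ 2 / 2)) ∂(gaussianReal 0 1) =
    ENNReal.ofReal (Real.sqrt (1 - c))⁻¹ := by
  have hq : 0 < 1 - c := by linarith
  obtain ⟨v, hv⟩ : ∃ v : ℝ≥0, v = 1 / (1 - c).toNNReal := ⟨_, rfl⟩
  have hvr : (v : ℝ) = 1 / (1 - c) := by
    rw [hv, NNReal.coe_div, Real.coe_toNNReal _ hq.le]
    simp
  have hvne : v ≠ 0 := by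
    intro h
    rw [h] at hvr
    have : (0 : ℝ) < 1 / (1 - c) := div_pos one_pos hq
    rw [← hvr] at this
    simp at this
  rw [gaussianReal_of_var_ne_zero _ one_ne_zero, lintegral_withDensity_eq_lintegral_mul _
    (measurable_gaussianPDF _ _) (by fun_prop)]
  have key : ∀ x : ℝ, (gaussianPDF 0 1 * fun x => ENNReal.ofReal (Real.exp (c * x ^ 2 / 2))) x =
      ENNReal.ofReal (Real.sqrt (1 - c))⁻¹ * ENNReal.ofReal (gaussianPDFReal 0 v x) := by
    intro x
    rw [Pi.mul_apply]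
    unfold gaussianPDF
    rw [← ENNReal.ofReal_mul (gaussianPDFReal_nonneg _ _ _), ← ENNReal.ofReal_mul (by positivity)]
    congr 1
    unfold gaussianPDFReal
    rw [hvr]
    have e1 : Real.sqrt (2 * Real.pi * (1 / (1 - c))) = Real.sqrt (2 * Real.pi) * (Real.sqrt (1 - c))⁻¹ := by
      rw [Real.sqrt_mul (by positivity), one_div, Real.sqrt_inv]
    rw [e1]
    have e2 : Real.exp (-(x - 0) ^ 2 / (2 * ((1 : ℝ≥0) : ℝ))) * Real.exp (c * x ^ 2 / 2) =
        Real.exp (-(x - 0) ^ 2 / (2 * (1 / (1 - c)))) := by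
      rw [← Real.exp_add]
      congr 1
      push_cast
      field_simp
      ring
    have hs : 0 < Real.sqrt (1 - c) := Real.sqrt_pos.2 hq
    have hs2 : 0 < Real.sqrt (2 * Real.pi) := Real.sqrt_pos.2 (by positivity)
    rw [mul_assoc, e2, NNReal.coe_one, mul_one]
    field_simp
  rw [lintegral_congr key, lintegral_const_mul _ (by fun_prop), lintegral_gaussianPDFReal_eq_one _ hvne, mul_one]

/-- Tonelli for products of nonnegative functions of the coordinates -/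
lemma tonelli {ι : Type*} [Fintype ι] (f : ι → ℝ → ℝ≥0∞) (hf : ∀ i, Measurable (f i)) :
    ∫⁻ x : ι → ℝ, ∏ i, f i (x i) ∂(Measure.pi fun _ => gaussianReal 0 1) =
      ∏ i, ∫⁻ x, f i x ∂(gaussianReal 0 1) := by
  classical
  have hi : iIndepFun (fun (i : ι) (x : ι → ℝ) => f i (x i)) (Measure.pi fun _ : ι => gaussianReal 0 1) :=
    iIndepFun_pi fun i => (hf i).aemeasurable
  rw [lintegral_prod_eq_prod_lintegral_of_indepFun Finset.univ (fun (i : ι) (x : ι → ℝ) => f i (x i)) hi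
    (fun i => (hf i).comp (measurable_pi_apply i))]
  refine Finset.prod_congr rfl fun i _ => ?_
  exact (measurePreserving_eval (fun _ : ι => gaussianReal 0 1) i).lintegral_comp (hf i)

variable {E : Type*} [NormedAddCommGroup E] [InnerProductSpace ℝ E] [FiniteDimensional ℝ E] [MeasurableSpace E]
  [BorelSpace E]

/-- **linearisation** -/
lemma lin (v : E) : ∫⁻ g, ENNReal.ofReal (Real.exp ⟪g, v⟫) ∂(stdGaussian E) =
    ENNReal.ofReal (Real.exp (‖v‖ ^ 2 / 2)) := by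
  obtain ⟨b, -⟩ : ∃ b : OrthonormalBasis (Fin (finrank ℝ E)) ℝ E, b = stdOrthonormalBasis ℝ E := ⟨_, rfl⟩
  rw [stdGaussian_eq_map_pi_orthonormalBasis b, lintegral_map (by fun_prop) (by fun_prop)]
  have h1 : ∀ x : Fin (finrank ℝ E) → ℝ, ENNReal.ofReal (Real.exp ⟪∑ i, x i • b i, v⟫) =
      ∏ i, ENNReal.ofReal (Real.exp (x i * ⟪b i, v⟫)) := by
    intro x
    rw [sum_inner, Real.exp_sum, ENNReal.ofReal_prod_of_nonneg (fun i _ => (Real.exp_pos _).le)]
    simp_rw [real_inner_smul_left]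
  simp_rw [h1]
  rw [tonelli (fun i x => ENNReal.ofReal (Real.exp (x * ⟪b i, v⟫))) (fun i => by fun_prop)]
  simp_rw [g1]
  rw [← ENNReal.ofReal_prod_of_nonneg (fun i _ => (Real.exp_pos _).le), ← Real.exp_sum, ← Finset.sum_div,
    b.sum_sq_inner_right]

/-- the quadratic Gaussian integral in an orthonormal basis -/
lemma quad {ι : Type*} [Fintype ι] (b : OrthonormalBasis ι ℝ E) {c : ι → ℝ} (hc : ∀ i, c i < 1) :
    ∫⁻ g, ENNReal.ofReal (Real.exp ((∑ i, c i * ⟪b i, g⟫ ^ 2) / 2)) ∂(stdGaussian E) =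
      ENNReal.ofReal (∏ i, (Real.sqrt (1 - c i))⁻¹) := by
  classical
  rw [stdGaussian_eq_map_pi_orthonormalBasis b, lintegral_map (by fun_prop) (by fun_prop)]
  have h1 : ∀ x : ι → ℝ, ENNReal.ofReal (Real.exp ((∑ i, c i * ⟪b i, ∑ j, x j • b j⟫ ^ 2) / 2)) =
      ∏ i, ENNReal.ofReal (Real.exp (c i * x i ^ 2 / 2)) := by
    intro x
    rw [Finset.sum_div, Real.exp_sum, ENNReal.ofReal_prod_of_nonneg (fun i _ => (Real.exp_pos _).le)]
    refine Finset.prod_congr rfl fun i _ => ?_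
    rw [b.orthonormal.inner_right_fintype]
  simp_rw [h1]
  rw [tonelli (fun i x => ENNReal.ofReal (Real.exp (c i * x ^ 2 / 2))) (fun i => by fun_prop)]
  simp_rw [g2 (hc _)]
  rw [← ENNReal.ofReal_prod_of_nonneg (fun i _ => by positivity)]

/-- at least one half of the integral comes from a ball of radius `√(dim/δ)` -/
lemma quad_ball {ι : Type*} [Fintype ι] (b : OrthonormalBasis ι ℝ E) {c : ι → ℝ} {δ R : ℝ} (hδ : 0 < δ)
    (hR0 : 0 ≤ R) (hc : ∀ i, c i ≤ 1 - δ) (hR : 2 * (Fintype.card ι : ℝ) + 4 ≤ δ * R ^ 2) :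
    ENNReal.ofReal ((∏ i, (Real.sqrt (1 - c i))⁻¹) / 2) ≤
      ∫⁻ g in Metric.closedBall 0 R, ENNReal.ofReal (Real.exp ((∑ i, c i * ⟪b i, g⟫ ^ 2) / 2)) ∂(stdGaussian E) := by
  have hq : ∀ i, 0 < 1 - c i := fun i => by linarith [hc i]
  have h0 : 0 ≤ ∏ i, (Real.sqrt (1 - c i))⁻¹ := Finset.prod_nonneg fun i _ => by positivity
  have htot := quad b (c := c) (fun i => by linarith [hc i])
  have hcompl : ∫⁻ g in (Metric.closedBall 0 R)ᶜ,
      ENNReal.ofReal (Real.exp ((∑ i, c i * ⟪b i, g⟫ ^ 2) / 2)) ∂(stdGaussian E) ≤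
      ENNReal.ofReal ((∏ i, (Real.sqrt (1 - c i))⁻¹) / 2) := by
    calc ∫⁻ g in (Metric.closedBall 0 R)ᶜ,
          ENNReal.ofReal (Real.exp ((∑ i, c i * ⟪b i, g⟫ ^ 2) / 2)) ∂(stdGaussian E)
        ≤ ∫⁻ g in (Metric.closedBall 0 R)ᶜ, ENNReal.ofReal (Real.exp (-(δ * R ^ 2 / 4))) *
          ENNReal.ofReal (Real.exp ((∑ i, (c i + δ / 2) * ⟪b i, g⟫ ^ 2) / 2)) ∂(stdGaussian E) := by
          refine setLIntegral_mono' Metric.isClosed_closedBall.measurableSet.compl fun g hg => ?_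
          rw [← ENNReal.ofReal_mul (Real.exp_pos _).le, ← Real.exp_add]
          refine ENNReal.ofReal_le_ofReal (Real.exp_le_exp.2 ?_)
          have hg1 : R < ‖g‖ := by
            rw [Set.mem_compl_iff, Metric.mem_closedBall, dist_zero_right, not_le] at hg
            exact hg
          have hg2 : R ^ 2 ≤ ‖g‖ ^ 2 := by gcongr
          have e1 : ∑ i, (c i + δ / 2) * ⟪b i, g⟫ ^ 2 = ∑ i, c i * ⟪b i, g⟫ ^ 2 + δ / 2 * ‖g‖ ^ 2 := by
            rw [← b.sum_sq_inner_right g, Finset.mul_sum, ← Finset.sum_add_distrib]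
            exact Finset.sum_congr rfl fun i _ => by ring
          rw [e1]
          nlinarith
      _ ≤ ∫⁻ g, ENNReal.ofReal (Real.exp (-(δ * R ^ 2 / 4))) *
          ENNReal.ofReal (Real.exp ((∑ i, (c i + δ / 2) * ⟪b i, g⟫ ^ 2) / 2)) ∂(stdGaussian E) :=
          setLIntegral_le_lintegral _ _
      _ = ENNReal.ofReal (Real.exp (-(δ * R ^ 2 / 4)) * ∏ i, (Real.sqrt (1 - (c i + δ / 2)))⁻¹) := by
          rw [lintegral_const_mul _ (by fun_prop), quad b (c := fun i => c i + δ / 2)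
            (fun i => by linarith [hc i]), ← ENNReal.ofReal_mul (Real.exp_pos _).le]
      _ ≤ ENNReal.ofReal ((∏ i, (Real.sqrt (1 - c i))⁻¹) / 2) := by
          refine ENNReal.ofReal_le_ofReal ?_
          have h2 : ∏ i, (Real.sqrt (1 - (c i + δ / 2)))⁻¹ ≤
              Real.exp ((Fintype.card ι : ℝ) / 2) * ∏ i, (Real.sqrt (1 - c i))⁻¹ := by
            have h3 : Real.exp ((Fintype.card ι : ℝ) / 2) = ∏ _i : ι, Real.exp (1 / 2) := by
              rw [← Real.exp_sum]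
              congr 1
              simp
              ring
            rw [h3, ← Finset.prod_mul_distrib]
            refine Finset.prod_le_prod (fun i _ => by positivity) fun i _ => ?_
            have h4 : Real.exp (1 / 2) = (Real.sqrt (Real.exp (-1)))⁻¹ := by
              rw [← Real.sqrt_inv, ← Real.exp_neg, neg_neg]
              rw [← Real.exp_half]
            rw [h4, ← mul_inv, ← Real.sqrt_mul (Real.exp_pos _).le]
            have h5 : Real.exp (-1) ≤ 1 / 2 := by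
              rw [Real.exp_neg, one_div]
              apply inv_anti₀ (by norm_num)
              have := Real.add_one_le_exp (1 : ℝ)
              linarith
            refine inv_anti₀ (Real.sqrt_pos.2 (mul_pos (Real.exp_pos _) (hq i))) (Real.sqrt_le_sqrt ?_)
            have := mul_le_mul_of_nonneg_right h5 (hq i).le
            linarith [hc i]
          have h6 : Real.exp (-(δ * R ^ 2 / 4)) * Real.exp ((Fintype.card ι : ℝ) / 2) ≤ 1 / 2 := by
            rw [← Real.exp_add]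
            calc Real.exp (-(δ * R ^ 2 / 4) + (Fintype.card ι : ℝ) / 2) ≤ Real.exp (-1) :=
                  Real.exp_le_exp.2 (by linarith)
              _ ≤ 1 / 2 := by
                  rw [Real.exp_neg, one_div]
                  apply inv_anti₀ (by norm_num)
                  have := Real.add_one_le_exp (1 : ℝ)
                  linarith
          calc Real.exp (-(δ * R ^ 2 / 4)) * ∏ i, (Real.sqrt (1 - (c i + δ / 2)))⁻¹
              ≤ Real.exp (-(δ * R ^ 2 / 4)) * (Real.exp ((Fintype.card ι : ℝ) / 2) * ∏ i, (Real.sqrt (1 - c i))⁻¹) :=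
                mul_le_mul_of_nonneg_left h2 (Real.exp_pos _).le
            _ = (Real.exp (-(δ * R ^ 2 / 4)) * Real.exp ((Fintype.card ι : ℝ) / 2)) * ∏ i, (Real.sqrt (1 - c i))⁻¹ := by
                ring
            _ ≤ 1 / 2 * ∏ i, (Real.sqrt (1 - c i))⁻¹ := mul_le_mul_of_nonneg_right h6 h0
            _ = _ := by ring
  have hsum := lintegral_add_compl (μ := stdGaussian E)
    (fun g => ENNReal.ofReal (Real.exp ((∑ i, c i * ⟪b i, g⟫ ^ 2) / 2)))
    (Metric.isClosed_closedBall (x := (0 : E)) (ε := R)).measurableSet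
  rw [htot] at hsum
  have hP : ENNReal.ofReal (∏ i, (Real.sqrt (1 - c i))⁻¹) =
      ENNReal.ofReal ((∏ i, (Real.sqrt (1 - c i))⁻¹) / 2) + ENNReal.ofReal ((∏ i, (Real.sqrt (1 - c i))⁻¹) / 2) := by
    rw [← ENNReal.ofReal_add (by positivity) (by positivity)]
    congr 1
    ring
  refine (ENNReal.add_le_add_iff_right (a := ENNReal.ofReal ((∏ i, (Real.sqrt (1 - c i))⁻¹) / 2))
    ENNReal.ofReal_ne_top).1 ?_
  rw [← hP, ← hsum]
  gcongr

/-- the standard Gaussian is even -/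
lemma lint_neg (f : E → ℝ≥0∞) (hf : Measurable f) :
    ∫⁻ g, f (-g) ∂(stdGaussian E) = ∫⁻ g, f g ∂(stdGaussian E) := by
  conv_rhs => rw [← stdGaussian_map (LinearIsometryEquiv.neg ℝ (E := E))]
  rw [lintegral_map hf (by fun_prop)]
  rfl

variable {Ω : Type*} [MeasurableSpace Ω]

/-- **reverse linearisation**, orthonormal basis form -/
theorem rev_lin_basis {ι : Type*} [Fintype ι] (b : OrthonormalBasis ι ℝ E) {c : ι → ℝ} {δ R : ℝ} (hδ : 0 < δ)
    (hR0 : 0 ≤ R) (hc : ∀ i, c i ≤ 1 - δ) (hR : 2 * (Fintype.card ι : ℝ) + 4 ≤ δ * R ^ 2)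
    {μ : Measure Ω} [SFinite μ] {F : Ω → E} (hF : Measurable F) {Z₀ Z₁ e : ℝ} {l : E → ℝ}
    (hl : ∀ g, l (-g) = -l g) (hZ0 : 0 ≤ Z₀) (hZ1 : 0 ≤ Z₁)
    (hup : ∫⁻ x, ENNReal.ofReal (Real.exp (‖F x‖ ^ 2 / 2)) ∂μ ≤ ENNReal.ofReal Z₀)
    (hlow : ∀ g : E, ‖g‖ ≤ R → ENNReal.ofReal (Z₁ * Real.exp ((∑ i, c i * ⟪b i, g⟫ ^ 2) / 2 + l g - e)) ≤
      ∫⁻ x, ENNReal.ofReal (Real.exp ⟪g, F x⟫) ∂μ) :
    Z₁ ≤ 2 * Real.exp e * Z₀ * ∏ i, Real.sqrt (1 - c i) := by
  have hq : ∀ i, 0 < 1 - c i := fun i => by linarith [hc i]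
  obtain ⟨I, hI⟩ : ∃ I : E → ℝ≥0∞, I = fun g => ∫⁻ x, ENNReal.ofReal (Real.exp ⟪g, F x⟫) ∂μ := ⟨_, rfl⟩
  have hIm : Measurable I := by
    rw [hI]
    exact Measurable.lintegral_prod_right' (f := fun p : E × Ω => ENNReal.ofReal (Real.exp ⟪p.1, F p.2⟫))
      (by fun_prop)
  have h1 : ∫⁻ g, I g ∂(stdGaussian E) ≤ ENNReal.ofReal Z₀ := by
    rw [hI, lintegral_lintegral_swap (by fun_prop)]
    simp_rw [lin]
    exact hup
  have h2 : ∫⁻ g in Metric.closedBall 0 R, I (-g) ∂(stdGaussian E) =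
      ∫⁻ g in Metric.closedBall 0 R, I g ∂(stdGaussian E) := by
    rw [← lintegral_indicator Metric.isClosed_closedBall.measurableSet,
      ← lintegral_indicator Metric.isClosed_closedBall.measurableSet,
      ← lint_neg _ (hIm.indicator Metric.isClosed_closedBall.measurableSet)]
    refine lintegral_congr fun g => ?_
    by_cases h : ‖g‖ ≤ R
    · rw [Set.indicator_of_mem (by simpa using h), Set.indicator_of_mem (by simpa using h)]
    · rw [Set.indicator_of_notMem (by simpa using h), Set.indicator_of_notMem (by simpa using h)]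
  have h3 : ∫⁻ g in Metric.closedBall 0 R, (I g + I (-g)) ∂(stdGaussian E) ≤ 2 * ENNReal.ofReal Z₀ := by
    rw [lintegral_add_left hIm, h2, ← two_mul]
    gcongr
    exact (setLIntegral_le_lintegral _ _).trans h1
  have h4 : ∀ g ∈ Metric.closedBall (0 : E) R, ENNReal.ofReal (2 * Z₁ * Real.exp (-e)) *
      ENNReal.ofReal (Real.exp ((∑ i, c i * ⟪b i, g⟫ ^ 2) / 2)) ≤ I g + I (-g) := by
    intro g hg
    have hg1 : ‖g‖ ≤ R := by simpa using hg
    have a1 := hlow g hg1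
    have a2 := hlow (-g) (by rwa [norm_neg])
    have a3 : ∑ i, c i * ⟪b i, -g⟫ ^ 2 = ∑ i, c i * ⟪b i, g⟫ ^ 2 := by
      refine Finset.sum_congr rfl fun i _ => ?_
      rw [inner_neg_right, neg_sq]
    rw [a3, hl] at a2
    obtain ⟨Q, hQ⟩ : ∃ Q, Q = (∑ i, c i * ⟪b i, g⟫ ^ 2) / 2 := ⟨_, rfl⟩
    rw [← hQ] at a1 a2 ⊢
    rw [hI]
    refine le_trans ?_ (add_le_add a1 a2)
    rw [← ENNReal.ofReal_mul (by positivity), ← ENNReal.ofReal_add (by positivity) (by positivity)]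
    refine ENNReal.ofReal_le_ofReal ?_
    have a4 : Real.exp (Q + l g - e) = Real.exp (-e) * Real.exp Q * Real.exp (l g) := by
      rw [← Real.exp_add, ← Real.exp_add]
      congr 1
      ring
    have a5 : Real.exp (Q + -l g - e) = Real.exp (-e) * Real.exp Q * Real.exp (-l g) := by
      rw [← Real.exp_add, ← Real.exp_add]
      congr 1
      ring
    have a6 : 2 ≤ Real.exp (l g) + Real.exp (-l g) := by
      have b1 := Real.add_one_le_exp (l g)
      have b2 := Real.add_one_le_exp (-l g)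
      linarith
    rw [a4, a5]
    have a7 : 0 ≤ Z₁ * (Real.exp (-e) * Real.exp Q) := by positivity
    nlinarith [mul_le_mul_of_nonneg_left a6 a7]
  have h5 : ENNReal.ofReal (2 * Z₁ * Real.exp (-e)) * ENNReal.ofReal ((∏ i, (Real.sqrt (1 - c i))⁻¹) / 2) ≤
      2 * ENNReal.ofReal Z₀ := by
    calc ENNReal.ofReal (2 * Z₁ * Real.exp (-e)) * ENNReal.ofReal ((∏ i, (Real.sqrt (1 - c i))⁻¹) / 2)
        ≤ ENNReal.ofReal (2 * Z₁ * Real.exp (-e)) * ∫⁻ g in Metric.closedBall 0 R,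
          ENNReal.ofReal (Real.exp ((∑ i, c i * ⟪b i, g⟫ ^ 2) / 2)) ∂(stdGaussian E) := by
          gcongr
          exact quad_ball b hδ hR0 hc hR
      _ = ∫⁻ g in Metric.closedBall 0 R, ENNReal.ofReal (2 * Z₁ * Real.exp (-e)) *
          ENNReal.ofReal (Real.exp ((∑ i, c i * ⟪b i, g⟫ ^ 2) / 2)) ∂(stdGaussian E) := by
          rw [lintegral_const_mul _ (by fun_prop)]
      _ ≤ ∫⁻ g in Metric.closedBall 0 R, (I g + I (-g)) ∂(stdGaussian E) :=
          setLIntegral_mono' Metric.isClosed_closedBall.measurableSet h4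
      _ ≤ _ := h3
  have h0 : 0 ≤ ∏ i, (Real.sqrt (1 - c i))⁻¹ := Finset.prod_nonneg fun i _ => by positivity
  rw [← ENNReal.ofReal_mul (by positivity), show (2 : ℝ≥0∞) = ENNReal.ofReal 2 by simp,
    ← ENNReal.ofReal_mul (by norm_num), ENNReal.ofReal_le_ofReal_iff (by positivity)] at h5
  have h6 : (∏ i, (Real.sqrt (1 - c i))⁻¹) * ∏ i, Real.sqrt (1 - c i) = 1 := by
    rw [← Finset.prod_mul_distrib]
    exact Finset.prod_eq_one fun i _ => inv_mul_cancel₀ (Real.sqrt_pos.2 (hq i)).ne'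
  have h7 : 0 ≤ ∏ i, Real.sqrt (1 - c i) := Finset.prod_nonneg fun i _ => Real.sqrt_nonneg _
  have h8 : Real.exp e * Real.exp (-e) = 1 := by rw [← Real.exp_add]; simp
  calc Z₁ = (2 * Z₁ * Real.exp (-e) * ((∏ i, (Real.sqrt (1 - c i))⁻¹) / 2)) *
        (Real.exp e * ∏ i, Real.sqrt (1 - c i)) := by
        rw [show (2 * Z₁ * Real.exp (-e) * ((∏ i, (Real.sqrt (1 - c i))⁻¹) / 2)) *
          (Real.exp e * ∏ i, Real.sqrt (1 - c i)) = Z₁ * (Real.exp e * Real.exp (-e)) *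
          ((∏ i, (Real.sqrt (1 - c i))⁻¹) * ∏ i, Real.sqrt (1 - c i)) by ring, h6, h8]
        ring
    _ ≤ (2 * Z₀) * (Real.exp e * ∏ i, Real.sqrt (1 - c i)) := mul_le_mul_of_nonneg_right h5 (by positivity)
    _ = _ := by ring

/-- the square root of a product of `1 - c` against the truncated logarithmic series -/
lemma prod_sqrt_le {ι : Type*} [Fintype ι] {c : ι → ℝ} (h0 : ∀ i, 0 ≤ c i) (h1 : ∀ i, c i < 1) (N : ℕ) :
    ∏ i, Real.sqrt (1 - c i) ≤ Real.exp (-(∑ n ∈ Finset.range N, (∑ i, c i ^ (n + 1)) / (n + 1)) / 2) := by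
  have h2 : ∀ i, Real.sqrt (1 - c i) ≤ Real.exp (-(∑ n ∈ Finset.range N, c i ^ (n + 1) / (n + 1)) / 2) := by
    intro i
    have hs := Real.hasSum_pow_div_log_of_abs_lt_one (x := c i) (by rw [abs_of_nonneg (h0 i)]; exact h1 i)
    have h3 : ∑ n ∈ Finset.range N, c i ^ (n + 1) / (n + 1) ≤ -Real.log (1 - c i) := by
      exact sum_le_hasSum _ (fun n _ => div_nonneg (pow_nonneg (h0 i) _) (by positivity)) hs
    have hq : 0 < 1 - c i := by linarith [h1 i]
    rw [Real.exp_half, ← Real.exp_log hq]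
    apply Real.sqrt_le_sqrt
    exact Real.exp_le_exp.2 (by linarith)
  calc ∏ i, Real.sqrt (1 - c i) ≤ ∏ i, Real.exp (-(∑ n ∈ Finset.range N, c i ^ (n + 1) / (n + 1)) / 2) :=
        Finset.prod_le_prod (fun i _ => Real.sqrt_nonneg _) fun i _ => h2 i
    _ = _ := by
        rw [← Real.exp_sum]
        congr 1
        rw [← Finset.sum_div, Finset.sum_neg_distrib, Finset.sum_comm]
        simp_rw [Finset.sum_div]

/-- **reverse linearisation**, operator form with the truncated `log det` -/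
theorem rev_lin (T : E →ₗ[ℝ] E) (hT : T.IsSymmetric) (hpos : ∀ g, 0 ≤ ⟪T g, g⟫) {δ R : ℝ} (hδ : 0 < δ)
    (hR0 : 0 ≤ R) (hc : ∀ g, ⟪T g, g⟫ ≤ (1 - δ) * ‖g‖ ^ 2) (hR : 2 * (finrank ℝ E : ℝ) + 4 ≤ δ * R ^ 2)
    {μ : Measure Ω} [SFinite μ] {F : Ω → E} (hF : Measurable F) {Z₀ Z₁ e : ℝ} {l : E → ℝ}
    (hl : ∀ g, l (-g) = -l g) (hZ0 : 0 ≤ Z₀) (hZ1 : 0 ≤ Z₁)
    (hup : ∫⁻ x, ENNReal.ofReal (Real.exp (‖F x‖ ^ 2 / 2)) ∂μ ≤ ENNReal.ofReal Z₀)
    (hlow : ∀ g : E, ‖g‖ ≤ R → ENNReal.ofReal (Z₁ * Real.exp (⟪T g, g⟫ / 2 + l g - e)) ≤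
      ∫⁻ x, ENNReal.ofReal (Real.exp ⟪g, F x⟫) ∂μ) (N : ℕ) :
    Z₁ ≤ 2 * Real.exp e * Z₀ *
      Real.exp (-(∑ n ∈ Finset.range N, LinearMap.trace ℝ E (T ^ (n + 1)) / (n + 1)) / 2) := by
  obtain ⟨b, hb⟩ : ∃ b, b = hT.eigenvectorBasis rfl := ⟨_, rfl⟩
  obtain ⟨c, hcdef⟩ : ∃ c, c = hT.eigenvalues rfl := ⟨_, rfl⟩
  have hTb : ∀ i, T (b i) = c i • b i := by
    intro i
    rw [hb, hcdef]
    exact hT.apply_eigenvectorBasis rfl i
  have hdiag : ∀ g, ⟪T g, g⟫ = ∑ i, c i * ⟪b i, g⟫ ^ 2 := by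
    intro g
    rw [← b.sum_inner_mul_inner (T g) g]
    refine Finset.sum_congr rfl fun i _ => ?_
    rw [hT g (b i), hTb, real_inner_smul_right, real_inner_comm]
    ring
  have hcb : ∀ i, c i = ⟪T (b i), b i⟫ := by
    intro i
    rw [hTb, real_inner_smul_left, real_inner_self_eq_norm_sq, b.orthonormal.1 i]
    ring
  have hc1 : ∀ i, c i ≤ 1 - δ := by
    intro i
    have := hc (b i)
    rw [← hcb, b.orthonormal.1 i] at this
    linarith
  have hc0 : ∀ i, 0 ≤ c i := fun i => by rw [hcb]; exact hpos _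
  have hpow : ∀ (n : ℕ) (i), (T ^ n) (b i) = c i ^ n • b i := by
    intro n i
    induction n with
    | zero => simp
    | succ n ih =>
      rw [pow_succ', Module.End.mul_apply, ih, map_smul, hTb, smul_smul, pow_succ]
  have htr : ∀ n : ℕ, LinearMap.trace ℝ E (T ^ n) = ∑ i, c i ^ n := by
    intro n
    rw [LinearMap.trace_eq_sum_inner (T ^ n) b]
    refine Finset.sum_congr rfl fun i _ => ?_
    rw [hpow, real_inner_smul_right, real_inner_self_eq_norm_sq, b.orthonormal.1 i]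
    ring
  have h1 := rev_lin_basis b (c := c) hδ hR0 hc1 (by rw [Fintype.card_fin]; exact hR) hF hl hZ0 hZ1 hup
    (fun g hg => by rw [← hdiag]; exact hlow g hg)
  refine h1.trans ?_
  have h2 := prod_sqrt_le hc0 (fun i => by linarith [hc1 i]) N
  simp_rw [htr]
  exact mul_le_mul_of_nonneg_left h2 (by positivity)

/-- **reverse linearisation**, coordinate form -/
theorem rev_lin_matrix {K : ℕ} {C : Matrix (Fin K) (Fin K) ℝ} (hC : ∀ a b, C a b = C b a)
    (hpos : ∀ g : Fin K → ℝ, 0 ≤ ∑ a, ∑ b, g a * C a b * g b) {δ R : ℝ} (hδ : 0 < δ)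
    (hR0 : 0 ≤ R) (hc : ∀ g : Fin K → ℝ, ∑ a, ∑ b, g a * C a b * g b ≤ (1 - δ) * ∑ a, g a ^ 2)
    (hR : 2 * (K : ℝ) + 4 ≤ δ * R ^ 2) {μ : Measure Ω} [SFinite μ] {F : Fin K → Ω → ℝ}
    (hF : ∀ a, Measurable (F a)) {Z₀ Z₁ e : ℝ} {l : (Fin K → ℝ) → ℝ}
    (hl : ∀ g, l (-g) = -l g) (hZ0 : 0 ≤ Z₀) (hZ1 : 0 ≤ Z₁)
    (hup : ∫⁻ x, ENNReal.ofReal (Real.exp ((∑ a, F a x ^ 2) / 2)) ∂μ ≤ ENNReal.ofReal Z₀)
    (hlow : ∀ g : Fin K → ℝ, ∑ a, g a ^ 2 ≤ R ^ 2 →
      ENNReal.ofReal (Z₁ * Real.exp ((∑ a, ∑ b, g a * C a b * g b) / 2 + l g - e)) ≤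
        ∫⁻ x, ENNReal.ofReal (Real.exp (∑ a, g a * F a x)) ∂μ) (N : ℕ) :
    Z₁ ≤ 2 * Real.exp e * Z₀ *
      Real.exp (-(∑ n ∈ Finset.range N, (C ^ (n + 1)).trace / (n + 1)) / 2) := by
  obtain ⟨T, hT⟩ : ∃ T : EuclideanSpace ℝ (Fin K) →ₗ[ℝ] EuclideanSpace ℝ (Fin K), T = C.toEuclideanLin := ⟨_, rfl⟩
  have hquad : ∀ g : EuclideanSpace ℝ (Fin K), ⟪T g, g⟫ = ∑ a, ∑ b, g a * C a b * g b := by
    intro g
    rw [hT, PiLp.inner_apply]
    refine Finset.sum_congr rfl fun a _ => ?_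
    rw [Matrix.toLpLin_apply]
    simp only [RCLike.inner_apply, conj_trivial, Matrix.mulVec, dotProduct]
    rw [Finset.mul_sum]
    exact Finset.sum_congr rfl fun b _ => by ring
  have hsym : T.IsSymmetric := by
    rw [hT, Matrix.isSymmetric_toEuclideanLin_iff]
    ext a b
    simp [Matrix.conjTranspose_apply, hC a b]
  have hnorm : ∀ g : EuclideanSpace ℝ (Fin K), ‖g‖ ^ 2 = ∑ a, g a ^ 2 := EuclideanSpace.real_norm_sq_eq
  have htr : ∀ n : ℕ, LinearMap.trace ℝ (EuclideanSpace ℝ (Fin K)) (T ^ n) = (C ^ n).trace := by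
    intro n
    rw [hT, ← Matrix.toLpLin_pow, LinearMap.trace_eq_sum_inner _ (EuclideanSpace.basisFun (Fin K) ℝ), Matrix.trace]
    refine Finset.sum_congr rfl fun a _ => ?_
    generalize C ^ n = D
    simp [Matrix.diag_apply, PiLp.inner_apply]
  obtain ⟨G, hG⟩ : ∃ G : Ω → EuclideanSpace ℝ (Fin K), G = fun x => WithLp.toLp 2 (fun a => F a x) := ⟨_, rfl⟩
  have hGm : Measurable G := by
    rw [hG]
    have : Measurable fun x => (fun a => F a x) := measurable_pi_lambda _ hF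
    exact (WithLp.measurable_toLp 2 (Fin K → ℝ)).comp this
  have h := rev_lin T hsym (fun g => by rw [hquad]; exact hpos _) hδ hR0
    (fun g => by rw [hquad, hnorm]; exact hc _) (by simpa using hR) (μ := μ) hGm (Z₀ := Z₀) (Z₁ := Z₁) (e := e)
    (l := fun g => l (WithLp.ofLp g)) (fun g => by simpa using hl _) hZ0 hZ1
    (by
      refine le_trans (le_of_eq ?_) hup
      refine lintegral_congr fun x => ?_
      rw [hnorm, hG])
    (fun g hg => by
      have h1 := hlow (WithLp.ofLp g) (by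
        have := hnorm g
        have h2 : ‖g‖ ^ 2 ≤ R ^ 2 := by gcongr
        rw [this] at h2
        exact h2)
      rw [hquad]
      refine h1.trans (le_of_eq ?_)
      refine lintegral_congr fun x => ?_
      congr 2
      rw [PiLp.inner_apply, hG]
      refine Finset.sum_congr rfl fun a _ => ?_
      simp only [RCLike.inner_apply, conj_trivial]
      ring) N
  simp_rw [htr] at h
  exact h

end NURev
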