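import Pool.Agent.NUA.SzStep

/-!
Iteration of the step: `det T_n(∏ |1 - b_i z|²) ≤ ∏_{i,j} |1 - b_i b̄_j|⁻¹ = exp (∑_r |p_r|²/r)`,
and Heine's identity for the circular gas.
-/

open MeasureTheory Finset Complex
open scoped ComplexOrder ComplexConjugate

namespace NUA

variable {ι : Type*} [DecidableEq ι]

/-- the polynomial `∏ (1 - b_i X)` -/
noncomputable def PD (b : ι → ℂ) (s : Finset ι) : Polynomial ℂ :=
  ∏ i ∈ s, (1 - Polynomial.C (b i) * Polynomial.X)

omit [DecidableEq ι] in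
theorem PD_eval (b : ι → ℂ) (s : Finset ι) (z : ℂ) :
    (PD b s).eval z = ∏ i ∈ s, (1 - b i * z) := by
  simp [PD, Polynomial.eval_prod]

theorem prod_bound (b : ι → ℂ) (hb : ∀ i, ‖b i‖ < 1) (s : Finset ι) : ∀ n : ℕ,
    (T n fun θ => ∏ i ∈ s, ‖1 - b i * E θ‖ ^ 2).det ≤
      ((∏ i ∈ s, ∏ j ∈ s, ‖1 - b i * conj (b j)‖⁻¹ : ℝ) : ℂ) := by
  induction s using Finset.induction_on with
  | empty =>
    intro n
    simp only [Finset.prod_empty]
    rw [T_one]
    simp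
  | insert a s ha ih =>
    intro n
    have hn : ∀ i j, ‖b i * conj (b j)‖ < 1 := by
      intro i j
      rw [norm_mul, RCLike.norm_conj]
      exact mul_lt_one_of_nonneg_of_lt_one_left (norm_nonneg _) (hb i) (hb j).le
    have hne : ∀ i j, (1 : ℂ) - b i * conj (b j) ≠ 0 := by
      intro i j h
      have h1 : b i * conj (b j) = 1 := (sub_eq_zero.1 h).symm
      have h2 := hn i j
      rw [h1, norm_one] at h2
      exact lt_irrefl _ h2
    have hs := step n (b a) (hb a) (PD b s) (fun θ => ∏ i ∈ s, ‖1 - b i * E θ‖ ^ 2) (by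
      intro θ
      rw [PD_eval, norm_prod, Finset.prod_pow])
    have h0 := hs.trans (ih (n + 1))
    have e1 : (fun θ => ∏ i ∈ insert a s, ‖1 - b i * E θ‖ ^ 2) =
        fun θ => (∏ i ∈ s, ‖1 - b i * E θ‖ ^ 2) * ‖1 - b a * E θ‖ ^ 2 := by
      funext θ
      rw [Finset.prod_insert ha, mul_comm]
    rw [e1]
    have hsym : ∀ i j, ‖(1 : ℂ) - b i * conj (b j)‖ = ‖(1 : ℂ) - b j * conj (b i)‖ := by
      intro i j
      rw [← RCLike.norm_conj ((1 : ℂ) - b i * conj (b j))]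
      congr 1
      simp [mul_comm]
    have hdiag : ‖(1 : ℂ) - b a * conj (b a)‖ = 1 - ‖b a‖ ^ 2 := by
      rw [Complex.mul_conj']
      have h1 : (1 : ℂ) - (‖b a‖ : ℂ) ^ 2 = ((1 - ‖b a‖ ^ 2 : ℝ) : ℂ) := by push_cast; ring
      rw [h1, Complex.norm_real, Real.norm_eq_abs, abs_of_nonneg]
      have : ‖b a‖ ^ 2 ≤ 1 := pow_le_one₀ (norm_nonneg _) (hb a).le
      linarith
    set A : ℝ := ∏ i ∈ s, ∏ j ∈ s, ‖1 - b i * conj (b j)‖⁻¹ with hA
    set B : ℝ := ∏ i ∈ s, ‖1 - b i * conj (b a)‖ with hB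
    have hBpos : 0 < B := Finset.prod_pos fun i _ => norm_pos_iff.2 (hne i a)
    have hdpos : 0 < 1 - ‖b a‖ ^ 2 := by
      rw [← hdiag]
      exact norm_pos_iff.2 (hne a a)
    have e2 : (∏ i ∈ insert a s, ∏ j ∈ insert a s, ‖1 - b i * conj (b j)‖⁻¹ : ℝ) =
        ((1 - ‖b a‖ ^ 2) * B ^ 2)⁻¹ * A := by
      rw [Finset.prod_insert ha, Finset.prod_insert ha, hdiag]
      have e3 : ∏ i ∈ s, ∏ j ∈ insert a s, ‖1 - b i * conj (b j)‖⁻¹ = B⁻¹ * A := by
        simp_rw [Finset.prod_insert ha]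
        rw [Finset.prod_mul_distrib, Finset.prod_inv_distrib]
      have e4 : ∏ j ∈ s, ‖1 - b a * conj (b j)‖⁻¹ = B⁻¹ := by
        rw [Finset.prod_inv_distrib]
        congr 1
        exact Finset.prod_congr rfl fun j _ => hsym a j
      rw [e3, e4]
      field_simp
    rw [e2]
    have e5 : ‖(PD b s).eval (conj (b a))‖ = B := by
      rw [PD_eval, norm_prod]
    rw [e5] at h0
    have hc : (0 : ℂ) < (((1 - ‖b a‖ ^ 2) * B ^ 2 : ℝ) : ℂ) := by
      rw [← Complex.ofReal_zero, Complex.real_lt_real]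
      positivity
    have hcinv : (0 : ℂ) ≤ ((((1 - ‖b a‖ ^ 2) * B ^ 2)⁻¹ : ℝ) : ℂ) := by
      rw [← Complex.ofReal_zero, Complex.real_le_real]
      positivity
    have h6 := mul_le_mul_of_nonneg_left h0 hcinv
    rw [← mul_assoc, ← Complex.ofReal_mul, inv_mul_cancel₀ (by positivity), Complex.ofReal_one,
      one_mul, ← Complex.ofReal_mul] at h6
    exact h6

omit [DecidableEq ι] in
/-- the energy as a series of power sums -/
theorem hasSum_energy (b : ι → ℂ) (hb : ∀ i, ‖b i‖ < 1) (s : Finset ι) :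
    HasSum (fun r : ℕ => ‖∑ i ∈ s, b i ^ r‖ ^ 2 / r)
      (∑ i ∈ s, ∑ j ∈ s, -Real.log ‖1 - b i * conj (b j)‖) := by
  have hn : ∀ i j, ‖b i * conj (b j)‖ < 1 := by
    intro i j
    rw [norm_mul, RCLike.norm_conj]
    exact mul_lt_one_of_nonneg_of_lt_one_left (norm_nonneg _) (hb i) (hb j).le
  have h1 : HasSum (fun r : ℕ => ∑ i ∈ s, ∑ j ∈ s, (b i * conj (b j)) ^ r / r)
      (∑ i ∈ s, ∑ j ∈ s, -Complex.log (1 - b i * conj (b j))) :=
    hasSum_sum fun i _ => hasSum_sum fun j _ => Complex.hasSum_taylorSeries_neg_log (hn i j)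
  have h2 := Complex.hasSum_re h1
  have e1 : (∑ i ∈ s, ∑ j ∈ s, -Complex.log (1 - b i * conj (b j))).re =
      ∑ i ∈ s, ∑ j ∈ s, -Real.log ‖1 - b i * conj (b j)‖ := by
    rw [Complex.re_sum]
    refine Finset.sum_congr rfl fun i _ => ?_
    rw [Complex.re_sum]
    refine Finset.sum_congr rfl fun j _ => ?_
    rw [Complex.neg_re, Complex.log_re]
  rw [e1] at h2
  have e2 : ∀ r : ℕ, (∑ i ∈ s, ∑ j ∈ s, (b i * conj (b j)) ^ r / (r : ℂ)).re =
      ‖∑ i ∈ s, b i ^ r‖ ^ 2 / r := by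
    intro r
    have h3 : ∑ i ∈ s, ∑ j ∈ s, (b i * conj (b j)) ^ r / (r : ℂ) =
        (((‖∑ i ∈ s, b i ^ r‖ ^ 2 / r : ℝ)) : ℂ) := by
      push_cast
      rw [← Complex.mul_conj', map_sum, Finset.sum_mul_sum, Finset.sum_div]
      refine Finset.sum_congr rfl fun i _ => ?_
      rw [Finset.sum_div]
      refine Finset.sum_congr rfl fun j _ => ?_
      rw [mul_pow, map_pow]
    rw [h3, Complex.ofReal_re]
  simpa only [e2] using h2

omit [DecidableEq ι] in
theorem prod_exp (b : ι → ℂ) (hb : ∀ i, ‖b i‖ < 1) (s : Finset ι) :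
    ∏ i ∈ s, ∏ j ∈ s, ‖1 - b i * conj (b j)‖⁻¹ =
      Real.exp (∑' r : ℕ, ‖∑ i ∈ s, b i ^ r‖ ^ 2 / r) := by
  have hn : ∀ i j, ‖b i * conj (b j)‖ < 1 := by
    intro i j
    rw [norm_mul, RCLike.norm_conj]
    exact mul_lt_one_of_nonneg_of_lt_one_left (norm_nonneg _) (hb i) (hb j).le
  have hne : ∀ i j, (1 : ℂ) - b i * conj (b j) ≠ 0 := by
    intro i j h
    have h1 : b i * conj (b j) = 1 := (sub_eq_zero.1 h).symm
    have h2 := hn i j
    rw [h1, norm_one] at h2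
    exact lt_irrefl _ h2
  rw [(hasSum_energy b hb s).tsum_eq, Real.exp_sum]
  refine Finset.prod_congr rfl fun i _ => ?_
  rw [Real.exp_sum]
  refine Finset.prod_congr rfl fun j _ => ?_
  rw [Real.exp_neg, Real.exp_log (norm_pos_iff.2 (hne i j))]

/-- the circular gas -/
noncomputable def gas (n : ℕ) (w : ℝ → ℝ) : ℝ :=
  (n.factorial : ℝ)⁻¹ * ∫ θ : Fin n → ℝ, (∏ i : Fin n, ∏ j ∈ Ioi i, ‖E (θ j) - E (θ i)‖ ^ 2) *
    ∏ i, w (θ i) ∂(Measure.pi fun _ => P)

/-- Heine's identity -/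
theorem heine (n : ℕ) (w : ℝ → ℝ) (hw : Integrable w P) :
    ((gas n w : ℝ) : ℂ) = (T n w).det := by
  have hc : ∀ j k : ℕ, Integrable (fun θ : ℝ => conj (E θ) ^ j * (E θ ^ k * (w θ : ℂ))) P := by
    intro j k
    have h1 : ∀ θ : ℝ, conj (E θ) ^ j * (E θ ^ k * (w θ : ℂ)) =
        (conj (E θ) ^ j * E θ ^ k) * (w θ : ℂ) := fun θ => by ring
    simp_rw [h1]
    refine Integrable.bdd_mul (c := 1) hw.ofReal ?_ ?_
    · exact (((continuous_conj.comp continuous_E).pow j).mul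
        (continuous_E.pow k)).aestronglyMeasurable
    · refine Filter.Eventually.of_forall fun θ => ?_
      rw [norm_mul, norm_pow, norm_pow, RCLike.norm_conj, norm_E]
      simp
  have h := andreief (n := n) P (fun j θ => conj (E θ) ^ (j : ℕ))
    (fun k θ => E θ ^ (k : ℕ) * (w θ : ℂ)) (fun j k => hc j k)
  have h1 : ∀ θ : Fin n → ℝ, (Matrix.of fun i j : Fin n => conj (E (θ j)) ^ (i : ℕ)).det *
      (Matrix.of fun i j : Fin n => E (θ j) ^ (i : ℕ) * (w (θ j) : ℂ)).det =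
      (((∏ i : Fin n, ∏ j ∈ Ioi i, ‖E (θ j) - E (θ i)‖ ^ 2) * ∏ i, w (θ i) : ℝ) : ℂ) := by
    intro θ
    have e1 : (Matrix.of fun i j : Fin n => conj (E (θ j)) ^ (i : ℕ)) =
        (Matrix.vandermonde fun j => conj (E (θ j))).transpose := by
      ext i j
      rfl
    have e2 : (Matrix.of fun i j : Fin n => E (θ j) ^ (i : ℕ) * (w (θ j) : ℂ)) =
        (Matrix.vandermonde fun j => E (θ j)).transpose * Matrix.diagonal fun j => (w (θ j) : ℂ) := by
      ext i j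
      rw [Matrix.mul_diagonal]
      rfl
    rw [e1, e2, Matrix.det_mul, Matrix.det_transpose, Matrix.det_transpose, Matrix.det_diagonal,
      Matrix.det_vandermonde, Matrix.det_vandermonde, ← mul_assoc, ← Finset.prod_mul_distrib]
    push_cast
    congr 1
    refine Finset.prod_congr rfl fun i _ => ?_
    rw [← Finset.prod_mul_distrib]
    refine Finset.prod_congr rfl fun j _ => ?_
    rw [← map_sub, Complex.conj_mul']
  rw [integral_congr_ae (Filter.Eventually.of_forall h1), integral_complex_ofReal] at h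
  unfold gas
  have hn : (n.factorial : ℂ) ≠ 0 := by exact_mod_cast n.factorial_ne_zero
  push_cast
  rw [h, ← mul_assoc, inv_mul_cancel₀ hn, one_mul]
  congr 1
  ext j k
  simp only [Matrix.of_apply, T, tc]
  congr 1
  funext θ
  ring

end NUA
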