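import Pool.Agent.NUA.Andreief

/-!
Toeplitz determinants and the elementary step of Szego's inequality:
if `w = |D|²` on the unit circle and `|b| < 1`, then
`(1 - |b|²) |D(b̄)|² det T_n(w |1 - b z|²) ≤ det T_{n+1}(w)`.
-/

open MeasureTheory Finset Complex
open scoped ComplexOrder ComplexConjugate

namespace NUA

/-- the point of the unit circle with angle `θ` -/
noncomputable def E (θ : ℝ) : ℂ := Complex.exp (θ * I)

/-- normalised arc length -/
noncomputable def P : Measure ℝ :=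
  (ENNReal.ofReal (2 * Real.pi)⁻¹) • volume.restrict (Set.Ioc 0 (2 * Real.pi))

theorem norm_E (θ : ℝ) : ‖E θ‖ = 1 := Complex.norm_exp_ofReal_mul_I θ

theorem E_ne (θ : ℝ) : E θ ≠ 0 := Complex.exp_ne_zero _

theorem continuous_E : Continuous E := by
  unfold E
  fun_prop

theorem conj_mul_E (θ : ℝ) : conj (E θ) * E θ = 1 := by
  rw [Complex.conj_mul', norm_E]
  simp

theorem conj_E (θ : ℝ) : conj (E θ) = (E θ)⁻¹ := by
  exact eq_inv_of_mul_eq_one_left (conj_mul_E θ)

instance : IsProbabilityMeasure P := by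
  constructor
  unfold P
  rw [Measure.smul_apply, Measure.restrict_apply MeasurableSet.univ, Set.univ_inter,
    Real.volume_Ioc, smul_eq_mul, ← ENNReal.ofReal_mul (by positivity)]
  rw [sub_zero, inv_mul_cancel₀ (by positivity)]
  simp

theorem integral_P (f : ℝ → ℂ) :
    ∫ θ, f θ ∂P = ((2 * Real.pi)⁻¹ : ℝ) * ∫ θ in (0 : ℝ)..(2 * Real.pi), f θ := by
  unfold P
  rw [integral_smul_measure, intervalIntegral.integral_of_le (by positivity),
    ENNReal.toReal_ofReal (by positivity), Complex.real_smul]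

theorem integral_P_real (f : ℝ → ℝ) :
    ∫ θ, f θ ∂P = (2 * Real.pi)⁻¹ * ∫ θ in (0 : ℝ)..(2 * Real.pi), f θ := by
  unfold P
  rw [integral_smul_measure, intervalIntegral.integral_of_le (by positivity),
    ENNReal.toReal_ofReal (by positivity), smul_eq_mul]

theorem integrable_P {F : Type*} [NormedAddCommGroup F] {f : ℝ → F} (hf : Continuous f) :
    Integrable f P := by
  unfold P
  refine Integrable.smul_measure ?_ ENNReal.ofReal_ne_top
  have h := hf.integrableOn_Icc (μ := volume) (a := 0) (b := 2 * Real.pi)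
  exact h.mono_set Set.Ioc_subset_Icc_self

theorem orth (j k : ℕ) : ∫ θ, conj (E θ) ^ j * E θ ^ k ∂P = if j = k then 1 else 0 := by
  split_ifs with h
  · subst h
    simp_rw [← mul_pow, conj_mul_E, one_pow]
    simp
  · rw [integral_P]
    have hc : (((k : ℂ) - j) * I) ≠ 0 := by
      refine mul_ne_zero ?_ I_ne_zero
      rw [sub_ne_zero]
      exact fun h' => h (by exact_mod_cast h'.symm)
    have e : ∀ θ : ℝ, conj (E θ) ^ j * E θ ^ k = Complex.exp ((((k : ℂ) - j) * I) * θ) := by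
      intro θ
      rw [conj_E]
      unfold E
      rw [← Complex.exp_neg, ← Complex.exp_nat_mul, ← Complex.exp_nat_mul, ← Complex.exp_add]
      congr 1
      ring
    simp_rw [e]
    rw [integral_exp_mul_complex hc]
    have e2 : Complex.exp ((((k : ℂ) - j) * I) * ((2 * Real.pi : ℝ) : ℂ)) = 1 := by
      rw [Complex.exp_eq_one_iff]
      refine ⟨(k : ℤ) - j, ?_⟩
      push_cast
      ring
    rw [e2]
    simp

/-- Toeplitz entries -/
noncomputable def tc (w : ℝ → ℝ) (j k : ℕ) : ℂ :=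
  ∫ θ, conj (E θ) ^ j * E θ ^ k * (w θ : ℂ) ∂P

/-- Toeplitz matrix -/
noncomputable def T (n : ℕ) (w : ℝ → ℝ) : Matrix (Fin n) (Fin n) ℂ :=
  Matrix.of fun j k => tc w j k

theorem T_one (n : ℕ) : T n (fun _ => 1) = 1 := by
  ext j k
  simp only [T, Matrix.of_apply, tc, ofReal_one, mul_one, orth, Matrix.one_apply, Fin.ext_iff]

/-- Parseval for polynomials -/
theorem parseval (F : Polynomial ℂ) :
    ∫ θ, ‖F.eval (E θ)‖ ^ 2 ∂P = ∑ k ∈ range (F.natDegree + 1), ‖F.coeff k‖ ^ 2 := by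
  have h : ((∫ θ, ‖F.eval (E θ)‖ ^ 2 ∂P : ℝ) : ℂ) =
      ((∑ k ∈ range (F.natDegree + 1), ‖F.coeff k‖ ^ 2 : ℝ) : ℂ) := by
    rw [← integral_complex_ofReal]
    have e : ∀ θ : ℝ, ((‖F.eval (E θ)‖ ^ 2 : ℝ) : ℂ) =
        ∑ j ∈ range (F.natDegree + 1), ∑ k ∈ range (F.natDegree + 1),
          (conj (F.coeff j) * F.coeff k) * (conj (E θ) ^ j * E θ ^ k) := by
      intro θ
      push_cast
      rw [← Complex.conj_mul', Polynomial.eval_eq_sum_range, map_sum, Finset.sum_mul_sum]
      refine Finset.sum_congr rfl fun j _ => Finset.sum_congr rfl fun k _ => ?_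
      rw [map_mul, map_pow]
      ring
    simp_rw [e]
    have hc : ∀ j k : ℕ, Continuous fun θ : ℝ => conj (E θ) ^ j * E θ ^ k := by
      intro j k
      exact ((continuous_conj.comp continuous_E).pow j).mul (continuous_E.pow k)
    rw [integral_finsetSum _ fun j _ => integrable_finsetSum _ fun k _ =>
      (integrable_P (hc j k)).const_mul _]
    push_cast
    refine Finset.sum_congr rfl fun j hj => ?_
    rw [integral_finsetSum _ fun k _ => (integrable_P (hc j k)).const_mul _]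
    simp_rw [integral_const_mul, orth]
    rw [Finset.sum_eq_single j]
    · rw [if_pos rfl, mul_one, Complex.conj_mul']
    · intro k _ hk
      rw [if_neg (fun h => hk h.symm), mul_zero]
    · intro h
      exact absurd hj h
  exact_mod_cast h

/-- point evaluation in the Hardy space -/
theorem point_eval (F : Polynomial ℂ) (β : ℂ) (hβ : ‖β‖ < 1) :
    ‖F.eval β‖ ^ 2 * (1 - ‖β‖ ^ 2) ≤ ∫ θ, ‖F.eval (E θ)‖ ^ 2 ∂P := by
  rw [parseval]
  set N := F.natDegree + 1
  have h1 : ‖F.eval β‖ ≤ ∑ k ∈ range N, ‖F.coeff k‖ * ‖β‖ ^ k := by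
    rw [Polynomial.eval_eq_sum_range]
    refine (norm_sum_le _ _).trans (le_of_eq ?_)
    refine Finset.sum_congr rfl fun k _ => ?_
    rw [norm_mul, norm_pow]
  have h2 : ‖F.eval β‖ ^ 2 ≤ (∑ k ∈ range N, ‖F.coeff k‖ ^ 2) * ∑ k ∈ range N, (‖β‖ ^ k) ^ 2 :=
    (pow_le_pow_left₀ (norm_nonneg _) h1 2).trans (Finset.sum_mul_sq_le_sq_mul_sq _ _ _)
  have h3 : (∑ k ∈ range N, (‖β‖ ^ k) ^ 2) * (1 - ‖β‖ ^ 2) ≤ 1 := by
    have e : ∑ k ∈ range N, (‖β‖ ^ k) ^ 2 = ∑ k ∈ range N, (‖β‖ ^ 2) ^ k :=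
      Finset.sum_congr rfl fun k _ => by rw [← pow_mul, ← pow_mul, mul_comm]
    rw [e, geom_sum_mul_neg]
    have : 0 ≤ (‖β‖ ^ 2) ^ N := by positivity
    linarith
  have h4 : 0 ≤ 1 - ‖β‖ ^ 2 := by
    have : ‖β‖ ^ 2 ≤ 1 := pow_le_one₀ (norm_nonneg _) hβ.le
    linarith
  have h5 : 0 ≤ ∑ k ∈ range N, ‖F.coeff k‖ ^ 2 := Finset.sum_nonneg fun _ _ => by positivity
  calc ‖F.eval β‖ ^ 2 * (1 - ‖β‖ ^ 2)
      ≤ ((∑ k ∈ range N, ‖F.coeff k‖ ^ 2) * ∑ k ∈ range N, (‖β‖ ^ k) ^ 2) * (1 - ‖β‖ ^ 2) :=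
        mul_le_mul_of_nonneg_right h2 h4
    _ = (∑ k ∈ range N, ‖F.coeff k‖ ^ 2) * ((∑ k ∈ range N, (‖β‖ ^ k) ^ 2) * (1 - ‖β‖ ^ 2)) := by
        ring
    _ ≤ (∑ k ∈ range N, ‖F.coeff k‖ ^ 2) * 1 := mul_le_mul_of_nonneg_left h3 h5
    _ = _ := mul_one _

/-- linear algebra: if `M - s e_n e_n*` is positive semidefinite then
`s det (M without last row and column) ≤ det M` -/
theorem det_last (n : ℕ) (M : Matrix (Fin (n + 1)) (Fin (n + 1)) ℂ) (s : ℂ)
    (h : (M - Matrix.single (Fin.last n) (Fin.last n) s).PosSemidef) :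
    s * (M.submatrix Fin.castSucc Fin.castSucc).det ≤ M.det := by
  set M' := M - Matrix.single (Fin.last n) (Fin.last n) s with hM'
  have hrow : M = M'.updateRow (Fin.last n) (M' (Fin.last n) + s • Pi.single (Fin.last n) 1) := by
    ext i j
    by_cases hi : i = Fin.last n
    · subst hi
      rw [Matrix.updateRow_self]
      simp only [hM', Matrix.sub_apply, Pi.add_apply, Pi.smul_apply, smul_eq_mul]
      by_cases hj : j = Fin.last n
      · subst hj
        simp
      · rw [Matrix.single_apply_of_col_ne _ _ (fun h => hj h.symm), Pi.single_eq_of_ne hj]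
        simp
    · rw [Matrix.updateRow_ne hi]
      simp only [hM', Matrix.sub_apply]
      rw [Matrix.single_apply_of_row_ne (fun h => hi h.symm)]
      simp
  have hdet : M.det = M'.det + s * (M.submatrix Fin.castSucc Fin.castSucc).det := by
    conv_lhs => rw [hrow]
    rw [Matrix.det_updateRow_add, Matrix.updateRow_eq_self, Matrix.det_updateRow_smul]
    congr 2
    rw [← Matrix.adjugate_apply, Matrix.adjugate_fin_succ_eq_det_submatrix]
    rw [Fin.succAbove_last]
    have e : ((-1 : ℂ)) ^ ((Fin.last n : ℕ) + (Fin.last n : ℕ)) = 1 :=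
      Even.neg_one_pow ⟨_, rfl⟩
    rw [e, one_mul]
    congr 1
    ext i j
    simp only [Matrix.submatrix_apply, hM', Matrix.sub_apply]
    rw [Matrix.single_apply_of_row_ne (Fin.castSucc_lt_last i).ne']
    simp
  rw [hdet]
  have := h.det_nonneg
  simpa using this

/-- the change of basis -/
def Um (n : ℕ) (b : ℂ) : Matrix (Fin (n + 1)) (Fin (n + 1)) ℂ :=
  Matrix.of fun j k => if (j : ℕ) = k then 1 else if (j : ℕ) = k + 1 then -b else 0

theorem Um_det (n : ℕ) (b : ℂ) : (Um n b).det = 1 := by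
  rw [Matrix.det_of_isLowerTriangular]
  · simp [Um]
  · intro i j hij
    have hij' : (i : ℕ) < j := by simpa using hij
    simp only [Um, Matrix.of_apply]
    rw [if_neg (by omega), if_neg (by omega)]

/-- the new basis functions -/
noncomputable def ph (n : ℕ) (b : ℂ) (k : Fin (n + 1)) (θ : ℝ) : ℂ :=
  ∑ m : Fin (n + 1), Um n b m k * E θ ^ (m : ℕ)

theorem ph_castSucc (n : ℕ) (b : ℂ) (k : Fin n) (θ : ℝ) :
    ph n b k.castSucc θ = E θ ^ (k : ℕ) * (1 - b * E θ) := by
  unfold ph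
  have hne : k.castSucc ≠ k.succ := Fin.castSucc_lt_succ.ne
  rw [Finset.sum_eq_add_of_mem (a := k.castSucc) (b := k.succ) (Finset.mem_univ _)
    (Finset.mem_univ _) hne]
  · simp only [Um, Matrix.of_apply, Fin.val_castSucc, Fin.val_succ]
    rw [if_pos trivial, if_neg (by omega), if_pos trivial]
    ring
  · intro m _ hm
    have h1 : (m : ℕ) ≠ k := fun h => hm.1 (Fin.ext (by simpa using h))
    have h2 : (m : ℕ) ≠ k + 1 := fun h => hm.2 (Fin.ext (by simpa using h))
    simp only [Um, Matrix.of_apply, Fin.val_castSucc]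
    rw [if_neg h1, if_neg h2, zero_mul]

theorem ph_last (n : ℕ) (b : ℂ) (θ : ℝ) : ph n b (Fin.last n) θ = E θ ^ n := by
  unfold ph
  rw [Finset.sum_eq_single (Fin.last n)]
  · simp [Um]
  · intro m _ hm
    have h1 : (m : ℕ) ≠ n := fun h => hm (Fin.ext (by simpa using h))
    have h2 : (m : ℕ) ≠ n + 1 := by omega
    simp only [Um, Matrix.of_apply, Fin.val_last]
    rw [if_neg h1, if_neg h2, zero_mul]
  · intro h
    exact absurd (Finset.mem_univ _) h

/-- the sesquilinear form of the Toeplitz matrix -/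
theorem quad_sum (N : ℕ) (w : ℝ → ℝ) (hw : Continuous w) (a c : Fin N → ℂ) :
    ∫ θ, conj (∑ l : Fin N, a l * E θ ^ (l : ℕ)) * (∑ m : Fin N, c m * E θ ^ (m : ℕ)) *
      (w θ : ℂ) ∂P = ∑ m : Fin N, ∑ l : Fin N, conj (a l) * c m * tc w l m := by
  have hc : ∀ j k : ℕ, Continuous fun θ : ℝ => conj (E θ) ^ j * E θ ^ k * (w θ : ℂ) := by
    intro j k
    exact (((continuous_conj.comp continuous_E).pow j).mul (continuous_E.pow k)).mul
      (continuous_ofReal.comp hw)
  have e : ∀ θ : ℝ, conj (∑ l : Fin N, a l * E θ ^ (l : ℕ)) *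
      (∑ m : Fin N, c m * E θ ^ (m : ℕ)) * (w θ : ℂ) =
      ∑ m : Fin N, ∑ l : Fin N, (conj (a l) * c m) *
        (conj (E θ) ^ (l : ℕ) * E θ ^ (m : ℕ) * (w θ : ℂ)) := by
    intro θ
    rw [map_sum, Finset.sum_mul_sum, Finset.sum_comm, Finset.sum_mul]
    refine Finset.sum_congr rfl fun m _ => ?_
    rw [Finset.sum_mul]
    refine Finset.sum_congr rfl fun l _ => ?_
    rw [map_mul, map_pow]
    ring
  have hi : ∀ m l : Fin N, Integrable (fun θ : ℝ => (conj (a l) * c m) *
      (conj (E θ) ^ (l : ℕ) * E θ ^ (m : ℕ) * (w θ : ℂ))) P :=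
    fun m l => (integrable_P (hc l m)).const_mul _
  rw [integral_congr_ae (Filter.Eventually.of_forall e),
    integral_finsetSum _ fun m _ => integrable_finsetSum _ fun l _ => hi m l]
  refine Finset.sum_congr rfl fun m _ => ?_
  rw [integral_finsetSum _ fun l _ => hi m l]
  refine Finset.sum_congr rfl fun l _ => ?_
  rw [integral_const_mul]
  rfl

theorem quad_entry (n : ℕ) (b : ℂ) (w : ℝ → ℝ) (hw : Continuous w) (j k : Fin (n + 1)) :
    ((Um n b).conjTranspose * T (n + 1) w * Um n b) j k =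
      ∫ θ, conj (ph n b j θ) * ph n b k θ * (w θ : ℂ) ∂P := by
  unfold ph
  rw [quad_sum (n + 1) w hw (fun l => Um n b l j) (fun m => Um n b m k), Matrix.mul_apply]
  refine Finset.sum_congr rfl fun m _ => ?_
  rw [Matrix.mul_apply, Finset.sum_mul]
  refine Finset.sum_congr rfl fun l _ => ?_
  rw [Matrix.conjTranspose_apply, Complex.star_def]
  simp only [T, Matrix.of_apply]
  ring

/-- the reversed polynomial of `x_n z^n + (1 - b z) ∑ x_k z^k` -/
noncomputable def rev (n : ℕ) (b : ℂ) (x : Fin (n + 1) → ℂ) : Polynomial ℂ :=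
  Polynomial.C (conj (x (Fin.last n))) + (Polynomial.X - Polynomial.C (conj b)) *
    ∑ k : Fin n, Polynomial.C (conj (x k.castSucc)) * Polynomial.X ^ (n - 1 - (k : ℕ))

theorem rev_eval_conj (n : ℕ) (b : ℂ) (x : Fin (n + 1) → ℂ) :
    (rev n b x).eval (conj b) = conj (x (Fin.last n)) := by
  simp [rev]

theorem rev_eval_E (n : ℕ) (b : ℂ) (x : Fin (n + 1) → ℂ) (θ : ℝ) :
    (rev n b x).eval (E θ) = E θ ^ n * conj (∑ k, x k * ph n b k θ) := by
  rw [Fin.sum_univ_castSucc, ph_last]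
  simp_rw [ph_castSucc]
  rw [map_add, map_sum, mul_add, add_comm, rev, Polynomial.eval_add, Polynomial.eval_mul,
    Polynomial.eval_sub, Polynomial.eval_X, Polynomial.eval_C, Polynomial.eval_C,
    Polynomial.eval_finsetSum, Finset.mul_sum, Finset.mul_sum]
  have hE := E_ne θ
  congr 1
  · rw [map_mul, map_pow, conj_E, inv_pow]
    field_simp
  · refine Finset.sum_congr rfl fun k _ => ?_
    rw [Polynomial.eval_mul, Polynomial.eval_C, Polynomial.eval_pow, Polynomial.eval_X]
    simp only [map_mul, map_pow, map_sub, map_one, conj_E]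
    obtain ⟨d, hd⟩ : ∃ d, n = (k : ℕ) + 1 + d := ⟨n - (k + 1), by omega⟩
    have h1 : n - 1 - (k : ℕ) = d := by omega
    have h2 : E θ ^ n = E θ ^ (k : ℕ) * E θ * E θ ^ d := by
      rw [← pow_succ, ← pow_add, ← hd]
    rw [h1, h2, inv_pow]
    field_simp

theorem norm_rev (n : ℕ) (b : ℂ) (x : Fin (n + 1) → ℂ) (θ : ℝ) :
    ‖(rev n b x).eval (E θ)‖ = ‖∑ k, x k * ph n b k θ‖ := by
  rw [rev_eval_E, norm_mul, norm_pow, norm_E, one_pow, one_mul, RCLike.norm_conj]

theorem T_isHermitian (n : ℕ) (w : ℝ → ℝ) : (T n w).IsHermitian := by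
  ext j k
  simp only [Matrix.conjTranspose_apply, T, Matrix.of_apply, tc]
  rw [Complex.star_def, ← integral_conj]
  congr 1
  funext θ
  simp only [map_mul, map_pow, Complex.conj_conj, Complex.conj_ofReal]
  ring

/-- quadratic form of `U* T U` -/
theorem quad_form (n : ℕ) (b : ℂ) (w : ℝ → ℝ) (hw : Continuous w) (x : Fin (n + 1) → ℂ) :
    star x ⬝ᵥ (((Um n b).conjTranspose * T (n + 1) w * Um n b).mulVec x) =
      ((∫ θ, ‖∑ k, x k * ph n b k θ‖ ^ 2 * w θ ∂P : ℝ) : ℂ) := by
  have h1 : star x ⬝ᵥ (((Um n b).conjTranspose * T (n + 1) w * Um n b).mulVec x) =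
      star ((Um n b).mulVec x) ⬝ᵥ ((T (n + 1) w).mulVec ((Um n b).mulVec x)) := by
    rw [Matrix.star_mulVec, ← Matrix.mulVec_mulVec, ← Matrix.mulVec_mulVec,
      Matrix.dotProduct_mulVec]
  have h2 : ∀ θ, ∑ k, x k * ph n b k θ = ∑ l : Fin (n + 1), ((Um n b).mulVec x) l * E θ ^ (l : ℕ) := by
    intro θ
    unfold ph
    simp_rw [Finset.mul_sum, Matrix.mulVec, dotProduct, Finset.sum_mul]
    rw [Finset.sum_comm]
    refine Finset.sum_congr rfl fun l _ => Finset.sum_congr rfl fun m _ => ?_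
    ring
  rw [h1, ← integral_complex_ofReal]
  have h3 : ∀ θ : ℝ, ((‖∑ k, x k * ph n b k θ‖ ^ 2 * w θ : ℝ) : ℂ) =
      conj (∑ l : Fin (n + 1), ((Um n b).mulVec x) l * E θ ^ (l : ℕ)) *
        (∑ m : Fin (n + 1), ((Um n b).mulVec x) m * E θ ^ (m : ℕ)) * (w θ : ℂ) := by
    intro θ
    rw [h2, Complex.conj_mul']
    push_cast
    ring
  rw [integral_congr_ae (Filter.Eventually.of_forall h3), quad_sum (n + 1) w hw,
    Finset.sum_comm]
  simp only [dotProduct, Pi.star_apply, Matrix.mulVec, T, Matrix.of_apply, Complex.star_def]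
  refine Finset.sum_congr rfl fun l _ => ?_
  rw [Finset.mul_sum]
  refine Finset.sum_congr rfl fun m _ => ?_
  ring

/-- **The step.** -/
theorem step (n : ℕ) (b : ℂ) (hb : ‖b‖ < 1) (D : Polynomial ℂ) (w : ℝ → ℝ)
    (hw : ∀ θ, w θ = ‖D.eval (E θ)‖ ^ 2) :
    (((1 - ‖b‖ ^ 2) * ‖D.eval (conj b)‖ ^ 2 : ℝ) : ℂ) *
      (T n fun θ => w θ * ‖1 - b * E θ‖ ^ 2).det ≤ (T (n + 1) w).det := by
  have hwc : Continuous w := by
    have : w = fun θ => ‖D.eval (E θ)‖ ^ 2 := funext hw
    rw [this]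
    exact ((D.continuous.comp continuous_E).norm).pow 2
  set M := (Um n b).conjTranspose * T (n + 1) w * Um n b with hM
  have hdet : M.det = (T (n + 1) w).det := by
    rw [hM, Matrix.det_mul, Matrix.det_mul, Matrix.det_conjTranspose, Um_det]
    simp
  have hsub : M.submatrix Fin.castSucc Fin.castSucc = T n fun θ => w θ * ‖1 - b * E θ‖ ^ 2 := by
    ext j k
    rw [Matrix.submatrix_apply, hM, quad_entry n b w hwc]
    simp only [T, Matrix.of_apply, tc]
    congr 1
    funext θ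
    rw [ph_castSucc, ph_castSucc, map_mul, map_pow]
    push_cast
    rw [← Complex.conj_mul']
    ring
  rw [← hdet, ← hsub]
  apply det_last
  refine Matrix.PosSemidef.of_dotProduct_mulVec_nonneg ?_ fun x => ?_
  · refine Matrix.IsHermitian.sub ?_ ?_
    · rw [hM]
      exact Matrix.isHermitian_conjTranspose_mul_mul _ (T_isHermitian _ _)
    · ext i j
      rw [Matrix.conjTranspose_apply]
      by_cases h : i = Fin.last n ∧ j = Fin.last n
      · obtain ⟨rfl, rfl⟩ := h
        rw [Matrix.single_apply_same, Complex.star_def, Complex.conj_ofReal]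
      · rw [Matrix.single_apply_of_ne (h := fun h' => h ⟨h'.1.symm, h'.2.symm⟩),
          Matrix.single_apply_of_ne (h := fun h' => h ⟨h'.2.symm, h'.1.symm⟩)]
        simp
  · rw [Matrix.sub_mulVec, dotProduct_sub, hM, quad_form n b w hwc]
    have e1 : star x ⬝ᵥ ((Matrix.single (Fin.last n) (Fin.last n)
        (((1 - ‖b‖ ^ 2) * ‖D.eval (conj b)‖ ^ 2 : ℝ) : ℂ)).mulVec x) =
        (((1 - ‖b‖ ^ 2) * ‖D.eval (conj b)‖ ^ 2 * ‖x (Fin.last n)‖ ^ 2 : ℝ) : ℂ) := by
      simp only [dotProduct, Matrix.mulVec]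
      rw [Finset.sum_eq_single (Fin.last n)]
      · rw [Finset.sum_eq_single (Fin.last n)]
        · rw [Matrix.single_apply_same, Pi.star_apply, Complex.star_def]
          push_cast
          rw [← Complex.conj_mul' (x (Fin.last n))]
          ring
        · intro m _ hm
          rw [Matrix.single_apply_of_col_ne _ _ (fun h => hm h.symm), zero_mul]
        · intro h
          exact absurd (Finset.mem_univ _) h
      · intro m _ hm
        have : ∑ i, Matrix.single (Fin.last n) (Fin.last n)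
            (((1 - ‖b‖ ^ 2) * ‖D.eval (conj b)‖ ^ 2 : ℝ) : ℂ) m i * x i = 0 := by
          refine Finset.sum_eq_zero fun i _ => ?_
          rw [Matrix.single_apply_of_row_ne (fun h => hm h.symm), zero_mul]
        rw [this, mul_zero]
      · intro h
        exact absurd (Finset.mem_univ _) h
    rw [e1, ← Complex.ofReal_sub]
    rw [← Complex.ofReal_zero, Complex.real_le_real]
    have h2 := point_eval (rev n b x * D) (conj b) (by rwa [RCLike.norm_conj])
    rw [Polynomial.eval_mul, rev_eval_conj, norm_mul, RCLike.norm_conj, RCLike.norm_conj] at h2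
    have h3 : ∀ θ : ℝ, ‖(rev n b x * D).eval (E θ)‖ ^ 2 = ‖∑ k, x k * ph n b k θ‖ ^ 2 * w θ := by
      intro θ
      rw [Polynomial.eval_mul, norm_mul, norm_rev, hw, mul_pow]
    rw [integral_congr_ae (Filter.Eventually.of_forall h3)] at h2
    nlinarith [h2]

end NUA
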