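import Pool.Agent.NUA.SzProd

/-!
Szego's inequality (upper bound in the strong limit theorem, for every `n`):
for every trigonometric polynomial `V = v_0 + 2 Re ∑ v_k z^k`,
`gas n (exp V) ≤ exp (n v_0 + ∑ k |v_k|²)`.
-/

open MeasureTheory Finset Complex Filter Topology
open scoped ComplexOrder ComplexConjugate

namespace NUA

/-! ### monotonicity and bounds of the gas -/

theorem gas_integrable (n : ℕ) (w : ℝ → ℝ) (hw : Integrable w P) :
    Integrable (fun θ : Fin n → ℝ => (∏ i : Fin n, ∏ j ∈ Ioi i, ‖E (θ j) - E (θ i)‖ ^ 2) *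
      ∏ i, w (θ i)) (Measure.pi fun _ => P) := by
  have h1 : Integrable (fun θ : Fin n → ℝ => ∏ i, w (θ i)) (Measure.pi fun _ => P) :=
    Integrable.fintype_prod (f := fun _ x => w x) fun _ => hw
  refine Integrable.bdd_mul (c := ∏ i : Fin n, ∏ j ∈ Ioi i, (2 : ℝ) ^ 2) h1 ?_ ?_
  · apply Continuous.aestronglyMeasurable
    refine continuous_finsetProd _ fun i _ => continuous_finsetProd _ fun j _ => ?_
    exact ((continuous_E.comp (continuous_apply j)).sub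
      (continuous_E.comp (continuous_apply i))).norm.pow 2
  · refine Filter.Eventually.of_forall fun θ => ?_
    rw [Real.norm_eq_abs, abs_of_nonneg (Finset.prod_nonneg fun i _ => Finset.prod_nonneg
      fun j _ => by positivity)]
    refine Finset.prod_le_prod (fun i _ => Finset.prod_nonneg fun j _ => by positivity)
      fun i _ => Finset.prod_le_prod (fun j _ => by positivity) fun j _ => ?_
    refine pow_le_pow_left₀ (norm_nonneg _) ?_ 2
    refine (norm_sub_le _ _).trans ?_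
    rw [norm_E, norm_E]
    norm_num

theorem gas_mono (n : ℕ) (w w' : ℝ → ℝ) (h0 : ∀ θ, 0 ≤ w θ) (h : ∀ θ, w θ ≤ w' θ)
    (hw : Integrable w P) (hw' : Integrable w' P) : gas n w ≤ gas n w' := by
  unfold gas
  refine mul_le_mul_of_nonneg_left ?_ (by positivity)
  refine integral_mono (gas_integrable n w hw) (gas_integrable n w' hw') fun θ => ?_
  refine mul_le_mul_of_nonneg_left ?_ ?_
  · exact Finset.prod_le_prod (fun i _ => h0 _) fun i _ => h _
  · exact Finset.prod_nonneg fun i _ => Finset.prod_nonneg fun j _ => by positivity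

theorem gas_smul (n : ℕ) (c : ℝ) (w : ℝ → ℝ) : gas n (fun θ => c * w θ) = c ^ n * gas n w := by
  unfold gas
  have h : ∀ θ : Fin n → ℝ, (∏ i : Fin n, ∏ j ∈ Ioi i, ‖E (θ j) - E (θ i)‖ ^ 2) *
      ∏ i, (c * w (θ i)) = c ^ n * ((∏ i : Fin n, ∏ j ∈ Ioi i, ‖E (θ j) - E (θ i)‖ ^ 2) *
      ∏ i, w (θ i)) := by
    intro θ
    rw [Finset.prod_mul_distrib, Finset.prod_const, Finset.card_univ, Fintype.card_fin]
    ring
  simp_rw [h]
  rw [integral_const_mul]
  ring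

theorem gas_nonneg (n : ℕ) (w : ℝ → ℝ) (h0 : ∀ θ, 0 ≤ w θ) : 0 ≤ gas n w := by
  unfold gas
  refine mul_nonneg (by positivity) (integral_nonneg fun θ => ?_)
  exact mul_nonneg (Finset.prod_nonneg fun i _ => Finset.prod_nonneg fun j _ => by positivity)
    (Finset.prod_nonneg fun i _ => h0 _)

/-- the product bound for the gas -/
theorem gas_prod {ι : Type*} [DecidableEq ι] (n : ℕ) (b : ι → ℂ) (hb : ∀ i, ‖b i‖ < 1)
    (s : Finset ι) :
    gas n (fun θ => ∏ i ∈ s, ‖1 - b i * E θ‖ ^ 2) ≤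
      Real.exp (∑' r : ℕ, ‖∑ i ∈ s, b i ^ r‖ ^ 2 / r) := by
  have h := prod_bound b hb s n
  rw [prod_exp b hb s] at h
  have hc : Continuous fun θ : ℝ => ∏ i ∈ s, ‖1 - b i * E θ‖ ^ 2 :=
    continuous_finsetProd _ fun i _ =>
      ((continuous_const.sub (continuous_const.mul continuous_E)).norm).pow 2
  rw [← heine n _ (integrable_P hc)] at h
  exact Complex.real_le_real.1 h

/-! ### roots of unity -/

/-- the primitive root -/
noncomputable def om (q : ℕ) : ℂ := Complex.exp (2 * Real.pi * I / q)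

theorem om_prim (q : ℕ) (hq : q ≠ 0) : IsPrimitiveRoot (om q) q :=
  Complex.isPrimitiveRoot_exp q hq

theorem prod_roots (q : ℕ) (hq : q ≠ 0) (x : ℂ) :
    ∏ l : Fin q, (1 - x * om q ^ (l : ℕ)) = 1 - x ^ q := by
  have h := om_prim q hq
  have h1 := h.pow_sub_pow_eq_prod_sub_mul 1 x (Nat.pos_of_ne_zero hq)
  rw [one_pow] at h1
  have h2 : Polynomial.nthRootsFinset q (1 : ℂ) = (range q).image fun l => om q ^ l := by
    ext z
    rw [Polynomial.mem_nthRootsFinset (Nat.pos_of_ne_zero hq), Finset.mem_image]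
    constructor
    · intro hz
      have : NeZero q := ⟨hq⟩
      obtain ⟨i, hi, hiz⟩ := h.eq_pow_of_pow_eq_one hz
      exact ⟨i, Finset.mem_range.2 hi, hiz⟩
    · rintro ⟨i, _, rfl⟩
      rw [← pow_mul, mul_comm, pow_mul, h.pow_eq_one, one_pow]
  rw [h1, h2, Finset.prod_image]
  · rw [Fin.prod_univ_eq_prod_range (fun l => 1 - x * om q ^ l) q]
    refine Finset.prod_congr rfl fun l _ => ?_
    rw [mul_comm]
  · intro i hi j hj hij
    exact h.pow_inj (Finset.mem_range.1 hi) (Finset.mem_range.1 hj) hij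

theorem sum_roots (q : ℕ) (hq : q ≠ 0) (x : ℂ) (r : ℕ) :
    ∑ l : Fin q, (x * om q ^ (l : ℕ)) ^ r = if q ∣ r then (q : ℂ) * (x ^ q) ^ (r / q) else 0 := by
  have h := om_prim q hq
  have e : ∀ l : Fin q, (x * om q ^ (l : ℕ)) ^ r = x ^ r * (om q ^ r) ^ (l : ℕ) := by
    intro l
    rw [mul_pow, ← pow_mul, ← pow_mul, mul_comm (l : ℕ) r]
  simp_rw [e]
  rw [← Finset.mul_sum, Fin.sum_univ_eq_sum_range (fun l => (om q ^ r) ^ l) q]
  split_ifs with hd
  · have h1 : om q ^ r = 1 := (h.pow_eq_one_iff_dvd r).2 hd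
    rw [h1, ← pow_mul, Nat.mul_div_cancel' hd]
    simp [mul_comm]
  · have h1 : om q ^ r ≠ 1 := fun h' => hd ((h.pow_eq_one_iff_dvd r).1 h')
    rw [geom_sum_eq h1, ← pow_mul, mul_comm r q, pow_mul, h.pow_eq_one]
    simp

/-! ### the approximating family -/

/-- index set: `k`, a root of unity of order `k + 1`, a copy -/
abbrev Ix (K M : ℕ) := (Σ k : Fin K, Fin ((k : ℕ) + 1)) × Fin M

/-- the roots -/
noncomputable def bb (K M : ℕ) (v : ℕ → ℂ) (i : Ix K M) : ℂ :=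
  (-(v (i.1.1 + 1)) / M) ^ ((((i.1.1 : ℕ) + 1 : ℕ) : ℂ)⁻¹) * om ((i.1.1 : ℕ) + 1) ^ (i.1.2 : ℕ)

theorem bb_norm (K M : ℕ) (v : ℕ → ℂ) (hM : ∀ k < K, ‖v (k + 1)‖ < M) (i : Ix K M) :
    ‖bb K M v i‖ < 1 := by
  unfold bb
  rw [norm_mul, norm_pow, (om_prim _ (Nat.succ_ne_zero _)).norm'_eq_one (Nat.succ_ne_zero _),
    one_pow, mul_one]
  have h1 := Complex.cpow_nat_inv_pow (-(v (i.1.1 + 1)) / M) (Nat.succ_ne_zero (i.1.1 : ℕ))
  have h2 : ‖(-(v (i.1.1 + 1)) / M : ℂ)‖ < 1 := by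
    rw [norm_div, norm_neg, Complex.norm_natCast]
    have h3 := hM i.1.1 i.1.1.2
    have h4 : (0 : ℝ) < M := lt_of_le_of_lt (norm_nonneg _) h3
    rw [div_lt_one h4]
    exact h3
  rw [← h1, norm_pow] at h2
  exact (pow_lt_one_iff_of_nonneg (norm_nonneg _) (Nat.succ_ne_zero _)).1 h2

theorem bb_prod (K M : ℕ) (v : ℕ → ℂ) (z : ℂ) :
    ∏ i : Ix K M, (1 - bb K M v i * z) = ∏ k : Fin K, (1 + v (k + 1) * z ^ ((k : ℕ) + 1) / M) ^ M := by
  rw [Fintype.prod_prod_type, Fintype.prod_sigma]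
  refine Finset.prod_congr rfl fun k _ => ?_
  simp only [bb, Finset.prod_const, Finset.card_univ, Fintype.card_fin]
  rw [Finset.prod_pow]
  congr 1
  have h := prod_roots ((k : ℕ) + 1) (Nat.succ_ne_zero _)
    ((-(v (k + 1)) / M) ^ ((((k : ℕ) + 1 : ℕ) : ℂ)⁻¹) * z)
  have e : ∀ l : Fin ((k : ℕ) + 1), (1 : ℂ) - (-(v (k + 1)) / M) ^ ((((k : ℕ) + 1 : ℕ) : ℂ)⁻¹) *
      om ((k : ℕ) + 1) ^ (l : ℕ) * z = 1 - (-(v (k + 1)) / M) ^ ((((k : ℕ) + 1 : ℕ) : ℂ)⁻¹) * z *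
      om ((k : ℕ) + 1) ^ (l : ℕ) := fun l => by ring
  simp_rw [e]
  rw [h, mul_pow, Complex.cpow_nat_inv_pow _ (Nat.succ_ne_zero _)]
  ring

theorem bb_sum (K M : ℕ) (v : ℕ → ℂ) (r : ℕ) :
    ∑ i : Ix K M, bb K M v i ^ r = ∑ k : Fin K, if (k : ℕ) + 1 ∣ r then
      (((k : ℕ) + 1 : ℕ) : ℂ) * (M * (-(v (k + 1)) / M) ^ (r / ((k : ℕ) + 1))) else 0 := by
  rw [Fintype.sum_prod_type, Fintype.sum_sigma]
  refine Finset.sum_congr rfl fun k _ => ?_
  simp only [bb, Finset.sum_const, Finset.card_univ, Fintype.card_fin]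
  rw [← Finset.smul_sum, sum_roots _ (Nat.succ_ne_zero _),
    Complex.cpow_nat_inv_pow _ (Nat.succ_ne_zero _), nsmul_eq_mul]
  split_ifs
  · ring
  · simp

/-! ### the limit -/

theorem term_lim (c : ℂ) (s : ℕ) (hs : s ≠ 0) :
    Tendsto (fun M : ℕ => (M : ℂ) * (c / M) ^ s) atTop (𝓝 (if s = 1 then c else 0)) := by
  obtain ⟨t, rfl⟩ : ∃ t, s = t + 1 := ⟨s - 1, by omega⟩
  have h1 : ∀ᶠ M : ℕ in atTop, c ^ (t + 1) * ((M : ℂ)⁻¹) ^ t = (M : ℂ) * (c / M) ^ (t + 1) := by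
    filter_upwards [eventually_gt_atTop 0] with M hM
    have hM' : (M : ℂ) ≠ 0 := by exact_mod_cast hM.ne'
    rw [div_pow, pow_succ (M : ℂ), inv_pow]
    field_simp
  refine Tendsto.congr' h1 ?_
  by_cases ht : t = 0
  · subst ht
    simp
  · rw [if_neg (by omega)]
    have h2 : Tendsto (fun M : ℕ => ((M : ℂ)⁻¹)) atTop (𝓝 0) := by
      rw [tendsto_zero_iff_norm_tendsto_zero]
      simp only [norm_inv, Complex.norm_natCast]
      exact tendsto_inv_atTop_zero.comp tendsto_natCast_atTop_atTop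
    have h3 := (h2.pow t).const_mul (c ^ (t + 1))
    rwa [zero_pow ht, mul_zero] at h3

theorem term_bound (c : ℂ) (B : ℝ) (hB : ‖c‖ ≤ B) (M : ℕ) (hM : 0 < M) (h2 : 2 * B ≤ M) (s : ℕ)
    (hs : s ≠ 0) : ‖(M : ℂ) * (c / M) ^ s‖ ≤ 2 * B * (1 / 2) ^ s := by
  obtain ⟨t, rfl⟩ : ∃ t, s = t + 1 := ⟨s - 1, by omega⟩
  have hM' : (0 : ℝ) < M := by exact_mod_cast hM
  rw [norm_mul, norm_pow, norm_div, Complex.norm_natCast, pow_succ]
  have h3 : ‖c‖ / M ≤ 1 / 2 := by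
    rw [div_le_iff₀ hM']
    linarith
  have h4 : (‖c‖ / M) ^ t ≤ (1 / 2) ^ t := pow_le_pow_left₀ (by positivity) h3 t
  have h5 : (M : ℝ) * ((‖c‖ / M) ^ t * (‖c‖ / M)) = ‖c‖ * (‖c‖ / M) ^ t := by
    field_simp
  rw [h5, pow_succ]
  calc ‖c‖ * (‖c‖ / M) ^ t ≤ B * (1 / 2) ^ t :=
        mul_le_mul hB h4 (by positivity) ((norm_nonneg _).trans hB)
    _ = _ := by ring

/-- the energies converge -/
theorem energy_lim (K : ℕ) (v : ℕ → ℂ) :
    Tendsto (fun M : ℕ => ∑' r : ℕ, ‖∑ i : Ix K M, bb K M v i ^ r‖ ^ 2 / r) atTop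
      (𝓝 (∑ k : Fin K, ((k : ℕ) + 1 : ℝ) * ‖v (k + 1)‖ ^ 2)) := by
  have hg : ∑' r : ℕ, (∑ k : Fin K, if (k : ℕ) + 1 = r then (r : ℝ) * ‖v r‖ ^ 2 else 0) =
      ∑ k : Fin K, ((k : ℕ) + 1 : ℝ) * ‖v (k + 1)‖ ^ 2 := by
    have h : HasSum (fun r : ℕ => ∑ k : Fin K, if (k : ℕ) + 1 = r then (r : ℝ) * ‖v r‖ ^ 2 else 0)
        (∑ k : Fin K, ((k : ℕ) + 1 : ℝ) * ‖v (k + 1)‖ ^ 2) := by
      refine hasSum_sum fun k _ => ?_
      have h1 := hasSum_single (f := fun r : ℕ => if (k : ℕ) + 1 = r then (r : ℝ) * ‖v r‖ ^ 2 else 0)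
        ((k : ℕ) + 1) (fun r hr => if_neg fun h => hr h.symm)
      simpa using h1
    exact h.tsum_eq
  rw [← hg]
  set B : ℝ := ∑ k : Fin K, ‖v (k + 1)‖ with hB
  have hBk : ∀ k : Fin K, ‖v (k + 1)‖ ≤ B := fun k =>
    Finset.single_le_sum (f := fun k : Fin K => ‖v (k + 1)‖) (fun _ _ => norm_nonneg _)
      (Finset.mem_univ k)
  have hB0 : 0 ≤ B := Finset.sum_nonneg fun _ _ => norm_nonneg _
  set ρ : ℝ := (1 / 2 : ℝ) ^ (((K + 1 : ℕ) : ℝ)⁻¹) with hρ
  have hρK : ρ ^ (K + 1) = 1 / 2 := Real.rpow_inv_natCast_pow (by norm_num) (Nat.succ_ne_zero K)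
  have hρ0 : 0 ≤ ρ := Real.rpow_nonneg (by norm_num) _
  have hρ1 : ρ < 1 := by
    by_contra h
    have h1 : 1 ≤ ρ ^ (K + 1) := one_le_pow₀ (not_lt.1 h)
    rw [hρK] at h1
    norm_num at h1
  set C : ℝ := ∑ k : Fin K, ((k : ℕ) + 1 : ℝ) * (2 * B) with hC
  have hC0 : 0 ≤ C := Finset.sum_nonneg fun k _ => by positivity
  have hb : ∀ᶠ M : ℕ in atTop, ∀ r : ℕ, ‖‖∑ i : Ix K M, bb K M v i ^ r‖ ^ 2 / (r : ℝ)‖ ≤
      C ^ 2 * ρ ^ r := by
    filter_upwards [eventually_gt_atTop 0, eventually_ge_atTop ⌈2 * B⌉₊] with M hM0 hM2 r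
    have hM2' : 2 * B ≤ M := (Nat.le_ceil _).trans (by exact_mod_cast hM2)
    rw [Real.norm_of_nonneg (by positivity)]
    rcases Nat.eq_zero_or_pos r with rfl | hr
    · simp only [Nat.cast_zero, div_zero, pow_zero, mul_one]
      positivity
    have h1 : ‖∑ i : Ix K M, bb K M v i ^ r‖ ≤ C * ρ ^ r := by
      rw [bb_sum, hC, Finset.sum_mul]
      refine (norm_sum_le _ _).trans (Finset.sum_le_sum fun k _ => ?_)
      split_ifs with hd
      · rw [norm_mul, Complex.norm_natCast]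
        obtain ⟨s, rfl⟩ := hd
        have hs : s ≠ 0 := by
          rintro rfl
          simp at hr
        rw [Nat.mul_div_cancel_left s (Nat.succ_pos _)]
        have h2 := term_bound (-(v (k + 1))) B (by rw [norm_neg]; exact hBk k) M hM0 hM2' s hs
        have h3 : (1 / 2 : ℝ) ^ s ≤ ρ ^ (((k : ℕ) + 1) * s) := by
          rw [← hρK, ← pow_mul]
          refine pow_le_pow_of_le_one hρ0 hρ1.le (Nat.mul_le_mul_right s ?_)
          exact Nat.succ_le_succ k.2.le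
        calc (((k : ℕ) + 1 : ℕ) : ℝ) * ‖(M : ℂ) * (-(v (k + 1)) / M) ^ s‖
            ≤ (((k : ℕ) + 1 : ℕ) : ℝ) * (2 * B * (1 / 2) ^ s) :=
              mul_le_mul_of_nonneg_left h2 (by positivity)
          _ ≤ (((k : ℕ) + 1 : ℕ) : ℝ) * (2 * B * ρ ^ (((k : ℕ) + 1) * s)) := by
              refine mul_le_mul_of_nonneg_left (mul_le_mul_of_nonneg_left h3 ?_) (by positivity)
              positivity
          _ = _ := by push_cast; ring
      · rw [norm_zero]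
        positivity
    have hr1 : (1 : ℝ) ≤ r := by exact_mod_cast hr
    calc ‖∑ i : Ix K M, bb K M v i ^ r‖ ^ 2 / r ≤ ‖∑ i : Ix K M, bb K M v i ^ r‖ ^ 2 :=
          div_le_self (by positivity) hr1
      _ ≤ (C * ρ ^ r) ^ 2 := pow_le_pow_left₀ (norm_nonneg _) h1 2
      _ = C ^ 2 * (ρ ^ r * ρ ^ r) := by ring
      _ ≤ C ^ 2 * (ρ ^ r * 1) := by
          refine mul_le_mul_of_nonneg_left (mul_le_mul_of_nonneg_left ?_ (by positivity))
            (by positivity)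
          exact pow_le_one₀ hρ0 hρ1.le
      _ = _ := by ring
  refine tendsto_tsum_of_dominated_convergence
    ((summable_geometric_of_lt_one hρ0 hρ1).mul_left (C ^ 2)) ?_ hb
  intro r
  rcases Nat.eq_zero_or_pos r with rfl | hr
  · simp
  have h1 : Tendsto (fun M : ℕ => ∑ i : Ix K M, bb K M v i ^ r) atTop
      (𝓝 (∑ k : Fin K, if (k : ℕ) + 1 = r then -((r : ℂ) * v r) else 0)) := by
    simp_rw [bb_sum]
    refine tendsto_finsetSum _ fun k _ => ?_
    split_ifs with hd he he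
    · subst he
      rw [Nat.div_self (Nat.succ_pos _)]
      have h2 := (term_lim (-(v (k + 1))) 1 one_ne_zero).const_mul ((((k : ℕ) + 1 : ℕ) : ℂ))
      rw [if_pos rfl] at h2
      simpa using h2
    · obtain ⟨s, rfl⟩ := hd
      rw [Nat.mul_div_cancel_left s (Nat.succ_pos _)]
      have hs0 : s ≠ 0 := by
        rintro rfl
        simp at hr
      have hs1 : s ≠ 1 := by
        rintro rfl
        simp at he
      have h2 := (term_lim (-(v (k + 1))) s hs0).const_mul ((((k : ℕ) + 1 : ℕ) : ℂ))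
      rw [if_neg hs1, mul_zero] at h2
      exact h2
    · subst he
      exact absurd (dvd_refl _) hd
    · exact tendsto_const_nhds
  have h2 := ((h1.norm).pow 2).div_const (r : ℝ)
  have h3 : ‖∑ k : Fin K, if (k : ℕ) + 1 = r then -((r : ℂ) * v r) else 0‖ ^ 2 / (r : ℝ) =
      ∑ k : Fin K, if (k : ℕ) + 1 = r then (r : ℝ) * ‖v r‖ ^ 2 else 0 := by
    by_cases hK : ∃ k : Fin K, (k : ℕ) + 1 = r
    · obtain ⟨k, hk⟩ := hK
      have hk' : ∀ j : Fin K, j ≠ k → ¬ ((j : ℕ) + 1 = r) := by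
        intro j hj h
        exact hj (Fin.ext (by omega))
      rw [Finset.sum_eq_single k (fun j _ hj => if_neg (hk' j hj))
        (fun h => absurd (Finset.mem_univ _) h), Finset.sum_eq_single k
        (fun j _ hj => if_neg (hk' j hj)) (fun h => absurd (Finset.mem_univ _) h), if_pos hk,
        if_pos hk, norm_neg, norm_mul, Complex.norm_natCast]
      have hr0 : (r : ℝ) ≠ 0 := by exact_mod_cast hr.ne'
      field_simp
    · push Not at hK
      rw [Finset.sum_eq_zero fun k _ => if_neg (hK k), Finset.sum_eq_zero fun k _ => if_neg (hK k)]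
      simp
  rw [h3] at h2
  exact h2

theorem exp_le (u : ℂ) (M : ℕ) (hM : 0 < M) (hu : 2 * ‖u‖ ≤ M) :
    Real.exp (2 * u.re) ≤ (‖1 + u / M‖ ^ 2) ^ M * Real.exp (2 * ‖u‖ ^ 2 / M) := by
  have hM' : (0 : ℝ) < M := by exact_mod_cast hM
  have hz : ‖u / M‖ ≤ 1 / 2 := by
    rw [norm_div, Complex.norm_natCast, div_le_iff₀ hM']
    linarith
  have h1 := Complex.norm_log_one_add_sub_self_le (z := u / M) (by linarith)
  have h2 : ‖u / M‖ ^ 2 * (1 - ‖u / M‖)⁻¹ / 2 ≤ ‖u / M‖ ^ 2 := by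
    have h3 : (1 - ‖u / M‖)⁻¹ ≤ 2 := by
      rw [inv_le_comm₀ (by linarith) (by norm_num)]
      linarith
    nlinarith [sq_nonneg ‖u / (M : ℂ)‖]
  have h4 : (u / M).re - ‖u / M‖ ^ 2 ≤ Real.log ‖1 + u / M‖ := by
    have h5 := (Complex.abs_re_le_norm (Complex.log (1 + u / M) - u / M)).trans (h1.trans h2)
    rw [Complex.sub_re, Complex.log_re] at h5
    have := (abs_le.1 h5).1
    linarith
  have hpos : 0 < ‖1 + u / M‖ := by
    rw [norm_pos_iff]
    intro h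
    have h6 : u / M = -1 := by linear_combination h
    rw [h6, norm_neg, norm_one] at hz
    norm_num at hz
  have h7 : (‖1 + u / M‖ ^ 2) ^ M = Real.exp (2 * M * Real.log ‖1 + u / M‖) := by
    rw [← pow_mul, ← Real.rpow_natCast, Real.rpow_def_of_pos hpos]
    congr 1
    push_cast
    ring
  rw [h7, ← Real.exp_add]
  refine Real.exp_le_exp.2 ?_
  have h8 : (u / M).re = u.re / M := by
    rw [← Complex.ofReal_natCast, Complex.div_ofReal_re]
  have h9 : ‖u / M‖ ^ 2 = ‖u‖ ^ 2 / M ^ 2 := by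
    rw [norm_div, Complex.norm_natCast, div_pow]
  rw [h8, h9] at h4
  have h10 := mul_le_mul_of_nonneg_left h4 (show (0 : ℝ) ≤ 2 * M by positivity)
  have h11 : 2 * (M : ℝ) * (u.re / M - ‖u‖ ^ 2 / M ^ 2) = 2 * u.re - 2 * ‖u‖ ^ 2 / M := by
    field_simp
  linarith

/-- Szego's inequality for trigonometric polynomials without constant term -/
theorem szego_trig0 (n K : ℕ) (v : ℕ → ℂ) :
    gas n (fun θ => Real.exp (∑ k : Fin K, 2 * (v (k + 1) * E θ ^ ((k : ℕ) + 1)).re)) ≤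
      Real.exp (∑ k : Fin K, ((k : ℕ) + 1 : ℝ) * ‖v (k + 1)‖ ^ 2) := by
  set S : ℝ := ∑ k : Fin K, ‖v (k + 1)‖ ^ 2 with hS
  set B : ℝ := ∑ k : Fin K, ‖v (k + 1)‖ with hB
  have hBk : ∀ k : Fin K, ‖v (k + 1)‖ ≤ B := fun k =>
    Finset.single_le_sum (f := fun k : Fin K => ‖v (k + 1)‖) (fun _ _ => norm_nonneg _)
      (Finset.mem_univ k)
  have hlim : Tendsto (fun M : ℕ => Real.exp (n * (2 * S / M) +
      ∑' r : ℕ, ‖∑ i : Ix K M, bb K M v i ^ r‖ ^ 2 / r)) atTop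
      (𝓝 (Real.exp (n * 0 + ∑ k : Fin K, ((k : ℕ) + 1 : ℝ) * ‖v (k + 1)‖ ^ 2))) := by
    refine (Real.continuous_exp.tendsto _).comp (Tendsto.add (Tendsto.const_mul _ ?_)
      (energy_lim K v))
    exact tendsto_const_nhds.div_atTop tendsto_natCast_atTop_atTop
  rw [mul_zero, zero_add] at hlim
  refine ge_of_tendsto hlim ?_
  filter_upwards [eventually_gt_atTop 0, eventually_ge_atTop (⌈2 * B⌉₊ + 1)] with M hM0 hM2
  have hM2' : 2 * B < M := by
    have h1 : ((⌈2 * B⌉₊ + 1 : ℕ) : ℝ) ≤ M := by exact_mod_cast hM2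
    push_cast at h1
    have h2 := Nat.le_ceil (2 * B)
    linarith
  have hB0 : 0 ≤ B := Finset.sum_nonneg fun _ _ => norm_nonneg _
  have hcw : Continuous fun θ : ℝ =>
      Real.exp (∑ k : Fin K, 2 * (v (k + 1) * E θ ^ ((k : ℕ) + 1)).re) := by
    refine Real.continuous_exp.comp (continuous_finsetSum _ fun k _ => ?_)
    exact continuous_const.mul (Complex.continuous_re.comp
      (continuous_const.mul (continuous_E.pow _)))
  have hcb : Continuous fun θ : ℝ => ∏ i : Ix K M, ‖1 - bb K M v i * E θ‖ ^ 2 :=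
    continuous_finsetProd _ fun i _ =>
      ((continuous_const.sub (continuous_const.mul continuous_E)).norm).pow 2
  have hpt : ∀ θ : ℝ, Real.exp (∑ k : Fin K, 2 * (v (k + 1) * E θ ^ ((k : ℕ) + 1)).re) ≤
      Real.exp (2 * S / M) * ∏ i : Ix K M, ‖1 - bb K M v i * E θ‖ ^ 2 := by
    intro θ
    have e1 : ∏ i : Ix K M, ‖1 - bb K M v i * E θ‖ ^ 2 =
        ∏ k : Fin K, (‖1 + v (k + 1) * E θ ^ ((k : ℕ) + 1) / M‖ ^ 2) ^ M := by
      rw [Finset.prod_pow, ← norm_prod, bb_prod, norm_prod, ← Finset.prod_pow]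
      refine Finset.prod_congr rfl fun k _ => ?_
      rw [norm_pow, ← pow_mul, ← pow_mul, Nat.mul_comm M 2]
    have e2 : Real.exp (2 * S / M) =
        ∏ k : Fin K, Real.exp (2 * ‖v (k + 1) * E θ ^ ((k : ℕ) + 1)‖ ^ 2 / M) := by
      rw [← Real.exp_sum]
      congr 1
      rw [hS, Finset.mul_sum, Finset.sum_div]
      refine Finset.sum_congr rfl fun k _ => ?_
      rw [norm_mul, norm_pow, norm_E, one_pow, mul_one]
    rw [e1, e2, Real.exp_sum, ← Finset.prod_mul_distrib]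
    refine Finset.prod_le_prod (fun k _ => (Real.exp_pos _).le) fun k _ => ?_
    rw [mul_comm (Real.exp _)]
    refine exp_le _ M hM0 ?_
    rw [norm_mul, norm_pow, norm_E, one_pow, mul_one]
    have := hBk k
    linarith
  calc gas n (fun θ => Real.exp (∑ k : Fin K, 2 * (v (k + 1) * E θ ^ ((k : ℕ) + 1)).re))
      ≤ gas n (fun θ => Real.exp (2 * S / M) * ∏ i : Ix K M, ‖1 - bb K M v i * E θ‖ ^ 2) :=
        gas_mono n _ _ (fun θ => (Real.exp_pos _).le) hpt (integrable_P hcw)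
          (integrable_P (continuous_const.mul hcb))
    _ = Real.exp (2 * S / M) ^ n * gas n (fun θ => ∏ i : Ix K M, ‖1 - bb K M v i * E θ‖ ^ 2) :=
        gas_smul n _ _
    _ ≤ Real.exp (2 * S / M) ^ n * Real.exp (∑' r : ℕ, ‖∑ i : Ix K M, bb K M v i ^ r‖ ^ 2 / r) := by
        refine mul_le_mul_of_nonneg_left ?_ (by positivity)
        refine gas_prod n (bb K M v) (bb_norm K M v fun k hk => ?_) Finset.univ
        have := hBk ⟨k, hk⟩
        simp only at this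
        linarith
    _ = _ := by
        rw [← Real.exp_nat_mul, ← Real.exp_add]

/-- **Szego's inequality**: for a real trigonometric polynomial `V = v_0 + 2 Re ∑ v_k z^k` and
every `n`, `D_n(e^V) ≤ exp (n v_0 + ∑ k |v_k|²)` -/
theorem szego_trig (n K : ℕ) (v0 : ℝ) (v : ℕ → ℂ) :
    gas n (fun θ => Real.exp (v0 + ∑ k : Fin K, 2 * (v (k + 1) * E θ ^ ((k : ℕ) + 1)).re)) ≤
      Real.exp (n * v0 + ∑ k : Fin K, ((k : ℕ) + 1 : ℝ) * ‖v (k + 1)‖ ^ 2) := by
  have h := szego_trig0 n K v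
  have e : ∀ θ : ℝ, Real.exp (v0 + ∑ k : Fin K, 2 * (v (k + 1) * E θ ^ ((k : ℕ) + 1)).re) =
      Real.exp v0 * Real.exp (∑ k : Fin K, 2 * (v (k + 1) * E θ ^ ((k : ℕ) + 1)).re) :=
    fun θ => Real.exp_add _ _
  simp_rw [e]
  rw [gas_smul, Real.exp_add, ← Real.exp_nat_mul]
  exact mul_le_mul_of_nonneg_left h (by positivity)

end NUA
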