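import Mathlib

/-!
Vitali type theorem (limit zero) for eventually locally bounded families of holomorphic functions,
and the bound of a logarithmic derivative by the logarithm of the modulus.
-/

open Filter Topology Metric Set Complex

namespace NUA

variable {ι : Type*} {l : Filter ι}

/-- `c` is an accumulation point of `S`. -/
def Acc (S : Set ℂ) (c : ℂ) : Prop := ∀ δ > (0 : ℝ), ∃ z ∈ S, z ≠ c ∧ dist z c < δ

lemma lip {f : ℂ → ℂ} {c : ℂ} {R C : ℝ}
    (hb : ∀ z ∈ ball c R, ‖f z‖ ≤ C) (hR : 0 < R) :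
    MapsTo f (ball c R) (closedBall (f c) (2 * C)) := by
  intro z hz
  rw [mem_closedBall, dist_eq_norm]
  calc ‖f z - f c‖ ≤ ‖f z‖ + ‖f c‖ := norm_sub_le _ _
    _ ≤ C + C := add_le_add (hb z hz) (hb c (mem_ball_self hR))
    _ = 2 * C := by ring

lemma center_tendsto {f : ι → ℂ → ℂ} {c : ℂ} {R C : ℝ} (hR : 0 < R)
    (hd : ∀ᶠ m in l, DifferentiableOn ℂ (f m) (ball c R))
    (hb : ∀ᶠ m in l, ∀ z ∈ ball c R, ‖f m z‖ ≤ C)
    {S : Set ℂ} (hS : Acc S c) (h0 : ∀ z ∈ S, Tendsto (fun m => f m z) l (𝓝 0)) :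
    Tendsto (fun m => f m c) l (𝓝 0) := by
  rw [Metric.tendsto_nhds]
  intro ε hε
  set C' : ℝ := |C| + 1 with hC'
  have hC'0 : 0 < C' := by positivity
  set δ : ℝ := min R (ε * R / (4 * C')) with hδ
  have hδ0 : 0 < δ := by
    apply lt_min hR
    positivity
  obtain ⟨z, hzS, hzc, hzd⟩ := hS δ hδ0
  have hzR : z ∈ ball c R := lt_of_lt_of_le hzd (min_le_left _ _)
  have hz2 : dist z c < ε * R / (4 * C') := lt_of_lt_of_le hzd (min_le_right _ _)
  have h1 := h0 z hzS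
  rw [Metric.tendsto_nhds] at h1
  filter_upwards [hd, hb, h1 (ε / 2) (half_pos hε)] with m hdm hbm hm
  have hb' : ∀ w ∈ ball c R, ‖f m w‖ ≤ C' := fun w hw =>
    (hbm w hw).trans (by rw [hC']; linarith [le_abs_self C])
  have h2 := dist_le_div_mul_dist_of_mapsTo_ball hdm (lip hb' hR) hzR
  have h3 : 2 * C' / R * dist z c < ε / 2 := by
    calc 2 * C' / R * dist z c < 2 * C' / R * (ε * R / (4 * C')) := by
          apply mul_lt_mul_of_pos_left hz2
          positivity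
      _ = ε / 2 := by
          field_simp
          ring
  have h4 : dist (f m c) 0 ≤ dist (f m z) (f m c) + dist (f m z) 0 := by
    rw [dist_comm (f m z) (f m c)]
    exact dist_triangle _ _ _
  linarith

lemma dslope_bound {f : ℂ → ℂ} {c : ℂ} {R C : ℝ} (hR : 0 < R)
    (hd : DifferentiableOn ℂ f (ball c R)) (hb : ∀ z ∈ ball c R, ‖f z‖ ≤ C) :
    DifferentiableOn ℂ (dslope f c) (ball c R) ∧
      ∀ z ∈ ball c R, ‖dslope f c z‖ ≤ 2 * C / R := by
  refine ⟨(Complex.differentiableOn_dslope (ball_mem_nhds c hR)).2 hd, fun z hz => ?_⟩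
  exact norm_dslope_le_div_of_mapsTo_ball hd (lip hb hR) hz

lemma dslope_tendsto {f : ι → ℂ → ℂ} {c : ℂ}
    (hc : Tendsto (fun m => f m c) l (𝓝 0)) {z : ℂ} (hz : z ≠ c)
    (h0 : Tendsto (fun m => f m z) l (𝓝 0)) :
    Tendsto (fun m => dslope (f m) c z) l (𝓝 0) := by
  have h1 : (fun m => dslope (f m) c z) = fun m => (z - c)⁻¹ * (f m z - f m c) := by
    funext m
    rw [dslope_of_ne _ hz, slope_def_module, smul_eq_mul]
  rw [h1]
  simpa using (h0.sub hc).const_mul ((z - c)⁻¹)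

lemma acc_diff {S : Set ℂ} {c : ℂ} (hS : Acc S c) : Acc (S \ {c}) c := by
  intro δ hδ
  obtain ⟨z, hz, hzc, hzd⟩ := hS δ hδ
  exact ⟨z, ⟨hz, by simpa using hzc⟩, hzc, hzd⟩

lemma approx (c : ℂ) {R : ℝ} (hR : 0 < R) (N : ℕ) : ∀ (f : ι → ℂ → ℂ) (C : ℝ),
    (∀ᶠ m in l, DifferentiableOn ℂ (f m) (ball c R)) →
    (∀ᶠ m in l, ∀ z ∈ ball c R, ‖f m z‖ ≤ C) →
    (∃ S : Set ℂ, Acc S c ∧ ∀ z ∈ S, Tendsto (fun m => f m z) l (𝓝 0)) →
    ∀ z ∈ ball c R, ∀ ε > (0 : ℝ), ∀ᶠ m in l, ‖f m z‖ ≤ ε + C * (2 * ‖z - c‖ / R) ^ N := by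
  induction N with
  | zero =>
    intro f C _ hb _ z hz ε hε
    filter_upwards [hb] with m hm
    have := hm z hz
    simp only [pow_zero, mul_one]
    linarith
  | succ N ih =>
    intro f C hd hb hS z hz ε hε
    obtain ⟨S, hS, h0⟩ := hS
    have hcent := center_tendsto hR hd hb hS h0
    have hd' : ∀ᶠ m in l, DifferentiableOn ℂ (dslope (f m) c) (ball c R) := by
      filter_upwards [hd, hb] with m h1 h2
      exact (dslope_bound hR h1 h2).1
    have hb' : ∀ᶠ m in l, ∀ z ∈ ball c R, ‖dslope (f m) c z‖ ≤ 2 * C / R := by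
      filter_upwards [hd, hb] with m h1 h2
      exact (dslope_bound hR h1 h2).2
    have hI := ih (fun m => dslope (f m) c) (2 * C / R) hd' hb'
      ⟨S \ {c}, acc_diff hS, fun z hz => dslope_tendsto hcent (by simpa using hz.2) (h0 z hz.1)⟩
      z hz (ε / (2 * (‖z - c‖ + 1))) (by positivity)
    rw [Metric.tendsto_nhds] at hcent
    filter_upwards [hI, hcent (ε / 2) (half_pos hε)] with m hm1 hm2
    have h1 : f m z = f m c + (z - c) * dslope (f m) c z := by
      by_cases h : z = c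
      · subst h
        simp
      · rw [dslope_of_ne _ h, slope_def_module, smul_eq_mul]
        field_simp [sub_ne_zero.2 h]
        ring
    have h2 : ‖f m z‖ ≤ ‖f m c‖ + ‖z - c‖ * ‖dslope (f m) c z‖ := by
      rw [h1]
      refine (norm_add_le _ _).trans ?_
      rw [norm_mul]
    have h3 : ‖f m c‖ < ε / 2 := by simpa using hm2
    have h4 : ‖z - c‖ * (ε / (2 * (‖z - c‖ + 1))) ≤ ε / 2 := by
      rw [mul_div_assoc']
      rw [div_le_div_iff₀ (by positivity) (by norm_num)]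
      nlinarith [norm_nonneg (z - c), hε]
    have h5 : ‖z - c‖ * ‖dslope (f m) c z‖ ≤
        ‖z - c‖ * (ε / (2 * (‖z - c‖ + 1)) + 2 * C / R * (2 * ‖z - c‖ / R) ^ N) :=
      mul_le_mul_of_nonneg_left hm1 (norm_nonneg _)
    have h6 : ‖z - c‖ * (2 * C / R * (2 * ‖z - c‖ / R) ^ N) = C * (2 * ‖z - c‖ / R) ^ (N + 1) := by
      rw [pow_succ]
      field_simp
    rw [mul_add, h6] at h5
    linarith

/-- **Local Vitali.** -/
lemma ball_tendsto {f : ι → ℂ → ℂ} {c : ℂ} {R C : ℝ} (hR : 0 < R)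
    (hd : ∀ᶠ m in l, DifferentiableOn ℂ (f m) (ball c R))
    (hb : ∀ᶠ m in l, ∀ z ∈ ball c R, ‖f m z‖ ≤ C)
    {S : Set ℂ} (hS : Acc S c) (h0 : ∀ z ∈ S, Tendsto (fun m => f m z) l (𝓝 0)) :
    ∀ z ∈ ball c (R / 2), Tendsto (fun m => f m z) l (𝓝 0) := by
  intro z hz
  have hzR : z ∈ ball c R := ball_subset_ball (by linarith) hz
  rw [Metric.tendsto_nhds]
  intro ε hε
  have hq0 : 0 ≤ 2 * ‖z - c‖ / R := by positivity
  have hq1 : 2 * ‖z - c‖ / R < 1 := by
    rw [div_lt_one hR]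
    rw [mem_ball, dist_eq_norm] at hz
    linarith
  have h1 : Tendsto (fun N : ℕ => C * (2 * ‖z - c‖ / R) ^ N) atTop (𝓝 0) := by
    simpa using (tendsto_pow_atTop_nhds_zero_of_lt_one hq0 hq1).const_mul C
  obtain ⟨N, hN⟩ := ((tendsto_order.1 h1).2 (ε / 2) (half_pos hε)).exists
  filter_upwards [approx c hR N f C hd hb ⟨S, hS, h0⟩ z hzR (ε / 4) (by positivity)] with m hm
  rw [dist_zero_right]
  linarith

/-- the derivative at the centre -/
lemma deriv_tendsto {f : ι → ℂ → ℂ} {c : ℂ} {R C : ℝ} (hR : 0 < R)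
    (hd : ∀ᶠ m in l, DifferentiableOn ℂ (f m) (ball c R))
    (hb : ∀ᶠ m in l, ∀ z ∈ ball c R, ‖f m z‖ ≤ C)
    {S : Set ℂ} (hS : Acc S c) (h0 : ∀ z ∈ S, Tendsto (fun m => f m z) l (𝓝 0)) :
    Tendsto (fun m => deriv (f m) c) l (𝓝 0) := by
  have hcent := center_tendsto hR hd hb hS h0
  have hd' : ∀ᶠ m in l, DifferentiableOn ℂ (dslope (f m) c) (ball c R) := by
    filter_upwards [hd, hb] with m h1 h2
    exact (dslope_bound hR h1 h2).1
  have hb' : ∀ᶠ m in l, ∀ z ∈ ball c R, ‖dslope (f m) c z‖ ≤ 2 * C / R := by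
    filter_upwards [hd, hb] with m h1 h2
    exact (dslope_bound hR h1 h2).2
  have := center_tendsto hR hd' hb' (acc_diff hS)
    (fun z hz => dslope_tendsto hcent (by simpa using hz.2) (h0 z hz.1))
  simpa using this

/-- **Vitali's theorem, limit zero.** -/
theorem vitali_zero {U : Set ℂ} (hc : IsPreconnected U) {f : ι → ℂ → ℂ}
    (hf : ∀ c ∈ U, ∃ R > (0 : ℝ), ∃ C : ℝ, ∀ᶠ m in l,
      DifferentiableOn ℂ (f m) (ball c R) ∧ ∀ z ∈ ball c R, ‖f m z‖ ≤ C)
    {c₀ : ℂ} (hc₀ : c₀ ∈ U) {S : Set ℂ} (hS : Acc S c₀)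
    (h0 : ∀ z ∈ S, Tendsto (fun m => f m z) l (𝓝 0)) :
    ∀ z ∈ U, Tendsto (fun m => f m z) l (𝓝 0) := by
  set u : Set ℂ := {c | ∃ ρ > (0 : ℝ), ∀ z ∈ ball c ρ, Tendsto (fun m => f m z) l (𝓝 0)} with hu
  have hopen : IsOpen u := by
    rw [Metric.isOpen_iff]
    rintro c ⟨ρ, hρ, h⟩
    refine ⟨ρ, hρ, fun c' hc' => ⟨ρ - dist c' c, sub_pos.2 hc', fun z hz => h z ?_⟩⟩
    rw [mem_ball] at hz ⊢
    linarith [dist_triangle z c' c]
  have key : ∀ c ∈ U, ∀ S : Set ℂ, Acc S c → (∀ z ∈ S, Tendsto (fun m => f m z) l (𝓝 0)) →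
      c ∈ u := by
    intro c hcU S hS h0
    obtain ⟨R, hR, C, h⟩ := hf c hcU
    exact ⟨R / 2, half_pos hR, ball_tendsto hR (h.mono fun m hm => hm.1)
      (h.mono fun m hm => hm.2) hS h0⟩
  have hsub : U ⊆ u := by
    apply hc.subset_of_closure_inter_subset hopen ⟨c₀, hc₀, key c₀ hc₀ S hS h0⟩
    rintro c ⟨hcu, hcU⟩
    apply key c hcU {z | Tendsto (fun m => f m z) l (𝓝 0)} _ (fun z hz => hz)
    intro δ hδ
    rw [Metric.mem_closure_iff] at hcu
    obtain ⟨c', ⟨ρ, hρ, hc'⟩, hd⟩ := hcu δ hδ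
    by_cases h : c' = c
    · subst h
      set s : ℝ := min (ρ / 2) (δ / 2) with hs
      have hs0 : 0 < s := lt_min (half_pos hρ) (half_pos hδ)
      have hnorm : dist (c' + (s : ℂ)) c' = s := by
        rw [dist_eq_norm, add_sub_cancel_left, Complex.norm_real, Real.norm_eq_abs,
          abs_of_pos hs0]
      refine ⟨c' + (s : ℂ), hc' _ ?_, ?_, ?_⟩
      · rw [mem_ball, hnorm]
        linarith [min_le_left (ρ / 2) (δ / 2)]
      · intro h
        have : (s : ℂ) = 0 := by simpa using h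
        exact hs0.ne' (by exact_mod_cast this)
      · rw [hnorm]
        linarith [min_le_right (ρ / 2) (δ / 2)]
    · exact ⟨c', hc' _ (mem_ball_self hρ), h, by rwa [dist_comm]⟩
  intro z hz
  obtain ⟨ρ, hρ, h⟩ := hsub hz
  exact h z (mem_ball_self hρ)

/-- primitive of the logarithmic derivative, bound of its real part -/
lemma logderiv_center {φ : ℂ → ℂ} {c : ℂ} {R K : ℝ} (hR : 0 < R) (hK : 0 < K)
    (hd : DifferentiableOn ℂ φ (ball c R)) (h0 : ∀ z ∈ ball c R, φ z ≠ 0)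
    (hb : ∀ z ∈ ball c R, |Real.log ‖φ z‖| ≤ K) : ‖deriv φ c / φ c‖ ≤ 4 * K / R := by
  have hopen : IsOpen (ball c R) := isOpen_ball
  have hdd : DifferentiableOn ℂ (fun z => deriv φ z / φ z) (ball c R) :=
    (hd.deriv hopen).div hd h0
  obtain ⟨ψ, hψc, hψ⟩ := (hdd.isExactOn_ball).with_val_at c 0
  -- φ = φ c * exp ψ
  have hconst : ∀ z ∈ ball c R, φ z * Complex.exp (-ψ z) = φ c := by
    intro z hz
    have hder : ∀ w ∈ ball c R, HasDerivAt (fun w => φ w * Complex.exp (-ψ w)) 0 w := by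
      intro w hw
      have h1 : HasDerivAt φ (deriv φ w) w :=
        ((hd w hw).differentiableAt (hopen.mem_nhds hw)).hasDerivAt
      have h2 := h1.mul ((hψ w hw).neg.cexp)
      have h3 : φ w * (deriv φ w / φ w) = deriv φ w := mul_div_cancel₀ _ (h0 w hw)
      have h4 : deriv φ w * Complex.exp (-ψ w) +
          φ w * (Complex.exp (-ψ w) * -(deriv φ w / φ w)) = 0 := by
        linear_combination (-Complex.exp (-ψ w)) * h3
      rw [← h4]
      exact h2
    have hcv : Convex ℝ (ball c R) := convex_ball c R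
    have := hcv.is_const_of_fderivWithin_eq_zero (𝕜 := ℂ) (f := fun w => φ w * Complex.exp (-ψ w))
      (fun w hw => (hder w hw).differentiableAt.differentiableWithinAt)
      (fun w hw => by
        rw [fderivWithin_of_isOpen hopen hw]
        have := (hder w hw).hasFDerivAt.fderiv
        rw [this]
        ext
        simp) hz (mem_ball_self hR)
    simpa [hψc] using this
  have hre : ∀ z ∈ ball c R, (ψ z).re = Real.log ‖φ z‖ - Real.log ‖φ c‖ := by
    intro z hz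
    have h1 := hconst z hz
    have h2 : ‖φ z‖ * Real.exp (-(ψ z).re) = ‖φ c‖ := by
      rw [← h1, norm_mul, Complex.norm_exp]
      simp
    have hz0 : 0 < ‖φ z‖ := norm_pos_iff.2 (h0 z hz)
    rw [← h2, Real.log_mul hz0.ne' (Real.exp_ne_zero _), Real.log_exp]
    ring
  set g : ℂ → ℂ := fun w => ψ (c + w) with hg
  have hmem : ∀ w ∈ ball (0 : ℂ) R, c + w ∈ ball c R := by
    intro w hw
    rw [mem_ball, dist_eq_norm, add_sub_cancel_left]
    simpa using hw
  have hgd : DifferentiableOn ℂ g (ball 0 R) := by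
    intro w hw
    have h1 := hψ (c + w) (hmem w hw)
    have h2 : HasDerivAt g (deriv φ (c + w) / φ (c + w)) w := h1.comp_const_add c w
    exact h2.differentiableAt.differentiableWithinAt
  have hgre : MapsTo g (ball 0 R) {z | z.re ≤ 2 * K} := by
    intro w hw
    have h1 := hre _ (hmem w hw)
    have h2 := abs_le.1 (hb _ (hmem w hw))
    have h3 := abs_le.1 (hb c (mem_ball_self hR))
    show (g w).re ≤ 2 * K
    rw [hg]
    simp only
    rw [h1]
    linarith [h2.2, h3.1]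
  have hg0 : g 0 = 0 := by simp [hg, hψc]
  have hbc : ∀ w ∈ ball (0 : ℂ) R, ‖g w‖ ≤ 2 * (2 * K) * ‖w‖ / (R - ‖w‖) := fun w hw =>
    borelCaratheodory_zero (by positivity) hgd hgre hR hw hg0
  have hg' : HasDerivAt g (deriv φ c / φ c) 0 := by
    have h1 := hψ c (mem_ball_self hR)
    have h2 : HasDerivAt ψ (deriv φ c / φ c) (c + 0) := by simpa using h1
    exact h2.comp_const_add c 0
  have hlim : Tendsto (fun w => ‖slope g 0 w‖) (𝓝[≠] 0) (𝓝 ‖deriv φ c / φ c‖) :=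
    (hasDerivAt_iff_tendsto_slope.1 hg').norm
  have hlim2 : Tendsto (fun w : ℂ => 4 * K / (R - ‖w‖)) (𝓝[≠] 0) (𝓝 (4 * K / R)) := by
    have h1 : Tendsto (fun w : ℂ => 4 * K / (R - ‖w‖)) (𝓝 0) (𝓝 (4 * K / (R - ‖(0 : ℂ)‖))) := by
      apply Tendsto.div tendsto_const_nhds
      · exact tendsto_const_nhds.sub (continuous_norm.tendsto 0)
      · simpa using hR.ne'
    simpa using h1.mono_left nhdsWithin_le_nhds
  have : (𝓝[≠] (0 : ℂ)).NeBot := inferInstance
  refine le_of_tendsto_of_tendsto hlim hlim2 ?_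
  have h1 : ∀ᶠ w in 𝓝[≠] (0 : ℂ), w ∈ ball (0 : ℂ) R :=
    nhdsWithin_le_nhds (ball_mem_nhds 0 hR)
  filter_upwards [h1, self_mem_nhdsWithin] with w hw hw0
  have hw0' : w ≠ 0 := hw0
  have hwn : 0 < ‖w‖ := norm_pos_iff.2 hw0'
  have hwR : ‖w‖ < R := by simpa using hw
  rw [slope_def_module, hg0, sub_zero, sub_zero, norm_smul, norm_inv]
  rw [inv_mul_le_iff₀ hwn]
  refine (hbc w hw).trans (le_of_eq ?_)
  have : R - ‖w‖ ≠ 0 := by linarith
  field_simp
  ring

lemma logderiv_bound {φ : ℂ → ℂ} {c : ℂ} {R K : ℝ} (hR : 0 < R) (hK : 0 < K)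
    (hd : DifferentiableOn ℂ φ (ball c R)) (h0 : ∀ z ∈ ball c R, φ z ≠ 0)
    (hb : ∀ z ∈ ball c R, |Real.log ‖φ z‖| ≤ K) :
    DifferentiableOn ℂ (fun z => deriv φ z / φ z) (ball c (R / 2)) ∧
      ∀ z ∈ ball c (R / 2), ‖deriv φ z / φ z‖ ≤ 8 * K / R := by
  have hsub : ball c (R / 2) ⊆ ball c R := ball_subset_ball (by linarith)
  refine ⟨((hd.deriv isOpen_ball).div hd h0).mono hsub, fun z hz => ?_⟩
  have hsub2 : ball z (R / 2) ⊆ ball c R := by
    intro w hw
    rw [mem_ball] at hw hz ⊢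
    linarith [dist_triangle w z c]
  have := logderiv_center (half_pos hR) hK (hd.mono hsub2) (fun w hw => h0 w (hsub2 hw))
    (fun w hw => hb w (hsub2 hw))
  refine this.trans (le_of_eq ?_)
  field_simp
  ring

end NUA
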