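import Pool.Agent.NUA.NFExp
import Pool.Agent.NUA.LevW
import Pool.Agent.PLD.P1
import Pool.Agent.NUN.Strip

/-!
# The total weight of the polygons around a face

`WW Ω` = total weight of the oriented polygons of `Ω` around the face `f0`.
-/

set_option autoImplicit false

open Filter Topology

namespace NUA

open NUI Pool.Agent.NUF HexObs HexObs.LP Pool.Agent.ZF

/-- the total weight of the oriented polygons around `f0` in `Ω`. -/
noncomputable def WW (Ω : Finset Pt) : ℝ := ∑ E ∈ Pool.Agent.NUN.pf f0 Ω, xc ^ E.card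

theorem Fc_f0 : Fc f0 := by
  unfold Fc
  decide

theorem Ball_f0 (s : ℕ) : Ball f0 s = HexObs.LP.PP s s := by
  ext v
  rw [mem_Ball Fc_f0, mem_PP]
  have h1 : lv f0 = 1 := by decide
  have h2 : nn f0 = 1 := by decide
  rw [h1, h2]

theorem sum_pg (Ω : Finset Pt) : ∑ E ∈ pg f0 Ω, wP E = WW Ω := by
  unfold WW
  exact sum_wP _ _ rfl

theorem WW_mono {Ω Ω' : Finset Pt} (h : Ω ⊆ Ω') : WW Ω ≤ WW Ω' := by
  rw [← sum_pg, ← sum_pg]
  exact Finset.sum_le_sum_of_subset_of_nonneg (pg_mono h) fun E _ _ => wP_nonneg E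

theorem NF_Zf (x : ℝ) (Ω : Finset Pt) :
    NF x Ω f0 = Zf (fun E : Pg => x / 2 * wP E) (pg f0 Ω) := by
  rw [NF_eq_NUN, NF_eq_Zf]
  rfl

/-- **lower half**: the gas is at most the exponential of the total weight. -/
theorem NF_le_exp {x : ℝ} (hx : 0 ≤ x) (Ω : Finset Pt) : NF x Ω f0 ≤ Real.exp (x / 2 * WW Ω) := by
  rw [NF_Zf, ← sum_pg, Finset.mul_sum]
  exact Pool.Agent.NUA.exp_up (fun l => mul_nonneg (by linarith) (wP_nonneg l)) _

/-- **upper half**: the total weight against the gas. -/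
theorem WW_block : ∃ (s0 R : ℕ) (C0 : ℝ), 1 ≤ s0 ∧ 2 ≤ R ∧ 0 ≤ C0 ∧ ∀ (m n : ℕ) (δ : ℝ), 0 < δ →
    WW (HexObs.LP.PP (rad s0 R (m * n)) (rad s0 R (m * n))) ≤
      Real.log (NF (2 * δ) (HexObs.LP.PP (rad s0 R (m * n)) (rad s0 R (m * n))) f0) / δ + C0 * m +
        δ * (n * C0) ^ 2 * m / 2 := by
  obtain ⟨s0, R, c, hs0, hR, hc, hring'⟩ := ring_Ball
  have hring : ∀ (f : Pt), Fc f → ∀ i : ℕ, c ≤ ∑ E ∈ shell (BB f s0 R) i, wP E := fun f hf i => hring' f hf i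
  obtain ⟨C0, hC0, hcr⟩ := CrossC_of_TwoC PLD.twoC_all s0 R
  refine ⟨s0, R, C0, hs0, hR, hC0, fun m n δ hδ => ?_⟩
  have L := lev_hex (by omega) hring hC0 hcr Fc_f0 (m * n)
  have h := Pool.Agent.NUA.block L hδ
  have e1 : BB f0 s0 R (m * n) = pg f0 (HexObs.LP.PP (rad s0 R (m * n)) (rad s0 R (m * n))) := by
    unfold BB
    rw [Ball_f0]
  rw [e1, sum_pg] at h
  rw [NF_Zf, mul_div_cancel_left₀ δ (two_ne_zero' ℝ)]
  exact h

end NUA
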