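import Pool.Agent.NUA.W1

/-!
# The total weight of the polygons around a face is asymptotic to `log T / (3 π)` (both orientations)
-/

set_option autoImplicit false

open Filter Topology

namespace NUA

open NUI Pool.Agent.NUF HexObs HexObs.LP Pool.Agent.ZF

lemma hT_phi (φ : ℝ) : hT (Real.pi / 2 - φ) = cA * (Real.pi * φ - φ ^ 2) := by
  unfold hT
  ring

lemma cA_w0 : cA * Real.pi / 2 = 1 / (3 * Real.pi) := by
  unfold cA
  have := Real.pi_pos
  field_simp

lemma phi_low {φ : ℝ} (h0 : 0 < φ) (h1 : φ ≤ 1) :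
    Real.sin φ * (1 / (3 * Real.pi) - cA * φ / 2) ≤ hT (Real.pi / 2 - φ) / 2 := by
  have hs : Real.sin φ ≤ φ := Real.sin_le h0.le
  have hpi := Real.pi_gt_three
  have hc := cA_pos
  rw [hT_phi, ← cA_w0]
  have e1 : Real.sin φ * (cA * Real.pi / 2 - cA * φ / 2) = cA * (Real.pi - φ) / 2 * Real.sin φ := by ring
  have e2 : cA * (Real.pi * φ - φ ^ 2) / 2 = cA * (Real.pi - φ) / 2 * φ := by ring
  rw [e1, e2]
  apply mul_le_mul_of_nonneg_left hs
  have : 0 ≤ Real.pi - φ := by linarith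
  positivity

lemma phi_up {φ : ℝ} (h0 : 0 < φ) (h1 : φ ≤ 1) :
    hT (Real.pi / 2 - φ) / 2 ≤ Real.sin φ * (1 / (3 * Real.pi) + φ ^ 2) := by
  have hs : φ - φ ^ 3 / 4 < Real.sin φ := by
    have := Real.sin_gt_sub_cube h0
    have := pow_pos h0 3
    linarith
  have hpi := Real.pi_gt_three
  have hc := cA_pos
  have hw : 1 / (3 * Real.pi) ≤ 1 / 9 := by
    apply one_div_le_one_div_of_le (by norm_num)
    linarith
  have hw0 : 0 < 1 / (3 * Real.pi) := by positivity
  rw [hT_phi]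
  have e1 : cA * (Real.pi * φ - φ ^ 2) / 2 ≤ 1 / (3 * Real.pi) * φ := by
    rw [← cA_w0]
    have : 0 ≤ cA * φ ^ 2 / 2 := by positivity
    linarith
  refine e1.trans ?_
  have e2 : (φ - φ ^ 3 / 4) * (1 / (3 * Real.pi) + φ ^ 2) ≤ Real.sin φ * (1 / (3 * Real.pi) + φ ^ 2) :=
    mul_le_mul_of_nonneg_right hs.le (by positivity)
  refine le_trans ?_ e2
  have e3 : (φ - φ ^ 3 / 4) * (1 / (3 * Real.pi) + φ ^ 2) =
      1 / (3 * Real.pi) * φ + φ ^ 3 * (1 - 1 / (3 * Real.pi) / 4 - φ ^ 2 / 4) := by ring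
  rw [e3]
  have e4 : 0 ≤ 1 - 1 / (3 * Real.pi) / 4 - φ ^ 2 / 4 := by nlinarith
  have : 0 ≤ φ ^ 3 * (1 - 1 / (3 * Real.pi) / 4 - φ ^ 2 / 4) := by positivity
  linarith

lemma two_cos (φ : ℝ) : 2 * Real.cos (Real.pi / 2 - φ) = 2 * Real.sin φ := by
  rw [Real.cos_pi_div_two_sub]

/-- **The lower half.** -/
theorem WW_lower (h : Target) {η : ℝ} (hη : 0 < η) :
    ∀ᶠ T : ℕ in atTop, Real.log T * (1 / (3 * Real.pi) - η) ≤ WW (HexObs.LP.PP T T) := by
  have hpi := Real.pi_gt_three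
  have hc := cA_pos
  obtain ⟨φ, hφ0, hφ1, hφ2⟩ : ∃ φ : ℝ, 0 < φ ∧ φ ≤ 1 ∧ cA * φ ≤ η := by
    refine ⟨min 1 (η / cA), lt_min one_pos (by positivity), min_le_left _ _, ?_⟩
    calc cA * min 1 (η / cA) ≤ cA * (η / cA) := mul_le_mul_of_nonneg_left (min_le_right _ _) hc.le
      _ = η := by field_simp
  have hδ : 0 < Real.sin φ := Real.sin_pos_of_pos_of_lt_pi hφ0 (by linarith)
  have hNF := NF_low h (θ := Real.pi / 2 - φ) (by linarith) (by linarith) (ε := Real.sin φ * (η / 2))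
    (by positivity)
  filter_upwards [hNF, eventually_ge_atTop 1] with T hT1 hT2
  rw [two_cos] at hT1
  have hL : 0 ≤ Real.log T := Real.log_nonneg (by exact_mod_cast hT2)
  have h1 := hT1.trans (NF_le_exp (x := 2 * Real.sin φ) (by positivity) _)
  rw [Real.exp_le_exp, mul_div_cancel_left₀ _ (two_ne_zero' ℝ)] at h1
  have h2 := phi_low hφ0 hφ1
  have h3 : Real.sin φ * (Real.log T * (1 / (3 * Real.pi) - η)) ≤
      Real.log T * (hT (Real.pi / 2 - φ) / 2 - Real.sin φ * (η / 2)) := by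
    have e : Real.sin φ * (Real.log T * (1 / (3 * Real.pi) - η)) =
      Real.log T * (Real.sin φ * (1 / (3 * Real.pi) - η)) := by ring
    rw [e]
    apply mul_le_mul_of_nonneg_left _ hL
    have h4 : Real.sin φ * (cA * φ / 2) ≤ Real.sin φ * (η / 2) :=
      mul_le_mul_of_nonneg_left (by linarith) hδ.le
    have h5 : Real.sin φ * (1 / (3 * Real.pi) - η) =
      Real.sin φ * (1 / (3 * Real.pi) - cA * φ / 2) + Real.sin φ * (cA * φ / 2) - Real.sin φ * η := by ring
    rw [h5]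
    linarith
  exact le_of_mul_le_mul_left (h3.trans h1) hδ

/-- **The upper half.** -/
theorem WW_upper (h : Target) {η : ℝ} (hη : 0 < η) :
    ∀ᶠ T : ℕ in atTop, WW (HexObs.LP.PP T T) ≤ Real.log T * (1 / (3 * Real.pi) + η) := by
  have hpi := Real.pi_gt_three
  have hw0 : 0 < 1 / (3 * Real.pi) := by positivity
  obtain ⟨s0, R, C0, hs0, hR, hC0, hW⟩ := WW_block
  have hR0 : (0 : ℝ) < R := by exact_mod_cast (by omega : 0 < R)
  have hlR : 0 < Real.log R := Real.log_pos (by exact_mod_cast (by omega : 1 < R))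
  -- n
  obtain ⟨n, hn1, hn2⟩ : ∃ n : ℕ, 1 ≤ n ∧ C0 ≤ η / 4 * (n * Real.log R) := by
    obtain ⟨n, hn⟩ := exists_nat_ge (max 1 (C0 / (η / 4 * Real.log R)))
    refine ⟨n, by exact_mod_cast (le_max_left _ _).trans hn, ?_⟩
    have h1 := (le_max_right _ _).trans hn
    rw [div_le_iff₀ (by positivity)] at h1
    linarith
  have hn0 : (0 : ℝ) < n := by exact_mod_cast hn1
  -- φ
  obtain ⟨φ, hφ0, hφ1, hφ2, hφ3⟩ : ∃ φ : ℝ, 0 < φ ∧ φ ≤ 1 ∧ φ ^ 2 ≤ η / 8 ∧
      φ * (n * C0 ^ 2) ≤ η / 2 * Real.log R := by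
    refine ⟨min 1 (min (η / 8) (η / 2 * Real.log R / (n * C0 ^ 2 + 1))), ?_, min_le_left _ _, ?_, ?_⟩
    · exact lt_min one_pos (lt_min (by positivity) (by positivity))
    · have h1 : min 1 (min (η / 8) (η / 2 * Real.log R / (n * C0 ^ 2 + 1))) ≤ 1 := min_le_left _ _
      have h2 : min 1 (min (η / 8) (η / 2 * Real.log R / (n * C0 ^ 2 + 1))) ≤ η / 8 :=
        (min_le_right _ _).trans (min_le_left _ _)
      have h3 : 0 ≤ min 1 (min (η / 8) (η / 2 * Real.log R / (n * C0 ^ 2 + 1))) :=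
        le_min zero_le_one (le_min (by positivity) (by positivity))
      nlinarith
    · have h2 : min 1 (min (η / 8) (η / 2 * Real.log R / (n * C0 ^ 2 + 1))) ≤
          η / 2 * Real.log R / (n * C0 ^ 2 + 1) := (min_le_right _ _).trans (min_le_right _ _)
      have h3 : (0 : ℝ) ≤ n * C0 ^ 2 := by positivity
      have h4 : 0 ≤ min 1 (min (η / 8) (η / 2 * Real.log R / (n * C0 ^ 2 + 1))) :=
        le_min zero_le_one (le_min (by positivity) (by positivity))
      calc min 1 (min (η / 8) (η / 2 * Real.log R / (n * C0 ^ 2 + 1))) * (n * C0 ^ 2)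
          ≤ η / 2 * Real.log R / (n * C0 ^ 2 + 1) * (n * C0 ^ 2 + 1) :=
            mul_le_mul h2 (by linarith) h3 (by positivity)
        _ = _ := by field_simp
  obtain ⟨δ, hδd⟩ : ∃ δ : ℝ, δ = Real.sin φ := ⟨_, rfl⟩
  have hδ : 0 < δ := by rw [hδd]; exact Real.sin_pos_of_pos_of_lt_pi hφ0 (by linarith)
  have hδφ : δ ≤ φ := by rw [hδd]; exact Real.sin_le hφ0.le
  have hNF := NF_up h (θ := Real.pi / 2 - φ) (by linarith) (by linarith) (ε := δ * (η / 8))
    (by positivity)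
  rw [two_cos, ← hδd] at hNF
  obtain ⟨r0, hr0⟩ := eventually_atTop.1 hNF
  -- constants
  obtain ⟨K1, hK1⟩ : ∃ K1 : ℝ, K1 = Real.log (s0 * (R : ℝ) ^ n) := ⟨_, rfl⟩
  obtain ⟨K2, hK2⟩ : ∃ K2 : ℝ, K2 = (1 / n + 1) * (C0 + δ * (n * C0) ^ 2 / 2) := ⟨_, rfl⟩
  filter_upwards [eventually_ge_atTop (max 2 r0),
    log_ge ((K1 * (1 / (3 * Real.pi) + η / 4) + K2) * (4 / η))] with T hT1 hTL
  have hT2 : 2 ≤ T := (le_max_left _ _).trans hT1
  have hT3 : r0 ≤ T := (le_max_right _ _).trans hT1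
  have hT0 : (0 : ℝ) < T := by exact_mod_cast (by omega : 0 < T)
  have hTlog : 0 ≤ Real.log T := Real.log_nonneg (by exact_mod_cast (by omega : 1 ≤ T))
  obtain ⟨q, hq⟩ : ∃ q, q = Nat.clog R T := ⟨_, rfl⟩
  have hq1 : T ≤ R ^ q := by rw [hq]; exact Nat.le_pow_clog (by omega) _
  have hq0 : 1 ≤ q := by
    rw [hq]
    exact Nat.clog_pos (by omega) (by omega)
  have hq2 : R ^ (q - 1) < T := by
    rw [hq]
    exact Nat.pow_pred_clog_lt_self (by omega) (by omega)
  obtain ⟨m, hm⟩ : ∃ m, m = q / n + 1 := ⟨_, rfl⟩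
  have hmn : q + 1 ≤ m * n := by
    have h1 := Nat.lt_div_mul_add (a := q) (show 0 < n by omega)
    rw [hm, add_mul, one_mul]
    omega
  have hmn2 : m * n ≤ q + n := by
    rw [hm, add_mul, one_mul]
    have := Nat.div_mul_le_self q n
    omega
  obtain ⟨r, hr⟩ : ∃ r, r = rad s0 R (m * n) := ⟨_, rfl⟩
  have hr1 : r = s0 * R ^ (m * n - 1) := by
    rw [hr]
    obtain ⟨i, hi⟩ : ∃ i, m * n = i + 1 := ⟨m * n - 1, by omega⟩
    rw [hi]
    rfl
  have hTr : T ≤ r := by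
    rw [hr1]
    calc T ≤ R ^ q := hq1
      _ ≤ R ^ (m * n - 1) := Nat.pow_le_pow_right (by omega) (by omega)
      _ ≤ s0 * R ^ (m * n - 1) := Nat.le_mul_of_pos_left _ (by omega)
  have hr2 : (r : ℝ) ≤ T * (s0 * (R : ℝ) ^ n) := by
    have h1 : r ≤ T * (s0 * R ^ n) := by
      rw [hr1]
      calc s0 * R ^ (m * n - 1) ≤ s0 * R ^ ((q - 1) + n) :=
            Nat.mul_le_mul_left _ (Nat.pow_le_pow_right (by omega) (by omega))
        _ = R ^ (q - 1) * (s0 * R ^ n) := by rw [pow_add]; ring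
        _ ≤ T * (s0 * R ^ n) := Nat.mul_le_mul_right _ hq2.le
    exact_mod_cast h1
  have hr0' : (0 : ℝ) < r := by exact_mod_cast (by omega : 0 < r)
  have hs0R : (0 : ℝ) < s0 * (R : ℝ) ^ n := by
    have : (0 : ℝ) < s0 := by exact_mod_cast (by omega : 0 < s0)
    positivity
  have hlr : Real.log r ≤ Real.log T + K1 := by
    rw [hK1, ← Real.log_mul hT0.ne' hs0R.ne']
    exact Real.log_le_log hr0' hr2
  have hm1 : (m : ℝ) ≤ (Real.log T / Real.log R + 1) / n + 1 := by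
    have h1 : ((q : ℝ) - 1) * Real.log R ≤ Real.log T := by
      have h2 : (R : ℝ) ^ (q - 1) ≤ T := by exact_mod_cast hq2.le
      have h3 := Real.log_le_log (by positivity) h2
      rw [Real.log_pow, Nat.cast_sub hq0, Nat.cast_one] at h3
      exact h3
    have h2 : (q : ℝ) ≤ Real.log T / Real.log R + 1 := by
      have : (q : ℝ) - 1 ≤ Real.log T / Real.log R := by
        rw [le_div_iff₀ hlR]
        exact h1
      linarith
    have h3 : ((q / n : ℕ) : ℝ) ≤ (q : ℝ) / n := Nat.cast_div_le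
    rw [hm]
    push_cast
    have h4 : (q : ℝ) / n ≤ (Real.log T / Real.log R + 1) / n := by gcongr
    linarith
  -- the main estimate
  have h1 := hW m n δ hδ
  rw [← hr] at h1
  have h2 := hr0 r (hT3.trans hTr) r
  have hNF1 : (1 : ℝ) ≤ NF (2 * δ) (HexObs.LP.PP r r) f0 := one_le_NF (by positivity) _ _
  have h3 : Real.log (NF (2 * δ) (HexObs.LP.PP r r) f0) ≤ Real.log r * (hT (Real.pi / 2 - φ) / 2 + δ * (η / 8)) := by
    have := Real.log_le_log (by linarith) h2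
    rwa [Real.log_exp] at this
  have h4 := phi_up hφ0 hφ1
  rw [← hδd] at h4
  have hlr0 : 0 ≤ Real.log r := Real.log_nonneg (by exact_mod_cast (by omega : 1 ≤ r))
  have h5 : Real.log (NF (2 * δ) (HexObs.LP.PP r r) f0) / δ ≤ (Real.log T + K1) * (1 / (3 * Real.pi) + η / 4) := by
    rw [div_le_iff₀ hδ]
    refine h3.trans ?_
    have h6 : hT (Real.pi / 2 - φ) / 2 + δ * (η / 8) ≤ (1 / (3 * Real.pi) + η / 4) * δ := by
      have : δ * φ ^ 2 ≤ δ * (η / 8) := mul_le_mul_of_nonneg_left hφ2 hδ.le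
      linarith
    calc Real.log r * (hT (Real.pi / 2 - φ) / 2 + δ * (η / 8)) ≤
          Real.log r * ((1 / (3 * Real.pi) + η / 4) * δ) := mul_le_mul_of_nonneg_left h6 hlr0
      _ ≤ (Real.log T + K1) * ((1 / (3 * Real.pi) + η / 4) * δ) :=
          mul_le_mul_of_nonneg_right hlr (by positivity)
      _ = _ := by ring
  have hX : 0 ≤ C0 + δ * (n * C0) ^ 2 / 2 := by positivity
  have h7 : C0 * m + δ * (n * C0) ^ 2 * m / 2 ≤ Real.log T * (η / 2) + K2 := by
    have e1 : C0 * m + δ * (n * C0) ^ 2 * m / 2 = m * (C0 + δ * (n * C0) ^ 2 / 2) := by ring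
    rw [e1]
    refine (mul_le_mul_of_nonneg_right hm1 hX).trans ?_
    have e2 : ((Real.log T / Real.log R + 1) / n + 1) * (C0 + δ * (n * C0) ^ 2 / 2) =
        Real.log T * ((C0 + δ * (n * C0) ^ 2 / 2) / (n * Real.log R)) + K2 := by
      rw [hK2]
      field_simp
      ring
    rw [e2]
    have h8 : (C0 + δ * (n * C0) ^ 2 / 2) / (n * Real.log R) ≤ η / 2 := by
      rw [div_le_iff₀ (by positivity)]
      have h9 : δ * (n * C0 ^ 2) ≤ η / 2 * Real.log R :=
        (mul_le_mul_of_nonneg_right hδφ (by positivity)).trans hφ3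
      have h10 : δ * (n * C0) ^ 2 / 2 = (δ * (n * C0 ^ 2)) * n / 2 := by ring
      rw [h10]
      have h11 := mul_le_mul_of_nonneg_right h9 hn0.le
      linarith
    have := mul_le_mul_of_nonneg_left h8 hTlog
    linarith
  have h12 : WW (HexObs.LP.PP T T) ≤ WW (HexObs.LP.PP r r) := WW_mono (PP_mono hTr hTr)
  have h13 : (K1 * (1 / (3 * Real.pi) + η / 4) + K2) ≤ Real.log T * (η / 4) := by
    have h14 : (K1 * (1 / (3 * Real.pi) + η / 4) + K2) * (4 / η) * (η / 4) =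
      (K1 * (1 / (3 * Real.pi) + η / 4) + K2) := by
      field_simp
    have := mul_le_mul_of_nonneg_right hTL (by positivity : 0 ≤ η / 4)
    linarith
  have h15 : Real.log T * (1 / (3 * Real.pi) + η) = Real.log T * (1 / (3 * Real.pi) + η / 4) +
      Real.log T * (η / 2) + Real.log T * (η / 4) := by ring
  have h16 : (Real.log T + K1) * (1 / (3 * Real.pi) + η / 4) =
      Real.log T * (1 / (3 * Real.pi) + η / 4) + K1 * (1 / (3 * Real.pi) + η / 4) := by ring
  rw [h16] at h5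
  linarith

/-- **The total weight of the polygons around a face.** -/
theorem WW_lim (h : Target) :
    Tendsto (fun T : ℕ => WW (HexObs.LP.PP T T) / Real.log T) atTop (𝓝 (1 / (3 * Real.pi))) := by
  rw [Metric.tendsto_nhds]
  intro η hη
  filter_upwards [WW_lower h (half_pos hη), WW_upper h (half_pos hη), eventually_ge_atTop 2] with T h1 h2 hT
  have hL : 0 < Real.log T := Real.log_pos (by exact_mod_cast (by omega : 1 < T))
  rw [Real.dist_eq, abs_lt]
  constructor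
  · have : 1 / (3 * Real.pi) - η / 2 ≤ WW (HexObs.LP.PP T T) / Real.log T := by
      rw [le_div_iff₀ hL]
      linarith
    linarith
  · have : WW (HexObs.LP.PP T T) / Real.log T ≤ 1 / (3 * Real.pi) + η / 2 := by
      rw [div_le_iff₀ hL]
      linarith
    linarith

end NUA
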