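import Pool.Agent.NUA.ChainT
import Pool.Agent.NUI.Fin2

/-!
# The partition function of the sphere lattice for every loop weight `2 cos θ`, from (CR)

`cA = 2 / (3 π²)`, `hT θ = cA (π² / 4 - θ²)` = the exponent.
-/

open Filter Topology Polynomial

namespace NUA

open NUI Pool.Agent.NUF

/-- the coefficient. -/
noncomputable def cA : ℝ := 2 / (3 * Real.pi ^ 2)

lemma cA_pos : 0 < cA := by unfold cA; positivity

/-- the exponent of the loop weight `2 cos θ`. -/
noncomputable def hT (θ : ℝ) : ℝ := cA * (Real.pi ^ 2 / 4 - θ ^ 2)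

lemma cA_pi : cA * (Real.pi ^ 2 / 4) = 1 / 6 := by
  unfold cA
  field_simp; norm_num

/-- the relative weights. -/
noncomputable def kA (n : ℕ) : ℝ := W0 n / Real.exp (qA * (n : ℝ) ^ 2 + qB * n)

lemma kA_pos (n : ℕ) : 0 < kA n := div_pos (W0_pos n) (Real.exp_pos _)

lemma ZP_zero (n : ℕ) : (ZP n).eval 0 = 1 := by
  have h1 := ZP_eq 0 n
  have h2 : ZZ 0 n = 1 := div_self (Wd_ne n)
  rw [h2] at h1
  have h3 : aeval (0 : ℂ) (ZP n) = (((ZP n).eval 0 : ℝ) : ℂ) := by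
    simpa using (Polynomial.aeval_algebraMap_apply ℂ (0 : ℝ) (ZP n))
  rw [h3] at h1
  exact_mod_cast h1.symm

lemma aeval_real (P : ℝ[X]) (x : ℝ) : aeval (x : ℂ) P = ((P.eval x : ℝ) : ℂ) := by
  simpa using (Polynomial.aeval_algebraMap_apply ℂ x P)

lemma norm_ZZ {x : ℝ} (hx : 0 ≤ x) (n : ℕ) : ‖ZZ (x : ℂ) n‖ = (ZP n).eval x := by
  rw [ZP_eq, aeval_real, Complex.norm_real, Real.norm_of_nonneg (eval_nonneg' (ZP_nonneg n) hx)]

lemma kA_low (ε : ℝ) (hε : 0 < ε) :
    ∀ᶠ m : ℕ in atTop, Real.exp ((3 / 8 - cA * (Real.pi ^ 2 / 4) - ε) * Real.log m) ≤ kA m := by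
  have h := kappa_low ε hε
  have e : (3 / 8 : ℝ) - cA * (Real.pi ^ 2 / 4) - ε = 5 / 24 - ε := by rw [cA_pi]; ring
  simpa only [e, kA] using h

lemma cosh_thI (θ : ℝ) : 2 * Complex.cosh (θ * Complex.I) = ((2 * Real.cos θ : ℝ) : ℂ) := by
  rw [Complex.cosh_mul_I, ← Complex.ofReal_cos]
  push_cast
  ring

lemma sq_thI (θ : ℝ) : (((θ : ℂ) * Complex.I) ^ 2).re = -θ ^ 2 := by
  rw [mul_pow, Complex.I_sq, ← Complex.ofReal_pow, mul_neg_one, Complex.neg_re, Complex.ofReal_re]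

/-- the sum over the numbers of rows near `m`, from above. -/
lemma SS_up (h : Target) {θ : ℝ} (h0 : 0 ≤ θ) (h1 : θ ≤ Real.pi / 2) {ε : ℝ} (hε : 0 < ε) :
    ∀ᶠ m : ℕ in atTop, (SS kA ZP m).eval (2 * Real.cos θ) ≤
      Real.exp (Real.log m * (3 / 8 - cA * θ ^ 2 + ε)) := by
  have hpi := Real.pi_lt_d2
  filter_upwards [CF (c := cA) (R := 17 / 10) (κ := kA) cA_pos le_rfl (growth_of_CR h) hε] with m hm
  have hn : ‖(θ : ℂ) * Complex.I‖ ≤ 17 / 10 := by
    rw [norm_mul, Complex.norm_I, mul_one, Complex.norm_real, Real.norm_of_nonneg h0]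
    linarith
  have h2 := hm (θ * Complex.I) hn
  have hcos : 0 ≤ Real.cos θ := Real.cos_nonneg_of_neg_pi_div_two_le_of_le (by linarith [Real.pi_pos]) h1
  rw [cosh_thI, aeval_real, Complex.norm_real,
    Real.norm_of_nonneg (eval_nonneg' (SS_coeff kA_pos ZP_nonneg m) (by positivity)), sq_thI] at h2
  refine h2.trans (le_of_eq ?_)
  congr 1
  ring

/-- **The partition function from above.** -/
theorem ZP_up (h : Target) {θ : ℝ} (h0 : 0 ≤ θ) (h1 : θ ≤ Real.pi / 2) {ε : ℝ} (hε : 0 < ε) :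
    ∀ᶠ m : ℕ in atTop, (ZP m).eval (2 * Real.cos θ) ≤ Real.exp (Real.log m * (hT θ + ε)) := by
  have hcos : 0 ≤ Real.cos θ := Real.cos_nonneg_of_neg_pi_div_two_le_of_le (by linarith [Real.pi_pos]) h1
  filter_upwards [SS_up h h0 h1 (half_pos hε), kA_low (ε / 2) (half_pos hε), NN_le_self] with m hm hκ hNN
  rw [SS_eval] at hm
  have hmem : NN m ∈ Finset.range (2 * NN m + 1) := by
    rw [Finset.mem_range]; omega
  have h2 := Finset.single_le_sum
    (f := fun i => wt m i * kA (m - NN m + i) * (ZP (m - NN m + i)).eval (2 * Real.cos θ))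
    (fun i _ => mul_nonneg (mul_nonneg (wt_pos m i).le (kA_pos _).le)
      (eval_nonneg' (ZP_nonneg _) (by positivity))) hmem
  have h3 : wt m (NN m) = 1 := by
    unfold wt
    simp
  rw [h3, one_mul, Nat.sub_add_cancel hNN] at h2
  have h4 := h2.trans hm
  have h5 : 0 ≤ (ZP m).eval (2 * Real.cos θ) := eval_nonneg' (ZP_nonneg _) (by positivity)
  have h6 := (mul_le_mul_of_nonneg_right hκ h5).trans h4
  have h7 := Real.exp_pos ((3 / 8 - cA * (Real.pi ^ 2 / 4) - ε / 2) * Real.log m)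
  rw [mul_comm, ← le_div_iff₀ h7, ← Real.exp_sub] at h6
  refine h6.trans (le_of_eq ?_)
  congr 1
  unfold hT
  ring

/-- **The partition function from below**, some number of rows near every `m`. -/
theorem ZP_low (h : Target) {θ : ℝ} (h0 : 0 ≤ θ) (h1 : θ < Real.pi / 2) {ε : ℝ} (hε : 0 < ε) :
    ∀ᶠ m : ℕ in atTop, ∃ J : ℕ, m ≤ J + NN m ∧ J ≤ m + NN m ∧
      Real.exp (Real.log m * (hT θ - ε)) ≤ (ZP J).eval (2 * Real.cos θ) := by
  have hpi := Real.pi_lt_d2
  obtain ⟨ε1, hε1, hchain⟩ := chainT (c := cA) (R := 17 / 10) (δ := ε / 2) cA_pos (by linarith)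
    (half_pos hε) h0 h1
  obtain ⟨e0, he0⟩ : ∃ e0 : ℝ, e0 = min ε1 (ε / 4) := ⟨_, rfl⟩
  have he0p : 0 < e0 := by rw [he0]; exact lt_min hε1 (by linarith)
  have he1 : e0 ≤ ε1 := by rw [he0]; exact min_le_left _ _
  have he2 : e0 ≤ ε / 4 := by rw [he0]; exact min_le_right _ _
  have hcos : 0 ≤ Real.cos θ :=
    Real.cos_nonneg_of_neg_pi_div_two_le_of_le (by linarith [Real.pi_pos]) h1.le
  filter_upwards [CF (c := cA) (R := 17 / 10) (κ := kA) cA_pos le_rfl (growth_of_CR h) he0p,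
    kA_low e0 he0p, NN_le_self, log_ge 1,
    SS_up h (θ := Real.pi / 2) (by linarith [Real.pi_pos]) le_rfl he0p] with m hCF hκm hNN hL1 hS0
  obtain ⟨L, hLd⟩ : ∃ L, L = Real.log m := ⟨_, rfl⟩
  rw [← hLd] at hCF hκm hL1 hS0 ⊢
  have hLp : 0 < L := by linarith
  have hScoef := SS_coeff kA_pos ZP_nonneg m
  have hS0e : (SS kA ZP m).eval 0 = ∑ i ∈ Finset.range (2 * NN m + 1), wt m i * kA (m - NN m + i) := by
    rw [SS_eval]
    apply Finset.sum_congr rfl
    intro i _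
    rw [ZP_zero, mul_one]
  have hS0low : Real.exp (L * (3 / 8 - cA * (Real.pi ^ 2 / 4) - e0)) ≤ (SS kA ZP m).eval 0 := by
    rw [hS0e]
    have hmem : NN m ∈ Finset.range (2 * NN m + 1) := by
      rw [Finset.mem_range]; omega
    have h1 := Finset.single_le_sum (f := fun i => wt m i * kA (m - NN m + i))
      (fun i _ => mul_nonneg (wt_pos m i).le (kA_pos _).le) hmem
    refine le_trans ?_ h1
    have h2 : wt m (NN m) = 1 := by
      unfold wt
      simp
    rw [h2, one_mul, Nat.sub_add_cancel hNN, mul_comm]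
    exact hκm
  have hS2 : Real.exp (L * (3 / 8 - cA * θ ^ 2 - ε / 2)) ≤ (SS kA ZP m).eval (2 * Real.cos θ) := by
    apply hchain (3 / 8) L hLp _ hScoef
    · intro b hb
      refine (hCF b hb).trans ?_
      apply Real.exp_le_exp.mpr
      apply mul_le_mul_of_nonneg_left _ hLp.le
      linarith
    · refine le_trans ?_ hS0low
      apply Real.exp_le_exp.mpr
      apply mul_le_mul_of_nonneg_left _ hLp.le
      linarith
  rw [Real.cos_pi_div_two, mul_zero] at hS0
  by_contra hcon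
  push Not at hcon
  have h8 : (SS kA ZP m).eval (2 * Real.cos θ) ≤
      Real.exp (L * (hT θ - ε)) * (SS kA ZP m).eval 0 := by
    rw [SS_eval, hS0e, Finset.mul_sum]
    refine Finset.sum_le_sum fun i hi => ?_
    rw [Finset.mem_range] at hi
    have h9 := hcon (m - NN m + i) (by omega) (by omega)
    have h10 : 0 ≤ wt m i * kA (m - NN m + i) := mul_nonneg (wt_pos _ _).le (kA_pos _).le
    calc wt m i * kA (m - NN m + i) * (ZP (m - NN m + i)).eval (2 * Real.cos θ)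
        ≤ wt m i * kA (m - NN m + i) * Real.exp (L * (hT θ - ε)) :=
          mul_le_mul_of_nonneg_left h9.le h10
      _ = _ := by ring
  have h11 : Real.exp (L * (3 / 8 - cA * θ ^ 2 - ε / 2)) ≤
      Real.exp (L * (hT θ - ε)) * Real.exp (L * (3 / 8 - cA * (Real.pi / 2) ^ 2 + e0)) :=
    hS2.trans (h8.trans (mul_le_mul_of_nonneg_left hS0 (Real.exp_pos _).le))
  rw [← Real.exp_add, Real.exp_le_exp] at h11
  have h12 : L * (hT θ - ε) + L * (3 / 8 - cA * (Real.pi / 2) ^ 2 + e0) =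
      L * (3 / 8 - cA * θ ^ 2 - ε + e0) := by
    unfold hT
    ring
  rw [h12] at h11
  have h13 := le_of_mul_le_mul_left h11 hLp
  linarith

end NUA
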